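import Pool.Agent.MP_b2c033_nt.H87.Spec

/-! A Bloch-Landau type bound with an explicit constant. -/

namespace Pool.Agent.MP_b2c033_nt.H87

open Filter Metric Set
open scoped Topology

namespace A1x

theorem disc (G : ℂ → ℂ) (a : ℂ) (s M : ℝ) (hs : 0 < s) (hM : 0 < M)
    (hG : DifferentiableOn ℂ G (ball a s)) (ha : ‖deriv G a‖ = M)
    (hb : ∀ q ∈ ball a s, ‖deriv G q‖ ≤ 2 * M) :
    ball (G a) (M * s / 24) ⊆ G '' ball a s := by
  have hG' : DifferentiableOn ℂ (deriv G) (ball a s) := hG.deriv isOpen_ball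
  have hmaps : MapsTo (deriv G) (ball a s) (closedBall (deriv G a) (3 * M)) := by
    intro q hq
    rw [mem_closedBall, dist_eq_norm]
    have h1 := norm_sub_le (deriv G q) (deriv G a)
    have h2 := hb q hq
    linarith
  have hsub : closedBall a (s / 6) ⊆ ball a s := closedBall_subset_ball (by linarith)
  have hclose : ∀ q ∈ closedBall a (s / 6), ‖deriv G q - deriv G a‖ ≤ M / 2 := by
    intro q hq
    have h1 := Complex.dist_le_div_mul_dist_of_mapsTo_ball hG' hmaps (hsub hq)
    rw [dist_eq_norm] at h1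
    have h2 : 3 * M / s * dist q a ≤ 3 * M / s * (s / 6) :=
      mul_le_mul_of_nonneg_left (mem_closedBall.1 hq) (by positivity)
    have h3 : 3 * M / s * (s / 6) = M / 2 := by
      field_simp
      ring
    linarith
  have hlow : ∀ q ∈ closedBall a (s / 6), M / 2 * ‖q - a‖ ≤ ‖G q - G a‖ := by
    intro q hq
    have hd : ∀ z ∈ closedBall a (s / 6), HasDerivWithinAt (fun z => G z - deriv G a * z)
        (deriv G z - deriv G a) (closedBall a (s / 6)) z := by
      intro z hz
      have h1 : HasDerivAt G (deriv G z) z :=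
        (hG.differentiableAt (isOpen_ball.mem_nhds (hsub hz))).hasDerivAt
      have h2 : HasDerivAt (fun z => deriv G a * z) (deriv G a) z := by
        simpa using (hasDerivAt_id z).const_mul (deriv G a)
      exact (h1.sub h2).hasDerivWithinAt
    have h1 := (convex_closedBall a (s / 6)).norm_image_sub_le_of_norm_hasDerivWithin_le hd hclose
      (mem_closedBall_self (by positivity)) hq
    have h2 : deriv G a * (q - a) =
        (G q - G a) - (G q - deriv G a * q - (G a - deriv G a * a)) := by ring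
    have h3 : ‖deriv G a * (q - a)‖ = M * ‖q - a‖ := by rw [norm_mul, ha]
    have h4 := norm_sub_le (G q - G a) (G q - deriv G a * q - (G a - deriv G a * a))
    rw [← h2, h3] at h4
    linarith
  have hdc : DiffContOnCl ℂ G (ball a (s / 6)) := by
    refine DifferentiableOn.diffContOnCl ?_
    rw [closure_ball a (by positivity)]
    exact hG.mono hsub
  have hsph : ∀ z ∈ sphere a (s / 6), M * s / 12 ≤ ‖G z - G a‖ := by
    intro z hz
    have h1 := hlow z (sphere_subset_closedBall hz)
    rw [mem_sphere_iff_norm.1 hz] at h1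
    linarith
  have hfr : ∃ᶠ z in 𝓝 a, G z ≠ G a := by
    have h1 : ∀ᶠ z in 𝓝[≠] a, G z ≠ G a := by
      have h2 : ∀ᶠ z in 𝓝[≠] a, z ∈ closedBall a (s / 6) :=
        mem_nhdsWithin_of_mem_nhds (closedBall_mem_nhds a (by positivity))
      filter_upwards [h2, self_mem_nhdsWithin] with z hz hza
      intro h
      have h3 := hlow z hz
      have h4 : 0 < ‖z - a‖ := norm_pos_iff.2 (sub_ne_zero.2 hza)
      rw [h, sub_self, norm_zero] at h3
      have h5 : 0 < M / 2 * ‖z - a‖ := by positivity
      linarith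
    exact h1.frequently.filter_mono nhdsWithin_le_nhds
  have h := hdc.ball_subset_image_closedBall (by positivity) hsph hfr
  have e : M * s / 12 / 2 = M * s / 24 := by ring
  rw [e] at h
  exact h.trans (image_mono hsub)

theorem inner (G : ℂ → ℂ) (c : ℂ) (r r₁ : ℝ) (h0 : 0 < r₁) (h1 : r₁ < r)
    (hG : DifferentiableOn ℂ G (ball c r))
    (hw : ∀ w : ℂ, ∃ w' : ℂ, ‖w' - w‖ < 1 ∧ ∀ q ∈ ball c r, G q ≠ w') :
    ‖deriv G c‖ * r₁ ≤ 48 := by
  have hsub : closedBall c r₁ ⊆ ball c r := closedBall_subset_ball h1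
  have hG' : ContinuousOn (deriv G) (closedBall c r₁) :=
    (hG.deriv isOpen_ball).continuousOn.mono hsub
  have hc : ContinuousOn (fun q => (r₁ - dist q c) * ‖deriv G q‖) (closedBall c r₁) :=
    (continuousOn_const.sub (continuous_id.dist continuous_const).continuousOn).mul hG'.norm
  obtain ⟨a, ha, hmax⟩ := (isCompact_closedBall c r₁).exists_isMaxOn
    ⟨c, mem_closedBall_self h0.le⟩ hc
  have hmx : ∀ q ∈ closedBall c r₁,
      (r₁ - dist q c) * ‖deriv G q‖ ≤ (r₁ - dist a c) * ‖deriv G a‖ := fun q hq => hmax hq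
  have hcc := hmx c (mem_closedBall_self h0.le)
  rw [dist_self, sub_zero] at hcc
  by_contra hcon
  push Not at hcon
  set d := r₁ - dist a c with hd
  set M := ‖deriv G a‖ with hM
  have hd0 : 0 ≤ d := sub_nonneg.2 (mem_closedBall.1 ha)
  have hM0 : 0 ≤ M := norm_nonneg _
  have h48 : 48 < d * M := by linarith
  have hdp : 0 < d := by
    rcases hd0.eq_or_lt with h | h
    · rw [← h] at h48
      linarith
    · exact h
  have hMp : 0 < M := by
    rcases hM0.eq_or_lt with h | h
    · rw [← h] at h48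
      linarith
    · exact h
  have hin : ∀ q ∈ ball a (d / 2), d / 2 ≤ r₁ - dist q c := by
    intro q hq
    have e1 := dist_triangle q a c
    have e2 := mem_ball.1 hq
    linarith
  have hball : ball a (d / 2) ⊆ closedBall c r₁ := by
    intro q hq
    have := hin q hq
    rw [mem_closedBall]
    linarith
  have hb : ∀ q ∈ ball a (d / 2), ‖deriv G q‖ ≤ 2 * M := by
    intro q hq
    have e1 := hmx q (hball hq)
    have e2 : d / 2 * ‖deriv G q‖ ≤ (r₁ - dist q c) * ‖deriv G q‖ :=
      mul_le_mul_of_nonneg_right (hin q hq) (norm_nonneg _)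
    have e3 : d * ‖deriv G q‖ ≤ d * (2 * M) := by linarith
    exact le_of_mul_le_mul_left e3 hdp
  have him := disc G a (d / 2) M (by positivity) hMp (hG.mono (hball.trans hsub)) rfl hb
  obtain ⟨w', hw1, hw2⟩ := hw (G a)
  have hmem : w' ∈ ball (G a) (M * (d / 2) / 24) := by
    rw [mem_ball, dist_eq_norm]
    linarith
  obtain ⟨q, hq, hq'⟩ := him hmem
  exact hw2 q (hsub (hball hq)) hq'

end A1x

theorem a1 : S_A1 := by
  intro G c r hr hG hw
  by_contra hcon
  push Not at hcon
  have hp : 0 < ‖deriv G c‖ := by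
    rcases (norm_nonneg (deriv G c)).eq_or_lt with h | h
    · rw [← h] at hcon
      linarith
    · exact h
  have h1 : 48 / ‖deriv G c‖ < r := by
    rw [div_lt_iff₀ hp]
    linarith
  obtain ⟨r₁, h2, h3⟩ := exists_between h1
  have h4 : 0 < r₁ := lt_trans (by positivity) h2
  have h5 := A1x.inner G c r r₁ h4 h3 hG hw
  rw [div_lt_iff₀ hp] at h2
  linarith

end Pool.Agent.MP_b2c033_nt.H87
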