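import Pool.Agent.MP_b2c033_nt.H87.Spec

/-! The Landau type bound for functions omitting zero and one. -/

namespace Pool.Agent.MP_b2c033_nt.H87

open Filter Metric Complex
open scoped Real Topology

namespace A2x

theorem hlog {f : ℂ → ℂ} {c : ℂ} {r : ℝ} (hr : 0 < r) (hf : DifferentiableOn ℂ f (ball c r))
    (h0 : ∀ q ∈ ball c r, f q ≠ 0) :
    ∃ L : ℂ → ℂ, DifferentiableOn ℂ L (ball c r) ∧ ∀ q ∈ ball c r, exp (L q) = f q := by
  have hg : DifferentiableOn ℂ (fun z => deriv f z / f z) (ball c r) :=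
    (hf.deriv isOpen_ball).div hf h0
  obtain ⟨L, hc, hL⟩ := hg.isExactOn_ball.with_val_at c (log (f c))
  have hd : ∀ q ∈ ball c r, HasDerivAt (fun z => f z * exp (-L z)) 0 q := fun q hq => by
    have a := (hf.differentiableAt (isOpen_ball.mem_nhds hq)).hasDerivAt
    have b := (hL q hq).neg.cexp
    refine (a.mul b).congr_deriv ?_
    have := h0 q hq
    simp only [Pi.neg_apply]
    field_simp
    ring
  refine ⟨L, fun q hq => (hL q hq).differentiableAt.differentiableWithinAt, fun q hq => ?_⟩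
  have e := isOpen_ball.is_const_of_deriv_eq_zero (convex_ball c r).isPreconnected
    (f := fun z => f z * exp (-L z))
    (fun q hq => (hd q hq).differentiableAt.differentiableWithinAt)
    (fun q hq => (hd q hq).deriv) hq (mem_ball_self hr)
  have h1 := h0 c (mem_ball_self hr)
  simp only [hc, exp_neg, exp_log h1] at e
  rw [mul_inv_cancel₀ h1, mul_inv_eq_one₀ (exp_ne_zero _)] at e
  exact e.symm

theorem hcos {F : ℂ → ℂ} {c : ℂ} {r : ℝ} (hr : 0 < r) (hF : DifferentiableOn ℂ F (ball c r))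
    (h0 : ∀ q ∈ ball c r, F q ^ 2 ≠ 1) :
    ∃ A : ℂ → ℂ, DifferentiableOn ℂ A (ball c r) ∧ ∀ q ∈ ball c r, cos (π * A q) = F q := by
  obtain ⟨L, hL, eL⟩ := hlog hr (f := fun q => 1 - F q ^ 2)
    ((differentiableOn_const 1).sub (hF.pow 2)) fun q hq h => h0 q hq (sub_eq_zero.1 h).symm
  have eb : ∀ q ∈ ball c r, (F q + I * exp (L q / 2)) * (F q - I * exp (L q / 2)) = 1 :=
    fun q hq => by
      have a : exp (L q / 2) ^ 2 = 1 - F q ^ 2 := by
        rw [← eL q hq, sq, ← exp_add]; congr 1; ring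
      linear_combination a - exp (L q / 2) ^ 2 * I_sq
  obtain ⟨M, hM, eM⟩ := hlog hr (f := fun q => F q + I * exp (L q / 2))
    (hF.add ((hL.div_const 2).cexp.const_mul I)) fun q hq h => by
      have := eb q hq
      rw [h, zero_mul] at this
      exact zero_ne_one this
  refine ⟨fun q => M q / (π * I), hM.div_const _, fun q hq => ?_⟩
  have hp : (π : ℂ) ≠ 0 := ofReal_ne_zero.2 Real.pi_ne_zero
  have e1 : (π : ℂ) * (M q / (π * I)) * I = M q := by field_simp
  have e2 : exp (-M q) = F q - I * exp (L q / 2) := by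
    rw [exp_neg, eM q hq]
    exact inv_eq_of_mul_eq_one_right (eb q hq)
  rw [cos, neg_mul, e1, eM q hq, e2]
  ring

theorem cosh_int {b : ℝ} (hb : 0 ≤ b) :
    ∃ (t : ℝ) (n : ℤ), b ≤ t ∧ t ≤ b + 4 / 5 ∧ Real.cosh (π * t) = n := by
  have hp := Real.pi_gt_three
  have h1 : 2 ≤ Real.cosh (π * (4 / 5)) := by
    rw [Real.cosh_eq]
    have a := Real.quadratic_le_exp_of_nonneg (x := π * (4 / 5)) (by positivity)
    have b := Real.exp_pos (-(π * (4 / 5)))
    nlinarith
  have h2 : Real.cosh (π * b) + 1 ≤ Real.cosh (π * (b + 4 / 5)) := by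
    rw [mul_add, Real.cosh_add]
    have a := Real.one_le_cosh (π * b)
    have s1 : 0 ≤ Real.sinh (π * b) := Real.sinh_nonneg_iff.2 (by positivity)
    have s2 : 0 ≤ Real.sinh (π * (4 / 5)) := Real.sinh_nonneg_iff.2 (by positivity)
    nlinarith [mul_nonneg s1 s2]
  have hc : ContinuousOn (fun t : ℝ => Real.cosh (π * t)) (Set.Icc b (b + 4 / 5)) := by
    fun_prop
  obtain ⟨t, ht, e⟩ := intermediate_value_Icc (by linarith : b ≤ b + 4 / 5) hc
    (show ((⌈Real.cosh (π * b)⌉ : ℤ) : ℝ) ∈ _ from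
      ⟨Int.le_ceil _, (Int.ceil_lt_add_one _).le.trans h2⟩)
  exact ⟨t, _, ht.1, ht.2, e⟩

theorem dense_int (w : ℂ) : ∃ (w' : ℂ) (n : ℤ), ‖w' - w‖ < 1 ∧ cos (π * w') = n := by
  obtain ⟨t, n, ht, e⟩ : ∃ (t : ℝ) (n : ℤ), |t - w.im| ≤ 4 / 5 ∧ Real.cosh (π * t) = n := by
    rcases le_total 0 w.im with h | h
    · obtain ⟨t, n, a, b, e⟩ := cosh_int h
      exact ⟨t, n, abs_le.2 ⟨by linarith, by linarith⟩, e⟩
    · obtain ⟨t, n, a, b, e⟩ := cosh_int (neg_nonneg.2 h)
      exact ⟨-t, n, abs_le.2 ⟨by linarith, by linarith⟩, by rw [mul_neg, Real.cosh_neg, e]⟩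
  have hk := abs_sub_round w.re
  refine ⟨(round w.re : ℤ) + t * I, (round w.re).negOnePow * n, ?_, ?_⟩
  · rw [← sq_lt_one_iff₀ (norm_nonneg _), Complex.sq_norm, normSq_apply]
    simp only [sub_re, add_re, intCast_re, mul_re, ofReal_re, I_re, ofReal_im, I_im, sub_im, add_im,
      intCast_im, mul_im]
    have a := abs_le.1 hk
    have b := abs_le.1 ht
    nlinarith
  · have e1 : (π : ℂ) * ((round w.re : ℤ) + t * I) = (round w.re : ℤ) * π + (π * t : ℝ) * I := by
      push_cast; ring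
    rw [e1, cos_add, sin_int_mul_pi, cos_mul_I, ← ofReal_cosh, e, zero_mul, sub_zero]
    have e2 : cos (((round w.re : ℤ) : ℂ) * π) = ((round w.re).negOnePow : ℤ) := by
      have := Real.cos_int_mul_pi (round w.re)
      rw [← ofReal_intCast, ← ofReal_mul, ← ofReal_cos, this, Int.cast_negOnePow]
      push_cast; rfl
    rw [e2]; push_cast; ring

theorem im_bound (z : ℂ) : Real.exp |z.im| ≤ 2 * ‖cos z‖ + 1 := by
  have e : 2 * cos z = exp (z * I) + exp (-z * I) := two_cos z
  have n1 : ‖exp (z * I)‖ = Real.exp (-z.im) := by rw [norm_exp]; simp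
  have n2 : ‖exp (-z * I)‖ = Real.exp z.im := by rw [norm_exp]; simp
  have n3 : ‖2 * cos z‖ = 2 * ‖cos z‖ := by simp
  rcases le_total 0 z.im with h | h
  · rw [abs_of_nonneg h, ← n2, ← n3]
    have a : exp (-z * I) = 2 * cos z - exp (z * I) := by rw [e]; ring
    have b : Real.exp (-z.im) ≤ 1 := Real.exp_le_one_iff.2 (by linarith)
    rw [a]
    exact (norm_sub_le _ _).trans (by rw [n1]; linarith)
  · rw [abs_of_nonpos h, ← n1, ← n3]
    have a : exp (z * I) = 2 * cos z - exp (-z * I) := by rw [e]; ring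
    have b : Real.exp z.im ≤ 1 := Real.exp_le_one_iff.2 h
    rw [a]
    exact (norm_sub_le _ _).trans (by rw [n2]; linarith)

end A2x

open A2x in
theorem a2 (h1 : S_A1) : S_A2 := by
  intro h c r hr hd h0
  have hc := mem_ball_self (x := c) hr
  have hsq : ∀ q ∈ ball c r, (2 * h q - 1) ^ 2 ≠ 1 := fun q hq e => by
    have : h q * (h q - 1) = 0 := by linear_combination e / 4
    rcases mul_eq_zero.1 this with a | a
    · exact (h0 q hq).1 a
    · exact (h0 q hq).2 (sub_eq_zero.1 a)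
  obtain ⟨A₀, hA₀, eA₀⟩ := hcos hr (F := fun q => 2 * h q - 1)
    ((hd.const_mul 2).sub_const 1) hsq
  obtain ⟨A, hA, eA, hre⟩ : ∃ A : ℂ → ℂ, DifferentiableOn ℂ A (ball c r) ∧
      (∀ q ∈ ball c r, cos (π * A q) = 2 * h q - 1) ∧ |(A c).re| ≤ 1 := by
    refine ⟨fun q => A₀ q - 2 * (round ((A₀ c).re / 2) : ℤ), hA₀.sub_const _, fun q hq => ?_, ?_⟩
    · rw [← eA₀ q hq, ← cos_sub_int_mul_two_pi (π * A₀ q) (round ((A₀ c).re / 2))]
      congr 1; ring
    · have a := abs_le.1 (abs_sub_round ((A₀ c).re / 2))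
      simp only [sub_re, mul_re, re_ofNat, intCast_re, im_ofNat, intCast_im]
      exact abs_le.2 ⟨by linarith [a.1], by linarith [a.2]⟩
  have hint : ∀ q ∈ ball c r, ∀ n : ℤ, A q ≠ n := fun q hq n e => by
    apply hsq q hq
    have s : sin (π * A q) = 0 := by rw [e, mul_comm, sin_int_mul_pi]
    have t := sin_sq_add_cos_sq (π * A q)
    rw [s, eA q hq] at t
    linear_combination t
  obtain ⟨G, hG, eG⟩ := hcos hr hA fun q hq e => by
    have : (A q - 1) * (A q + 1) = 0 := by linear_combination e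
    rcases mul_eq_zero.1 this with a | a
    · exact hint q hq 1 (by push_cast; linear_combination a)
    · exact hint q hq (-1) (by push_cast; linear_combination a)
  have hb := h1 G c r hr hG fun w => by
    obtain ⟨w', n, a, b⟩ := dense_int w
    exact ⟨w', a, fun q hq e => hint q hq n (by rw [← eG q hq, e, b])⟩
  have hG' := (hG.differentiableAt (isOpen_ball.mem_nhds hc)).hasDerivAt
  have hder : HasDerivAt h
      ((-sin (π * cos (π * G c)) * (π * (-sin (π * G c) * (π * deriv G c)))) / 2) c := by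
    have a := ((((hG'.const_mul (π : ℂ)).ccos).const_mul (π : ℂ)).ccos.const_add 1).div_const 2
    refine a.congr_of_eventuallyEq ?_
    filter_upwards [isOpen_ball.mem_nhds hc] with q hq
    rw [eG q hq, eA q hq]; ring
  have s1 : ‖sin (π * A c)‖ = 2 * √(‖h c‖ * ‖h c - 1‖) := by
    have t := sin_sq_add_cos_sq (π * A c)
    rw [eA c hc] at t
    have u : sin (π * A c) ^ 2 = -4 * (h c * (h c - 1)) := by linear_combination t
    have v : ‖sin (π * A c)‖ ^ 2 = (2 * √(‖h c‖ * ‖h c - 1‖)) ^ 2 := by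
      rw [← norm_pow, u, mul_pow, Real.sq_sqrt (by positivity)]
      simp; norm_num
    exact (pow_left_inj₀ (norm_nonneg _) (by positivity) two_ne_zero).1 v
  have s2 : ‖sin (π * G c)‖ ≤ 1 + ‖A c‖ := by
    have t := sin_sq_add_cos_sq (π * G c)
    rw [eG c hc] at t
    have u : sin (π * G c) ^ 2 = 1 - A c ^ 2 := by linear_combination t
    have v : ‖sin (π * G c)‖ ^ 2 ≤ (1 + ‖A c‖) ^ 2 := by
      rw [← norm_pow, u]
      refine (norm_sub_le _ _).trans ?_
      rw [norm_one, norm_pow]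
      nlinarith [norm_nonneg (A c)]
    exact (pow_le_pow_iff_left₀ (norm_nonneg _) (by positivity) two_ne_zero).1 v
  have hp := Real.pi_gt_three
  have s3 : |(A c).im| ≤ Real.log (4 * ‖h c‖ + 3) := by
    have a := im_bound (π * A c)
    rw [eA c hc] at a
    have b : ‖2 * h c - 1‖ ≤ 2 * ‖h c‖ + 1 := (norm_sub_le _ _).trans (by simp)
    have d : ((π : ℂ) * A c).im = π * (A c).im := by simp
    rw [d, abs_mul, abs_of_pos Real.pi_pos] at a
    rw [Real.le_log_iff_exp_le (by positivity)]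
    refine le_trans (Real.exp_le_exp.2 ?_) (a.trans (by linarith))
    nlinarith [abs_nonneg (A c).im]
  have s4 : ‖sin (π * G c)‖ ≤ 2 + Real.log (4 * ‖h c‖ + 3) := by
    linarith [norm_le_abs_re_add_abs_im (A c)]
  have e : ‖deriv h c‖ * r = π ^ 2 * (‖deriv G c‖ * r) *
      (√(‖h c‖ * ‖h c - 1‖) * ‖sin (π * G c)‖) := by
    rw [hder.deriv, eG c hc]
    simp only [norm_div, norm_mul, norm_neg, s1, norm_real, Real.norm_eq_abs,
      abs_of_pos Real.pi_pos, norm_ofNat]
    ring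
  rw [e, mul_assoc 500]
  refine mul_le_mul ?_ (mul_le_mul_of_nonneg_left s4 (Real.sqrt_nonneg _)) (by positivity)
    (by norm_num)
  have hq := Real.pi_lt_d2
  have : π ^ 2 ≤ 10 := by nlinarith
  have := mul_le_mul this hb (by positivity) (by norm_num)
  linarith

end Pool.Agent.MP_b2c033_nt.H87
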