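import Pool.Agent.MP_b2c033_nt.H87.Spec

/-! A holomorphic function on a disc whose zeros have even order is a square. -/

namespace Pool.Agent.MP_b2c033_nt.H87

open Filter Metric Set
open scoped Topology

namespace A3x

/-- locally an even power times a unit -/
def Ev (φ : ℂ → ℂ) (q : ℂ) : Prop :=
  ∃ (k : ℕ) (g : ℂ → ℂ), AnalyticAt ℂ g q ∧ g q ≠ 0 ∧ ∀ᶠ w in 𝓝 q, φ w = (w - q) ^ (2 * k) * g w

theorem Ev.diff {φ : ℂ → ℂ} {q : ℂ} (h : Ev φ q) : DifferentiableAt ℂ φ q := by
  obtain ⟨k, g, hg, -, e⟩ := h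
  exact (((differentiableAt_id.sub_const q).pow _).mul hg.differentiableAt).congr_of_eventuallyEq e

theorem base (φ : ℂ → ℂ) (c : ℂ) (r : ℝ) (hφ : DifferentiableOn ℂ φ (ball c r))
    (h0 : ∀ q ∈ ball c r, φ q ≠ 0) :
    ∃ α : ℂ → ℂ, DifferentiableOn ℂ α (ball c r) ∧ ∀ q ∈ ball c r, α q ^ 2 = φ q := by
  obtain ⟨F, hF⟩ := ((hφ.deriv isOpen_ball).div hφ h0).isExactOn_ball
  have hd : ∀ q ∈ ball c r, HasDerivAt (fun w => φ w * Complex.exp (-F w)) 0 q := fun q hq => by
    have h1 := ((hφ q hq).differentiableAt (isOpen_ball.mem_nhds hq)).hasDerivAt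
    have h2 := h1.mul (hF q hq).neg.cexp
    have h3 := h0 q hq
    refine h2.congr_deriv ?_
    simp only [Pi.div_apply, Pi.neg_apply]
    field_simp
    ring
  obtain ⟨κ, hκ⟩ := isOpen_ball.exists_is_const_of_deriv_eq_zero (convex_ball c r).isPreconnected
    (fun q hq => (hd q hq).differentiableAt.differentiableWithinAt) (fun q hq => (hd q hq).deriv)
  obtain ⟨s, hs⟩ := IsAlgClosed.exists_pow_nat_eq κ two_pos
  refine ⟨fun w => s * Complex.exp (F w / 2), fun q hq =>
    ((((hF q hq).differentiableAt.div_const 2).cexp).const_mul s).differentiableWithinAt,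
    fun q hq => ?_⟩
  rw [mul_pow, hs, ← hκ q hq, ← Complex.exp_nat_mul, mul_assoc, ← Complex.exp_add]
  have : -F q + (2 : ℕ) * (F q / 2) = 0 := by push_cast; ring
  rw [this, Complex.exp_zero, mul_one]

theorem step (c : ℂ) (r : ℝ) (S : Finset ℂ) : ∀ φ : ℂ → ℂ, (∀ q ∈ ball c r, Ev φ q) →
    (∀ q ∈ ball c r, φ q = 0 → q ∈ S) →
    ∃ α : ℂ → ℂ, DifferentiableOn ℂ α (ball c r) ∧ ∀ q ∈ ball c r, α q ^ 2 = φ q := by
  classical
  induction S using Finset.induction_on with
  | empty =>
    exact fun φ h h0 => base φ c r (fun q hq => (h q hq).diff.differentiableWithinAt)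
      fun q hq e => by simpa using h0 q hq e
  | insert z S _ ih =>
    intro φ h h0
    by_cases hz : z ∈ ball c r
    swap
    · exact ih φ h fun q hq e => (Finset.mem_insert.1 (h0 q hq e)).resolve_left
        fun e' => hz (e' ▸ hq)
    obtain ⟨k, g, hg, g0, e⟩ := h z hz
    obtain ⟨α, hα, hα'⟩ := ih (fun w => if w = z then g z else φ w / (w - z) ^ (2 * k))
      (fun q hq => by
        by_cases hqz : q = z
        · subst hqz
          refine ⟨0, g, hg, g0, e.mono fun w hw => ?_⟩
          by_cases hwq : w = q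
          · simp [hwq]
          · have := sub_ne_zero.2 hwq
            simp only [hwq, if_false, hw, mul_zero, pow_zero]
            field_simp
        · obtain ⟨j, g', hg', g0', e'⟩ := h q hq
          have hn := pow_ne_zero (2 * k) (sub_ne_zero.2 hqz)
          refine ⟨j, fun w => g' w / (w - z) ^ (2 * k),
            hg'.div ((analyticAt_id.sub analyticAt_const).pow _) hn, div_ne_zero g0' hn, ?_⟩
          filter_upwards [e', isOpen_ne.mem_nhds hqz] with w hw hwz
          rw [if_neg hwz, hw, mul_div_assoc])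
      (fun q hq e' => by
        by_cases hqz : q = z
        · simp [hqz, g0] at e'
        · rw [if_neg hqz, div_eq_zero_iff] at e'
          exact (Finset.mem_insert.1 (h0 q hq (e'.resolve_right
            (pow_ne_zero _ (sub_ne_zero.2 hqz))))).resolve_left hqz)
    refine ⟨fun w => (w - z) ^ k * α w,
      ((differentiableOn_id.sub_const z).pow k).mul hα, fun q hq => ?_⟩
    rw [mul_pow, hα' q hq, ← pow_mul, mul_comm k]
    by_cases hqz : q = z
    · subst hqz
      rw [if_pos rfl, e.self_of_nhds]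
    · have := sub_ne_zero.2 hqz
      rw [if_neg hqz]
      field_simp

end A3x

theorem a3 : S_A3 := by
  intro φ ψ Y c r r' _ hr hφ hψ hY hE hZ
  have aφ := hφ.analyticOnNhd isOpen_ball
  have aψ := hψ.analyticOnNhd isOpen_ball
  have aY := hY.analyticOnNhd isOpen_ball
  by_cases h0 : ∀ q ∈ ball c r, φ q = 0
  · exact ⟨fun _ => 0, differentiableOn_const _, fun q hq => by
      simp [h0 q (ball_subset_ball hr.le hq)]⟩
  have hne : ∀ q ∈ ball c r, ¬ ∀ᶠ w in 𝓝 q, φ w = 0 := fun q hq e =>
    h0 (aφ.eqOn_zero_of_preconnected_of_eventuallyEq_zero (convex_ball c r).isPreconnected hq e)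
  have hK : closedBall c r' ⊆ ball c r := closedBall_subset_ball hr
  obtain ⟨t, -, ht⟩ := (isCompact_closedBall c r').elim_nhds_subcover
    (fun q => {w | w ≠ q → φ w ≠ 0}) fun q hq =>
      eventually_nhdsWithin_iff.1
        ((aφ q (hK hq)).eventually_eq_zero_or_eventually_ne_zero.resolve_left (hne q (hK hq)))
  refine A3x.step c r' t φ (fun q hq => ?_) fun q hq e => ?_
  · have hq' := ball_subset_ball hr.le hq
    by_cases hq0 : φ q = 0
    swap
    · exact ⟨0, φ, aφ q hq', hq0, by simp⟩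
    have p0 := hZ q hq' hq0
    have pe := (aψ q hq').continuousAt.eventually_ne p0
    have be := isOpen_ball.mem_nhds hq'
    obtain ⟨k, g, hg, g0, e⟩ := (aY q hq').exists_eventuallyEq_pow_smul_nonzero_iff.2 fun e =>
      hne q hq' (by
        filter_upwards [e, pe, be] with w h1 h2 h3
        have := hE w h3
        rw [h1, zero_pow two_ne_zero] at this
        exact (mul_eq_zero.1 this.symm).resolve_right h2)
    refine ⟨k, fun w => g w ^ 2 / ψ w, (hg.pow 2).div (aψ q hq') p0,
      div_ne_zero (pow_ne_zero _ g0) p0, ?_⟩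
    filter_upwards [e, pe, be] with w h1 h2 h3
    have := hE w h3
    rw [h1, smul_eq_mul, mul_pow, ← pow_mul, mul_comm k] at this
    rw [← mul_div_assoc, this, mul_div_cancel_right₀ _ h2]
  · obtain ⟨z, hz, hw⟩ := mem_iUnion₂.1 (ht (ball_subset_closedBall hq))
    by_contra hqt
    exact hw (fun e' => hqt (e' ▸ hz)) e

end Pool.Agent.MP_b2c033_nt.H87
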