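import Pool.Agent.MP_b2c033_nt.H87.Spec

/-! Row A4: the bound for the invariant derivative of a holomorphic point of the cubic. -/

namespace Pool.Agent.MP_b2c033_nt.H87

open Filter Metric
open scoped Topology

namespace A4x

theorem log_bound {t H : ℝ} (ht : 1 / 2 ≤ t) (hH0 : 0 ≤ H) (hH : H ≤ 4 * t ^ 3) :
    (2 + Real.log (4 * H + 3)) ^ 4 ≤ 20736 * t := by
  have ht0 : 0 < t := by linarith
  set s : ℝ := √(√t) with hs
  have hs0 : 0 < s := Real.sqrt_pos.2 (Real.sqrt_pos.2 ht0)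
  have hs2 : s ^ 2 = √t := Real.sq_sqrt (Real.sqrt_nonneg t)
  have hs4 : s ^ 4 = t := by
    have : s ^ 4 = (s ^ 2) ^ 2 := by ring
    rw [this, hs2, Real.sq_sqrt ht0.le]
  have ht3 : (1 / 2 : ℝ) ^ 3 ≤ t ^ 3 := pow_le_pow_left₀ (by norm_num) ht 3
  have h1 : 4 * H + 3 ≤ 2 ^ 6 * s ^ 12 := by
    have : s ^ 12 = t ^ 3 := by rw [← hs4]; ring
    rw [this]; nlinarith
  have h2 : Real.log (4 * H + 3) ≤ Real.log (2 ^ 6 * s ^ 12) :=
    Real.log_le_log (by linarith) h1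
  have h3 : Real.log (2 ^ 6 * s ^ 12) = 6 * Real.log 2 + 12 * Real.log s := by
    rw [Real.log_mul (by norm_num) (pow_pos hs0 12).ne', Real.log_pow, Real.log_pow]
    norm_num
  have h4 : Real.log s ≤ s - 1 := Real.log_le_sub_one_of_pos hs0
  have h5 := Real.log_two_lt_d9
  have h6 : 0 ≤ Real.log (4 * H + 3) := Real.log_nonneg (by linarith)
  have h7 : 2 + Real.log (4 * H + 3) ≤ 12 * s := by linarith
  calc (2 + Real.log (4 * H + 3)) ^ 4 ≤ (12 * s) ^ 4 := pow_le_pow_left₀ (by linarith) h7 4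
    _ = 20736 * t := by rw [mul_pow, hs4]; norm_num

theorem core (h2 : S_A2) (xp : ℂ → ℂ) (c γ : ℂ) (r : ℝ) (hr : 0 < r) (a b e : ℂ)
    (hd : 1 ≤ ‖a - b‖ * ‖a - e‖ * ‖b - e‖) (hx : DifferentiableOn ℂ xp (ball c r))
    (hab : ∀ q ∈ ball c r, xp q ≠ a ∧ xp q ≠ b)
    (h1 : ‖xp c - a‖ ≤ ‖xp c - e‖) (h1' : ‖xp c - b‖ ≤ ‖xp c - e‖)
    (hder : 4 * ‖deriv xp c‖ ^ 2 = ‖γ‖ ^ 2 * (‖xp c - a‖ * ‖xp c - b‖ * ‖xp c - e‖)) :
    (‖γ‖ * r) ^ 4 * (2 * ‖xp c - e‖) ≤ 10 ^ 17 := by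
  have hc : c ∈ ball c r := mem_ball_self hr
  have tri : ∀ u v : ℂ, ‖u - v‖ ≤ ‖xp c - u‖ + ‖xp c - v‖ := by
    intro u v
    have : u - v = (xp c - v) - (xp c - u) := by ring
    rw [this, add_comm]; exact norm_sub_le _ _
  set t : ℝ := ‖xp c - e‖ with ht
  set D : ℝ := ‖a - b‖ with hD
  have ht0 : 0 ≤ t := norm_nonneg _
  have hD0 : 0 ≤ D := norm_nonneg _
  have hD2 : D ≤ 2 * t := by have := tri a b; linarith
  have hae : ‖a - e‖ ≤ 2 * t := by have := tri a e; linarith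
  have hbe : ‖b - e‖ ≤ 2 * t := by have := tri b e; linarith
  have hDt : 1 ≤ D * (2 * t) * (2 * t) :=
    hd.trans (mul_le_mul (mul_le_mul_of_nonneg_left hae hD0) hbe (norm_nonneg _) (by positivity))
  have hDpos : 0 < D := by
    rcases hD0.lt_or_eq with h | h
    · exact h
    · rw [← h] at hDt; norm_num at hDt
  have hth : 1 / 2 ≤ t := by
    by_contra hlt
    have hlt' : 2 * t < 1 := by linarith [not_le.1 hlt]
    have e1 : D * (2 * t) ≤ 1 * 1 := mul_le_mul (by linarith) hlt'.le (by positivity) zero_le_one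
    have e2 : D * (2 * t) * (2 * t) ≤ 1 * 1 * (2 * t) :=
      mul_le_mul_of_nonneg_right e1 (by positivity)
    linarith
  have htpos : 0 < t := by linarith
  have hba : b - a ≠ 0 := by
    intro h
    have : D = 0 := by rw [hD, norm_sub_rev, h, norm_zero]
    linarith
  have hnba : ‖b - a‖ = D := by rw [hD, norm_sub_rev]
  have key := h2 (fun q => (xp q - a) / (b - a)) c r hr
    ((hx.sub_const a).div_const _) (by
      intro q hq
      refine ⟨div_ne_zero (sub_ne_zero.2 (hab q hq).1) hba, ?_⟩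
      intro h
      rw [div_eq_one_iff_eq hba] at h
      exact (hab q hq).2 (by linear_combination h))
  have hdx : HasDerivAt xp (deriv xp c) c :=
    (hx.differentiableAt (isOpen_ball.mem_nhds hc)).hasDerivAt
  have hdh : deriv (fun q => (xp q - a) / (b - a)) c = deriv xp c / (b - a) :=
    ((hdx.sub_const a).div_const (b - a)).deriv
  have hm1 : (xp c - a) / (b - a) - 1 = (xp c - b) / (b - a) := by field_simp; ring
  simp only [hdh, hm1, norm_div, hnba] at key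
  set A : ℝ := ‖xp c - a‖ with hA
  set B : ℝ := ‖xp c - b‖ with hB
  have hA0 : 0 < A := norm_pos_iff.2 (sub_ne_zero.2 (hab c hc).1)
  have hB0 : 0 < B := norm_pos_iff.2 (sub_ne_zero.2 (hab c hc).2)
  have hH : A / D ≤ 4 * t ^ 3 := by
    rw [div_le_iff₀ hDpos]
    have : t * 1 ≤ t * (D * (2 * t) * (2 * t)) := mul_le_mul_of_nonneg_left hDt ht0
    nlinarith
  have hL := log_bound hth (div_nonneg hA0.le hD0) hH
  set L : ℝ := 2 + Real.log (4 * (A / D) + 3) with hLdef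
  set P : ℝ := ‖deriv xp c‖ with hP
  have hP0 : 0 ≤ P := norm_nonneg _
  have hsq : (P / D * r) ^ 2 ≤ (500 * √(A / D * (B / D)) * L) ^ 2 :=
    pow_le_pow_left₀ (by positivity) key 2
  have hsq2 : (500 * √(A / D * (B / D)) * L) ^ 2 = 250000 * (A * B) * L ^ 2 / D ^ 2 := by
    rw [mul_pow, mul_pow, Real.sq_sqrt (by positivity)]
    field_simp
    ring
  have hsq3 : (P / D * r) ^ 2 = P ^ 2 * r ^ 2 / D ^ 2 := by field_simp
  rw [hsq2, hsq3, div_le_div_iff_of_pos_right (by positivity)] at hsq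
  have hg : (‖γ‖ * r) ^ 2 * t ≤ 10 ^ 6 * L ^ 2 := by
    have hAB : 0 < A * B := mul_pos hA0 hB0
    have e1 : (A * B) * ((‖γ‖ * r) ^ 2 * t) = 4 * P ^ 2 * r ^ 2 := by rw [hder]; ring
    have e2 : (A * B) * ((‖γ‖ * r) ^ 2 * t) ≤ (A * B) * (10 ^ 6 * L ^ 2) := by
      rw [e1]; nlinarith
    exact le_of_mul_le_mul_left e2 hAB
  have hg2 : ((‖γ‖ * r) ^ 2 * t) ^ 2 ≤ (10 ^ 6 * L ^ 2) ^ 2 :=
    pow_le_pow_left₀ (by positivity) hg 2
  have e3 : t * ((‖γ‖ * r) ^ 4 * (2 * t)) ≤ t * 10 ^ 17 := by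
    have e4 : t * ((‖γ‖ * r) ^ 4 * (2 * t)) = 2 * ((‖γ‖ * r) ^ 2 * t) ^ 2 := by ring
    have e5 : ((10 : ℝ) ^ 6 * L ^ 2) ^ 2 = 10 ^ 12 * L ^ 4 := by ring
    rw [e4]; rw [e5] at hg2
    nlinarith
  exact le_of_mul_le_mul_left e3 htpos

theorem two_mul_deriv {α X : ℂ → ℂ} {c e : ℂ} {r : ℝ} (hr : 0 < r)
    (hα : DifferentiableOn ℂ α (ball c r)) (hX : DifferentiableOn ℂ X (ball c r))
    (h : ∀ q ∈ ball c r, α q ^ 2 = X q - e) : 2 * α c * deriv α c = deriv X c := by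
  have hn : ball c r ∈ 𝓝 c := ball_mem_nhds c hr
  have h1 : HasDerivAt α (deriv α c) c := (hα.differentiableAt hn).hasDerivAt
  have h2 : HasDerivAt X (deriv X c) c := (hX.differentiableAt hn).hasDerivAt
  have h3 : HasDerivAt (fun q => α q * α q) (deriv α c * α c + α c * deriv α c) c := h1.mul h1
  have h4 : (fun q => X q - e) =ᶠ[𝓝 c] fun q => α q * α q := by
    filter_upwards [hn] with q hq
    rw [← h q hq]; ring
  have h5 := (h3.congr_of_eventuallyEq h4).unique (h2.sub_const e)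
  linear_combination h5

end A4x

open A4x in
theorem a4 (h2 : S_A2) (h3 : S_A3) : S_A4 := by
  intro e₁ e₂ e₃ X Y c γ r hr hd hX hY heq hY0 hγ
  have hne : (e₁ - e₂) * (e₁ - e₃) * (e₂ - e₃) ≠ 0 := by
    intro h; rw [h, norm_zero] at hd; norm_num at hd
  have h12 : e₁ - e₂ ≠ 0 := fun h => hne (by rw [h]; ring)
  have h13 : e₁ - e₃ ≠ 0 := fun h => hne (by rw [h]; ring)
  have h23 : e₂ - e₃ ≠ 0 := fun h => hne (by rw [h]; ring)
  rw [norm_mul, norm_mul] at hd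
  have root : ∀ (a b e : ℂ) (r' : ℝ), 0 < r' → r' < r → a - b ≠ 0 → a - e ≠ 0 →
      (∀ q ∈ ball c r, Y q ^ 2 = (X q - a) * ((X q - b) * (X q - e))) →
      ∃ α : ℂ → ℂ, DifferentiableOn ℂ α (ball c r') ∧ ∀ q ∈ ball c r', α q ^ 2 = X q - a := by
    intro a b e r' h0 h1 hab hae hq
    refine h3 (fun q => X q - a) (fun q => (X q - b) * (X q - e)) Y c r r' h0 h1
      (hX.sub_const a) ((hX.sub_const b).mul (hX.sub_const e)) hY hq ?_
    intro q _ hz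
    refine mul_ne_zero ?_ ?_
    · intro h; exact hab (by linear_combination h - hz)
    · intro h; exact hae (by linear_combination h - hz)
  have step : ∀ r' : ℝ, 0 < r' → r' < r → (‖γ‖ * r') ^ 4 * ‖e₁ - e₂‖ ≤ 10 ^ 17 := by
    intro r' h0 h1
    obtain ⟨α₁, d₁, s₁⟩ := root e₁ e₂ e₃ r' h0 h1 h12 h13 fun q hq => by rw [heq q hq]; ring
    obtain ⟨α₂, d₂, s₂⟩ := root e₂ e₁ e₃ r' h0 h1 (fun h => h12 (by linear_combination -h)) h23
      fun q hq => by rw [heq q hq]; ring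
    obtain ⟨α₃, d₃, s₃⟩ := root e₃ e₁ e₂ r' h0 h1 (fun h => h13 (by linear_combination -h))
      (fun h => h23 (by linear_combination -h)) fun q hq => by rw [heq q hq]; ring
    have hX' : DifferentiableOn ℂ X (ball c r') := hX.mono (ball_subset_ball h1.le)
    have hc : c ∈ ball c r' := mem_ball_self h0
    have hn : ball c r' ∈ 𝓝 c := ball_mem_nhds c h0
    set xp : ℂ → ℂ := fun q => X q + α₁ q * α₂ q + α₁ q * α₃ q + α₂ q * α₃ q with hxp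
    have hdx : DifferentiableOn ℂ xp (ball c r') :=
      ((hX'.add (d₁.mul d₂)).add (d₁.mul d₃)).add (d₂.mul d₃)
    have f₁ : ∀ q ∈ ball c r', xp q - e₁ = (α₁ q + α₂ q) * (α₁ q + α₃ q) := fun q hq => by
      simp only [hxp]; linear_combination -(s₁ q hq)
    have f₂ : ∀ q ∈ ball c r', xp q - e₂ = (α₁ q + α₂ q) * (α₂ q + α₃ q) := fun q hq => by
      simp only [hxp]; linear_combination -(s₂ q hq)
    have f₃ : ∀ q ∈ ball c r', xp q - e₃ = (α₁ q + α₃ q) * (α₂ q + α₃ q) := fun q hq => by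
      simp only [hxp]; linear_combination -(s₃ q hq)
    have n12 : ∀ q ∈ ball c r', α₁ q + α₂ q ≠ 0 := fun q hq h =>
      h12 (by linear_combination (s₁ q hq) - (s₂ q hq) - (α₁ q - α₂ q) * h)
    have n13 : ∀ q ∈ ball c r', α₁ q + α₃ q ≠ 0 := fun q hq h =>
      h13 (by linear_combination (s₁ q hq) - (s₃ q hq) - (α₁ q - α₃ q) * h)
    have n23 : ∀ q ∈ ball c r', α₂ q + α₃ q ≠ 0 := fun q hq h =>
      h23 (by linear_combination (s₂ q hq) - (s₃ q hq) - (α₂ q - α₃ q) * h)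
    have o₁ : ∀ q ∈ ball c r', xp q ≠ e₁ := fun q hq =>
      sub_ne_zero.1 (by rw [f₁ q hq]; exact mul_ne_zero (n12 q hq) (n13 q hq))
    have o₂ : ∀ q ∈ ball c r', xp q ≠ e₂ := fun q hq =>
      sub_ne_zero.1 (by rw [f₂ q hq]; exact mul_ne_zero (n12 q hq) (n23 q hq))
    have o₃ : ∀ q ∈ ball c r', xp q ≠ e₃ := fun q hq =>
      sub_ne_zero.1 (by rw [f₃ q hq]; exact mul_ne_zero (n13 q hq) (n23 q hq))
    have g₁ := two_mul_deriv h0 d₁ hX' s₁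
    have g₂ := two_mul_deriv h0 d₂ hX' s₂
    have g₃ := two_mul_deriv h0 d₃ hX' s₃
    have k₁ : HasDerivAt α₁ (deriv α₁ c) c := (d₁.differentiableAt hn).hasDerivAt
    have k₂ : HasDerivAt α₂ (deriv α₂ c) c := (d₂.differentiableAt hn).hasDerivAt
    have k₃ : HasDerivAt α₃ (deriv α₃ c) c := (d₃.differentiableAt hn).hasDerivAt
    have kX : HasDerivAt X (deriv X c) c := (hX'.differentiableAt hn).hasDerivAt
    have kx : deriv xp c = deriv X c + (deriv α₁ c * α₂ c + α₁ c * deriv α₂ c) +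
        (deriv α₁ c * α₃ c + α₁ c * deriv α₃ c) + (deriv α₂ c * α₃ c + α₂ c * deriv α₃ c) :=
      (((kX.add (k₁.mul k₂)).add (k₁.mul k₃)).add (k₂.mul k₃)).deriv
    have m₁ : 2 * (α₁ c * α₂ c * α₃ c) * deriv xp c =
        γ * Y c * ((α₁ c + α₂ c) * (α₁ c + α₃ c) * (α₂ c + α₃ c)) := by
      rw [kx, hγ]
      linear_combination (α₂ c * α₃ c * (α₂ c + α₃ c)) * g₁ + (α₁ c * α₃ c * (α₁ c + α₃ c)) * g₂ +
        (α₁ c * α₂ c * (α₁ c + α₂ c)) * g₃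
    have m₂ : (α₁ c * α₂ c * α₃ c) ^ 2 = Y c ^ 2 := by
      rw [heq c (mem_ball_self hr), ← s₁ c hc, ← s₂ c hc, ← s₃ c hc]; ring
    have m₃ : 4 * deriv xp c ^ 2 = γ ^ 2 * ((xp c - e₁) * (xp c - e₂) * (xp c - e₃)) := by
      apply mul_left_cancel₀ (pow_ne_zero 2 hY0)
      rw [f₁ c hc, f₂ c hc, f₃ c hc]
      have m₄ := congrArg (fun z : ℂ => z ^ 2) m₁
      simp only [mul_pow] at m₄ m₂
      linear_combination m₄ - 4 * deriv xp c ^ 2 * m₂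
    have m₅ : 4 * ‖deriv xp c‖ ^ 2 = ‖γ‖ ^ 2 * (‖xp c - e₁‖ * ‖xp c - e₂‖ * ‖xp c - e₃‖) := by
      have := congrArg (fun z : ℂ => ‖z‖) m₃
      simpa only [norm_mul, norm_pow, Complex.norm_ofNat] using this
    have tri : ‖e₁ - e₂‖ ≤ ‖xp c - e₁‖ + ‖xp c - e₂‖ := by
      have : e₁ - e₂ = (xp c - e₂) - (xp c - e₁) := by ring
      rw [this, add_comm]; exact norm_sub_le _ _
    have fin : ∀ t : ℝ, ‖xp c - e₁‖ ≤ t → ‖xp c - e₂‖ ≤ t →
        (‖γ‖ * r') ^ 4 * (2 * t) ≤ 10 ^ 17 → (‖γ‖ * r') ^ 4 * ‖e₁ - e₂‖ ≤ 10 ^ 17 := by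
      intro t a1 a2 a3
      exact (mul_le_mul_of_nonneg_left (by linarith) (by positivity)).trans a3
    have c₃ : ‖xp c - e₁‖ ≤ ‖xp c - e₃‖ → ‖xp c - e₂‖ ≤ ‖xp c - e₃‖ →
        (‖γ‖ * r') ^ 4 * ‖e₁ - e₂‖ ≤ 10 ^ 17 := fun a1 a2 =>
      fin _ a1 a2 (core h2 xp c γ r' h0 e₁ e₂ e₃ hd hdx (fun q hq => ⟨o₁ q hq, o₂ q hq⟩) a1 a2 m₅)
    have c₂ : ‖xp c - e₁‖ ≤ ‖xp c - e₂‖ → ‖xp c - e₃‖ ≤ ‖xp c - e₂‖ →
        (‖γ‖ * r') ^ 4 * ‖e₁ - e₂‖ ≤ 10 ^ 17 := fun a1 a2 =>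
      fin _ a1 le_rfl (core h2 xp c γ r' h0 e₁ e₃ e₂
        (by rw [norm_sub_rev e₃ e₂]; linarith [mul_comm ‖e₁ - e₂‖ ‖e₁ - e₃‖,
          congrArg (· * ‖e₂ - e₃‖) (mul_comm ‖e₁ - e₂‖ ‖e₁ - e₃‖)]) hdx
        (fun q hq => ⟨o₁ q hq, o₃ q hq⟩) a1 a2 (by rw [m₅]; ring))
    have c₁ : ‖xp c - e₂‖ ≤ ‖xp c - e₁‖ → ‖xp c - e₃‖ ≤ ‖xp c - e₁‖ →
        (‖γ‖ * r') ^ 4 * ‖e₁ - e₂‖ ≤ 10 ^ 17 := fun a1 a2 =>
      fin _ le_rfl a1 (core h2 xp c γ r' h0 e₂ e₃ e₁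
        (by
          rw [norm_sub_rev e₂ e₁, norm_sub_rev e₃ e₁]
          calc (1 : ℝ) ≤ _ := hd
            _ = _ := by ring) hdx
        (fun q hq => ⟨o₂ q hq, o₃ q hq⟩) a1 a2 (by rw [m₅]; ring))
    rcases le_total ‖xp c - e₁‖ ‖xp c - e₂‖ with a | a
    · rcases le_total ‖xp c - e₂‖ ‖xp c - e₃‖ with b | b
      · exact c₃ (a.trans b) b
      · exact c₂ a b
    · rcases le_total ‖xp c - e₁‖ ‖xp c - e₃‖ with b | b
      · exact c₃ b (a.trans b)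
      · exact c₁ a b
  have hlim : Tendsto (fun r' : ℝ => (‖γ‖ * r') ^ 4 * ‖e₁ - e₂‖) (𝓝[<] r)
      (𝓝 ((‖γ‖ * r) ^ 4 * ‖e₁ - e₂‖)) := by
    refine Tendsto.mono_left ?_ nhdsWithin_le_nhds
    exact (by fun_prop : Continuous fun r' : ℝ => (‖γ‖ * r') ^ 4 * ‖e₁ - e₂‖).tendsto r
  refine le_of_tendsto hlim ?_
  filter_upwards [Ioo_mem_nhdsLT hr] with r' h
  exact step r' h.1 h.2

end Pool.Agent.MP_b2c033_nt.H87
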