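import Pool.Agent.MP_b2c033_nt.H87.Spec

/-! Row A5: a nonconstant holomorphic function on the curve forces an omitted point. -/

namespace Pool.Agent.MP_b2c033_nt.H87

open Filter Metric Polynomial Asymptotics
open scoped Topology

namespace A5x

theorem ev_tendsto {l : Filter ℂ} {x : ℂ → ℂ} {s : ℂ} (P : ℂ[X]) (h : Tendsto x l (𝓝 s)) :
    Tendsto (fun q => P.eval (x q)) l (𝓝 (P.eval s)) :=
  (P.continuous.tendsto s).comp h

theorem u_tendsto {U : Set ℂ} {u : ℂ → ℂ} (hU : IsOpen U) (hu : ContinuousOn u U) {c : ℂ}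
    (hc : c ∈ U) : Tendsto u (𝓝[≠] c) (𝓝 (u c)) :=
  (hu.continuousAt (hU.mem_nhds hc)).tendsto.mono_left nhdsWithin_le_nhds

theorem split_root {e₁ e₂ e₃ s : ℂ} (h12 : e₁ ≠ e₂) (h13 : e₁ ≠ e₃) (h23 : e₂ ≠ e₃)
    (h : (s - e₁) * (s - e₂) * (s - e₃) = 0) : ∃ g₁ g₂ : ℂ, (s - g₁) * (s - g₂) ≠ 0 ∧
      ∀ z : ℂ, (z - e₁) * (z - e₂) * (z - e₃) = (z - s) * ((z - g₁) * (z - g₂)) := by
  rcases mul_eq_zero.1 h with h | h
  · rcases mul_eq_zero.1 h with h | h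
    · obtain rfl := sub_eq_zero.1 h
      exact ⟨e₂, e₃, mul_ne_zero (sub_ne_zero.2 h12) (sub_ne_zero.2 h13), fun z => by ring⟩
    · obtain rfl := sub_eq_zero.1 h
      exact ⟨e₁, e₃, mul_ne_zero (sub_ne_zero.2 h12.symm) (sub_ne_zero.2 h23), fun z => by ring⟩
  · obtain rfl := sub_eq_zero.1 h
    exact ⟨e₁, e₂, mul_ne_zero (sub_ne_zero.2 h13.symm) (sub_ne_zero.2 h23.symm),
      fun z => by ring⟩

theorem deg_gap (A B : ℂ[X]) (e₁ e₂ e₃ : ℂ) (hB : B ≠ 0) :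
    A.natDegree < (A ^ 2 - B ^ 2 * ((X - C e₁) * (X - C e₂) * (X - C e₃))).natDegree := by
  have h1 : ((X - C e₁) * (X - C e₂) * (X - C e₃) : ℂ[X]).natDegree = 3 := by
    rw [natDegree_mul (mul_ne_zero (X_sub_C_ne_zero _) (X_sub_C_ne_zero _)) (X_sub_C_ne_zero _),
      natDegree_mul (X_sub_C_ne_zero _) (X_sub_C_ne_zero _)]
    simp only [natDegree_X_sub_C]
  have h2 : (B ^ 2 * ((X - C e₁) * (X - C e₂) * (X - C e₃))).natDegree =
      2 * B.natDegree + 3 := by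
    rw [natDegree_mul (pow_ne_zero _ hB) (mul_ne_zero
      (mul_ne_zero (X_sub_C_ne_zero _) (X_sub_C_ne_zero _)) (X_sub_C_ne_zero _)), h1,
      natDegree_pow]
  have h3 : (A ^ 2).natDegree = 2 * A.natDegree := natDegree_pow _ _
  rcases lt_or_ge (2 * A.natDegree) (2 * B.natDegree + 3) with h | h
  · rw [natDegree_sub_eq_right_of_natDegree_lt (by omega), h2]
    omega
  · rw [natDegree_sub_eq_left_of_natDegree_lt (by omega), h3]
    omega

theorem at_inf {l : Filter ℂ} [l.NeBot] {x y w : ℂ → ℂ} {w₀ e₁ e₂ e₃ : ℂ} (A B : ℂ[X])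
    (hx : Tendsto x l (Bornology.cobounded ℂ)) (hw : Tendsto w l (𝓝 w₀))
    (h : ∀ᶠ q in l, y q ^ 2 = (x q - e₁) * (x q - e₂) * (x q - e₃) ∧
      w q = A.eval (x q) + B.eval (x q) * y q) : B = 0 ∧ A.natDegree = 0 := by
  have hxn : Tendsto (fun q => ‖x q‖) l atTop := tendsto_norm_atTop_iff_cobounded.2 hx
  have hB : B = 0 := by
    by_contra hB
    have hd := deg_gap A B e₁ e₂ e₃ hB
    set N := A ^ 2 - B ^ 2 * ((X - C e₁) * (X - C e₂) * (X - C e₃)) with hN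
    have hd0 : (1 : ℂ[X]).natDegree < N.natDegree := by
      rw [natDegree_one]
      omega
    have o1 : (fun q => A.eval (x q)) =o[l] fun q => N.eval (x q) :=
      (isLittleO_cobounded_of_degree_lt (degree_lt_degree hd)).comp_tendsto hx
    have o2 : (fun q => (1 : ℂ[X]).eval (x q)) =o[l] fun q => N.eval (x q) :=
      (isLittleO_cobounded_of_degree_lt (degree_lt_degree hd0)).comp_tendsto hx
    have b1 : w =O[l] fun _ => (1 : ℂ) := hw.isBigO_one ℂ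
    have o3 : w =o[l] fun q => N.eval (x q) := by
      refine b1.trans_isLittleO ?_
      simpa only [eval_one] using o2
    have o4 : (fun q => w q * (2 * A.eval (x q) - w q)) =o[l] fun q => 1 * N.eval (x q) :=
      b1.mul_isLittleO ((o1.const_mul_left 2).sub o3)
    have e1 : (fun q => w q * (2 * A.eval (x q) - w q)) =ᶠ[l] fun q => N.eval (x q) := by
      filter_upwards [h] with q hq
      simp only [hN, eval_sub, eval_mul, eval_pow, eval_X, eval_C]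
      rw [← hq.1, hq.2]
      ring
    have o5 : (fun q => N.eval (x q)) =o[l] fun q => N.eval (x q) := by
      have := o4.congr' e1 EventuallyEq.rfl
      simpa only [one_mul] using this
    have t1 := N.tendsto_norm_atTop (natDegree_pos_iff_degree_pos.1 (by omega)) hxn
    refine isLittleO_irrefl' ?_ o5
    exact ((t1.eventually_gt_atTop 0).mono fun q hq => hq.ne').frequently
  refine ⟨hB, ?_⟩
  by_contra hA
  have t1 := A.tendsto_norm_atTop (natDegree_pos_iff_degree_pos.1 (Nat.pos_of_ne_zero hA)) hxn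
  have t2 : Tendsto (fun q => ‖A.eval (x q)‖) l (𝓝 ‖w₀‖) := by
    refine hw.norm.congr' ?_
    filter_upwards [h] with q hq
    rw [hq.2, hB]
    simp
  exact not_tendsto_atTop_of_tendsto_nhds t2 t1

theorem at_fin {l : Filter ℂ} [l.NeBot] {x y u : ℂ → ℂ} {u₀ s t : ℂ} (A B D : ℂ[X])
    (hx : Tendsto x l (𝓝 s)) (hy : Tendsto y l (𝓝 t)) (hu : Tendsto u l (𝓝 u₀))
    (hD : D.eval s = 0)
    (h : ∀ᶠ q in l, u q * D.eval (x q) = A.eval (x q) + B.eval (x q) * y q) :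
    A.eval s + B.eval s * t = 0 := by
  have t1 := hu.mul (ev_tendsto D hx)
  have t2 := (ev_tendsto A hx).add ((ev_tendsto B hx).mul hy)
  have := tendsto_nhds_unique (t1.congr' h) t2
  rw [← this, hD, mul_zero]

theorem at_branch {l : Filter ℂ} [l.NeBot] {x y u : ℂ → ℂ} {u₀ s g₁ g₂ : ℂ} (A B D : ℂ[X])
    (hx : Tendsto x l (𝓝 s)) (hu : Tendsto u l (𝓝 u₀)) (hg : (s - g₁) * (s - g₂) ≠ 0)
    (h : ∀ᶠ q in l, x q ≠ s ∧ y q ^ 2 = (x q - s) * ((x q - g₁) * (x q - g₂)) ∧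
      u q * ((x q - s) * D.eval (x q)) = (x q - s) * A.eval (x q) + B.eval (x q) * y q) :
    B.eval s = 0 := by
  have t1 := (hx.sub_const s).mul (((hu.mul (ev_tendsto D hx)).sub (ev_tendsto A hx)).pow 2)
  have t2 := ((ev_tendsto B hx).pow 2).mul ((hx.sub_const g₁).mul (hx.sub_const g₂))
  have e1 : (fun q => (x q - s) * (u q * D.eval (x q) - A.eval (x q)) ^ 2) =ᶠ[l]
      fun q => B.eval (x q) ^ 2 * ((x q - g₁) * (x q - g₂)) := by
    filter_upwards [h] with q hq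
    obtain ⟨h1, h2, h3⟩ := hq
    refine mul_left_cancel₀ (sub_ne_zero.2 h1) ?_
    have h4 : (x q - s) * (u q * D.eval (x q) - A.eval (x q)) = B.eval (x q) * y q := by
      linear_combination h3
    calc (x q - s) * ((x q - s) * (u q * D.eval (x q) - A.eval (x q)) ^ 2)
        = ((x q - s) * (u q * D.eval (x q) - A.eval (x q))) ^ 2 := by ring
      _ = B.eval (x q) ^ 2 * y q ^ 2 := by rw [h4]; ring
      _ = (x q - s) * (B.eval (x q) ^ 2 * ((x q - g₁) * (x q - g₂))) := by rw [h2]; ring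
  have := tendsto_nhds_unique (t1.congr' e1) t2
  rw [sub_self, zero_mul] at this
  exact pow_eq_zero_iff (two_ne_zero) |>.1 ((mul_eq_zero.1 this.symm).resolve_right hg)

theorem main {e₁ e₂ e₃ : ℂ} {U : Set ℂ} {x y u : ℂ → ℂ} (h12 : e₁ ≠ e₂) (h13 : e₁ ≠ e₃)
    (h23 : e₂ ≠ e₃) (hU : IsOpen U) (hu : ContinuousOn u U)
    (hy : ∀ c ∈ U, ∀ᶠ q in 𝓝[≠] c, y q ^ 2 = (x q - e₁) * (x q - e₂) * (x q - e₃))
    (hx : ∀ c ∈ U, ∀ t : ℂ, ∀ᶠ q in 𝓝[≠] c, x q ≠ t)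
    (hinf : ∃ c ∈ U, Tendsto x (𝓝[≠] c) (Bornology.cobounded ℂ))
    (hfin : ∀ s t : ℂ, t ^ 2 = (s - e₁) * (s - e₂) * (s - e₃) →
      ∃ c ∈ U, Tendsto x (𝓝[≠] c) (𝓝 s) ∧ Tendsto y (𝓝[≠] c) (𝓝 t))
    (n : ℕ) (A B D : ℂ[X]) (hn : D.natDegree = n) (hD : D ≠ 0)
    (h : ∀ c ∈ U, ∀ᶠ q in 𝓝[≠] c, u q * D.eval (x q) = A.eval (x q) + B.eval (x q) * y q) :
    ∃ κ : ℂ, ∀ c ∈ U, ∀ᶠ q in 𝓝[≠] c, u q = κ := by
  induction n generalizing A B D with
  | zero =>
    obtain ⟨a, rfl⟩ := natDegree_eq_zero.1 hn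
    have ha : a ≠ 0 := fun h0 => hD (by rw [h0, map_zero])
    obtain ⟨c, hc, hci⟩ := hinf
    obtain ⟨hB, hA⟩ := at_inf (w := fun q => u q * a) (e₁ := e₁) (e₂ := e₂) (e₃ := e₃) (y := y)
      A B hci ((u_tendsto hU hu hc).mul_const a) (by
        filter_upwards [hy c hc, h c hc] with q h1 h2
        exact ⟨h1, by simpa only [eval_C] using h2⟩)
    obtain ⟨a₀, rfl⟩ := natDegree_eq_zero.1 hA
    refine ⟨a₀ / a, fun c' hc' => ?_⟩
    filter_upwards [h c' hc'] with q hq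
    rw [eq_div_iff ha]
    simpa only [hB, eval_C, eval_zero, zero_mul, add_zero] using hq
  | succ n ih =>
    obtain ⟨s, hs⟩ := Complex.exists_root (f := D) (natDegree_pos_iff_degree_pos.1 (by omega))
    obtain ⟨t, ht⟩ := IsAlgClosed.exists_pow_nat_eq ((s - e₁) * (s - e₂) * (s - e₃))
      (n := 2) (by norm_num)
    obtain ⟨c₁, hc₁, hx₁, hy₁⟩ := hfin s t ht
    obtain ⟨c₂, hc₂, hx₂, hy₂⟩ := hfin s (-t) (by rw [← ht]; ring)
    have k1 := at_fin A B D hx₁ hy₁ (u_tendsto hU hu hc₁) hs (h c₁ hc₁)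
    have k2 := at_fin A B D hx₂ hy₂ (u_tendsto hU hu hc₂) hs (h c₂ hc₂)
    have hA : A.IsRoot s := by
      have : 2 * A.eval s = 0 := by linear_combination k1 + k2
      exact (mul_eq_zero.1 this).resolve_left two_ne_zero
    obtain ⟨A₁, rfl⟩ := dvd_iff_isRoot.2 hA
    obtain ⟨D₁, rfl⟩ := dvd_iff_isRoot.2 hs
    have hB : B.IsRoot s := by
      by_cases h0 : t = 0
      · obtain ⟨g₁, g₂, hg, hf⟩ := split_root (s := s) h12 h13 h23 (by rw [← ht, h0]; ring)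
        refine at_branch (y := y) A₁ B D₁ hx₁ (u_tendsto hU hu hc₁) hg ?_
        filter_upwards [hx c₁ hc₁ s, hy c₁ hc₁, h c₁ hc₁] with q h1 h2 h3
        refine ⟨h1, by rw [h2, hf], ?_⟩
        simpa only [eval_mul, eval_sub, eval_X, eval_C] using h3
      · have h5 : 2 * (B.eval s * t) = 0 := by linear_combination k1 - k2
        exact (mul_eq_zero.1 ((mul_eq_zero.1 h5).resolve_left two_ne_zero)).resolve_right h0
    obtain ⟨B₁, rfl⟩ := dvd_iff_isRoot.2 hB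
    have hD₁ : D₁ ≠ 0 := right_ne_zero_of_mul hD
    refine ih A₁ B₁ D₁ ?_ hD₁ fun c hc => ?_
    · rw [natDegree_mul (X_sub_C_ne_zero _) hD₁, natDegree_X_sub_C] at hn
      omega
    · filter_upwards [hx c hc s, h c hc] with q h1 h2
      simp only [eval_mul, eval_sub, eval_X, eval_C] at h2
      refine mul_left_cancel₀ (sub_ne_zero.2 h1) ?_
      linear_combination h2

end A5x

theorem a5 : S_A5 := by
  intro e₁ e₂ e₃ U x y u A B D h12 h13 h23 hD hU hu h hx hne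
  by_contra hcon
  rw [not_or] at hcon
  obtain ⟨h1, h2⟩ := hcon
  have hinf : ∃ c ∈ U, Tendsto x (𝓝[≠] c) (Bornology.cobounded ℂ) := by
    by_contra h3
    exact h1 fun c hc h4 => h3 ⟨c, hc, h4⟩
  have hfin : ∀ s t : ℂ, t ^ 2 = (s - e₁) * (s - e₂) * (s - e₃) →
      ∃ c ∈ U, Tendsto x (𝓝[≠] c) (𝓝 s) ∧ Tendsto y (𝓝[≠] c) (𝓝 t) := by
    intro s t ht
    by_contra h3
    exact h2 ⟨s, t, ht, fun c hc h4 => h3 ⟨c, hc, h4⟩⟩
  obtain ⟨κ, hκ⟩ := A5x.main h12 h13 h23 hU hu (fun c hc => (h c hc).mono fun q hq => hq.1) hx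
    hinf hfin _ A B D rfl hD fun c hc => (h c hc).mono fun q hq => hq.2
  have key : ∀ c ∈ U, u c = κ := fun c hc =>
    tendsto_nhds_unique ((A5x.u_tendsto hU hu hc).congr' (hκ c hc)) tendsto_const_nhds
  obtain ⟨c, hc, c', hc', hcc⟩ := hne
  exact hcc ((key c hc).trans (key c' hc').symm)

end Pool.Agent.MP_b2c033_nt.H87
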