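import Pool.Agent.MP_b2c033_nt.H87.Spec

/-! Translation of a meromorphic point of a cubic by an omitted finite point. -/

namespace Pool.Agent.MP_b2c033_nt.H87

open Filter Metric Topology

namespace A6bx

/-- the chord relation -/
theorem chord (e₁ e₂ e₃ s t x y l : ℂ) (hx : x ≠ s) (hl : l * (x - s) = y + t)
    (hy : y ^ 2 = (x - e₁) * (x - e₂) * (x - e₃))
    (ht : t ^ 2 = (s - e₁) * (s - e₂) * (s - e₃)) :
    (x - s) * (l ^ 2 + (e₁ + e₂ + e₃) - x - s - s) =
      (s - e₁) * (s - e₂) + (s - e₁) * (s - e₃) + (s - e₂) * (s - e₃) + 2 * t * l := by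
  have h0 : x - s ≠ 0 := sub_ne_zero.mpr hx
  apply mul_left_cancel₀ h0
  have hy' : y = l * (x - s) - t := by rw [hl]; ring
  rw [hy'] at hy
  linear_combination hy - ht

theorem lim {ι : Type} (F : Filter ι) (a w l : ι → ℂ) (A B t : ℂ)
    (hw : Tendsto w F (Bornology.cobounded ℂ))
    (h1 : ∀ᶠ q in F, a q * w q = B + 2 * t * l q ∧ a q + w q = l q ^ 2 - A) :
    Tendsto a F (𝓝 0) ∧ Tendsto (fun q => l q * a q) F (𝓝 (2 * t)) := by
  have he : Tendsto (fun q => (w q)⁻¹) F (𝓝 0) := Filter.tendsto_inv₀_cobounded.comp hw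
  have hne : ∀ᶠ q in F, w q ≠ 0 := by
    have : ∀ᶠ q in F, (1 : ℝ) ≤ ‖w q‖ :=
      (tendsto_norm_atTop_iff_cobounded.mpr hw).eventually (eventually_ge_atTop 1)
    filter_upwards [this] with q hq h0
    rw [h0, norm_zero] at hq; linarith
  have ha : ∀ᶠ q in F, a q = B * (w q)⁻¹ + 2 * t * (l q * (w q)⁻¹) := by
    filter_upwards [h1, hne] with q hq h0
    field_simp
    linear_combination hq.1
  have hsq : Tendsto (fun q => (l q * (w q)⁻¹ - t * (w q)⁻¹ ^ 2) ^ 2) F (𝓝 0) := by
    have h2 : Tendsto (fun q => t ^ 2 * (w q)⁻¹ ^ 4 + B * (w q)⁻¹ ^ 3 + A * (w q)⁻¹ ^ 2 + (w q)⁻¹)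
        F (𝓝 (t ^ 2 * 0 ^ 4 + B * 0 ^ 3 + A * 0 ^ 2 + 0)) :=
      ((((he.pow 4).const_mul _).add ((he.pow 3).const_mul _)).add
        ((he.pow 2).const_mul _)).add he
    have h3 : (t ^ 2 * 0 ^ 4 + B * 0 ^ 3 + A * 0 ^ 2 + 0 : ℂ) = 0 := by ring
    rw [h3] at h2
    refine h2.congr' ?_
    filter_upwards [h1, hne] with q hq h0
    field_simp
    linear_combination (w q ^ 2) * hq.2 - (w q) * hq.1
  have hd : Tendsto (fun q => l q * (w q)⁻¹ - t * (w q)⁻¹ ^ 2) F (𝓝 0) := by
    rw [tendsto_zero_iff_norm_tendsto_zero] at hsq ⊢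
    have h4 := hsq.sqrt
    rw [Real.sqrt_zero] at h4
    refine h4.congr fun q => ?_
    rw [norm_pow, Real.sqrt_sq (norm_nonneg _)]
  have hr : Tendsto (fun q => l q * (w q)⁻¹) F (𝓝 0) := by
    have h5 := hd.add ((he.pow 2).const_mul t)
    have h6 : (0 + t * 0 ^ 2 : ℂ) = 0 := by ring
    rw [h6] at h5
    refine h5.congr fun q => by ring
  have ha0 : Tendsto a F (𝓝 0) := by
    have h5 := (he.const_mul B).add (hr.const_mul (2 * t))
    have h6 : (B * 0 + 2 * t * 0 : ℂ) = 0 := by ring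
    rw [h6] at h5
    exact h5.congr' (ha.mono fun q hq => hq.symm)
  refine ⟨ha0, ?_⟩
  have h7 : Tendsto (fun q => B * (l q * (w q)⁻¹) + 2 * t * (a q * (w q)⁻¹ + 1 + A * (w q)⁻¹)) F
      (𝓝 (B * 0 + 2 * t * (0 * 0 + 1 + A * 0))) :=
    (hr.const_mul B).add ((((ha0.mul he).add_const 1).add (he.const_mul A)).const_mul (2 * t))
  have h8 : (B * 0 + 2 * t * (0 * 0 + 1 + A * 0) : ℂ) = 2 * t := by ring
  rw [h8] at h7
  refine h7.congr' ?_
  filter_upwards [h1, hne] with q hq h0
  field_simp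
  linear_combination (2 * t) * hq.2 - (l q) * hq.1

/-- the translate is not a root when `x` avoids one value -/
theorem root (A B s t x l w : ℂ) (hB : t = 0 → w = 0 → B ≠ 0)
    (h1 : (x - s) * w = B + 2 * t * l) (h2 : x - s + w = l ^ 2 - A) (h0 : t - l * w = 0) :
    x = s + (t / w) ^ 2 - A - w := by
  by_cases hw : w = 0
  · exfalso
    have ht : t = 0 := by rw [hw] at h0; linear_combination h0
    apply hB ht hw
    rw [hw, ht] at h1
    linear_combination -h1
  · have : t / w = l := by field_simp; linear_combination h0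
    rw [this]; linear_combination h2

end A6bx

open A6bx in
theorem a6b (h : S_RS) : S_A6b := by
  intro e₁ e₂ e₃ U x y s t h12 h13 h23 hU hP ht hO
  obtain ⟨hm, hq, hn⟩ := hP
  set l : ℂ → ℂ := fun q => (y q + t) / (x q - s) with hl
  set X0 : ℂ → ℂ := fun q => l q ^ 2 + (e₁ + e₂ + e₃) - x q - s with hX0
  set Y0 : ℂ → ℂ := fun q => t - l q * (X0 q - s) with hY0
  set A : ℂ := 3 * s - (e₁ + e₂ + e₃) with hA
  set B : ℂ := (s - e₁) * (s - e₂) + (s - e₁) * (s - e₃) + (s - e₂) * (s - e₃) with hB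
  have ml : ∀ c ∈ U, MeromorphicAt l c := fun c hc =>
    ((hm c hc).2.fun_add (MeromorphicAt.const t c)).fun_div
      ((hm c hc).1.fun_sub (MeromorphicAt.const s c))
  have mX : ∀ c ∈ U, MeromorphicAt X0 c := fun c hc =>
    ((((ml c hc).fun_pow 2).fun_add (MeromorphicAt.const _ c)).fun_sub (hm c hc).1).fun_sub
      (MeromorphicAt.const s c)
  have mY : ∀ c ∈ U, MeromorphicAt Y0 c := fun c hc =>
    (MeromorphicAt.const t c).fun_sub
      ((ml c hc).fun_mul ((mX c hc).fun_sub (MeromorphicAt.const s c)))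
  have rel : ∀ c ∈ U, ∀ᶠ q in 𝓝[≠] c, l q * (x q - s) = y q + t ∧
      (x q - s) * (X0 q - s) = B + 2 * t * l q ∧ (x q - s) + (X0 q - s) = l q ^ 2 - A := by
    intro c hc
    filter_upwards [hq c hc, hn c hc s] with q h1 h2
    have h3 : l q * (x q - s) = y q + t := div_mul_cancel₀ _ (sub_ne_zero.mpr h2)
    refine ⟨h3, chord e₁ e₂ e₃ s t (x q) (y q) (l q) h2 h3 h1 ht, ?_⟩
    simp only [hX0, hA]; ring
  have eqn : ∀ c ∈ U, ∀ᶠ q in 𝓝[≠] c,
      Y0 q ^ 2 = (X0 q - e₁) * (X0 q - e₂) * (X0 q - e₃) := by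
    intro c hc
    filter_upwards [rel c hc] with q h1
    obtain ⟨-, h2, h3⟩ := h1
    simp only [hY0]
    rw [hA] at h3
    rw [hB] at h2
    linear_combination ht + (X0 q - s) * h2 - (X0 q - s) ^ 2 * h3
  have limX : ∀ c ∈ U, ∃ z, Tendsto X0 (𝓝[≠] c) (𝓝 z) := by
    intro c hc
    rcases lt_or_ge (meromorphicOrderAt (fun q => X0 q - s) c) 0 with ho | ho
    · exfalso
      obtain ⟨h1, h2⟩ := lim (𝓝[≠] c) (fun q => x q - s) (fun q => X0 q - s) l A B t
        (tendsto_cobounded_of_meromorphicOrderAt_neg ho) ((rel c hc).mono fun q hq => hq.2)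
      refine hO c hc ⟨?_, ?_⟩
      · have := h1.add_const s
        simpa using this
      · have h3 := h2.sub_const t
        have h4 : 2 * t - t = t := by ring
        rw [h4] at h3
        refine h3.congr' ?_
        filter_upwards [rel c hc] with q hq
        rw [hq.1]; ring
    · obtain ⟨z, hz⟩ := tendsto_nhds_of_meromorphicOrderAt_nonneg
        ((mX c hc).fun_sub (MeromorphicAt.const s c)) ho
      refine ⟨z + s, ?_⟩
      have := hz.add_const s
      simpa using this
  obtain ⟨X, hXd, hXe⟩ := h U X0 hU (by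
    intro c hc
    obtain ⟨z, hz⟩ := limX c hc
    refine ⟨‖z‖ + 1, ?_⟩
    filter_upwards [(mX c hc).eventually_analyticAt,
      hz.norm.eventually (eventually_le_nhds (lt_add_one ‖z‖))] with q h1 h2
    exact ⟨h1.differentiableAt, h2⟩)
  obtain ⟨Y, hYd, hYe⟩ := h U Y0 hU (by
    intro c hc
    obtain ⟨z, hz⟩ := limX c hc
    have hz' := (((hz.sub_const e₁).mul (hz.sub_const e₂)).mul (hz.sub_const e₃)).norm
    refine ⟨‖(z - e₁) * (z - e₂) * (z - e₃)‖ + 2, ?_⟩
    filter_upwards [(mY c hc).eventually_analyticAt, eqn c hc,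
      hz'.eventually (eventually_le_nhds (lt_add_one _))] with q h1 h2 h3
    refine ⟨h1.differentiableAt, ?_⟩
    rw [← h2, norm_pow] at h3
    nlinarith [sq_nonneg (‖Y0 q‖ - 1), norm_nonneg ((z - e₁) * (z - e₂) * (z - e₃))])
  refine ⟨X, Y, hXd, hYd, ?_, ?_⟩
  · intro c hc
    have cX : Tendsto X (𝓝[≠] c) (𝓝 (X c)) :=
      ((hXd.differentiableAt (hU.mem_nhds hc)).continuousAt.tendsto).mono_left nhdsWithin_le_nhds
    have cY : Tendsto Y (𝓝[≠] c) (𝓝 (Y c)) :=
      ((hYd.differentiableAt (hU.mem_nhds hc)).continuousAt.tendsto).mono_left nhdsWithin_le_nhds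
    refine tendsto_nhds_unique_of_eventuallyEq (cY.pow 2)
      (((cX.sub_const e₁).mul (cX.sub_const e₂)).mul (cX.sub_const e₃)) ?_
    filter_upwards [eqn c hc, hXe c hc, hYe c hc] with q h1 h2 h3
    rw [h2, h3]; exact h1
  · intro c hc
    have hder : (fun q => y q ^ 2) =ᶠ[𝓝[≠] c] fun q => (x q - e₁) * (x q - e₂) * (x q - e₃) :=
      hq c hc
    filter_upwards [rel c hc, eqn c hc, hYe c hc, (hXe c hc).nhdsNE_deriv, hder.nhdsNE_deriv,
      (hm c hc).1.eventually_analyticAt, (hm c hc).2.eventually_analyticAt, hn c hc s,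
      hn c hc (s + (t / (e₁ - s)) ^ 2 - A - (e₁ - s)),
      hn c hc (s + (t / (e₂ - s)) ^ 2 - A - (e₂ - s)),
      hn c hc (s + (t / (e₃ - s)) ^ 2 - A - (e₃ - s))] with q h1 h2 h3 h4 h5 ax ay n0 n1 n2 n3
    obtain ⟨r1, r2, r3⟩ := h1
    rw [h3, h4]
    refine ⟨?_, ?_⟩
    · intro h0
      rw [h0] at h2
      have h6 : (X0 q - e₁) * (X0 q - e₂) * (X0 q - e₃) = 0 := by linear_combination -h2
      have d12 := sub_ne_zero.mpr h12
      have d13 := sub_ne_zero.mpr h13
      have d23 := sub_ne_zero.mpr h23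
      rcases mul_eq_zero.mp h6 with h7 | h7
      · rcases mul_eq_zero.mp h7 with h8 | h8
        · have e : X0 q = e₁ := sub_eq_zero.mp h8
          simp only [hY0] at h0
          rw [e] at r2 r3 h0
          refine n1 (root A B s t (x q) (l q) (e₁ - s) (fun _ hw hb => ?_) r2 r3 h0)
          have : s = e₁ := (sub_eq_zero.mp hw).symm
          rw [hB, this] at hb
          exact mul_ne_zero d12 d13 (by linear_combination hb)
        · have e : X0 q = e₂ := sub_eq_zero.mp h8
          simp only [hY0] at h0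
          rw [e] at r2 r3 h0
          refine n2 (root A B s t (x q) (l q) (e₂ - s) (fun _ hw hb => ?_) r2 r3 h0)
          have : s = e₂ := (sub_eq_zero.mp hw).symm
          rw [hB, this] at hb
          exact mul_ne_zero d12 d23 (by linear_combination -hb)
      · have e : X0 q = e₃ := sub_eq_zero.mp h7
        simp only [hY0] at h0
        rw [e] at r2 r3 h0
        refine n3 (root A B s t (x q) (l q) (e₃ - s) (fun _ hw hb => ?_) r2 r3 h0)
        have : s = e₃ := (sub_eq_zero.mp hw).symm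
        rw [hB, this] at hb
        exact mul_ne_zero d13 d23 (by linear_combination hb)
    · have dx := ax.differentiableAt.hasDerivAt
      have dy := ay.differentiableAt.hasDerivAt
      have n0' : x q - s ≠ 0 := sub_ne_zero.mpr n0
      have dl : HasDerivAt l ((deriv y q * (x q - s) - (y q + t) * deriv x q) / (x q - s) ^ 2) q :=
        (dy.add_const t).fun_div (dx.sub_const s) n0'
      have dX : HasDerivAt X0 (2 * l q *
          ((deriv y q * (x q - s) - (y q + t) * deriv x q) / (x q - s) ^ 2) - deriv x q) q := by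
        have := (((dl.fun_pow 2).add_const (e₁ + e₂ + e₃)).fun_sub dx).sub_const s
        simpa [hX0] using this
      have d1 : HasDerivAt (fun q => y q ^ 2) (2 * y q * deriv y q) q := by
        simpa using dy.fun_pow 2
      have d2 := ((dx.sub_const e₁).fun_mul (dx.sub_const e₂)).fun_mul (dx.sub_const e₃)
      rw [d1.deriv, d2.deriv] at h5
      rw [dX.deriv]
      simp only [hY0]
      have hy' : y q = l q * (x q - s) - t := by rw [r1]; ring
      rw [hA] at r3
      rw [hB] at r2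
      field_simp
      rw [hy'] at h5 ⊢
      linear_combination (l q * (x q - s)) * h5 - l q * (x q - s) * deriv x q * r2 +
        2 * l q * (x q - s) ^ 2 * deriv x q * r3

end Pool.Agent.MP_b2c033_nt.H87
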