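import Pool.Agent.MP_b2c033_nt.H87.Spec

/-! The analytic bound for a point of the cubic given by functions on the unit disc. -/

namespace Pool.Agent.MP_b2c033_nt.H87

open Filter Metric Polynomial
open scoped Topology

namespace A7x

theorem ev {f : ℂ → ℂ} (hf : DifferentiableOn ℂ f (ball 0 1)) (h : ¬ ∀ z ∈ ball (0 : ℂ) 1, f z = 0)
    {c : ℂ} (hc : c ∈ ball (0 : ℂ) 1) : ∀ᶠ q in 𝓝[≠] c, f q ≠ 0 := by
  have ha := hf.analyticOnNhd isOpen_ball
  refine (ha c hc).eventually_eq_zero_or_eventually_ne_zero.resolve_left fun h0 => h ?_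
  exact ha.eqOn_zero_of_preconnected_of_eventuallyEq_zero (convex_ball _ _).isPreconnected hc h0

end A7x

theorem a7 (h5 : S_A5) (ha : S_A6a) (hb : S_A6b) (h7a : S_A7a) (h7b : S_A7b) : S_A7 := by
  intro e₁ e₂ e₃ a b e n d u A B C k m hD hC da db de dn dd hu hcub hrel hne hw heb hd0 hm
  have hO : IsOpen (ball (0 : ℂ) 1 \ {0}) := isOpen_ball.sdiff isClosed_singleton
  have hP : (e₁ - e₂) * (e₁ - e₃) * (e₂ - e₃) ≠ 0 := fun h0 => by
    rw [h0, norm_zero] at hD
    exact absurd hD (by norm_num)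
  have h12 : e₁ ≠ e₂ := fun h => hP (by rw [h]; ring)
  have h13 : e₁ ≠ e₃ := fun h => hP (by rw [h]; ring)
  have h23 : e₂ ≠ e₃ := fun h => hP (by rw [h]; ring)
  have h0 : (0 : ℂ) ∈ ball (0 : ℂ) 1 := mem_ball_self one_pos
  have hdp : 0 < ((m : ℝ) + 1) * ‖d 0‖ := mul_pos (by positivity) (norm_pos_iff.2 hd0)
  have hn0 : n 0 ≠ 0 := norm_pos_iff.1 (hdp.trans_le hm)
  have hev : ∀ c ∈ ball (0 : ℂ) 1 \ {0}, ∀ᶠ q in 𝓝[≠] c,
      q ∈ ball (0 : ℂ) 1 \ {0} ∧ e q ≠ 0 := fun c hc => by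
    filter_upwards [mem_nhdsWithin_of_mem_nhds (hO.mem_nhds hc),
      A7x.ev dd (fun h => hd0 (h 0 h0)) hc.1] with q hq hq'
    refine ⟨hq, fun h => mul_ne_zero (pow_ne_zero k hq.2) hq' ?_⟩
    rw [← heb q hq.1, h, zero_mul]
  have hy : ∀ c ∈ ball (0 : ℂ) 1 \ {0}, ∀ᶠ q in 𝓝[≠] c, (b q / e q) ^ 2 =
      (a q / e q - e₁) * (a q / e q - e₂) * (a q / e q - e₃) := fun c hc => by
    filter_upwards [hev c hc] with q hq
    have := hcub q hq.1.1
    have he := hq.2
    field_simp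
    linear_combination this
  have hx : ∀ c ∈ ball (0 : ℂ) 1 \ {0}, ∀ t : ℂ, ∀ᶠ q in 𝓝[≠] c, a q / e q ≠ t := fun c hc t => by
    have h1 : ¬ ∀ z ∈ ball (0 : ℂ) 1, a z - t * e z = 0 := fun h => by
      have h2 : ∀ᶠ q in 𝓝[≠] (0 : ℂ), False := by
        filter_upwards [mem_nhdsWithin_of_mem_nhds (isOpen_ball.mem_nhds h0), self_mem_nhdsWithin,
          A7x.ev dn (fun h => hn0 (h 0 h0)) h0] with q hq hq0 hq'
        have e1 : a =ᶠ[𝓝 q] fun z => t * e z := by
          filter_upwards [isOpen_ball.mem_nhds hq] with z hz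
          exact sub_eq_zero.1 (h z hz)
        refine mul_ne_zero (pow_ne_zero (k + m) hq0) hq' ?_
        rw [← hw q hq, e1.deriv_eq, deriv_const_mul_field, sub_eq_zero.1 (h q hq)]
        ring
      exact h2.exists.elim fun _ h => h
    filter_upwards [hev c hc, A7x.ev (da.sub (de.const_mul t)) h1 hc.1] with q hq hq' h
    exact hq' (sub_eq_zero.2 ((div_eq_iff hq.2).1 h))
  have hmer : MerPt e₁ e₂ e₃ (ball (0 : ℂ) 1 \ {0}) (fun q => a q / e q) fun q => b q / e q := by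
    refine ⟨fun c hc => ?_, hy, hx⟩
    have he := (de.analyticOnNhd isOpen_ball c hc.1).meromorphicAt
    exact ⟨(da.analyticOnNhd isOpen_ball c hc.1).meromorphicAt.div he,
      (db.analyticOnNhd isOpen_ball c hc.1).meromorphicAt.div he⟩
  have hhol : HolPt e₁ e₂ e₃ (ball (0 : ℂ) 1 \ {0}) (fun q => a q / e q) fun q => b q / e q := by
    rcases h5 e₁ e₂ e₃ _ (fun q => a q / e q) (fun q => b q / e q) u A B C h12 h13 h23 hC hO hu
      (fun c hc => by
        filter_upwards [hev c hc, hy c hc] with q hq hq'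
        exact ⟨hq', hrel q hq.1 hq.2⟩) hx hne with h | ⟨s, t, hs, h⟩
    · exact ha _ _ _ _ _ _ hO hmer h
    · exact hb _ _ _ _ _ _ s t h12 h13 h23 hO hmer hs h
  obtain ⟨X, Y, dX, dY, hXY, hY⟩ := hhol
  obtain ⟨γ, dγ, hγ, hK⟩ := h7a e₁ e₂ e₃ _ X Y hO hD dX dY hXY
    fun c hc => (hY c hc).mono fun _ h => h.1
  have key : ∀ c ∈ ball (0 : ℂ) 1 \ {0}, γ c * d c = c ^ m * n c := fun c hc => by
    have c1 : ContinuousAt (fun q => γ q * d q) c :=
      (dγ.continuousOn.continuousAt (hO.mem_nhds hc)).mul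
        (dd.continuousOn.continuousAt (isOpen_ball.mem_nhds hc.1))
    have c2 : ContinuousAt (fun q => q ^ m * n q) c :=
      (continuousAt_id.pow m).mul (dn.continuousOn.continuousAt (isOpen_ball.mem_nhds hc.1))
    refine tendsto_nhds_unique_of_eventuallyEq (l := 𝓝[≠] c) (c1.tendsto.mono_left nhdsWithin_le_nhds)
      (c2.tendsto.mono_left nhdsWithin_le_nhds) ?_
    filter_upwards [hev c hc, hY c hc] with q hq hq'
    have he := hq.2
    have h1 := hq'.2
    rw [deriv_fun_div (da.differentiableAt (isOpen_ball.mem_nhds hq.1.1))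
      (de.differentiableAt (isOpen_ball.mem_nhds hq.1.1)) he, ← hγ q hq.1, hw q hq.1.1] at h1
    have h2 : γ q * (e q * b q) = q ^ (k + m) * n q := by
      refine mul_right_cancel₀ hq'.1 ?_
      field_simp at h1
      linear_combination h1
    rw [heb q hq.1.1] at h2
    refine mul_left_cancel₀ (pow_ne_zero k hq.1.2) ?_
    linear_combination h2
  by_contra hlt
  have h3 := h7b γ n d m (33 / 100) dγ dn dd hd0 key fun c r hr hs => by
    by_contra h
    have h4 : (33 / 100 : ℝ) ^ 4 ≤ (‖γ c‖ * r) ^ 4 :=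
      pow_le_pow_left₀ (by norm_num) (not_le.1 h).le 4
    have h6 := mul_le_mul h4 (not_le.1 hlt).le (by norm_num) (by positivity)
    exact absurd (h6.trans (hK c r hr hs)) (by norm_num)
  nlinarith

end Pool.Agent.MP_b2c033_nt.H87
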