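import Pool.Agent.MP_b2c033_nt.H87.Spec

/-! The invariant differential along a holomorphic point of the cubic, and its leading term. -/

namespace Pool.Agent.MP_b2c033_nt.H87

open Filter Metric
open scoped Topology

namespace A7ax

theorem le_of_pow_four {t B : ℝ} (hB : 0 ≤ B) (h : t ^ 4 ≤ B) : t ≤ 1 + B := by
  by_contra hn
  have h1 : 1 ≤ t := by linarith
  have h2 : t ≤ t ^ 4 := le_self_pow₀ h1 (by norm_num)
  linarith

theorem pow_le_three (m : ℕ) : (((m : ℝ) + 2) / (m + 1)) ^ (m + 1) ≤ 3 := by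
  have h0 : (0 : ℝ) < m + 1 := by positivity
  have h1 : ((m : ℝ) + 2) / (m + 1) ≤ Real.exp (1 / (m + 1)) := by
    have := Real.add_one_le_exp (1 / ((m : ℝ) + 1))
    refine le_trans (le_of_eq ?_) this
    field_simp; ring
  refine (pow_le_pow_left₀ (by positivity) h1 _).trans ?_
  rw [← Real.exp_nat_mul]
  have e : ((m + 1 : ℕ) : ℝ) * (1 / (m + 1)) = 1 := by push_cast; field_simp
  rw [e]
  exact Real.exp_one_lt_d9.le.trans (by norm_num)

end A7ax

theorem a7a (h4 : S_A4) (h : S_RS) : S_A7a := by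
  intro e₁ e₂ e₃ U X Y hU he hX hY hE hY0
  have hδ : 0 < ‖e₁ - e₂‖ := by
    rw [norm_pos_iff]; intro h0; rw [h0] at he; simp at he; linarith
  have hX' : DifferentiableOn ℂ (deriv X) U := hX.deriv hU
  have key : ∀ (c g : ℂ) (r : ℝ), 0 < r → ball c r ⊆ U → Y c ≠ 0 → g * Y c = deriv X c →
      (‖g‖ * r) ^ 4 * ‖e₁ - e₂‖ ≤ 10 ^ 17 := fun c g r hr hb hc hg =>
    h4 e₁ e₂ e₃ X Y c g r hr he (hX.mono hb) (hY.mono hb) (fun q hq => hE q (hb hq)) hc hg
  obtain ⟨γ, hγ, hγe⟩ := h U (fun q => deriv X q / Y q) hU (by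
    intro c hc
    obtain ⟨R, hR, hb⟩ := Metric.isOpen_iff.1 hU c hc
    refine ⟨(1 + 10 ^ 17 / ‖e₁ - e₂‖) / (R / 2), ?_⟩
    have hb2 : ∀ᶠ q in 𝓝[≠] c, q ∈ ball c (R / 2) :=
      mem_nhdsWithin_of_mem_nhds (ball_mem_nhds c (by positivity))
    filter_upwards [hY0 c hc, hb2] with q hq hq2
    have hs : ball q (R / 2) ⊆ U :=
      (ball_subset_ball' (by have := mem_ball.1 hq2; linarith)).trans hb
    have hqU : q ∈ U := hs (mem_ball_self (by positivity))
    refine ⟨((hX' q hqU).differentiableAt (hU.mem_nhds hqU)).div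
      ((hY q hqU).differentiableAt (hU.mem_nhds hqU)) hq, ?_⟩
    have h1 := key q (deriv X q / Y q) (R / 2) (by positivity) hs hq (div_mul_cancel₀ _ hq)
    rw [le_div_iff₀ (by positivity)]
    exact A7ax.le_of_pow_four (by positivity) ((le_div_iff₀ hδ).2 h1))
  have hmul : ∀ q ∈ U, γ q * Y q = deriv X q := by
    intro q hq
    have hn := hU.mem_nhds hq
    have c1 : ContinuousAt (fun p => γ p * Y p) q :=
      ((hγ q hq).differentiableAt hn).continuousAt.mul ((hY q hq).differentiableAt hn).continuousAt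
    have c2 : ContinuousAt (deriv X) q := ((hX' q hq).differentiableAt hn).continuousAt
    refine tendsto_nhds_unique_of_eventuallyEq (l := 𝓝[≠] q) (c1.tendsto.mono_left nhdsWithin_le_nhds)
      (c2.tendsto.mono_left nhdsWithin_le_nhds) ?_
    filter_upwards [hY0 q hq, hγe q hq] with p hp hp2
    rw [hp2]; exact div_mul_cancel₀ _ hp
  refine ⟨γ, hγ, hmul, fun c r hr hb => ?_⟩
  have hc : c ∈ U := hb (mem_ball_self hr)
  have c1 : ContinuousAt γ c := ((hγ c hc).differentiableAt (hU.mem_nhds hc)).continuousAt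
  have c2 : ContinuousAt (fun q => (‖γ q‖ * (r - dist q c)) ^ 4 * ‖e₁ - e₂‖) c := by fun_prop
  have t2 := c2.tendsto.mono_left (nhdsWithin_le_nhds (s := {c}ᶜ))
  simp only [dist_self, sub_zero] at t2
  refine le_of_tendsto t2 ?_
  have hb2 : ∀ᶠ q in 𝓝[≠] c, q ∈ ball c r := mem_nhdsWithin_of_mem_nhds (ball_mem_nhds c hr)
  filter_upwards [hY0 c hc, hb2] with q hq hq2
  exact key q (γ q) _ (sub_pos.2 (mem_ball.1 hq2)) ((ball_subset_ball' (by linarith)).trans hb) hq
    (hmul q (hb hq2))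

theorem a7b : S_A7b := by
  classical
  intro γ n d m K hγ hn hd hd0 hE hK
  set g : ℂ → ℂ := fun q => if q = 0 then n 0 / d 0 else γ q / q ^ m with hg
  have h0 : ball (0 : ℂ) 1 ∈ 𝓝 (0 : ℂ) := ball_mem_nhds 0 one_pos
  have hdiff : DifferentiableOn ℂ g (ball 0 1) := by
    intro q hq
    refine DifferentiableAt.differentiableWithinAt ?_
    by_cases hq0 : q = 0
    · subst hq0
      have d1 := (hn 0 hq).differentiableAt h0
      have d2 := (hd 0 hq).differentiableAt h0
      refine (d1.div d2 hd0).congr_of_eventuallyEq ?_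
      filter_upwards [h0, d2.continuousAt.eventually_ne hd0] with p hp hp2
      by_cases hp0 : p = 0
      · simp [hg, hp0]
      · simp only [hg, if_neg hp0, Pi.div_apply]
        rw [div_eq_div_iff (pow_ne_zero _ hp0) hp2, hE p ⟨hp, hp0⟩, mul_comm]
    · have ho : ball (0 : ℂ) 1 \ {0} ∈ 𝓝 q :=
        (isOpen_ball.sdiff isClosed_singleton).mem_nhds ⟨hq, hq0⟩
      have d1 := (hγ q ⟨hq, hq0⟩).differentiableAt ho
      have d2 : DifferentiableAt ℂ (fun p : ℂ => p ^ m) q := by fun_prop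
      refine (d1.div d2 (pow_ne_zero _ hq0)).congr_of_eventuallyEq ?_
      filter_upwards [ho] with p hp
      have hp0 : p ≠ 0 := hp.2
      simp only [hg, if_neg hp0, Pi.div_apply]
  have hm1 : (0 : ℝ) < m + 1 := by positivity
  have hm2 : (0 : ℝ) < m + 2 := by positivity
  set ρ : ℝ := (m + 1) / (m + 2) with hρ
  have hρ0 : 0 < ρ := by positivity
  have hρ1 : ρ + 1 / (m + 2) = 1 := by rw [hρ]; field_simp; ring
  have hr0 : (0 : ℝ) < 1 / (m + 2) := by positivity
  have hrρ : (1 : ℝ) / (m + 2) ≤ ρ :=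
    div_le_div_of_nonneg_right (by linarith [Nat.cast_nonneg (α := ℝ) m]) hm2.le
  have hmax : ‖g 0‖ ≤ 3 * K * (m + 1) := by
    refine Complex.norm_le_of_forall_mem_frontier_norm_le (U := ball 0 ρ) isBounded_ball
      (DifferentiableOn.diffContOnCl (hdiff.mono ?_)) (fun q hq => ?_)
      (subset_closure (mem_ball_self hρ0))
    · exact closure_ball_subset_closedBall.trans (closedBall_subset_ball (by linarith))
    · rw [frontier_ball _ hρ0.ne', mem_sphere_zero_iff_norm] at hq
      have hq0 : q ≠ 0 := by rw [← norm_pos_iff, hq]; exact hρ0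
      have h1 := hK q (1 / (m + 2)) hr0 (by
        intro p hp
        refine ⟨ball_subset_ball' (by rw [dist_zero_right, hq]; linarith) hp, ?_⟩
        rintro rfl
        rw [mem_ball, dist_zero_left, hq] at hp
        linarith)
      have hK0 : 0 ≤ K := le_trans (by positivity) h1
      simp only [hg, if_neg hq0, norm_div, norm_pow, hq]
      rw [mul_one_div, div_le_iff₀ hm2] at h1
      have h2 := A7ax.pow_le_three m
      have e : K * (m + 2) / ρ ^ m = K * (m + 1) * (((m : ℝ) + 2) / (m + 1)) ^ (m + 1) := by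
        rw [hρ, div_pow, div_pow, pow_succ, pow_succ]; field_simp
      refine (div_le_div_of_nonneg_right h1 (by positivity)).trans ?_
      rw [e]
      nlinarith [mul_nonneg hK0 hm1.le]
  simp only [hg, if_true, norm_div] at hmax
  rwa [div_le_iff₀ (norm_pos_iff.2 hd0)] at hmax

end Pool.Agent.MP_b2c033_nt.H87
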