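import Pool.Agent.MP_b2c033_nt.H87.Spec

/-! Minimal integral models and bounds for the coefficients. -/

namespace Pool.Agent.MP_b2c033_nt.H87

open WeierstrassCurve

namespace E1x

theorem chg (a₂ a₄ a₆ u c : ℚ) (hu : u ≠ 0) :
    (⟨(Units.mk0 u hu)⁻¹, c, 0, 0⟩ : VariableChange ℚ) • (⟨0, a₂, 0, a₄, a₆⟩ : WeierstrassCurve ℚ) =
      ⟨0, u ^ 2 * (a₂ + 3 * c), 0, u ^ 4 * (a₄ + 2 * a₂ * c + 3 * c ^ 2),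
        u ^ 6 * (c ^ 3 + a₂ * c ^ 2 + a₄ * c + a₆)⟩ := by
  rw [variableChange_def]
  ext <;> simp only [inv_inv, Units.val_mk0] <;> ring

theorem dsc {a₂ a₄ a₆ b₂ b₄ b₆ : ℤ} {u c : ℚ} (h₂ : u ^ 2 * (a₂ + 3 * c) = b₂)
    (h₄ : u ^ 4 * (a₄ + 2 * a₂ * c + 3 * c ^ 2) = b₄)
    (h₆ : u ^ 6 * (c ^ 3 + a₂ * c ^ 2 + a₄ * c + a₆) = b₆) :
    (disc b₂ b₄ b₆ : ℚ) = u ^ 12 * disc a₂ a₄ a₆ := by
  simp only [disc]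
  push_cast
  rw [← h₂, ← h₄, ← h₆]
  ring

theorem step {E : WeierstrassCurve ℚ} {C : VariableChange ℚ} {a₂ a₄ a₆ b₂ b₄ b₆ u c : ℚ}
    (h : C • E = ⟨0, a₂, 0, a₄, a₆⟩) (hu : u ≠ 0) (h₂ : u ^ 2 * (a₂ + 3 * c) = b₂)
    (h₄ : u ^ 4 * (a₄ + 2 * a₂ * c + 3 * c ^ 2) = b₄)
    (h₆ : u ^ 6 * (c ^ 3 + a₂ * c ^ 2 + a₄ * c + a₆) = b₆) :
    ∃ C' : VariableChange ℚ, C' • E = ⟨0, b₂, 0, b₄, b₆⟩ :=
  ⟨⟨(Units.mk0 u hu)⁻¹, c, 0, 0⟩ * C, by rw [mul_smul, h, chg, h₂, h₄, h₆]⟩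

theorem int_model (E : WeierstrassCurve ℚ) :
    ∃ (C : VariableChange ℚ) (a₂ a₄ a₆ : ℤ), C • E = ⟨0, a₂, 0, a₄, a₆⟩ := by
  let _ : Invertible (2 : ℚ) := invertibleOfNonzero two_ne_zero
  let W := E.toCharNeTwoNF • E
  have h : E.toCharNeTwoNF • E = ⟨0, W.a₂, 0, W.a₄, W.a₆⟩ :=
    WeierstrassCurve.ext W.a₁_of_isCharNeTwoNF rfl W.a₃_of_isCharNeTwoNF rfl rfl
  have k₂ := Rat.mul_den_eq_num W.a₂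
  have k₄ := Rat.mul_den_eq_num W.a₄
  have k₆ := Rat.mul_den_eq_num W.a₆
  obtain ⟨C, hC⟩ := step (u := W.a₂.den * W.a₄.den * W.a₆.den) (c := 0)
    (b₂ := (W.a₂.num * W.a₂.den * W.a₄.den ^ 2 * W.a₆.den ^ 2 : ℤ))
    (b₄ := (W.a₄.num * W.a₂.den ^ 4 * W.a₄.den ^ 3 * W.a₆.den ^ 4 : ℤ))
    (b₆ := (W.a₆.num * W.a₂.den ^ 6 * W.a₄.den ^ 6 * W.a₆.den ^ 5 : ℤ)) h (by positivity)
    (by push_cast; rw [← k₂]; ring) (by push_cast; rw [← k₄]; ring) (by push_cast; rw [← k₆]; ring)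
  exact ⟨C, _, _, _, hC⟩

theorem roots (a₂ a₄ a₆ : ℂ) : ∃ e₁ e₂ e₃ : ℂ, a₂ = -(e₁ + e₂ + e₃) ∧
    a₄ = e₁ * e₂ + e₁ * e₃ + e₂ * e₃ ∧ a₆ = -(e₁ * e₂ * e₃) := by
  obtain ⟨e, he⟩ := IsAlgClosed.exists_root (Cubic.toPoly ⟨1, a₂, a₄, a₆⟩) (by
    rw [Cubic.degree_of_a_ne_zero one_ne_zero]
    decide)
  obtain ⟨s, hs⟩ := IsAlgClosed.exists_pow_nat_eq ((a₂ + e) ^ 2 - 4 * (a₄ + e * (a₂ + e)))
    two_pos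
  have h : e ^ 3 + a₂ * e ^ 2 + a₄ * e + a₆ = 0 := by simpa [Cubic.toPoly] using he
  exact ⟨e, (-(a₂ + e) + s) / 2, (-(a₂ + e) - s) / 2, by ring, by linear_combination hs / 4,
    by linear_combination h - e * hs / 4⟩

theorem bnd {e₁ e₂ e₃ a : ℂ} (h : a = -(e₁ + e₂ + e₃)) (ha : ‖a‖ ≤ 1) (h₂ : ‖e₁ - e₂‖ ≤ 10 ^ 19)
    (h₃ : ‖e₁ - e₃‖ ≤ 10 ^ 19) : ‖e₁‖ ≤ 10 ^ 19 := by
  have e : (3 : ℂ) * e₁ = (e₁ - e₂) + (e₁ - e₃) - a := by rw [h]; ring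
  have h1 := norm_sub_le ((e₁ - e₂) + (e₁ - e₃)) a
  have h2 := norm_add_le (e₁ - e₂) (e₁ - e₃)
  rw [← e, norm_mul, Complex.norm_ofNat] at h1
  linarith

end E1x

open E1x

theorem e1 : S_E1 := by
  intro E _
  classical
  have hP : ∃ n : ℕ, ∃ (C : VariableChange ℚ) (a₂ a₄ a₆ : ℤ), C • E = ⟨0, a₂, 0, a₄, a₆⟩ ∧
      (disc a₂ a₄ a₆).natAbs = n :=
    let ⟨C, a₂, a₄, a₆, h⟩ := int_model E
    ⟨_, C, a₂, a₄, a₆, h, rfl⟩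
  obtain ⟨C₀, x₂, x₄, x₆, h₀, hn⟩ := Nat.find_spec hP
  obtain ⟨k, hk⟩ : ∃ k : ℤ, |x₂ + 3 * k| ≤ 1 := ⟨-((x₂ + 1) / 3), by rw [abs_le]; omega⟩
  have k₂ : (1 : ℚ) ^ 2 * (x₂ + 3 * k) = (x₂ + 3 * k : ℤ) := by push_cast; ring
  have k₄ : (1 : ℚ) ^ 4 * (x₄ + 2 * x₂ * k + 3 * k ^ 2) = (x₄ + 2 * x₂ * k + 3 * k ^ 2 : ℤ) := by
    push_cast; ring
  have k₆ : (1 : ℚ) ^ 6 * (k ^ 3 + x₂ * k ^ 2 + x₄ * k + x₆) =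
      (k ^ 3 + x₂ * k ^ 2 + x₄ * k + x₆ : ℤ) := by push_cast; ring
  obtain ⟨C, hC⟩ := step h₀ one_ne_zero k₂ k₄ k₆
  have hd := dsc k₂ k₄ k₆
  rw [one_pow, one_mul, Int.cast_inj] at hd
  generalize x₂ + 3 * k = a₂ at hk hC hd
  generalize x₄ + 2 * x₂ * k + 3 * k ^ 2 = a₄ at hC hd
  generalize k ^ 3 + x₂ * k ^ 2 + x₄ * k + x₆ = a₆ at hC hd
  have hne : disc a₂ a₄ a₆ ≠ 0 := fun h0 => by
    have h1 := (C • E).isUnit_Δ.ne_zero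
    have h2 : (disc a₂ a₄ a₆ : ℚ) = 0 := by rw [h0, Int.cast_zero]
    rw [hC] at h1
    simp only [disc] at h2
    push_cast at h2
    refine h1 ?_
    simp only [Δ, b₂, b₄, b₆, b₈]
    linear_combination 16 * h2
  refine ⟨C, a₂, a₄, a₆, hk, hC, hne, fun u c b₂ b₄ b₆ hu h₂ h₄ h₆ => ?_⟩
  obtain ⟨C', hC'⟩ := step hC hu h₂ h₄ h₆
  have h1 := Nat.find_min' hP ⟨C', b₂, b₄, b₆, hC', rfl⟩
  rw [← hn, ← hd] at h1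
  have h2 : |(disc a₂ a₄ a₆ : ℚ)| ≤ |(disc b₂ b₄ b₆ : ℚ)| := by
    rw [← Int.cast_abs, ← Int.cast_abs, Int.cast_le, Int.abs_eq_natAbs, Int.abs_eq_natAbs]
    exact_mod_cast h1
  rw [dsc h₂ h₄ h₆, abs_mul, abs_pow] at h2
  have h3 : (0 : ℚ) < |(disc a₂ a₄ a₆ : ℚ)| := abs_pos.2 (Int.cast_ne_zero.2 hne)
  exact (one_le_pow_iff_of_nonneg (abs_nonneg u) (by norm_num)).1 ((le_mul_iff_one_le_left h3).1 h2)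

theorem e3 : S_E3 := by
  intro a₂ a₄ a₆ ha hd H
  obtain ⟨e₁, e₂, e₃, h₂, h₄, h₆⟩ := roots a₂ a₄ a₆
  have hD : ((e₁ - e₂) * (e₁ - e₃) * (e₂ - e₃)) ^ 2 = (disc a₂ a₄ a₆ : ℤ) := by
    simp only [disc]
    push_cast
    rw [h₂, h₄, h₆]
    ring
  have h1 : 1 ≤ ‖(e₁ - e₂) * (e₁ - e₃) * (e₂ - e₃)‖ := by
    refine (one_le_pow_iff_of_nonneg (norm_nonneg _) two_ne_zero).1 ?_
    rw [← norm_pow, hD, Complex.norm_intCast]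
    exact_mod_cast Int.one_le_abs hd
  have d12 := H e₁ e₂ e₃ (fun t => by rw [h₂, h₄, h₆]; ring) h1
  have d13 := H e₁ e₃ e₂ (fun t => by rw [h₂, h₄, h₆]; ring) (by
    rw [← norm_neg]
    exact h1.trans_eq (congrArg norm (by ring)))
  have d23 := H e₂ e₃ e₁ (fun t => by rw [h₂, h₄, h₆]; ring) (h1.trans_eq (congrArg norm (by ring)))
  have ha' : ‖(a₂ : ℂ)‖ ≤ 1 := by
    rw [Complex.norm_intCast]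
    exact_mod_cast ha
  have n₁ := bnd h₂ ha' d12 d13
  have n₂ := bnd (e₂ := e₁) (e₃ := e₃) (by rw [h₂]; ring) ha' (norm_sub_rev e₁ e₂ ▸ d12) d23
  have n₃ := bnd (e₂ := e₁) (e₃ := e₂) (by rw [h₂]; ring) ha' (norm_sub_rev e₁ e₃ ▸ d13)
    (norm_sub_rev e₂ e₃ ▸ d23)
  have m : ∀ {x y : ℂ}, ‖x‖ ≤ 10 ^ 19 → ‖y‖ ≤ 10 ^ 19 → ‖x * y‖ ≤ 10 ^ 19 * 10 ^ 19 :=
    fun hx hy => (norm_mul _ _).trans_le (mul_le_mul hx hy (norm_nonneg _) (by norm_num))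
  have b₄ : ‖(a₄ : ℂ)‖ ≤ 10 ^ 40 := by
    have := norm_add₃_le (a := e₁ * e₂) (b := e₁ * e₃) (c := e₂ * e₃)
    rw [h₄]
    linarith [m n₁ n₂, m n₁ n₃, m n₂ n₃]
  have b₆ : ‖(a₆ : ℂ)‖ ≤ 10 ^ 60 := by
    rw [h₆, norm_neg, norm_mul]
    exact (mul_le_mul (m n₁ n₂) n₃ (norm_nonneg _) (by norm_num)).trans (by norm_num)
  rw [Complex.norm_intCast] at b₄ b₆
  exact ⟨by exact_mod_cast b₄, by exact_mod_cast b₆⟩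

end Pool.Agent.MP_b2c033_nt.H87
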