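import Pool.Agent.MP_b2c033_nt.H87.Spec

/-! Row E2: coordinates on the function field of a Weierstrass curve. -/

namespace Pool.Agent.MP_b2c033_nt.H87

open Polynomial WeierstrassCurve WeierstrassCurve.Affine

namespace E2x

variable {Λ : Type} [Field Λ] [Algebra ℚ Λ]

/-- coordinates of the original model -/
theorem coords (E : WeierstrassCurve ℚ) (ψ : E.toAffine.FunctionField →+* Λ) :
    ∃ x y : Λ, (∃ a, ψ a = x) ∧ (∃ a, ψ a = y) ∧
      y ^ 2 + (algebraMap ℚ Λ E.a₁ * x + algebraMap ℚ Λ E.a₃) * y =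
        x ^ 3 + algebraMap ℚ Λ E.a₂ * x ^ 2 + algebraMap ℚ Λ E.a₄ * x + algebraMap ℚ Λ E.a₆ ∧
      (∀ p q : ℚ[X], aeval x p + aeval x q * y = 0 → p = 0 ∧ q = 0) ∧
      ∀ a, ∃ p q p' q' : ℚ[X], aeval x p + aeval x q * y ≠ 0 ∧
        ψ a * (aeval x p + aeval x q * y) = aeval x p' + aeval x q' * y := by
  let φ : E.toAffine.CoordinateRing →+* Λ :=
    ψ.comp (algebraMap E.toAffine.CoordinateRing E.toAffine.FunctionField)
  have hφ : Function.Injective φ :=
    ψ.injective.comp (IsFractionRing.injective E.toAffine.CoordinateRing _)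
  let x : Λ := φ (CoordinateRing.mk E.toAffine (C X))
  let y : Λ := φ (CoordinateRing.mk E.toAffine X)
  have hC : ∀ p : ℚ[X], φ (CoordinateRing.mk E.toAffine (C p)) = aeval x p := by
    have h : (φ.comp ((CoordinateRing.mk E.toAffine).comp C) : ℚ[X] →+* Λ) =
        (aeval x : ℚ[X] →ₐ[ℚ] Λ).toRingHom := by
      apply Polynomial.ringHom_ext'
      · exact RingHom.ext_rat _ _
      · simp [x]
    intro p
    exact RingHom.congr_fun h p
  have hB : ∀ p q : ℚ[X], φ (p • (1 : E.toAffine.CoordinateRing) +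
      q • CoordinateRing.mk E.toAffine X) = aeval x p + aeval x q * y := by
    intro p q
    rw [CoordinateRing.smul, CoordinateRing.smul, map_add, map_mul, map_mul, hC, hC, map_one,
      mul_one]
  refine ⟨x, y, ⟨_, rfl⟩, ⟨_, rfl⟩, ?_, ?_, ?_⟩
  · have h := congrArg φ (CoordinateRing.smul_basis_mul_Y (W' := E.toAffine) 0 1)
    rw [map_mul, hB, hB] at h
    simp only [map_zero, map_one, map_add, map_sub, map_mul, map_pow, aeval_X, aeval_C] at h
    have hy : φ (CoordinateRing.mk E.toAffine X) = y := rfl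
    rw [hy] at h
    linear_combination h
  · intro p q h
    rw [← hB] at h
    exact CoordinateRing.smul_basis_eq_zero (hφ (h.trans (map_zero φ).symm))
  · intro a
    obtain ⟨m, n, hn, rfl⟩ := IsFractionRing.div_surjective (A := E.toAffine.CoordinateRing) a
    obtain ⟨p, q, hpq⟩ := CoordinateRing.exists_smul_basis_eq n
    obtain ⟨p', q', hpq'⟩ := CoordinateRing.exists_smul_basis_eq m
    have hn0 : φ n ≠ 0 := fun h =>
      nonZeroDivisors.ne_zero hn (hφ (h.trans (map_zero φ).symm))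
    refine ⟨p, q, p', q', ?_, ?_⟩
    · rw [← hB, hpq]; exact hn0
    · rw [← hB, ← hB, hpq, hpq', map_div₀]
      exact div_mul_cancel₀ _ hn0

/-- clearing the denominator with the conjugate -/
theorem clear (a₁ a₂ a₃ a₄ a₆ : ℚ) (x y k : Λ)
    (he : y ^ 2 + (algebraMap ℚ Λ a₁ * x + algebraMap ℚ Λ a₃) * y =
      x ^ 3 + algebraMap ℚ Λ a₂ * x ^ 2 + algebraMap ℚ Λ a₄ * x + algebraMap ℚ Λ a₆)
    (hi : ∀ p q : ℚ[X], aeval x p + aeval x q * y = 0 → p = 0 ∧ q = 0)
    (p q p' q' : ℚ[X]) (hn : aeval x p + aeval x q * y ≠ 0)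
    (hk : k * (aeval x p + aeval x q * y) = aeval x p' + aeval x q' * y) :
    ∃ A B D : ℚ[X], aeval x D ≠ 0 ∧ k * aeval x D = aeval x A + aeval x B * y := by
  let l : ℚ[X] := C a₁ * X + C a₃
  let f : ℚ[X] := X ^ 3 + C a₂ * X ^ 2 + C a₄ * X + C a₆
  have he' : y ^ 2 + aeval x l * y = aeval x f := by
    simp only [l, f, map_add, map_mul, map_pow, aeval_X, aeval_C]
    exact he
  have hc : aeval x (p - q * l) + aeval x (-q) * y ≠ 0 := by
    intro h
    obtain ⟨h1, h2⟩ := hi _ _ h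
    have hq : q = 0 := neg_eq_zero.mp h2
    rw [hq, zero_mul, sub_zero] at h1
    apply hn
    rw [h1, hq]; simp
  have hD : aeval x (p * (p - q * l) - q ^ 2 * f) =
      (aeval x p + aeval x q * y) * (aeval x (p - q * l) + aeval x (-q) * y) := by
    simp only [map_sub, map_mul, map_pow, map_neg]
    linear_combination (aeval x q) ^ 2 * he'
  refine ⟨p' * (p - q * l) - q' * q * f, q' * p - p' * q, p * (p - q * l) - q ^ 2 * f, ?_, ?_⟩
  · rw [hD]; exact mul_ne_zero hn hc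
  · rw [hD, ← mul_assoc, hk]
    simp only [map_sub, map_mul, map_neg]
    linear_combination (-(aeval x q' * aeval x q)) * he'

end E2x

theorem e2 : S_E2 := by
  intro E V a₂ a₄ a₆ K hV ⟨e⟩
  let ψ : E.toAffine.FunctionField →+* L := K.toSubfield.subtype.comp e.symm.toRingEquiv.toRingHom
  have hψK : ∀ a, ψ a ∈ K := fun a => (e.symm a).2
  have hKψ : ∀ k ∈ K, ∃ a, ψ a = k := fun k hk => ⟨e ⟨k, hk⟩, congrArg Subtype.val (e.symm_apply_apply ⟨k, hk⟩)⟩
  obtain ⟨x, y, ⟨ax, hax⟩, ⟨ay, hay⟩, he, hi, hs⟩ := E2x.coords E ψ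
  have hxK : x ∈ K := hax ▸ hψK ax
  have hyK : y ∈ K := hay ▸ hψK ay
  have h1 := congrArg WeierstrassCurve.a₁ hV
  have h2 := congrArg WeierstrassCurve.a₂ hV
  have h3 := congrArg WeierstrassCurve.a₃ hV
  have h4 := congrArg WeierstrassCurve.a₄ hV
  have h6 := congrArg WeierstrassCurve.a₆ hV
  rw [variableChange_a₁] at h1
  rw [variableChange_a₂] at h2
  rw [variableChange_a₃] at h3
  rw [variableChange_a₄] at h4
  rw [variableChange_a₆] at h6
  dsimp only at h1 h2 h3 h4 h6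
  have huv : (V.u : ℚ) * (V.u⁻¹ : ℚˣ) = 1 := V.u.mul_inv
  generalize (V.u : ℚ) = u at huv
  generalize ((V.u⁻¹ : ℚˣ) : ℚ) = v at huv h1 h2 h3 h4 h6
  have g1 := congrArg (algebraMap ℚ L) h1
  have g2 := congrArg (algebraMap ℚ L) h2
  have g3 := congrArg (algebraMap ℚ L) h3
  have g4 := congrArg (algebraMap ℚ L) h4
  have g6 := congrArg (algebraMap ℚ L) h6
  have guv := congrArg (algebraMap ℚ L) huv
  simp only [map_mul, map_add, map_sub, map_pow, map_ofNat, map_zero, map_intCast,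
    map_one] at g1 g2 g3 g4 g6 guv
  have mem : ∀ c : ℚ, algebraMap ℚ L c ∈ K := fun c => K.algebraMap_mem c
  set x' : L := algebraMap ℚ L v ^ 2 * (x - algebraMap ℚ L V.r) with hx'
  set y' : L := algebraMap ℚ L v ^ 3 *
    (y - algebraMap ℚ L V.s * (x - algebraMap ℚ L V.r) - algebraMap ℚ L V.t) with hy'
  have hxx : x = algebraMap ℚ L u ^ 2 * x' + algebraMap ℚ L V.r := by
    rw [hx']
    linear_combination (-(x - algebraMap ℚ L V.r) *
      (algebraMap ℚ L u * algebraMap ℚ L v + 1)) * guv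
  have hyy : y = algebraMap ℚ L u ^ 3 * y' + algebraMap ℚ L V.s * (x - algebraMap ℚ L V.r) +
      algebraMap ℚ L V.t := by
    rw [hy']
    linear_combination (-(y - algebraMap ℚ L V.s * (x - algebraMap ℚ L V.r) -
      algebraMap ℚ L V.t) * ((algebraMap ℚ L u * algebraMap ℚ L v) ^ 2 +
      algebraMap ℚ L u * algebraMap ℚ L v + 1)) * guv
  have hcomp : ∀ P : ℚ[X], aeval x' (P.comp (C u ^ 2 * X + C V.r)) = aeval x P := by
    intro P
    rw [aeval_comp]
    simp only [map_add, map_mul, map_pow, aeval_X, aeval_C]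
    rw [← hxx]
  refine ⟨x', K.mul_mem (K.pow_mem (mem v) 2) (K.sub_mem hxK (mem _)), y',
    K.mul_mem (K.pow_mem (mem v) 3)
      (K.sub_mem (K.sub_mem hyK (K.mul_mem (mem _) (K.sub_mem hxK (mem _)))) (mem _)),
    ?_, ?_, ?_⟩
  · rw [← g2, ← g4, ← g6, hx', hy']
    linear_combination (algebraMap ℚ L v) ^ 6 * he -
      (algebraMap ℚ L v) ^ 5 * (x - algebraMap ℚ L V.r) *
        (y - algebraMap ℚ L V.s * (x - algebraMap ℚ L V.r) - algebraMap ℚ L V.t) * g1 -
      (algebraMap ℚ L v) ^ 3 *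
        (y - algebraMap ℚ L V.s * (x - algebraMap ℚ L V.r) - algebraMap ℚ L V.t) * g3
  · intro P hP h0
    have hint : IsIntegral ℚ x' := isAlgebraic_iff_isIntegral.mp ⟨P, hP, h0⟩
    have hint2 : IsIntegral ℚ x := by
      rw [hxx]
      exact ((isIntegral_algebraMap.pow 2).mul hint).add isIntegral_algebraMap
    obtain ⟨Q, hQ, hQ0⟩ := isAlgebraic_iff_isIntegral.mpr hint2
    exact hQ (hi Q 0 (by rw [hQ0]; simp)).1
  · intro k hk
    obtain ⟨a, rfl⟩ := hKψ k hk
    obtain ⟨p, q, p', q', hn, hk'⟩ := hs a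
    obtain ⟨A, B, D, hD, hAB⟩ := E2x.clear _ _ _ _ _ x y (ψ a) he hi p q p' q' hn hk'
    refine ⟨(A + B * (C V.s * (X - C V.r) + C V.t)).comp (C u ^ 2 * X + C V.r),
      (C u ^ 3 * B).comp (C u ^ 2 * X + C V.r), D.comp (C u ^ 2 * X + C V.r), ?_, ?_⟩
    · intro h
      apply hD
      rw [← hcomp, h, map_zero]
    · rw [hcomp, hcomp, hcomp, hAB]
      simp only [map_add, map_mul, map_sub, map_pow, aeval_X, aeval_C]
      linear_combination (aeval x B) * hyy

end Pool.Agent.MP_b2c033_nt.H87
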