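import Pool.Agent.MP_b2c033_nt.H87.Spec

/-! A function fixed by the stabiliser of `t` is a rational function of `t` and `j`. -/

namespace Pool.Agent.MP_b2c033_nt.H87

open Filter Polynomial Asymptotics
open UpperHalfPlane hiding I
open scoped Real Manifold MatrixGroups Topology

noncomputable section

namespace M2x

theorem exp_le {κ κ' : ℝ} (h : κ ≤ κ') :
    (fun z : ℍ => Real.exp (κ * z.im)) =O[atImInfty] fun z => Real.exp (κ' * z.im) := by
  refine IsBigO.of_norm_le fun z => ?_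
  rw [Real.norm_eq_abs, abs_of_pos (Real.exp_pos _)]
  exact Real.exp_le_exp.2 (mul_le_mul_of_nonneg_right h z.im_pos.le)

theorem mer_const (c : ℂ) : Mer fun _ => c :=
  ⟨mdifferentiable_const, fun _ => ⟨0, by
    simpa using isBigO_const_const c (one_ne_zero (α := ℝ)) atImInfty⟩⟩

/-- the ring of functions that are holomorphic, and meromorphic at the cusps -/
def MR : Subring (ℍ → ℂ) where
  carrier := {φ | Mer φ}
  one_mem' := mer_const 1
  zero_mem' := mer_const 0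
  mul_mem' := by
    rintro a b ⟨ha, ha'⟩ ⟨hb, hb'⟩
    refine ⟨ha.mul hb, fun γ => ?_⟩
    obtain ⟨κ, h⟩ := ha' γ
    obtain ⟨κ', h'⟩ := hb' γ
    refine ⟨κ + κ', ?_⟩
    simpa only [add_mul, Real.exp_add, Pi.mul_apply] using h.mul h'
  add_mem' := by
    rintro a b ⟨ha, ha'⟩ ⟨hb, hb'⟩
    refine ⟨ha.add hb, fun γ => ?_⟩
    obtain ⟨κ, h⟩ := ha' γ
    obtain ⟨κ', h'⟩ := hb' γ
    exact ⟨max κ κ', (h.trans (exp_le (le_max_left _ _))).add (h'.trans (exp_le (le_max_right _ _)))⟩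
  neg_mem' := by
    rintro a ⟨ha, ha'⟩
    refine ⟨ha.neg, fun γ => ?_⟩
    obtain ⟨κ, h⟩ := ha' γ
    exact ⟨κ, h.neg_left⟩

theorem mdiff_smul (g : SL(2, ℤ)) : MDifferentiable 𝓘(ℂ) 𝓘(ℂ) fun z : ℍ => g • z := by
  have h := mdifferentiable_smul (g := (Matrix.SpecialLinearGroup.mapGL ℝ g : GL (Fin 2) ℝ))
    (by simp)
  exact h

theorem mer_smul {φ : ℍ → ℂ} (h : Mer φ) (g : SL(2, ℤ)) : Mer fun z => φ (g • z) :=
  ⟨h.1.comp (mdiff_smul g), fun γ => by simpa only [mul_smul] using h.2 (g * γ)⟩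

/-- the stabiliser of a function -/
def St (t : ℍ → ℂ) : Subgroup SL(2, ℤ) where
  carrier := {γ | ∀ z, t (γ • z) = t z}
  one_mem' := fun z => by rw [one_smul]
  mul_mem' := fun {a b} ha hb z => by rw [mul_smul, ha, hb]
  inv_mem' := fun {a} ha z => by rw [← ha (a⁻¹ • z), smul_inv_smul]

variable {H : Subgroup SL(2, ℤ)}

/-- the conjugate of a function along a coset -/
def cj (w : MR) (q : SL(2, ℤ) ⧸ H) : MR := ⟨fun z => w.1 (q.out⁻¹ • z), mer_smul w.2 _⟩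

theorem cj_mk {w : MR} (hw : ∀ γ ∈ H, ∀ z, w.1 (γ • z) = w.1 z) (g : SL(2, ℤ)) (z : ℍ) :
    (cj w (g : SL(2, ℤ) ⧸ H)).1 z = w.1 (g⁻¹ • z) := by
  obtain ⟨h, hh⟩ := QuotientGroup.mk_out_eq_mul H g
  change w.1 ((g : SL(2, ℤ) ⧸ H).out⁻¹ • z) = _
  rw [hh, mul_inv_rev, mul_smul, hw _ (H.inv_mem h.2)]

theorem cj_smul {w : MR} (hw : ∀ γ ∈ H, ∀ z, w.1 (γ • z) = w.1 z) (γ : SL(2, ℤ))
    (q : SL(2, ℤ) ⧸ H) (z : ℍ) : (cj w (γ • q)).1 (γ • z) = (cj w q).1 z := by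
  induction q using QuotientGroup.induction_on with
  | H g =>
    rw [MulAction.Quotient.smul_mk, cj_mk hw, cj_mk hw, smul_eq_mul, mul_inv_rev, mul_smul,
      inv_smul_smul]

/-- evaluation at a point -/
def ev (z : ℍ) : MR →+* ℂ := (Pi.evalRingHom (fun _ : ℍ => ℂ) z).comp MR.subtype

theorem ev_apply (z : ℍ) (w : MR) : ev z w = w.1 z := rfl

variable [Fintype (SL(2, ℤ) ⧸ H)] [DecidableEq (SL(2, ℤ) ⧸ H)]

variable (H) in
/-- the interpolation polynomial -/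
def Psi (t w : MR) : MR[X] :=
  ∑ q : SL(2, ℤ) ⧸ H, C (cj w q) * ∏ q' ∈ Finset.univ.erase q, (X - C (cj t q'))

theorem Psi_map (t w : MR) (z : ℍ) : (Psi H t w).map (ev z) =
    ∑ q : SL(2, ℤ) ⧸ H, C ((cj w q).1 z) *
      ∏ q' ∈ Finset.univ.erase q, (X - C ((cj t q').1 z)) := by
  simp only [Psi, Polynomial.map_sum, Polynomial.map_mul, Polynomial.map_prod, Polynomial.map_sub,
    map_C, map_X, ev_apply]

theorem Psi_inv {t w : MR} (ht : ∀ γ ∈ H, ∀ z, t.1 (γ • z) = t.1 z)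
    (hw : ∀ γ ∈ H, ∀ z, w.1 (γ • z) = w.1 z) (γ : SL(2, ℤ)) (z : ℍ) :
    (Psi H t w).map (ev (γ • z)) = (Psi H t w).map (ev z) := by
  rw [Psi_map, Psi_map]
  refine (Fintype.sum_equiv (MulAction.toPerm γ) _ _ fun q => ?_).symm
  rw [MulAction.toPerm_apply, cj_smul hw]
  congr 1
  refine Finset.prod_equiv (MulAction.toPerm γ) (fun q' => by simp) fun q' _ => ?_
  rw [MulAction.toPerm_apply, cj_smul ht]

theorem Psi_eval {t w : MR} (ht : ∀ γ ∈ H, ∀ z, t.1 (γ • z) = t.1 z)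
    (hw : ∀ γ ∈ H, ∀ z, w.1 (γ • z) = w.1 z) (z : ℍ) :
    ((Psi H t w).map (ev z)).eval (t.1 z) = w.1 z *
      ∏ q' ∈ Finset.univ.erase ((1 : SL(2, ℤ)) : SL(2, ℤ) ⧸ H), (t.1 z - (cj t q').1 z) := by
  rw [Psi_map, eval_finsetSum, Finset.sum_eq_single ((1 : SL(2, ℤ)) : SL(2, ℤ) ⧸ H)]
  · simp only [eval_mul, eval_C, eval_prod, eval_sub, eval_X]
    rw [cj_mk hw, inv_one, one_smul]
  · intro q _ hq
    simp only [eval_mul, eval_C, eval_prod, eval_sub, eval_X]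
    rw [Finset.prod_eq_zero (i := ((1 : SL(2, ℤ)) : SL(2, ℤ) ⧸ H)) (by simpa using hq.symm),
      mul_zero]
    rw [cj_mk ht, inv_one, one_smul, sub_self]
  · simp

theorem Psi_sum (h : S_M1) {t w : MR} (ht : ∀ γ ∈ H, ∀ z, t.1 (γ • z) = t.1 z)
    (hw : ∀ γ ∈ H, ∀ z, w.1 (γ • z) = w.1 z) : ∃ A : ℕ → ℂ[X], ∀ n, (Psi H t w).natDegree < n →
      ∀ z, ∑ i ∈ Finset.range n, (A i).eval (jj z) * t.1 z ^ i = w.1 z *
      ∏ q' ∈ Finset.univ.erase ((1 : SL(2, ℤ)) : SL(2, ℤ) ⧸ H), (t.1 z - (cj t q').1 z) := by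
  have h1 : ∀ i, ∃ P : ℂ[X], ∀ z, ((Psi H t w).coeff i).1 z = P.eval (jj z) := fun i =>
    h _ ((Psi H t w).coeff i).2 fun γ z => by
      have := congrArg (fun P => Polynomial.coeff P i) (Psi_inv ht hw γ z)
      simpa only [coeff_map, ev_apply] using this
  choose A hA using h1
  refine ⟨A, fun n hn z => ?_⟩
  rw [← Psi_eval ht hw, eval_eq_sum_range' (natDegree_map_le.trans_lt hn)]
  refine Finset.sum_congr rfl fun i _ => ?_
  rw [coeff_map, ev_apply, hA]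

end M2x

open M2x in
theorem m2 (h : S_M1) : S_M2 := by
  intro t u Γ hΓ ht hu hΓt hut
  classical
  have : (St t).FiniteIndex := Subgroup.finiteIndex_of_le (H := Γ) fun γ hγ => hΓt γ hγ
  have : Fintype (SL(2, ℤ) ⧸ St t) := Fintype.ofFinite _
  let t' : MR := ⟨t, ht⟩
  let u' : MR := ⟨u, hu⟩
  have h1 : ∀ γ ∈ St t, ∀ z, t'.1 (γ • z) = t'.1 z := fun γ hγ => hγ
  obtain ⟨A, hA⟩ := Psi_sum (H := St t) h (t := t') (w := u') h1 fun γ hγ => hut γ hγ
  obtain ⟨B, hB⟩ := Psi_sum (H := St t) h (t := t') (w := 1) h1 fun _ _ _ => rfl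
  let n := (Psi (St t) t' u').natDegree + (Psi (St t) t' 1).natDegree + 1
  have hA' := hA n (by omega)
  have hB' := hB n (by omega)
  refine ⟨n, A, B, fun z => ?_, ?_⟩
  · refine Eq.trans ?_ (hA' z).symm
    refine (congrArg (u z * ·) (hB' z)).trans ?_
    change u z * (1 * _) = u z * _
    rw [one_mul]
  · by_contra h0
    push Not at h0
    have h2 : ∏ q' ∈ Finset.univ.erase ((1 : SL(2, ℤ)) : SL(2, ℤ) ⧸ St t),
        (t - (cj t' q').1) = 0 := by
      funext z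
      have h3 := (hB' z).symm.trans (h0 z)
      change 1 * _ = 0 at h3
      rw [one_mul] at h3
      rw [Finset.prod_apply]
      exact h3
    rw [UpperHalfPlane.prod_eq_zero_iff fun q _ => ht.1.sub (cj t' q).2.1] at h2
    obtain ⟨q, hq, h3⟩ := h2
    induction q using QuotientGroup.induction_on with
    | H g =>
      refine (Finset.mem_erase.1 hq).1 (QuotientGroup.eq.2 ?_)
      rw [mul_one]
      intro z
      have h4 := congrFun h3 z
      rw [Pi.sub_apply, cj_mk h1, Pi.zero_apply, sub_eq_zero] at h4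
      exact h4.symm

end

end Pool.Agent.MP_b2c033_nt.H87
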