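import Pool.Agent.MP_b2c033_nt.H87.Spec

/-! Row M3a: the integral `q`-expansion of the Eisenstein series over `c = 1 mod M`. -/

namespace Pool.Agent.MP_b2c033_nt.H87

open UpperHalfPlane hiding I
open Complex EisensteinSeries
open scoped Real PowerSeries Nat

noncomputable section

namespace M3ax

/-- weighted Lambert series -/
theorem lambert (W : ℕ → ℤ) (hW : ∀ c, |W c| ≤ 1) {r : ℂ} (hr : ‖r‖ < 1) :
    HasSum (fun n : ℕ => ((∑ x ∈ n.divisorsAntidiagonal, W x.1 * (x.2 : ℤ) ^ 11 : ℤ) : ℂ) * r ^ n)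
      (∑' c : ℕ+, (W c : ℂ) * ∑' e : ℕ+, ((e : ℕ) : ℂ) ^ 11 * r ^ (c * e : ℕ)) := by
  have h1 : Summable fun c : ℕ+ × ℕ+ => (W c.1 : ℂ) * (((c.2 : ℕ) : ℂ) ^ 11 * r ^ (c.1 * c.2 : ℕ)) := by
    refine Summable.of_norm_bounded (summable_prod_mul_pow 11 hr).norm fun c => ?_
    rw [norm_mul]
    refine mul_le_of_le_one_left (norm_nonneg _) ?_
    rw [Complex.norm_intCast]
    exact_mod_cast hW c.1
  have h2 := h1.hasSum
  rw [h1.tsum_prod] at h2
  simp only [tsum_mul_left] at h2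
  have h3 := (sigmaAntidiagonalEquivProd.hasSum_iff.2 h2).sigma fun n => hasSum_fintype _
  have h4 : ∀ n : ℕ+, ∑ x : Nat.divisorsAntidiagonal n,
      ((fun c : ℕ+ × ℕ+ => (W c.1 : ℂ) * (((c.2 : ℕ) : ℂ) ^ 11 * r ^ (c.1 * c.2 : ℕ))) ∘
        sigmaAntidiagonalEquivProd) ⟨n, x⟩ =
      ((∑ x ∈ (n : ℕ).divisorsAntidiagonal, W x.1 * (x.2 : ℤ) ^ 11 : ℤ) : ℂ) * r ^ (n : ℕ) := by
    intro n
    push_cast
    rw [Finset.sum_mul, ← Finset.sum_coe_sort (n : ℕ).divisorsAntidiagonal]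
    refine Finset.sum_congr rfl fun x _ => ?_
    change (W x.1.1 : ℂ) * (((x.1.2 : ℕ) : ℂ) ^ 11 * r ^ (x.1.1 * x.1.2 : ℕ)) = _
    rw [(Nat.mem_divisorsAntidiagonal.1 x.2).1, mul_assoc]
  simp only [h4] at h3
  have h5 := (hasSum_pnat_iff (f := fun n : ℕ =>
    ((∑ x ∈ n.divisorsAntidiagonal, W x.1 * (x.2 : ℤ) ^ 11 : ℤ) : ℂ) * r ^ n)).1 h3
  simpa using h5

/-- the sum over one row of the lattice -/
def row (z : ℍ) (c : ℤ) : ℂ := ∑' d : ℤ, eisSummand 12 ![c, d] z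

theorem row_neg (z : ℍ) (c : ℤ) : row z (-c) = row z c := by
  unfold row
  rw [← (Equiv.neg ℤ).tsum_eq]
  refine tsum_congr fun d => ?_
  simp only [eisSummand, Equiv.neg_apply, Matrix.cons_val_zero, Matrix.cons_val_one,
    Matrix.cons_val_fin_one]
  push_cast
  rw [show -(c : ℂ) * z + -(d : ℂ) = -(c * z + d) by ring, Even.neg_zpow (by decide)]

theorem row_pos (z : ℍ) (c : ℕ+) : row z c = ((-2 * π * I) ^ 12 / (11 : ℕ)!) *
    ∑' e : ℕ+, ((e : ℕ) : ℂ) ^ 11 * nome z ^ (c * e : ℕ) := by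
  have H := qExpansion_identity_pnat (k := 11) (by norm_num) ⟨c * z, by simpa using z.2⟩
  have e1 : row z c = ∑' n : ℤ, 1 / (((c : ℕ) : ℂ) * z + n) ^ (11 + 1) := by
    refine tsum_congr fun d => ?_
    simp only [eisSummand, Matrix.cons_val_zero, Matrix.cons_val_one, Matrix.cons_val_fin_one]
    rw [zpow_neg, one_div]
    norm_cast
  rw [e1]
  refine H.trans ?_
  congr 1
  refine tsum_congr fun e => ?_
  congr 1
  change cexp (2 * π * I * (((c : ℕ) : ℂ) * z)) ^ (e : ℕ) = _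
  unfold nome
  rw [← Complex.exp_nat_mul, ← Complex.exp_nat_mul]
  push_cast
  ring_nf

open Classical in
/-- the indicator of the class of one -/
def wt (M : ℕ) (c : ℤ) : ℤ := if (c : ZMod M) = 1 then 1 else 0

theorem wt_zero {M : ℕ} (hM : 5 ≤ M) : wt M 0 = 0 := by
  have : Fact (1 < M) := ⟨by omega⟩
  simp [wt]

theorem wt_le {M : ℕ} (hM : 5 ≤ M) (c : ℤ) : |wt M c + wt M (-c)| ≤ 1 := by
  unfold wt
  split_ifs with h1 h2
  · exfalso
    rw [Int.cast_neg, h1] at h2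
    have h3 : ((2 : ℕ) : ZMod M) = 0 := by
      push_cast
      linear_combination -h2
    have := Nat.le_of_dvd (by norm_num) ((ZMod.natCast_eq_zero_iff 2 M).1 h3)
    omega
  all_goals simp

theorem wt_norm (M : ℕ) (c : ℤ) : ‖(wt M c : ℂ)‖ ≤ 1 := by
  unfold wt
  split_ifs <;> simp

theorem eis_eq (M : ℕ) (z : ℍ) : Summable (fun c : ℤ => (wt M c : ℂ) * row z c) ∧
    Eis M 1 0 z = ∑' c : ℤ, (wt M c : ℂ) * row z c := by
  have h0 := summable_prod_eisSummand (k := 12) (by norm_num) z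
  have h1 : Summable fun x : ℤ × ℤ => (wt M x.1 : ℂ) * eisSummand 12 ![x.1, x.2] z := by
    refine Summable.of_norm_bounded h0.norm fun x => ?_
    rw [norm_mul]
    exact mul_le_of_le_one_left (norm_nonneg _) (wt_norm M _)
  refine ⟨by simpa only [tsum_mul_left, row] using h1.prod, ?_⟩
  have h2 := h1.tsum_prod
  simp only [tsum_mul_left] at h2
  refine Eq.trans ?_ h2
  unfold Eis
  rw [← (finTwoArrowEquiv ℤ).symm.tsum_eq]
  refine tsum_congr fun x => ?_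
  simp only [finTwoArrowEquiv_symm_apply, Matrix.cons_val_zero, one_mul, zero_mul, add_zero, wt]
  split_ifs <;> simp

end M3ax

open M3ax in
theorem m3a : S_M3a := by
  intro M hM
  have hK : ((-2 * π * I) ^ 12 / (11 : ℕ)! : ℂ) ≠ 0 := by
    refine div_ne_zero (pow_ne_zero _ ?_) (by exact_mod_cast Nat.factorial_ne_zero 11)
    simp [Real.pi_ne_zero]
  refine ⟨((-2 * π * I) ^ 12 / (11 : ℕ)!)⁻¹, PowerSeries.mk fun n =>
    ∑ x ∈ n.divisorsAntidiagonal, (wt M x.1 + wt M (-x.1)) * (x.2 : ℤ) ^ 11, inv_ne_zero hK,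
    fun z => ?_⟩
  have hq : ‖nome z‖ < 1 := norm_exp_two_pi_I_lt_one z
  have h1 := lambert (fun c : ℕ => wt M c + wt M (-c)) (fun c => wt_le hM c) hq
  simp only [PowerSeries.coeff_mk]
  convert h1 using 1
  obtain ⟨hs, he⟩ := eis_eq M z
  have hs1 : Summable fun c : ℕ+ => (wt M c : ℂ) * row z c :=
    hs.comp_injective (i := fun c : ℕ+ => ((c : ℕ) : ℤ))
      fun a b h => PNat.eq (Int.ofNat_inj.1 h)
  have hs2 : Summable fun c : ℕ+ => (wt M (-c) : ℂ) * row z (-c) :=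
    hs.comp_injective (i := fun c : ℕ+ => -((c : ℕ) : ℤ))
      fun a b h => PNat.eq (by exact_mod_cast neg_injective h)
  rw [he, tsum_int_eq_zero_add_tsum_pnat hs, wt_zero hM, Int.cast_zero, zero_mul, zero_add,
    ← hs1.tsum_add hs2, ← tsum_mul_left]
  refine tsum_congr fun c => ?_
  rw [row_neg, row_pos]
  push_cast
  field_simp

end

end Pool.Agent.MP_b2c033_nt.H87
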