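import Pool.Agent.MP_b2c033_nt.H87.Spec

/-! Holomorphy, boundedness and the transformation law of the series `Eis`. -/

namespace Pool.Agent.MP_b2c033_nt.H87

open Filter Metric EisensteinSeries Matrix
open UpperHalfPlane hiding I
open scoped Real Manifold MatrixGroups Topology

noncomputable section

namespace M3bx

/-- right multiplication by an element of `SL(2, ℤ)` as a bijection -/
def mulEquiv (γ : SL(2, ℤ)) : (Fin 2 → ℤ) ≃ (Fin 2 → ℤ) where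
  toFun v := v ᵥ* (γ : Matrix (Fin 2) (Fin 2) ℤ)
  invFun v := v ᵥ* ((γ⁻¹ : SL(2, ℤ)) : Matrix (Fin 2) (Fin 2) ℤ)
  left_inv v := by
    show (v ᵥ* (γ : Matrix (Fin 2) (Fin 2) ℤ)) ᵥ* ((γ⁻¹ : SL(2, ℤ)) : Matrix (Fin 2) (Fin 2) ℤ) = v
    rw [vecMul_vecMul, ← Matrix.SpecialLinearGroup.coe_mul, mul_inv_cancel,
      Matrix.SpecialLinearGroup.coe_one, vecMul_one]
  right_inv v := by
    show (v ᵥ* ((γ⁻¹ : SL(2, ℤ)) : Matrix (Fin 2) (Fin 2) ℤ)) ᵥ* (γ : Matrix (Fin 2) (Fin 2) ℤ) = v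
    rw [vecMul_vecMul, ← Matrix.SpecialLinearGroup.coe_mul, inv_mul_cancel,
      Matrix.SpecialLinearGroup.coe_one, vecMul_one]

theorem mulEquiv_zero (γ : SL(2, ℤ)) (v : Fin 2 → ℤ) :
    mulEquiv γ v 0 = v 0 * γ 0 0 + v 1 * γ 1 0 := by
  simp [mulEquiv, vecMul, dotProduct, Fin.sum_univ_two]

theorem mulEquiv_one (γ : SL(2, ℤ)) (v : Fin 2 → ℤ) :
    mulEquiv γ v 1 = v 0 * γ 0 1 + v 1 * γ 1 1 := by
  simp [mulEquiv, vecMul, dotProduct, Fin.sum_univ_two]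

theorem det_eq (γ : SL(2, ℤ)) : γ 0 0 * γ 1 1 - γ 0 1 * γ 1 0 = 1 := by
  have h := γ.det_coe
  rwa [Matrix.det_fin_two] at h

theorem form_eq (M : ℕ) (l₀ l₁ : ZMod M) (γ : SL(2, ℤ)) (v : Fin 2 → ℤ) :
    ((γ 1 1 : ZMod M) * l₀ - (γ 0 1 : ZMod M) * l₁) * (mulEquiv γ v 0 : ZMod M) +
      ((γ 0 0 : ZMod M) * l₁ - (γ 1 0 : ZMod M) * l₀) * (mulEquiv γ v 1 : ZMod M) =
    l₀ * (v 0 : ZMod M) + l₁ * (v 1 : ZMod M) := by
  have h : (γ 0 0 : ZMod M) * (γ 1 1 : ZMod M) - (γ 0 1 : ZMod M) * (γ 1 0 : ZMod M) = 1 := by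
    exact_mod_cast congrArg (Int.cast : ℤ → ZMod M) (det_eq γ)
  rw [mulEquiv_zero, mulEquiv_one]
  push_cast
  linear_combination (l₀ * (v 0 : ZMod M) + l₁ * (v 1 : ZMod M)) * h

theorem denom_eq (γ : SL(2, ℤ)) (z : ℍ) :
    denom γ z = (γ 1 0 : ℂ) * z + (γ 1 1 : ℂ) := by
  simp [denom]

theorem trans (M : ℕ) (l₀ l₁ : ZMod M) (γ : SL(2, ℤ)) (z : ℍ) :
    Eis M l₀ l₁ (γ • z) = ((γ 1 0 : ℂ) * z + (γ 1 1 : ℂ)) ^ 12 *
      Eis M ((γ 1 1 : ZMod M) * l₀ - (γ 0 1 : ZMod M) * l₁)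
        ((γ 0 0 : ZMod M) * l₁ - (γ 1 0 : ZMod M) * l₀) z := by
  unfold Eis
  rw [← (mulEquiv γ).tsum_eq (fun v : Fin 2 → ℤ =>
    if ((γ 1 1 : ZMod M) * l₀ - (γ 0 1 : ZMod M) * l₁) * (v 0 : ZMod M) +
      ((γ 0 0 : ZMod M) * l₁ - (γ 1 0 : ZMod M) * l₀) * (v 1 : ZMod M) = 1 then
      eisSummand 12 v z else 0), ← tsum_mul_left]
  refine tsum_congr fun v => ?_
  simp only [form_eq]
  split_ifs
  · rw [eisSummand_SL2_apply, denom_eq]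
    rfl
  · rw [mul_zero]

theorem p_sum : Summable fun x : Fin 2 → ℤ => ‖x‖ ^ (-(12 : ℝ)) :=
  summable_one_div_norm_rpow (by norm_num)

theorem term_bound (p : Prop) [Decidable p] (v : Fin 2 → ℤ) {A B : ℝ} (hB : 0 < B) {z : ℍ}
    (hz : z ∈ verticalStrip A B) :
    ‖(if p then eisSummand 12 v z else 0)‖ ≤
      r ⟨⟨A, B⟩, hB⟩ ^ (-(12 : ℝ)) * ‖v‖ ^ (-(12 : ℝ)) := by
  have h := summand_bound_of_mem_verticalStrip (k := (12 : ℝ)) (by norm_num) v hB hz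
  split_ifs
  · refine le_trans (le_of_eq ?_) h
    rw [eisSummand, norm_zpow, ← Real.rpow_intCast]
    norm_num
  · rw [norm_zero]
    exact le_trans (by positivity) h

theorem strip_bound (M : ℕ) (l₀ l₁ : ZMod M) {A B : ℝ} (hB : 0 < B) {z : ℍ}
    (hz : z ∈ verticalStrip A B) :
    ‖Eis M l₀ l₁ z‖ ≤
      ∑' v : Fin 2 → ℤ, r ⟨⟨A, B⟩, hB⟩ ^ (-(12 : ℝ)) * ‖v‖ ^ (-(12 : ℝ)) :=
  tsum_of_norm_bounded (p_sum.mul_left _).hasSum fun v => term_bound _ v hB hz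

theorem bounded (M : ℕ) (l₀ l₁ : ZMod M) : IsBoundedAtImInfty (Eis M l₀ l₁) := by
  rw [UpperHalfPlane.isBoundedAtImInfty_iff]
  refine ⟨∑' v : Fin 2 → ℤ, r ⟨⟨(1 : ℕ), 2⟩, two_pos⟩ ^ (-(12 : ℝ)) * ‖v‖ ^ (-(12 : ℝ)), 2, ?_⟩
  intro z hz
  obtain ⟨n, hn⟩ := ModularGroup_T_zpow_mem_verticalStrip z (N := 1) one_pos
  set w := ModularGroup.T ^ (((1 : ℕ) : ℤ) * n) • z with hw
  have hzw : z = ModularGroup.T ^ (-(((1 : ℕ) : ℤ) * n)) • w := by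
    rw [hw, ← mul_smul, ← _root_.zpow_add, neg_add_cancel, zpow_zero, one_smul]
  have h10 : (ModularGroup.T ^ (-(((1 : ℕ) : ℤ) * n))) 1 0 = 0 := by
    simp [ModularGroup.coe_T_zpow]
  have h11 : (ModularGroup.T ^ (-(((1 : ℕ) : ℤ) * n))) 1 1 = 1 := by
    simp [ModularGroup.coe_T_zpow]
  have key := trans M l₀ l₁ (ModularGroup.T ^ (-(((1 : ℕ) : ℤ) * n))) w
  rw [← hzw, h10, h11] at key
  rw [key]
  simp only [Int.cast_zero, zero_mul, Int.cast_one, zero_add, one_pow, one_mul]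
  exact strip_bound M _ _ two_pos (verticalStrip_anti_right _ hz hn)

theorem loc_unif (M : ℕ) (l₀ l₁ : ZMod M) :
    TendstoLocallyUniformly (fun (s : Finset (Fin 2 → ℤ)) (z : ℍ) => ∑ v ∈ s,
      if l₀ * (v 0 : ZMod M) + l₁ * (v 1 : ZMod M) = 1 then eisSummand 12 v z else 0)
      (Eis M l₀ l₁) atTop := by
  simp only [tendstoLocallyUniformly_iff_forall_isCompact]
  intro K hK
  obtain ⟨A, B, hB, hABK⟩ := subset_verticalStrip_of_isCompact hK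
  exact (tendstoUniformlyOn_tsum (hu := p_sum.mul_left <| r ⟨⟨A, B⟩, hB⟩ ^ (-(12 : ℝ)))
    (fun v z hz => term_bound _ v hB hz)).mono hABK

theorem loc_unif_on (M : ℕ) (l₀ l₁ : ZMod M) :
    TendstoLocallyUniformlyOn (fun (s : Finset (Fin 2 → ℤ)) => (fun (z : ℍ) => ∑ v ∈ s,
      if l₀ * (v 0 : ZMod M) + l₁ * (v 1 : ZMod M) = 1 then eisSummand 12 v z else 0) ∘ ofComplex)
      (Eis M l₀ l₁ ∘ ofComplex) atTop {z : ℂ | 0 < z.im} := by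
  rw [← upperHalfPlaneSet, ← range_coe, ← Set.image_univ]
  apply TendstoLocallyUniformlyOn.comp (s := ⊤) _ _ _ (OpenPartialHomeomorph.continuousOn_symm _)
  · simp only [Set.top_eq_univ, tendstoLocallyUniformlyOn_univ]
    exact loc_unif M l₀ l₁
  · simp only [Topology.IsOpenEmbedding.toOpenPartialHomeomorph_target, Set.top_eq_univ,
      Set.mapsTo_range_iff, Set.mem_univ, forall_const]

theorem hol (M : ℕ) (l₀ l₁ : ZMod M) : MDifferentiable 𝓘(ℂ) 𝓘(ℂ) (Eis M l₀ l₁) := by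
  rw [UpperHalfPlane.mdifferentiable_iff]
  refine (loc_unif_on M l₀ l₁).differentiableOn (Eventually.of_forall fun s => ?_)
    isOpen_upperHalfPlaneSet
  refine DifferentiableOn.fun_sum (fun v _ => ?_)
  by_cases h : l₀ * (v 0 : ZMod M) + l₁ * (v 1 : ZMod M) = 1
  · simp only [if_pos h]
    exact eisSummand_extension_differentiableOn 12 v
  · simp only [if_neg h]
    exact differentiableOn_const 0

end M3bx

theorem m3t : S_M3t := M3bx.trans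

theorem m3b : S_M3b := fun M l₀ l₁ => ⟨M3bx.hol M l₀ l₁, M3bx.bounded M l₀ l₁⟩

end

end Pool.Agent.MP_b2c033_nt.H87
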