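import Pool.Agent.MP_b2c033_nt.H87.Spec

/-! Rows M3c and M3d: constant terms of the weight twelve Eisenstein series. -/

namespace Pool.Agent.MP_b2c033_nt.H87

open Filter
open UpperHalfPlane hiding I
open scoped Real MatrixGroups Topology

noncomputable section

namespace M3cx

/-- points on the imaginary axis -/
def pt (n : ℕ) : ℍ := ⟨Complex.I * ((n : ℂ) + 1), by
  simp only [Complex.mul_im, Complex.I_re, Complex.I_im, Complex.add_re, Complex.natCast_re,
    Complex.one_re, zero_mul, one_mul, zero_add]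
  positivity⟩

lemma pt_coe (n : ℕ) : (pt n : ℂ) = Complex.I * ((n : ℂ) + 1) := rfl

lemma pt_mem (n : ℕ) : pt n ∈ verticalStrip 0 1 := by
  rw [mem_verticalStrip_iff]
  constructor
  · have : (pt n).re = 0 := by
      change (Complex.I * ((n : ℂ) + 1)).re = 0
      simp
    rw [this]; simp
  · have : (pt n).im = n + 1 := by
      change (Complex.I * ((n : ℂ) + 1)).im = n + 1
      simp
    rw [this]
    have : (0 : ℝ) ≤ n := Nat.cast_nonneg n
    linarith

/-- the limit of a summand -/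
def lim (v : Fin 2 → ℤ) : ℝ := if v 0 = 0 then 1 / ((v 1 : ℤ) : ℝ) ^ 12 else 0

lemma term_lim (v : Fin 2 → ℤ) :
    Tendsto (fun n => EisensteinSeries.eisSummand 12 v (pt n)) atTop (𝓝 ((lim v : ℝ) : ℂ)) := by
  unfold lim EisensteinSeries.eisSummand
  by_cases h : v 0 = 0
  · simp only [h, if_true, Int.cast_zero, zero_mul, zero_add]
    have : (((v 1 : ℤ) : ℂ)) ^ (-(12 : ℤ)) = ((1 / ((v 1 : ℤ) : ℝ) ^ 12 : ℝ) : ℂ) := by
      push_cast
      rw [zpow_neg, one_div]
      norm_cast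
    rw [this]
    exact tendsto_const_nhds
  · simp only [h, if_false, Complex.ofReal_zero]
    rw [tendsto_zero_iff_norm_tendsto_zero]
    have h1 : (1 : ℝ) ≤ |((v 0 : ℤ) : ℝ)| := by
      have : (1 : ℤ) ≤ |v 0| := Int.one_le_abs h
      exact_mod_cast this
    have hb : ∀ n : ℕ, ‖((v 0 : ℤ) * (pt n : ℂ) + (v 1 : ℤ)) ^ (-(12 : ℤ))‖ ≤ 1 / ((n : ℝ) + 1) := by
      intro n
      have hn : (1 : ℝ) ≤ (n : ℝ) + 1 := by
        have : (0 : ℝ) ≤ n := Nat.cast_nonneg n
        linarith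
      have him : ((v 0 : ℤ) * (pt n : ℂ) + (v 1 : ℤ)).im = ((v 0 : ℤ) : ℝ) * ((n : ℝ) + 1) := by
        rw [pt_coe]; simp
      have h2 : (n : ℝ) + 1 ≤ ‖((v 0 : ℤ) * (pt n : ℂ) + (v 1 : ℤ))‖ := by
        refine le_trans ?_ (Complex.abs_im_le_norm _)
        rw [him, abs_mul, abs_of_pos (by linarith : (0 : ℝ) < (n : ℝ) + 1)]
        nlinarith
      rw [norm_zpow, zpow_neg, one_div]
      apply inv_anti₀ (by linarith)
      have h3 : (1 : ℝ) ≤ ‖((v 0 : ℤ) * (pt n : ℂ) + (v 1 : ℤ))‖ := hn.trans h2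
      refine h2.trans ?_
      have := le_self_pow₀ h3 (n := 12) (by norm_num)
      exact_mod_cast this
    exact squeeze_zero (fun n => norm_nonneg _) hb tendsto_one_div_add_atTop_nhds_zero_nat

/-- the constant term -/
def cst (M : ℕ) (l : ZMod M) (d : ℤ) : ℝ := if l * (d : ZMod M) = 1 then 1 / (d : ℝ) ^ 12 else 0

lemma eis_lim (M : ℕ) (l₀ l₁ : ZMod M) :
    Tendsto (fun n => Eis M l₀ l₁ (pt n)) atTop (𝓝 ((∑' d : ℤ, cst M l₁ d : ℝ) : ℂ)) := by
  have key : Tendsto (fun n => Eis M l₀ l₁ (pt n)) atTop (𝓝 (∑' v : Fin 2 → ℤ,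
      if l₀ * (v 0 : ZMod M) + l₁ * (v 1 : ZMod M) = 1 then ((lim v : ℝ) : ℂ) else 0)) := by
    unfold Eis
    refine tendsto_tsum_of_dominated_convergence
      (bound := fun v : Fin 2 → ℤ =>
        EisensteinSeries.r ⟨⟨0, 1⟩, one_pos⟩ ^ (-(12 : ℝ)) * ‖v‖ ^ (-(12 : ℝ))) ?_ ?_ ?_
    · exact (EisensteinSeries.summable_one_div_norm_rpow (by norm_num)).mul_left _
    · intro v
      by_cases h : l₀ * (v 0 : ZMod M) + l₁ * (v 1 : ZMod M) = 1
      · simp only [h, if_true]; exact term_lim v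
      · simp only [h, if_false]; exact tendsto_const_nhds
    · refine Eventually.of_forall fun n v => ?_
      have hb := EisensteinSeries.summand_bound_of_mem_verticalStrip (k := 12) (by norm_num) v
        one_pos (pt_mem n)
      by_cases h : l₀ * (v 0 : ZMod M) + l₁ * (v 1 : ZMod M) = 1
      · simp only [h, if_true]
        refine le_trans (le_of_eq ?_) hb
        unfold EisensteinSeries.eisSummand
        rw [norm_zpow, ← Real.rpow_intCast]
        norm_num
      · simp only [h, if_false, norm_zero]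
        exact le_trans (Real.rpow_nonneg (norm_nonneg _) _) hb
  have hinj : Function.Injective fun d : ℤ => (![0, d] : Fin 2 → ℤ) := by
    intro a b h
    simpa using congrFun h 1
  have e : (∑' v : Fin 2 → ℤ,
      if l₀ * (v 0 : ZMod M) + l₁ * (v 1 : ZMod M) = 1 then ((lim v : ℝ) : ℂ) else 0) =
      ((∑' d : ℤ, cst M l₁ d : ℝ) : ℂ) := by
    rw [← hinj.tsum_eq, Complex.ofReal_tsum]
    · refine tsum_congr fun d => ?_
      unfold cst lim
      by_cases h : l₁ * (d : ZMod M) = 1 <;> simp [h]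
    · intro v hv
      have h0 : v 0 = 0 := by
        by_contra h0
        apply hv
        simp [lim, h0]
      refine ⟨v 1, ?_⟩
      funext i
      fin_cases i <;> simp [h0]
  rw [← e]; exact key

lemma sq_sum : HasSum (fun d : ℤ => (1 : ℝ) / (d : ℝ) ^ 2) (π ^ 2 / 6 + π ^ 2 / 6 - 0) := by
  have h := HasSum.of_nat_of_neg (f := fun d : ℤ => (1 : ℝ) / (d : ℝ) ^ 2)
    (g := π ^ 2 / 6) (g' := π ^ 2 / 6) (by simpa using hasSum_zeta_two)
    (by simpa using hasSum_zeta_two)
  simpa using h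

lemma cst_nonneg (M : ℕ) (l : ZMod M) (d : ℤ) : 0 ≤ cst M l d := by
  unfold cst
  split_ifs <;> positivity

lemma cst_le (M : ℕ) (l : ZMod M) (d : ℤ) : cst M l d ≤ 1 / (d : ℝ) ^ 2 := by
  unfold cst
  split_ifs
  · by_cases h : d = 0
    · simp [h]
    · have h1 : (1 : ℝ) ≤ (d : ℝ) ^ 2 := by
        have : (1 : ℤ) ≤ d ^ 2 := by
          have := Int.one_le_abs h
          nlinarith [sq_abs d]
        exact_mod_cast this
      apply one_div_le_one_div_of_le (by linarith)
      have : (d : ℝ) ^ 12 = ((d : ℝ) ^ 2) ^ 6 := by ring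
      rw [this]
      exact le_self_pow₀ h1 (by norm_num)
  · positivity

lemma cst_summable (M : ℕ) (l : ZMod M) : Summable (cst M l) :=
  Summable.of_nonneg_of_le (cst_nonneg M l) (cst_le M l) sq_sum.summable

lemma cst_big (M : ℕ) (l : ZMod M) (h : l = 1 ∨ l = -1) : 1 ≤ ∑' d : ℤ, cst M l d := by
  rcases h with h | h
  · have := (cst_summable M l).le_tsum 1 fun j _ => cst_nonneg M l j
    simpa [cst, h] using this
  · have := (cst_summable M l).le_tsum (-1) fun j _ => cst_nonneg M l j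
    have e : cst M l (-1) = 1 := by
      simp [cst, h]; norm_num
    rw [e] at this; exact this

lemma cst_small (M : ℕ) (l : ZMod M) (h1 : l ≠ 1) (h2 : l ≠ -1) :
    ∑' d : ℤ, cst M l d < 1 := by
  have hle : ∀ d : ℤ, cst M l d ≤ 1 / 1024 * (1 / (d : ℝ) ^ 2) := by
    intro d
    unfold cst
    split_ifs with h
    · by_cases h0 : d = 0
      · simp [h0]
      · have hd1 : d ≠ 1 := by
          rintro rfl
          exact h1 (by simpa using h)
        have hd2 : d ≠ -1 := by
          rintro rfl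
          apply h2
          have : -l = 1 := by simpa using h
          rw [← this, neg_neg]
        have h4 : (4 : ℝ) ≤ (d : ℝ) ^ 2 := by
          have : (4 : ℤ) ≤ d ^ 2 := by
            have : d ≤ -2 ∨ 2 ≤ d := by omega
            rcases this with h | h <;> nlinarith
          exact_mod_cast this
        rw [one_div_mul_one_div]
        apply one_div_le_one_div_of_le (by positivity)
        have e : (d : ℝ) ^ 12 = ((d : ℝ) ^ 2) ^ 5 * (d : ℝ) ^ 2 := by ring
        have h5 : (4 : ℝ) ^ 5 ≤ ((d : ℝ) ^ 2) ^ 5 := pow_le_pow_left₀ (by norm_num) h4 5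
        rw [e]
        apply mul_le_mul_of_nonneg_right _ (by positivity)
        linarith [show (4 : ℝ) ^ 5 = 1024 by norm_num]
    · positivity
  have hs := sq_sum.mul_left (1 / 1024 : ℝ)
  have := (cst_summable M l).tsum_le_tsum hle hs.summable
  rw [hs.tsum_eq] at this
  have hp : π ^ 2 < 16 := by nlinarith [Real.pi_lt_four, Real.pi_pos]
  linarith

/-- test matrices -/
def tm (s : ℤ) : SL(2, ℤ) := ⟨!![s, 1; -1, 0], by simp [Matrix.det_fin_two]⟩

end M3cx

open M3cx

theorem m3c : S_M3c := by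
  intro M l₀ l₁ m₀ m₁ _ h hm
  have h1 := eis_lim M l₀ l₁
  have h2 := eis_lim M m₀ m₁
  simp only [h] at h1
  have e := tendsto_nhds_unique h1 h2
  have e' : (∑' d : ℤ, cst M l₁ d) = ∑' d : ℤ, cst M m₁ d := by exact_mod_cast e
  by_contra hc
  rw [not_or] at hc
  have := cst_small M l₁ hc.1 hc.2
  have := cst_big M m₁ hm
  linarith

theorem m3d (ht : S_M3t) (hc : S_M3c) : S_M3d := by
  intro M γ hM h
  have key : ∀ s : ℤ, (γ 1 1 : ZMod M) - s * (γ 1 0 : ZMod M) = 1 ∨
      (γ 1 1 : ZMod M) - s * (γ 1 0 : ZMod M) = -1 := by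
    intro s
    refine hc M (γ 1 0 : ZMod M) _ 0 1 hM (fun z => ?_) (Or.inl rfl)
    have a1 := ht M (γ 1 1 : ZMod M) (-(γ 1 0 : ZMod M)) (tm s) z
    have a2 := ht M 1 0 (tm s) z
    rw [h, a2] at a1
    have e00 : (tm s) 0 0 = s := rfl
    have e01 : (tm s) 0 1 = 1 := rfl
    have e10 : (tm s) 1 0 = -1 := rfl
    have e11 : (tm s) 1 1 = 0 := rfl
    rw [e00, e01, e10, e11] at a1
    have hz : (((-1 : ℤ) : ℂ) * z + ((0 : ℤ) : ℂ)) ^ 12 ≠ 0 := by
      apply pow_ne_zero
      simpa using z.ne_zero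
    have a3 := mul_left_cancel₀ hz a1
    have f1 : ((0 : ℤ) : ZMod M) * 1 - ((1 : ℤ) : ZMod M) * 0 = 0 := by simp
    have f2 : ((s : ℤ) : ZMod M) * 0 - ((-1 : ℤ) : ZMod M) * 1 = 1 := by simp
    have f3 : ((0 : ℤ) : ZMod M) * (γ 1 1 : ZMod M) -
      ((1 : ℤ) : ZMod M) * (-(γ 1 0 : ZMod M)) = (γ 1 0 : ZMod M) := by simp
    have f4 : ((s : ℤ) : ZMod M) * (-(γ 1 0 : ZMod M)) - ((-1 : ℤ) : ZMod M) * (γ 1 1 : ZMod M) =
      (γ 1 1 : ZMod M) - s * (γ 1 0 : ZMod M) := by push_cast; ring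
    rw [f1, f2, f3, f4] at a3
    exact a3.symm
  have h4 : (4 : ZMod M) ≠ 0 := by
    intro h4
    have : ((4 : ℕ) : ZMod M) = 0 := by exact_mod_cast h4
    rw [ZMod.natCast_eq_zero_iff] at this
    have := Nat.le_of_dvd (by norm_num) this
    omega
  have k0 := key 0
  have k1 := key 1
  have k2 := key (-1)
  simp only [Int.cast_zero, zero_mul, sub_zero, Int.cast_one, one_mul, Int.cast_neg, neg_mul,
    sub_neg_eq_add] at k0 k1 k2
  have hc0 : (γ 1 0 : ZMod M) = 0 := by
    rcases k0 with k0 | k0 <;> rcases k1 with k1 | k1 <;> rcases k2 with k2 | k2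
    · linear_combination k0 - k1
    · linear_combination k0 - k1
    · linear_combination k2 - k0
    · exact absurd (by linear_combination k1 + k2 - 2 * k0) h4
    · exact absurd (by linear_combination 2 * k0 - k1 - k2) h4
    · linear_combination k2 - k0
    · linear_combination k0 - k1
    · linear_combination k0 - k1
  have hdet : (γ 0 0 : ZMod M) * (γ 1 1 : ZMod M) = 1 := by
    have hd := γ.det_coe
    rw [Matrix.det_fin_two] at hd
    have hd' : ((γ 0 0 * γ 1 1 - γ 0 1 * γ 1 0 : ℤ) : ZMod M) = 1 := by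
      have : γ 0 0 * γ 1 1 - γ 0 1 * γ 1 0 = 1 := hd
      rw [this]; simp
    push_cast at hd'
    rw [hc0] at hd'
    simpa using hd'
  rcases k0 with k0 | k0
  · left
    rw [CongruenceSubgroup.Gamma1_mem]
    refine ⟨?_, k0, hc0⟩
    rw [k0] at hdet; simpa using hdet
  · right
    rw [CongruenceSubgroup.Gamma1_mem]
    have n00 : (-γ) 0 0 = -(γ 0 0) := by simp
    have n11 : (-γ) 1 1 = -(γ 1 1) := by simp
    have n10 : (-γ) 1 0 = -(γ 1 0) := by simp
    rw [n00, n11, n10]
    push_cast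
    refine ⟨?_, ?_, ?_⟩
    · rw [k0] at hdet; linear_combination hdet
    · rw [k0]; ring
    · rw [hc0]; ring

end

end Pool.Agent.MP_b2c033_nt.H87
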