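import Pool.Agent.MP_b2c033_nt.H87.T2

/-! Descent of a relation from complex to rational coefficients. -/

namespace Pool.Agent.MP_b2c033_nt.H87

open Metric PowerSeries
open UpperHalfPlane hiding I

namespace M4bx

theorem cmul (h : S_T1) {a b : ℚ⟦X⟧} {α β : ℂ → ℂ} (h1 : Conv (cx a) α) (h2 : Conv (cx b) β) :
    Conv (cx (a * b)) fun q => α q * β q := by
  simpa [cx] using h.mul _ _ _ _ h1 h2

theorem cone (h : S_T1) : Conv (cx 1) fun _ => 1 := by simpa [cx] using h.const 1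

theorem rep_one (h : S_T1) : Rep (fun _ => 1) 1 :=
  ⟨1, 1, _, _, cone h, cone h, by simp, fun z => by simp⟩

theorem rep_mul (h : S_T1) {φ ψ : ℍ → ℂ} {k l : L} (h1 : Rep φ k) (h2 : Rep ψ l) :
    Rep (fun z => φ z * ψ z) (k * l) := by
  obtain ⟨a, e, α, ε, ha, he, hk, hz⟩ := h1
  obtain ⟨a', e', α', ε', ha', he', hk', hz'⟩ := h2
  refine ⟨a * a', e * e', _, _, cmul h ha ha', cmul h he he', ?_, fun z =>
    ⟨mul_ne_zero (hz z).1 (hz' z).1, ?_⟩⟩
  · rw [map_mul, map_mul, ← hk, ← hk']; ring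
  · rw [← (hz z).2, ← (hz' z).2]; ring

theorem rep_pow (h : S_T1) {φ : ℍ → ℂ} {k : L} (h1 : Rep φ k) (n : ℕ) :
    Rep (fun z => φ z ^ n) (k ^ n) := by
  induction n with
  | zero => simpa using rep_one h
  | succ n ih => simpa [pow_succ] using rep_mul h ih h1

theorem common (h : S_T1) {ι : Type} [DecidableEq ι] (s : Finset ι) (φ : ι → ℍ → ℂ) (k : ι → L)
    (hR : ∀ i ∈ s, Rep (φ i) (k i)) : ∃ (e : ℚ⟦X⟧) (ε : ℂ → ℂ), Conv (cx e) ε ∧
      (∀ z : ℍ, ε (nome z) ≠ 0) ∧ ∀ i ∈ s, ∃ (a : ℚ⟦X⟧) (α : ℂ → ℂ), Conv (cx a) α ∧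
        k i * iq e = iq a ∧ ∀ z : ℍ, φ i z * ε (nome z) = α (nome z) := by
  induction s using Finset.induction_on with
  | empty => exact ⟨1, _, cone h, fun z => one_ne_zero, by simp⟩
  | insert i s _ ih =>
    obtain ⟨e, ε, he, hε, H⟩ := ih fun i hi => hR i (Finset.mem_insert_of_mem hi)
    obtain ⟨a', e', α', ε', ha', he', hk', hz'⟩ := hR i (Finset.mem_insert_self _ _)
    refine ⟨e * e', _, cmul h he he', fun z => mul_ne_zero (hε z) (hz' z).1, fun j hj => ?_⟩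
    rcases Finset.mem_insert.1 hj with rfl | hj
    · refine ⟨a' * e, _, cmul h ha' he, ?_, fun z => ?_⟩
      · rw [map_mul, map_mul, ← hk']; ring
      · rw [← (hz' z).2]; ring
    · obtain ⟨a, α, ha, hk, hz⟩ := H j hj
      refine ⟨a * e', _, cmul h ha he', ?_, fun z => ?_⟩
      · rw [map_mul, map_mul, ← hk]; ring
      · rw [← hz z]; ring

theorem csum (h : S_T1) {ι : Type} [DecidableEq ι] (s : Finset ι) (c : ι → ℂ) (a : ι → ℂ⟦X⟧)
    (α : ι → ℂ → ℂ) (H : ∀ i ∈ s, Conv (a i) (α i)) :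
    Conv (∑ i ∈ s, C (c i) * a i) fun q => ∑ i ∈ s, c i * α i q := by
  induction s using Finset.induction_on with
  | empty => simpa using h.const 0
  | insert i s hi ih =>
    simp only [Finset.sum_insert hi]
    exact h.add _ _ _ _ (h.mul _ _ _ _ (h.const _) (H i (Finset.mem_insert_self _ _)))
      (ih fun i hi => H i (Finset.mem_insert_of_mem hi))

theorem key (h : S_T1) {ι : Type} [DecidableEq ι] (s : Finset ι) (φ : ι → ℍ → ℂ) (k : ι → L)
    (c : ι → ℂ) (hR : ∀ i ∈ s, Rep (φ i) (k i)) :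
    (∀ z, ∑ i ∈ s, c i * φ i z = 0) ↔
      ∀ π : ℂ →ₗ[ℚ] ℚ, ∑ i ∈ s, ((π (c i) : ℚ) : L) * k i = 0 := by
  obtain ⟨e, ε, he, hε, H⟩ := common h s φ k hR
  choose! a α ha hk hz using H
  have hZ := csum h s c (fun i => cx (a i)) α ha
  have he0 : iq e ≠ 0 := fun h0 => by
    have : e = 0 := T2x.iq_inj (by rw [h0, map_zero])
    have h1 := he (nome UpperHalfPlane.I) (by simpa using T2x.norm_nome _)
    rw [this] at h1
    simp only [cx, map_zero, zero_mul] at h1
    exact hε _ (h1.unique hasSum_zero)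
  have e1 : (∀ z, ∑ i ∈ s, c i * φ i z = 0) ↔ ∑ i ∈ s, C (c i) * cx (a i) = 0 := by
    have e0 : ∀ z, (∑ i ∈ s, c i * φ i z) * ε (nome z) = ∑ i ∈ s, c i * α i (nome z) := fun z => by
      rw [Finset.sum_mul]
      exact Finset.sum_congr rfl fun i hi => by rw [← hz i hi z]; ring
    refine ⟨fun H => h.inj _ _ hZ fun q hq hq0 => ?_, fun H z => ?_⟩
    · obtain ⟨z, rfl⟩ := T2x.exists_nome hq0 (by simpa using hq)
      rw [← e0, H, zero_mul]
    · have h1 := hZ (nome z) (by simpa using T2x.norm_nome _)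
      rw [H] at h1
      simp only [map_zero, zero_mul] at h1
      have h2 := h1.unique hasSum_zero
      rw [← e0] at h2
      exact (mul_eq_zero.1 h2).resolve_right (hε z)
  have e2 : ∀ π : ℂ →ₗ[ℚ] ℚ, ∑ i ∈ s, ((π (c i) : ℚ) : L) * k i = 0 ↔
      ∀ n, π (coeff n (∑ i ∈ s, C (c i) * cx (a i))) = 0 := fun π => by
    have e3 : (∑ i ∈ s, ((π (c i) : ℚ) : L) * k i) * iq e = iq (∑ i ∈ s, C (π (c i)) * a i) := by
      rw [Finset.sum_mul, map_sum]
      exact Finset.sum_congr rfl fun i hi => by rw [map_mul, T2x.iq_C, ← hk i hi, algMapL]; ring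
    have e4 : ∀ n, π (coeff n (∑ i ∈ s, C (c i) * cx (a i))) =
        coeff n (∑ i ∈ s, C (π (c i)) * a i) := fun n => by
      rw [map_sum, map_sum, map_sum]
      refine Finset.sum_congr rfl fun i _ => ?_
      rw [coeff_C_mul, coeff_C_mul, cx, coeff_map, mul_comm, ← Algebra.smul_def, map_smul,
        smul_eq_mul, mul_comm]
    simp only [e4]
    rw [← mul_eq_zero_iff_right he0, e3, map_eq_zero_iff _ T2x.iq_inj, PowerSeries.ext_iff]
    simp
  rw [e1]
  simp only [e2]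
  refine ⟨fun H π n => by rw [H]; simp, fun H => ?_⟩
  ext n
  rw [map_zero]
  exact (Module.forall_dual_apply_eq_zero_iff ℚ _).1 fun π => H π n

theorem expand (n D : ℕ) (A : ℕ → Polynomial ℂ) (hD : ∀ i < n, (A i).natDegree < D) (x y : ℂ) :
    ∑ i ∈ Finset.range n, (A i).eval x * y ^ i =
      ∑ p ∈ Finset.range n ×ˢ Finset.range D, (A p.1).coeff p.2 * (x ^ p.2 * y ^ p.1) := by
  rw [Finset.sum_product]
  refine Finset.sum_congr rfl fun i hi => ?_
  rw [Polynomial.eval_eq_sum_range' (hD i (Finset.mem_range.1 hi)), Finset.sum_mul]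
  exact Finset.sum_congr rfl fun a _ => by ring

end M4bx

open M4bx

theorem m4b (h : S_T1) : S_M4 := by
  intro u j t F J T n A B hu hj ht hJ hT hAB ⟨z₀, hz₀⟩
  obtain ⟨D, hD⟩ : ∃ D, ∀ i < n, (A i).natDegree < D ∧ (B i).natDegree < D := by
    refine ⟨∑ i ∈ Finset.range n, ((A i).natDegree + (B i).natDegree) + 1, fun i hi => ?_⟩
    have := Finset.single_le_sum (f := fun i => (A i).natDegree + (B i).natDegree)
      (fun _ _ => Nat.zero_le _) (Finset.mem_range.2 hi)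
    omega
  set s := Finset.range n ×ˢ Finset.range D with hs
  have hm : ∀ p : ℕ × ℕ, Rep (fun z => j z ^ p.2 * t z ^ p.1) (J ^ p.2 * T ^ p.1) := fun p =>
    rep_mul h (rep_pow h hj _) (rep_pow h ht _)
  have k1 := key h s (fun p z => j z ^ p.2 * t z ^ p.1) (fun p => J ^ p.2 * T ^ p.1)
    (fun p => (B p.1).coeff p.2) fun p _ => hm p
  have k2 := (key h (s.disjSum s)
    (Sum.elim (fun p z => u z * (j z ^ p.2 * t z ^ p.1)) fun p z => j z ^ p.2 * t z ^ p.1)
    (Sum.elim (fun p => F * (J ^ p.2 * T ^ p.1)) fun p => J ^ p.2 * T ^ p.1)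
    (Sum.elim (fun p => (B p.1).coeff p.2) fun p => -(A p.1).coeff p.2)
    (by rintro (p | p) _; exacts [rep_mul h hu (hm p), hm p])).1 fun z => by
      have := hAB z
      rw [expand n D A (fun i hi => (hD i hi).1), expand n D B (fun i hi => (hD i hi).2),
        Finset.mul_sum] at this
      simp only [Finset.sum_disjSum, Sum.elim_inl, Sum.elim_inr, neg_mul, Finset.sum_neg_distrib]
      rw [← this, add_neg_eq_zero]
      exact Finset.sum_congr rfl fun p _ => by ring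
  have k3 : ¬ ∀ π : ℂ →ₗ[ℚ] ℚ,
      ∑ p ∈ s, ((π ((B p.1).coeff p.2) : ℚ) : L) * (J ^ p.2 * T ^ p.1) = 0 := fun H =>
    hz₀ (by rw [expand n D B (fun i hi => (hD i hi).2)]; exact k1.2 H z₀)
  push Not at k3
  obtain ⟨π, hπ⟩ := k3
  have k4 := k2 π
  simp only [Finset.sum_disjSum, Sum.elim_inl, Sum.elim_inr] at k4
  have hmem : ∀ c : ℕ × ℕ → ℚ, ∑ p ∈ s, ((c p : ℚ) : L) * (J ^ p.2 * T ^ p.1) ∈
      IntermediateField.adjoin ℚ {J, T} := fun c =>
    sum_mem fun p _ => mul_mem (by rw [← algMapL]; exact IntermediateField.algebraMap_mem _ _)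
      (mul_mem (pow_mem (IntermediateField.subset_adjoin _ _ (by simp)) _)
        (pow_mem (IntermediateField.subset_adjoin _ _ (by simp)) _))
  refine (t3 h J T F ?_).2 hJ hT
  have e : F = -(∑ p ∈ s, ((π (-(A p.1).coeff p.2) : ℚ) : L) * (J ^ p.2 * T ^ p.1)) /
      ∑ p ∈ s, ((π ((B p.1).coeff p.2) : ℚ) : L) * (J ^ p.2 * T ^ p.1) := by
    rw [eq_div_iff hπ, eq_neg_iff_add_eq_zero, ← k4, Finset.mul_sum]
    congr 1
    exact Finset.sum_congr rfl fun p _ => by ring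
  rw [e]
  exact div_mem (neg_mem (hmem _)) (hmem _)

end Pool.Agent.MP_b2c033_nt.H87
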