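import Pool.Agent.MP_b2c033_nt.H87.Spec

/-! Integral expansions of the Eisenstein series of weights four and six, and quotients by the
discriminant. -/

namespace Pool.Agent.MP_b2c033_nt.H87

open Filter Metric Polynomial
open UpperHalfPlane hiding I
open scoped Real Manifold MatrixGroups Topology PowerSeries LaurentSeries

noncomputable section

namespace M5x

theorem nome_eq (z : ℍ) : Function.Periodic.qParam 1 z = nome z := by
  simp [Function.Periodic.qParam, nome]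

theorem zexp_E {k : ℕ} (hk : 3 ≤ k) (hk2 : Even k) (c : ℤ)
    (hc : (qExpansion 1 (ModularForm.E hk)).coeff 1 = c) :
    ∃ a : ℤ⟦X⟧, ZExp a fun z => ModularForm.E hk z := by
  refine ⟨PowerSeries.mk fun n => if n = 0 then 1 else c * ArithmeticFunction.sigma (k - 1) n,
    fun z => ?_⟩
  have h := ModularForm.hasSum_qExpansion (ModularForm.E hk) one_pos
    one_mem_strictPeriods_SL z
  have h1 := EisensteinSeries.E_qExpansion_coeff hk hk2 1
  rw [hc] at h1
  simp only [one_ne_zero, if_false, ArithmeticFunction.sigma_one, Nat.cast_one, mul_one] at h1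
  convert h using 3 with n
  · rw [EisensteinSeries.E_qExpansion_coeff hk hk2 n, PowerSeries.coeff_mk, ← h1]
    split_ifs <;> simp
  · rw [nome_eq]

/-- integral series to rational series -/
def zm : ℤ⟦X⟧ →+* ℚ⟦X⟧ := PowerSeries.map (Int.castRingHom ℚ)

/-- rational series to complex series as a ring map -/
def cxh : ℚ⟦X⟧ →+* ℂ⟦X⟧ := PowerSeries.map (algebraMap ℚ ℂ)

theorem cx_eq (a : ℚ⟦X⟧) : cx a = cxh a := rfl

theorem io_eq (a : ℤ⟦X⟧) : io a = iq (zm a) := rfl

theorem coeff_cz (a : ℤ⟦X⟧) (n : ℕ) :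
    PowerSeries.coeff n (cx (zm a)) = ((PowerSeries.coeff n a : ℤ) : ℂ) := by
  simp [cx, zm, PowerSeries.coeff_map]

theorem nome_mem (z : ℍ) : nome z ∈ ball (0 : ℂ) 1 := by
  rw [mem_ball_zero_iff, ← nome_eq]
  exact Function.Periodic.norm_qParam_lt_one one_pos z.im_pos

theorem exists_nome {q : ℂ} (hq : q ∈ ball (0 : ℂ) 1) (h0 : q ≠ 0) : ∃ z : ℍ, nome z = q := by
  have h1 : 0 < (Function.Periodic.invQParam 1 q).im := by
    rw [Function.Periodic.im_invQParam]
    have h2 : Real.log ‖q‖ < 0 := Real.log_neg (norm_pos_iff.2 h0) (mem_ball_zero_iff.1 hq)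
    have h3 : -1 / (2 * π) < 0 := div_neg_of_neg_of_pos (by norm_num) (by positivity)
    exact mul_pos_of_neg_of_neg h3 h2
  refine ⟨⟨_, h1⟩, ?_⟩
  rw [← nome_eq]
  exact Function.Periodic.qParam_right_inv one_ne_zero h0

theorem conv_of {a : ℤ⟦X⟧} {φ : ℍ → ℂ} (h : ZExp a φ) :
    ∃ α, Conv (cx (zm a)) α ∧ ∀ z, α (nome z) = φ z := by
  refine ⟨fun q => ∑' n : ℕ, PowerSeries.coeff n (cx (zm a)) * q ^ n, fun q hq => ?_, fun z => ?_⟩
  · refine Summable.hasSum ?_
    by_cases h0 : q = 0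
    · subst h0
      exact (hasSum_single 0 fun n hn => by simp [hn]).summable
    · obtain ⟨z, rfl⟩ := exists_nome hq h0
      simp only [coeff_cz]
      exact (h z).summable
  · simp only [coeff_cz]
    exact (h z).tsum_eq

theorem io_ne {e : ℤ⟦X⟧} (he : e ≠ 0) : io e ≠ 0 := by
  intro h
  apply he
  have h1 : zm e = 0 := by
    apply HahnSeries.ofPowerSeries_injective (Γ := ℤ)
    rw [map_zero]
    exact h
  ext n
  have h2 := congrArg (PowerSeries.coeff n) h1
  simpa [zm, PowerSeries.coeff_map] using h2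

theorem quot (h : S_T1) (h5 : S_M5) {a : ℤ⟦X⟧} {α : ℂ → ℂ} {φ : ℍ → ℂ}
    (ha : Conv (cx (zm a)) α) (hφ : ∀ z, α (nome z) = φ z) :
    ∃ T, Rep (fun z => φ z / ModularForm.discriminant z) T ∧ FrZ T := by
  obtain ⟨⟨a4, h4⟩, ⟨a6, h6⟩⟩ := h5
  obtain ⟨α4, c4, e4⟩ := conv_of h4
  obtain ⟨α6, c6, e6⟩ := conv_of h6
  have ce : Conv (cx (zm (a4 ^ 3 - a6 ^ 2)))
      fun q => α4 q * α4 q * α4 q + (-1) * (α6 q * α6 q) := by
    have := h.add _ _ _ _ (h.mul _ _ _ _ (h.mul _ _ _ _ c4 c4) c4)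
      (h.mul _ _ _ _ (h.const (-1)) (h.mul _ _ _ _ c6 c6))
    convert this using 1
    simp only [cx_eq, map_sub, map_pow, map_neg, map_one]
    ring
  have ca : Conv (cx (zm (1728 * a))) fun q => 1728 * α q := by
    have := h.mul _ _ _ _ (h.const 1728) ha
    convert this using 1
    simp only [cx_eq, map_mul, map_ofNat]
  have hε : ∀ z : ℍ, α4 (nome z) * α4 (nome z) * α4 (nome z) + (-1) * (α6 (nome z) * α6 (nome z)) =
      1728 * ModularForm.discriminant z := fun z => by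
    rw [e4, e6, ModularForm.discriminant_eq_E₄_cube_sub_E₆_sq]
    ring
  have hne : a4 ^ 3 - a6 ^ 2 ≠ 0 := by
    intro h0
    have h1 := ce (nome UpperHalfPlane.I) (nome_mem _)
    rw [h0] at h1
    simp only [cx_eq, map_zero, zero_mul] at h1
    have h2 := h1.unique hasSum_zero
    rw [hε] at h2
    exact ModularForm.discriminant_ne_zero _ ((mul_eq_zero.1 h2).resolve_left (by norm_num))
  have hio := io_ne hne
  refine ⟨io (1728 * a) / io (a4 ^ 3 - a6 ^ 2), ⟨zm (1728 * a), zm (a4 ^ 3 - a6 ^ 2), _, _, ca, ce,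
    div_mul_cancel₀ _ hio, fun z => ?_⟩, 1728 * a, a4 ^ 3 - a6 ^ 2, hne, div_mul_cancel₀ _ hio⟩
  have hd := ModularForm.discriminant_ne_zero z
  beta_reduce
  rw [hε, hφ]
  refine ⟨mul_ne_zero (by norm_num) hd, ?_⟩
  field_simp

end M5x

theorem m5 : S_M5 :=
  ⟨M5x.zexp_E _ ⟨2, rfl⟩ 240 (by rw [ModularForm.E₄_qExpansion_coeff_one]; norm_num),
    M5x.zexp_E _ ⟨3, rfl⟩ (-504) (by rw [ModularForm.E₆_qExpansion_coeff_one]; norm_num)⟩

theorem m5b (h : S_T1) (h5 : S_M5) : S_M5b := by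
  refine ⟨?_, fun a φ ha => ?_⟩
  · obtain ⟨a4, h4⟩ := h5.1
    obtain ⟨α4, c4, e4⟩ := M5x.conv_of h4
    have c : Conv (cx (M5x.zm (a4 ^ 3))) fun q => α4 q * α4 q * α4 q := by
      have := h.mul _ _ _ _ (h.mul _ _ _ _ c4 c4) c4
      convert this using 1
      simp only [M5x.cx_eq, map_pow]
      ring
    exact M5x.quot h h5 (φ := fun z => ModularForm.E₄ z ^ 3) c fun z => by
      rw [e4]; ring
  · obtain ⟨α, c, e⟩ := M5x.conv_of ha
    exact M5x.quot h h5 c e

end

end Pool.Agent.MP_b2c033_nt.H87
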