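import Pool.Agent.MP_b2c033_nt.H87.Spec

/-! Assembly of part M. -/

namespace Pool.Agent.MP_b2c033_nt.H87

open Filter Asymptotics
open UpperHalfPlane hiding I
open scoped Real Manifold MatrixGroups Topology

namespace M6bx

theorem disc_smul (γ : SL(2, ℤ)) (z : ℍ) : ModularForm.discriminant (γ • z) =
    ((γ 1 0 : ℂ) * z + (γ 1 1 : ℂ)) ^ 12 * ModularForm.discriminant z := by
  have h := SlashInvariantForm.slash_action_eqn' (Γ := 𝒮ℒ) CuspForm.discriminant
    (γ := Matrix.SpecialLinearGroup.mapGL ℝ γ) (MonoidHom.mem_range.2 ⟨γ, rfl⟩) z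
  refine Eq.trans h ?_
  simp

theorem den_ne (γ : SL(2, ℤ)) (z : ℍ) : ((γ 1 0 : ℂ) * z + (γ 1 1 : ℂ)) ≠ 0 := by
  have := denom_ne_zero γ z
  simpa [denom] using this

theorem gamma_le (M : ℕ) : CongruenceSubgroup.Gamma1 (5 * M) ≤ CongruenceSubgroup.Gamma1 M := by
  intro γ hγ
  rw [CongruenceSubgroup.Gamma1_mem] at hγ ⊢
  let f := ZMod.castHom (Dvd.intro_left 5 rfl : M ∣ 5 * M) (ZMod M)
  obtain ⟨h1, h2, h3⟩ := hγ
  refine ⟨?_, ?_, ?_⟩
  · simpa using congrArg f h1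
  · simpa using congrArg f h2
  · simpa using congrArg f h3

end M6bx

open M6bx

theorem m6b (t1 : S_T1) (t2 : S_T2) (m2 : S_M2) (a : S_M3a) (b : S_M3b) (t : S_M3t) (d : S_M3d)
    (m4 : S_M4) (m5 : S_M5b) : S_M6 := by
  intro M u F hM hu
  have h5 : 5 ≤ 5 * M := by omega
  have : NeZero (5 * M) := ⟨by omega⟩
  obtain ⟨κ, s, hκ, hs⟩ := a (5 * M) h5
  obtain ⟨⟨J, hJ, hJz⟩, hT⟩ := m5
  obtain ⟨T, hT1, hT2⟩ := hT s _ hs
  set tt : ℍ → ℂ := fun z => κ * Eis (5 * M) 1 0 z / ModularForm.discriminant z with htt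
  have htr : ∀ (γ : SL(2, ℤ)) (z : ℍ), tt (γ • z) =
      κ * Eis (5 * M) (γ 1 1 : ZMod (5 * M)) (-(γ 1 0 : ZMod (5 * M))) z /
        ModularForm.discriminant z := fun γ z => by
    have h1 := den_ne γ z
    have h2 := ModularForm.discriminant_ne_zero z
    simp only [htt, t (5 * M) 1 0 γ z, disc_smul, mul_one, mul_zero, sub_zero, zero_sub]
    field_simp
  have hmer : Mer tt := by
    refine ⟨?_, fun γ => ⟨2 * π, ?_⟩⟩
    · exact (mdifferentiable_const.mul (b (5 * M) 1 0).1).div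
        (ModularFormClass.holo CuspForm.discriminant) ModularForm.discriminant_ne_zero
    · simp only [htr]
      have h1 := (b (5 * M) (γ 1 1 : ZMod (5 * M)) (-(γ 1 0 : ZMod (5 * M)))).2
      have h2 := ModularForm.exp_isBigO_discriminant.inv_rev
        (Eventually.of_forall fun z h => absurd h (Real.exp_pos _).ne')
      have h3 := (h1.const_mul_left κ).mul h2
      refine h3.congr (fun z => by rw [div_eq_mul_inv]) fun z => ?_
      rw [← Real.exp_neg]; simp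
  have hinv : ∀ γ ∈ CongruenceSubgroup.Gamma1 (5 * M), ∀ z, tt (γ • z) = tt z := fun γ hγ z => by
    rw [CongruenceSubgroup.Gamma1_mem] at hγ
    rw [htr, hγ.2.1, hγ.2.2, neg_zero]
  have hstab : ∀ γ : SL(2, ℤ), (∀ z, tt (γ • z) = tt z) → ∀ z, u (γ • z) = u z := by
    intro γ hγ z
    have h1 : ∀ z, Eis (5 * M) (γ 1 1 : ZMod (5 * M)) (-(γ 1 0 : ZMod (5 * M))) z =
        Eis (5 * M) 1 0 z := fun z => by
      have h2 := hγ z
      rw [htr, htt] at h2
      exact mul_left_cancel₀ hκ ((div_left_inj' (ModularForm.discriminant_ne_zero z)).1 h2)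
    rcases d (5 * M) γ h5 h1 with h | h
    · exact hu.inv γ (gamma_le M h) z
    · have := hu.inv (-γ) (gamma_le M h) z
      rwa [ModularGroup.SL_neg_smul] at this
  obtain ⟨n, A, B, hAB, hB⟩ := m2 tt u (CongruenceSubgroup.Gamma1 (5 * M)) inferInstance hmer
    ⟨hu.hol, hu.cusp⟩ hinv hstab
  obtain ⟨k, w, φ, h1, h2, h3⟩ := t2 M u F hu
  have cvX : ∀ k : ℕ, Conv (cx (PowerSeries.X ^ k)) fun q => q ^ k := fun k => by
    induction k with
    | zero => simpa [cx] using t1.const 1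
    | succ k ih => simpa [cx, pow_succ] using t1.mul _ _ _ _ ih t1.var
  exact m4 u jj tt F J T n A B
    ⟨w, _, φ, _, h1, cvX k, h2, fun z => ⟨pow_ne_zero _ (Complex.exp_ne_zero _), h3 z⟩⟩
    hJ hT1 hJz hT2 hAB hB

end Pool.Agent.MP_b2c033_nt.H87
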