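import Pool.Agent.MP_b2c033_nt.H87.Spec

/-! The Taylor shift on Laurent series. -/

namespace Pool.Agent.MP_b2c033_nt.H87

open PowerSeries
open scoped LaurentSeries

noncomputable section

namespace P0x

theorem hs_zero {R : Type} [CommRing R] (a : R⟦X⟧) : Hs 0 a = a := by
  ext k
  simp [Hs]

theorem hs_one {R : Type} [CommRing R] (a : R⟦X⟧) : Hs 1 a = derivative R a := by
  ext k
  rw [Hs, coeff_mk, coeff_derivative, Nat.choose_one_right, mul_comm]
  push_cast
  rfl

theorem hs_add {R : Type} [CommRing R] (n : ℕ) (a b : R⟦X⟧) : Hs n (a + b) = Hs n a + Hs n b := by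
  ext k
  simp [Hs, mul_add]

theorem hs_succ {R : Type} [CommRing R] (n : ℕ) (a : R⟦X⟧) :
    Hs (n + 1) a * ((n : R⟦X⟧) + 1) = Hs n (derivative R a) := by
  ext k
  have e : ((n : R⟦X⟧) + 1) = C ((n : R) + 1) := by simp
  have h := congrArg (Nat.cast : ℕ → R) (Nat.add_one_mul_choose_eq (k + n) n)
  push_cast at h
  rw [e, coeff_mul_C, Hs, Hs, coeff_mk, coeff_mk, coeff_derivative, ← add_assoc]
  push_cast
  linear_combination -(coeff (k + n + 1) a) * h

theorem hs_map (n : ℕ) (a : ℤ⟦X⟧) :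
    Hs n (PowerSeries.map (Int.castRingHom ℚ) a) = PowerSeries.map (Int.castRingHom ℚ) (Hs n a) := by
  ext k
  simp [Hs]

theorem iq_inj : Function.Injective iq := HahnSeries.ofPowerSeries_injective

theorem iq_ne {e : ℚ⟦X⟧} (he : e ≠ 0) : iq e ≠ 0 := fun h => he (iq_inj (h.trans (map_zero _).symm))

theorem iq_C (c : ℚ) : iq (C c) = (c : L) := eq_ratCast (iq.comp C) c

/-- The shift on power series. -/
def t0 (a : ℚ⟦X⟧) : L⟦X⟧ := PowerSeries.mk fun n => iq (Hs n a)

theorem t0_coeff (a : ℚ⟦X⟧) (n : ℕ) : coeff n (t0 a) = iq (Hs n a) := coeff_mk _ _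

theorem t0_zero (a : ℚ⟦X⟧) : coeff 0 (t0 a) = iq a := by rw [t0_coeff, hs_zero]

theorem t0_add (a b : ℚ⟦X⟧) : t0 (a + b) = t0 a + t0 b := by
  refine PowerSeries.ext fun n => ?_
  rw [map_add, t0_coeff, t0_coeff, t0_coeff, hs_add, map_add]

theorem t0_der (a : ℚ⟦X⟧) : derivative L (t0 a) = t0 (derivative ℚ a) := by
  refine PowerSeries.ext fun n => ?_
  rw [coeff_derivative, t0_coeff, t0_coeff, ← hs_succ, map_mul, map_add, map_natCast, map_one]

theorem t0_mul (a b : ℚ⟦X⟧) : t0 (a * b) = t0 a * t0 b := by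
  have := charZeroL
  refine PowerSeries.ext fun n => ?_
  induction n generalizing a b with
  | zero => rw [t0_zero, map_mul, coeff_zero_eq_constantCoeff, map_mul,
      ← coeff_zero_eq_constantCoeff, t0_zero, t0_zero]
  | succ n ih =>
    have hn : ((n : L) + 1) ≠ 0 := Nat.cast_add_one_ne_zero n
    refine mul_right_cancel₀ hn ?_
    rw [← coeff_derivative, ← coeff_derivative, t0_der, Derivation.leibniz, Derivation.leibniz,
      t0_der, t0_der, smul_eq_mul, smul_eq_mul, smul_eq_mul, smul_eq_mul, t0_add, map_add, map_add,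
      ih, ih]

theorem hs_C (c : ℚ) (n : ℕ) : Hs (n + 1) (C c) = 0 := by
  ext k
  rw [Hs, coeff_mk, ← add_assoc, coeff_succ_C, mul_zero, map_zero]

theorem t0_one : t0 1 = 1 := by
  refine PowerSeries.ext fun n => ?_
  cases n with
  | zero => rw [t0_zero, map_one, coeff_zero_one]
  | succ n => rw [t0_coeff, ← map_one (C (R := ℚ)), hs_C, map_zero, coeff_one, if_neg n.succ_ne_zero]

/-- The shift on power series as a ring map. -/
def t1 : ℚ⟦X⟧ →+* L⟦X⟧ where
  toFun := t0
  map_one' := t0_one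
  map_mul' := t0_mul
  map_zero' := by
    have := t0_add 0 0
    rw [add_zero] at this
    exact left_eq_add.1 this
  map_add' := t0_add

theorem t1_unit (y : nonZeroDivisors ℚ⟦X⟧) : IsUnit (t1 y) := by
  rw [isUnit_iff_constantCoeff, ← coeff_zero_eq_constantCoeff_apply]
  exact ((t0_zero y).trans_ne (iq_ne (nonZeroDivisors.ne_zero y.2))).isUnit

/-- The shift on Laurent series. -/
def t2 : L →+* L⟦X⟧ := IsLocalization.lift (M := nonZeroDivisors ℚ⟦X⟧) t1_unit

theorem t2_iq (a : ℚ⟦X⟧) : t2 (iq a) = t0 a := IsLocalization.lift_eq t1_unit a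

theorem frac (k : L) : ∃ a e : ℚ⟦X⟧, e ≠ 0 ∧ k * iq e = iq a := by
  obtain ⟨⟨a, e⟩, h⟩ := IsLocalization.surj (nonZeroDivisors ℚ⟦X⟧) k
  exact ⟨a, e, nonZeroDivisors.ne_zero e.2, h⟩

theorem c0_mul (φ ψ : L⟦X⟧) : coeff 0 (φ * ψ) = coeff 0 φ * coeff 0 ψ := by
  rw [coeff_zero_eq_constantCoeff, map_mul]

theorem t2_c0 (k : L) : coeff 0 (t2 k) = k := by
  obtain ⟨a, e, he, h⟩ := frac k
  have h1 := congrArg (fun z => coeff 0 (t2 z)) h
  simp only [map_mul, t2_iq, c0_mul, t0_zero] at h1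
  exact mul_right_cancel₀ (iq_ne he) (h1.trans h.symm)

theorem t2_der (k : L) : derivative L (t2 k) = t2 (coeff 1 (t2 k)) := by
  obtain ⟨a, e, he, h⟩ := frac k
  have h1 := congrArg (fun z => derivative L (t2 z)) h
  simp only [map_mul, t2_iq, Derivation.leibniz, smul_eq_mul, t0_der] at h1
  have h2 := congrArg (fun z => t2 (coeff 0 z)) h1
  simp only [map_add, c0_mul, t0_zero, t2_c0, map_mul, t2_iq, coeff_derivative, Nat.cast_zero,
    zero_add, mul_one] at h2
  have h3 : t0 e ≠ 0 := fun h0 => iq_ne he (by rw [← t0_zero, h0, map_zero])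
  exact mul_left_cancel₀ h3 (add_left_cancel (h1.trans h2.symm))

end P0x

open P0x

theorem p0 : S_P0 := ⟨⟨t2, t2_c0, t2_der, fun a n => by rw [t2_iq, t0_coeff]⟩⟩

theorem p0b (S : Shift) : S_P0b S := by
  have hr : ∀ c : ℚ, S.tau (c : L) = C (c : L) := fun c => by
    refine PowerSeries.ext fun n => ?_
    cases n with
    | zero => rw [S.c0, coeff_zero_C]
    | succ n => rw [coeff_succ_C, ← iq_C, S.ps, hs_C, map_zero]
  have hm : ∀ a b, S.D (a * b) = a * S.D b + S.D a * b := fun a b => by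
    rw [Shift.D, map_mul, coeff_one_mul, ← coeff_zero_eq_constantCoeff_apply,
      ← coeff_zero_eq_constantCoeff_apply, S.c0, S.c0, Shift.D, Shift.D]
    ring
  have hp : ∀ a : ℚ⟦X⟧, S.D (iq a) = iq (derivative ℚ a) := fun a => by
    rw [Shift.D, S.ps, hs_one]
  have hz : ∀ (a : ℤ⟦X⟧) (n : ℕ), coeff n (S.tau (io a)) = io (Hs n a) := fun a n => by
    rw [io, RingHom.comp_apply, RingHom.comp_apply, S.ps, hs_map]
  refine ⟨⟨fun a b => by rw [Shift.D, map_add, map_add, Shift.D, Shift.D], hm, fun c => ?_⟩, hr, hp,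
    fun a => by rw [Shift.D, hz, hs_one], hz, fun k hk => ?_⟩
  · rw [Shift.D, hr, coeff_succ_C]
  · obtain ⟨⟨w, _, j, rfl⟩, h⟩ := IsLocalization.surj (Submonoid.powers (X : ℚ⟦X⟧)) k
    have h0 : k * iq (X ^ j) = iq w := h
    have h1 := congrArg S.D h0
    rw [hm, hk, zero_mul, add_zero, hp, hp] at h1
    have h2 : (X : ℚ⟦X⟧) * derivative ℚ (X ^ j) = C (j : ℚ) * X ^ j := by
      cases j with
      | zero => simp
      | succ j =>
        rw [derivative_pow, derivative_X, map_natCast, Nat.add_sub_cancel]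
        ring
    have h3 : X * derivative ℚ w = C (j : ℚ) * w := iq_inj (by
      rw [map_mul, map_mul, ← h1, ← h0, mul_left_comm, ← map_mul, h2, map_mul, mul_left_comm])
    have h4 : w = C (coeff j w) * X ^ j := by
      refine PowerSeries.ext fun n => ?_
      rw [coeff_C_mul, coeff_X_pow]
      split_ifs with hn
      · rw [hn, mul_one]
      · have h5 := congrArg (coeff n) h3
        rw [coeff_C_mul] at h5
        have h6 : coeff n (X * derivative ℚ w) = (n : ℚ) * coeff n w := by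
          cases n with
          | zero => simp
          | succ n =>
            rw [coeff_succ_X_mul, coeff_derivative]
            push_cast
            ring
        have h7 : (n : ℚ) - j ≠ 0 := sub_ne_zero.2 fun e => hn (Nat.cast_injective e)
        rw [mul_zero]
        refine (mul_eq_zero.1 ?_).resolve_left h7
        rw [sub_mul, ← h6, h5, sub_self]
    refine ⟨coeff j w, mul_right_cancel₀ (iq_ne (pow_ne_zero j X_ne_zero)) ?_⟩
    rw [h0, algMapL, ← iq_C, ← map_mul, ← h4]

end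

end Pool.Agent.MP_b2c033_nt.H87
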