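import Pool.Agent.MP_b2c033_nt.H87.Spec

/-! The discriminant times the invariant differential is an integral series. -/

namespace Pool.Agent.MP_b2c033_nt.H87

open scoped PowerSeries

namespace P1x

theorem io_inj : Function.Injective io := by
  intro a b h
  have h1 : PowerSeries.map (Int.castRingHom ℚ) a = PowerSeries.map (Int.castRingHom ℚ) b :=
    HahnSeries.ofPowerSeries_injective h
  ext n
  have := congrArg (PowerSeries.coeff n) h1
  simpa using this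

theorem io_ne {a : ℤ⟦X⟧} (h : a ≠ 0) : io a ≠ 0 := fun h0 => h (io_inj (h0.trans (map_zero io).symm))

theorem red {k : L} (h : FrZ k) : ∃ a d : ℤ⟦X⟧, d ≠ 0 ∧ IsRelPrime a d ∧ k * io d = io a := by
  obtain ⟨a, e, he, h⟩ := h
  obtain ⟨a', d, c, h1, rfl, rfl⟩ := UniqueFactorizationMonoid.exists_reduced_factors' a e he
  refine ⟨a', d, right_ne_zero_of_mul he, h1, ?_⟩
  apply mul_left_cancel₀ (io_ne (left_ne_zero_of_mul he))
  rw [map_mul, map_mul] at h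
  linear_combination h

/-- denominators of a point on the cubic -/
theorem shape {R : Type} [CommRing R] [IsDomain R] [UniqueFactorizationMonoid R]
    {a d b d₁ s : R} (hd : d ≠ 0) (h1 : IsRelPrime a d) (h2 : IsRelPrime b d₁)
    (h : b ^ 2 * d ^ 3 = d₁ ^ 2 * (a ^ 3 + d * s)) :
    ∃ e w : R, IsUnit w ∧ d₁ = d * e ∧ e ^ 2 = d * w := by
  have h3 : IsRelPrime d (a ^ 3 + d * s) := (h1.symm.pow_right (n := 3)).add_mul_left_right s
  have h4 : d ^ 3 ∣ d₁ ^ 2 := (h3.pow_left (m := 3)).dvd_of_dvd_mul_right ⟨b ^ 2, by rw [← h]; ring⟩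
  have h5 : d₁ ^ 2 ∣ d ^ 3 := (h2.symm.pow (m := 2) (n := 2)).dvd_of_dvd_mul_left ⟨_, h⟩
  have h6 : d ∣ d₁ := (IsIntegrallyClosed.pow_dvd_pow_iff two_ne_zero).1
    ((pow_dvd_pow d (by norm_num)).trans h4)
  obtain ⟨e, rfl⟩ := h6
  obtain ⟨w, hw⟩ := h4
  obtain ⟨v, hv⟩ := h5
  have h7 : e ^ 2 = d * w := mul_left_cancel₀ (pow_ne_zero 2 hd) (by linear_combination hw)
  refine ⟨e, w, IsUnit.of_mul_eq_one v ?_, rfl, h7⟩
  apply mul_left_cancel₀ (pow_ne_zero 3 hd)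
  linear_combination - hv - d ^ 2 * v * h7

end P1x

open P1x in
theorem p1 : S_P1 := by
  intro D a₂ a₄ a₆ x y hD hio hx hy hy0 h
  obtain ⟨a, d, hd, h1, hx⟩ := red hx
  obtain ⟨b, d₁, hd₁, h2, hy⟩ := red hy
  have hc : b ^ 2 * d ^ 3 = d₁ ^ 2 * (a ^ 3 + d * (a₂ * a ^ 2 + a₄ * a * d + a₆ * d ^ 2)) := by
    apply io_inj
    simp only [map_mul, map_add, map_pow, map_intCast, ← hx, ← hy]
    linear_combination io d₁ ^ 2 * io d ^ 3 * h
  obtain ⟨e, w, hw, rfl, he⟩ := shape hd h1 h2 hc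
  have he0 : io e ≠ 0 := io_ne (right_ne_zero_of_mul hd₁)
  have hE : io e ^ 2 = io d * io w := by rw [← map_pow, he, map_mul]
  rw [map_mul] at hy
  obtain ⟨A, hA⟩ : ∃ A, x * (io e * io e) = io A :=
    ⟨a * w, by rw [map_mul]; linear_combination x * hE + io w * hx⟩
  obtain ⟨B, hBe, hB⟩ : ∃ B, IsRelPrime B e ∧ y * (io e * (io e * io e)) = io B :=
    ⟨b * w, (isRelPrime_mul_unit_right_left hw).2 h2.of_mul_right_right,
      by rw [map_mul]; linear_combination y * io e * hE + io w * hy⟩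
  have hdA := congrArg D hA
  have hdB := congrArg D hB
  simp only [hD.mul, hio] at hdA hdB
  have hz : ∀ n : ℤ, D (n : L) = 0 := fun n => by simpa using hD.rat (n : ℚ)
  have hdE : 2 * y * D y = (3 * x ^ 2 + 2 * a₂ * x + a₄) * D x := by
    have h3 : y * y = x * (x * x) + a₂ * (x * x) + a₄ * x + a₆ := by linear_combination h
    have h4 := congrArg D h3
    simp only [hD.mul, hD.add, hz] at h4
    linear_combination h4
  set A' := PowerSeries.derivative ℤ A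
  set B' := PowerSeries.derivative ℤ B
  set e' := PowerSeries.derivative ℤ e
  have hx3 : io (A' * e - 2 * A * e') = io e ^ 3 * D x := by
    simp only [map_mul, map_sub, map_ofNat]
    linear_combination - io e * hdA + 2 * io e' * hA
  have hy4 : io (B' * e - 3 * B * e') = io e ^ 4 * D y := by
    simp only [map_mul, map_sub, map_ofNat]
    linear_combination - io e * hdB + 3 * io e' * hB
  obtain ⟨n₂, hn₂⟩ : ∃ n, io n = io e ^ 3 * D x := ⟨_, hx3⟩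
  obtain ⟨n₃, hn₃⟩ : ∃ n, io n = io e ^ 4 * D y := ⟨_, hy4⟩
  have hbez : ((18 * a₄ - 6 * a₂ ^ 2) * x + (15 * a₂ * a₄ - 27 * a₆ - 4 * a₂ ^ 3)) * y ^ 2 -
      ((6 * a₄ - 2 * a₂ ^ 2) * x ^ 2 + (7 * a₂ * a₄ - 9 * a₆ - 2 * a₂ ^ 3) * x +
        (4 * a₄ ^ 2 - a₂ ^ 2 * a₄ - 3 * a₂ * a₆)) * (3 * x ^ 2 + 2 * a₂ * x + a₄) =
      (disc a₂ a₄ a₆ : L) := by
    rw [h, disc]; push_cast; ring
  have hA' : io A = x * io e ^ 2 := by linear_combination - hA
  have hB' : io B = y * io e ^ 3 := by linear_combination - hB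
  have hdv : B ∣ e ^ 8 * ((disc a₂ a₄ a₆ : ℤ⟦X⟧) * n₂) := by
    refine ⟨((18 * a₄ - 6 * a₂ ^ 2) * A + (15 * a₂ * a₄ - 27 * a₆ - 4 * a₂ ^ 3) * e ^ 2) * B * n₂ -
      2 * ((6 * a₄ - 2 * a₂ ^ 2) * A ^ 2 + (7 * a₂ * a₄ - 9 * a₆ - 2 * a₂ ^ 3) * A * e ^ 2 +
        (4 * a₄ ^ 2 - a₂ ^ 2 * a₄ - 3 * a₂ * a₆) * e ^ 4) * n₃, io_inj ?_⟩
    simp only [map_mul, map_add, map_sub, map_pow, map_intCast, map_ofNat, hA', hB', hn₂, hn₃]
    linear_combination (- io e ^ 11 * D x) * hbez + io e ^ 11 *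
      ((6 * a₄ - 2 * a₂ ^ 2) * x ^ 2 + (7 * a₂ * a₄ - 9 * a₆ - 2 * a₂ ^ 3) * x +
        (4 * a₄ ^ 2 - a₂ ^ 2 * a₄ - 3 * a₂ * a₆)) * hdE
  obtain ⟨g, hg⟩ := (hBe.pow_right (n := 8)).dvd_of_dvd_mul_left hdv
  refine ⟨g, mul_left_cancel₀ (pow_ne_zero 3 he0) ?_⟩
  have h5 := congrArg io hg
  simp only [map_mul, map_intCast, hB', hn₂] at h5
  linear_combination - h5

end Pool.Agent.MP_b2c033_nt.H87
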