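import Pool.Agent.MP_b2c033_nt.H87.Spec

/-! The differential equation of the difference point, and its two consequences. -/

namespace Pool.Agent.MP_b2c033_nt.H87

open scoped PowerSeries

namespace P2x

/-- the algebra behind the differential equation, in a domain with a derivation -/
theorem core {R : Type} [CommRing R] [IsDomain R] (D : R → R)
    (hadd : ∀ a b, D (a + b) = D a + D b) (hmul : ∀ a b, D (a * b) = a * D b + D a * b)
    (a₂ a₄ a₆ x₂ y₂ x₁ y₁ G μ ν M : R) (d2 : D a₂ = 0) (d4 : D a₄ = 0) (d6 : D a₆ = 0)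
    (dx : D x₂ = 0) (dy : D y₂ = 0)
    (h1 : y₁ ^ 2 = x₁ ^ 3 + a₂ * x₁ ^ 2 + a₄ * x₁ + a₆)
    (h2 : y₂ ^ 2 = x₂ ^ 3 + a₂ * x₂ ^ 2 + a₄ * x₂ + a₆)
    (hd : D x₁ = G * y₁) (hy : y₁ ≠ 0) (hS : y₁ + y₂ ≠ 0) (hx : x₁ ≠ x₂)
    (hμ : μ * (y₁ + y₂) = x₁ - x₂) (hν : ν * (1 - (a₂ + x₁ + x₂) * μ ^ 2) = μ ^ 2)
    (hM : (1 - (a₂ + x₁ + x₂) * μ ^ 2) * M = 1)
    (hm : 1 - (a₂ + x₁ + x₂) * μ ^ 2 - x₁ * μ ^ 2 + y₁ * μ ^ 3 ≠ 0) :
    D ν = G * (μ * (1 - (a₂ + x₁ + x₂) * μ ^ 2 - x₁ * μ ^ 2 + y₁ * μ ^ 3) * M ^ 2) ∧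
    2 * D (μ * (1 - (a₂ + x₁ + x₂) * μ ^ 2 - x₁ * μ ^ 2 + y₁ * μ ^ 3) * M ^ 2) =
      G * (1 + 2 * a₂ * ν + 3 * a₄ * ν ^ 2 + 4 * a₆ * ν ^ 3) := by
  have hsub : ∀ a b, D (a - b) = D a - D b := fun a b => by
    have := hadd (a - b) b
    rw [sub_add_cancel] at this
    linear_combination -this
  have hsq : ∀ a, D (a ^ 2) = 2 * a * D a := fun a => by rw [sq, hmul]; ring
  have hcu : ∀ a, D (a ^ 3) = 3 * a ^ 2 * D a := fun a => by
    rw [pow_succ, hmul, hsq]; ring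
  have hq : ∀ a, D (a ^ 4) = 4 * a ^ 3 * D a := fun a => by
    rw [pow_succ, hmul, hcu]; ring
  have hH : y₁ - y₂ = μ * (x₁ ^ 2 + x₁ * x₂ + x₂ ^ 2 + a₂ * (x₁ + x₂) + a₄) := by
    apply mul_right_cancel₀ hS
    linear_combination h1 - h2 - (x₁ ^ 2 + x₁ * x₂ + x₂ ^ 2 + a₂ * (x₁ + x₂) + a₄) * hμ
  have hdy : 2 * D y₁ = G * (3 * x₁ ^ 2 + 2 * a₂ * x₁ + a₄) := by
    apply mul_right_cancel₀ hy
    have := congrArg D h1
    rw [hsq, hadd, hadd, hadd, hcu, hmul, hsq, hmul, d2, d4, d6, hd] at this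
    linear_combination this
  have hdμ : 2 * D μ = G * (1 - (a₂ + x₁ + x₂) * μ ^ 2 - x₁ * μ ^ 2) := by
    apply mul_right_cancel₀ hS
    have := congrArg D hμ
    rw [hmul, hadd, hsub, dx, dy, hd] at this
    linear_combination 2 * this - μ * hdy + G * hH +
      G * μ * (a₂ + 2 * x₁ + x₂) * hμ
  have hνM : ν = μ ^ 2 * M := by linear_combination M * hν - ν * hM
  have hdν : D ν = G * (μ * (1 - (a₂ + x₁ + x₂) * μ ^ 2 - x₁ * μ ^ 2 + y₁ * μ ^ 3) * M ^ 2) := by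
    have h := congrArg D hν
    have h1' : D 1 = 0 := by
      have := hmul 1 1
      rw [mul_one, mul_one, one_mul] at this
      linear_combination -this
    rw [hmul, hsub, h1', hmul, hsq, hadd, hadd, d2, dx, hd] at h
    have h' : D ν * (1 - (a₂ + x₁ + x₂) * μ ^ 2) ^ 2 =
        G * (μ * (1 - (a₂ + x₁ + x₂) * μ ^ 2 - x₁ * μ ^ 2 + y₁ * μ ^ 3)) := by
      linear_combination (1 - (a₂ + x₁ + x₂) * μ ^ 2) * h +
        ((a₂ + x₁ + x₂) * (2 * μ * D μ) + G * y₁ * μ ^ 2) * hν + μ * hdμ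
    linear_combination M ^ 2 * h' - D ν * ((1 - (a₂ + x₁ + x₂) * μ ^ 2) * M + 1) * hM
  refine ⟨hdν, ?_⟩
  have hμ0 : μ ≠ 0 := by
    rintro rfl
    exact hx (by linear_combination -hμ)
  have hM0 : M ≠ 0 := by
    rintro rfl
    simp at hM
  obtain ⟨N, hN⟩ : ∃ N, N = 1 - (a₂ + x₁ + x₂) * μ ^ 2 := ⟨_, rfl⟩
  have hid : N ^ 3 + a₂ * N ^ 2 * μ ^ 2 + a₄ * N * μ ^ 4 + a₆ * μ ^ 6 =
      (N - x₁ * μ ^ 2 + y₁ * μ ^ 3) ^ 2 := by
    have hb : x₁ - x₂ + μ ^ 2 * (x₁ ^ 2 + x₁ * x₂ + x₂ ^ 2 + a₂ * (x₁ + x₂) + a₄) -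
        2 * μ * y₁ = 0 := by linear_combination -hμ - μ * hH
    rw [hN]
    linear_combination -μ ^ 6 * h1 +
      (1 - (a₂ + x₁ + x₂) * μ ^ 2 - x₁ * μ ^ 2) * μ ^ 2 * hb
  rw [← hN] at hM hm hdν ⊢
  obtain ⟨ν₁, hν₁⟩ : ∃ ν₁, ν₁ = μ * (N - x₁ * μ ^ 2 + y₁ * μ ^ 3) * M ^ 2 := ⟨_, rfl⟩
  have hne : ν₁ ≠ 0 := by
    rw [hν₁]
    exact mul_ne_zero (mul_ne_zero hμ0 hm) (pow_ne_zero _ hM0)
  have hsq1 : ν₁ ^ 2 = ν + a₂ * ν ^ 2 + a₄ * ν ^ 3 + a₆ * ν ^ 4 := by
    rw [hν₁, hνM]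
    linear_combination -(μ ^ 2 * M ^ 4) * hid +
      (μ ^ 2 * M * ((N * M) ^ 2 + N * M + 1) + a₂ * μ ^ 4 * M ^ 2 * (N * M + 1) +
        a₄ * μ ^ 6 * M ^ 3) * hM
  rw [← hν₁] at hdν ⊢
  apply mul_right_cancel₀ hne
  have := congrArg D hsq1
  rw [hsq, hadd, hadd, hadd, hmul, hmul, hmul, hsq, hcu, hq, d2, d4, d6, hdν] at this
  linear_combination this

/-- all coefficients up to degree `n` lie in `B` -/
def Lo {Λ : Type} [Field Λ] (B : Subring Λ) (n : ℕ) (f : Λ⟦X⟧) : Prop :=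
  ∀ k ≤ n, PowerSeries.coeff k f ∈ B

section
variable {Λ : Type} [Field Λ] {B : Subring Λ} {n : ℕ} {f g : Λ⟦X⟧}

theorem Lo.add (hf : Lo B n f) (hg : Lo B n g) : Lo B n (f + g) := fun k hk => by
  rw [map_add]
  exact B.add_mem (hf k hk) (hg k hk)

theorem Lo.mul (hf : Lo B n f) (hg : Lo B n g) : Lo B n (f * g) := fun k hk => by
  rw [PowerSeries.coeff_mul]
  refine B.sum_mem fun p hp => ?_
  have := Finset.HasAntidiagonal.mem_antidiagonal.1 hp
  exact B.mul_mem (hf _ (by omega)) (hg _ (by omega))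

theorem Lo.int (a : ℤ) : Lo B n (a : Λ⟦X⟧) := fun k _ => by
  rw [← map_intCast (PowerSeries.C (R := Λ)) a, PowerSeries.coeff_C]
  split_ifs
  · exact intCast_mem B a
  · exact B.zero_mem

theorem Lo.pow (hf : Lo B n f) (m : ℕ) : Lo B n (f ^ m) := by
  induction m with
  | zero => simpa using (Lo.int (B := B) (n := n) 1)
  | succ m ih => rw [pow_succ]; exact ih.mul hf

end

theorem dvd_of_der {m : ℕ} {f : ℚ⟦X⟧} (h0 : PowerSeries.coeff 0 f = 0)
    (h : PowerSeries.X ^ m ∣ PowerSeries.derivative ℚ f) : PowerSeries.X ^ (m + 1) ∣ f := by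
  rw [PowerSeries.X_pow_dvd_iff] at h ⊢
  intro k hk
  cases k with
  | zero => exact h0
  | succ k =>
    have := h k (by omega)
    rw [PowerSeries.coeff_derivative] at this
    exact (mul_eq_zero.1 this).resolve_right (by positivity)

theorem coeff_top (m : ℕ) (f : ℚ⟦X⟧) :
    PowerSeries.coeff m (PowerSeries.X ^ m * f) = PowerSeries.coeff 0 f := by
  simpa using PowerSeries.coeff_X_pow_mul f m 0

end P2x

open P2x

theorem p2 : S_P2 := by
  intro Λ _ _ a₂ a₄ a₆ x₂ y₂ x₁ y₁ G μ ν hx0 hy0 hy h1 h2 hd hx hμ hν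
  rw [PowerSeries.coeff_zero_eq_constantCoeff_apply] at hx0 hy0
  have hS : y₁ + PowerSeries.C y₂ ≠ 0 := fun h => by
    have := congrArg PowerSeries.constantCoeff h
    simp only [map_add, hy0, PowerSeries.constantCoeff_C, map_zero] at this
    exact hy (by linear_combination this / 2)
  have hy1 : y₁ ≠ 0 := fun h => by
    rw [h, map_zero] at hy0
    exact hy hy0.symm
  have hμ0 : PowerSeries.constantCoeff μ = 0 := by
    have := congrArg PowerSeries.constantCoeff hμ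
    simp only [map_add, map_mul, map_sub, hy0, hx0, PowerSeries.constantCoeff_C, sub_self] at this
    refine (mul_eq_zero.1 this).resolve_right fun h => hy (by linear_combination h / 2)
  have hU : IsUnit (1 - (a₂ + x₁ + PowerSeries.C x₂) * μ ^ 2 : Λ⟦X⟧) := by
    rw [PowerSeries.isUnit_iff_constantCoeff]
    simp [hμ0]
  obtain ⟨M, hM⟩ := hU.exists_right_inv
  have hm : (1 - (a₂ + x₁ + PowerSeries.C x₂) * μ ^ 2 - x₁ * μ ^ 2 + y₁ * μ ^ 3 : Λ⟦X⟧) ≠ 0 :=
    fun h => by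
      have := congrArg PowerSeries.constantCoeff h
      simp [hμ0] at this
  have h2' : (PowerSeries.C y₂ : Λ⟦X⟧) ^ 2 =
      PowerSeries.C x₂ ^ 3 + a₂ * PowerSeries.C x₂ ^ 2 + a₄ * PowerSeries.C x₂ + a₆ := by
    have := congrArg (PowerSeries.C (R := Λ)) h2
    simpa using this
  have hi : ∀ a : ℤ, PowerSeries.derivative Λ (a : Λ⟦X⟧) = 0 := fun a => by
    rw [← map_intCast (PowerSeries.C (R := Λ)) a, PowerSeries.derivative_C]
  have key := core (fun f => PowerSeries.derivative Λ f) (fun a b => map_add _ a b)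
    (fun a b => by simp only [Derivation.leibniz, smul_eq_mul]; ring)
    (a₂ : Λ⟦X⟧) a₄ a₆ (PowerSeries.C x₂) (PowerSeries.C y₂) x₁ y₁ G μ ν M (hi _) (hi _) (hi _)
    PowerSeries.derivative_C PowerSeries.derivative_C h1 h2' hd hy1 hS hx hμ hν hM hm
  refine ⟨_, ?_, ?_, key.1, key.2⟩
  · have := congrArg PowerSeries.constantCoeff hν
    simpa [hμ0] using this
  · simp [hμ0]

theorem p3a : S_P3a := by
  intro Λ _ _ B a₂ a₄ a₆ G ν ν₁ hQ hG ⟨h0, h10, hd, hd1⟩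
  have hall : ∀ n, Lo B n ν ∧ Lo B n ν₁ := by
    intro n
    induction n with
    | zero =>
      refine ⟨fun k hk => ?_, fun k hk => ?_⟩
      · rw [Nat.le_zero.1 hk, h0]; exact B.zero_mem
      · rw [Nat.le_zero.1 hk, h10]; exact B.zero_mem
    | succ n ih =>
      have hG' : Lo B n G := fun k _ => hG k
      have hn : ((n : Λ) + 1) ≠ 0 := by exact_mod_cast Nat.succ_ne_zero n
      have c2 : Lo B n (2 : Λ⟦X⟧) := by simpa using (Lo.int (B := B) (n := n) 2)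
      have c3 : Lo B n (3 : Λ⟦X⟧) := by simpa using (Lo.int (B := B) (n := n) 3)
      have c4 : Lo B n (4 : Λ⟦X⟧) := by simpa using (Lo.int (B := B) (n := n) 4)
      have c1 : Lo B n (1 : Λ⟦X⟧) := by simpa using (Lo.int (B := B) (n := n) 1)
      refine ⟨fun k hk => ?_, fun k hk => ?_⟩
      · rcases Nat.lt_or_eq_of_le hk with h | rfl
        · exact ih.1 k (by omega)
        · have h := (hG'.mul ih.2) n le_rfl
          rw [← hd, PowerSeries.coeff_derivative] at h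
          have h' := B.mul_mem h (hQ (1 / ((n : ℚ) + 1)))
          convert h' using 1
          push_cast
          field_simp
      · rcases Nat.lt_or_eq_of_le hk with h | rfl
        · exact ih.2 k (by omega)
        · have h := (hG'.mul (((c1.add ((c2.mul (Lo.int a₂)).mul ih.1)).add
            ((c3.mul (Lo.int a₄)).mul (ih.1.pow 2))).add
            ((c4.mul (Lo.int a₆)).mul (ih.1.pow 3)))) n le_rfl
          rw [← hd1, two_mul, map_add, PowerSeries.coeff_derivative] at h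
          have h' := B.mul_mem h (hQ (1 / (2 * ((n : ℚ) + 1))))
          convert h' using 1
          push_cast
          field_simp
          ring
  exact fun n => ⟨(hall n).1 n le_rfl, (hall n).2 n le_rfl⟩

theorem p3b : S_P3b := by
  intro a₂ a₄ a₆ g ν ν₁ ν' u c m ⟨h0, h10, hd, hd1⟩ hg hu hν
  obtain ⟨g₀, hg₀⟩ : PowerSeries.X ^ m ∣ g := PowerSeries.X_pow_dvd_iff.2 hg
  have hm : ((m : ℚ) + 1) ≠ 0 := by positivity
  have hc0 : PowerSeries.constantCoeff ν = 0 := by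
    rwa [PowerSeries.coeff_zero_eq_constantCoeff_apply] at h0
  have hgm : PowerSeries.coeff m g = PowerSeries.constantCoeff g₀ := by
    rw [hg₀, coeff_top, PowerSeries.coeff_zero_eq_constantCoeff_apply]
  have hd1' : PowerSeries.derivative ℚ ν₁ = PowerSeries.X ^ m * (PowerSeries.C (1 / 2 : ℚ) *
      (g₀ * (1 + 2 * (a₂ : ℚ⟦X⟧) * ν + 3 * (a₄ : ℚ⟦X⟧) * ν ^ 2 +
        4 * (a₆ : ℚ⟦X⟧) * ν ^ 3))) := by
    have h2 : (PowerSeries.C (1 / 2 : ℚ) : ℚ⟦X⟧) * 2 = 1 := by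
      rw [← map_ofNat (PowerSeries.C (R := ℚ)) 2, ← map_mul]
      norm_num
    rw [hg₀] at hd1
    linear_combination PowerSeries.C (1 / 2 : ℚ) * hd1 - PowerSeries.derivative ℚ ν₁ * h2
  obtain ⟨w, hw⟩ := dvd_of_der h10 ⟨_, hd1'⟩
  have hw0 : PowerSeries.constantCoeff w * (m + 1) = PowerSeries.constantCoeff g₀ / 2 := by
    have := congrArg (PowerSeries.coeff m) hd1'
    rw [PowerSeries.coeff_derivative, coeff_top, hw, coeff_top] at this
    simp only [PowerSeries.coeff_zero_eq_constantCoeff_apply] at this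
    rw [this]
    simp [hc0]
    ring
  have hd' : PowerSeries.derivative ℚ ν = PowerSeries.X ^ (2 * m + 1) * (g₀ * w) := by
    rw [hd, hg₀, hw]; ring
  obtain ⟨v, hv⟩ := dvd_of_der h0 ⟨_, hd'⟩
  have hv0 : PowerSeries.constantCoeff v * (2 * m + 1 + 1) =
      PowerSeries.constantCoeff g₀ * PowerSeries.constantCoeff w := by
    have := congrArg (PowerSeries.coeff (2 * m + 1)) hd'
    rw [PowerSeries.coeff_derivative, coeff_top, hv, coeff_top] at this
    simp only [PowerSeries.coeff_zero_eq_constantCoeff_apply, map_mul] at this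
    push_cast at this
    exact this
  have hρ0 : PowerSeries.constantCoeff ν' * u ^ 2 = 0 := by
    have := congrArg PowerSeries.constantCoeff hν
    simpa [hc0] using this
  have hρ : ν' * PowerSeries.C (u ^ 2) = PowerSeries.X ^ (2 * m + 1 + 1) *
      (v + PowerSeries.C c * v * (ν' * PowerSeries.C (u ^ 2))) := by
    have hν' := hν
    rw [hv] at hν'
    linear_combination hν'
  have hco := congrArg (PowerSeries.coeff (2 * m + 1 + 1)) hρ
  rw [coeff_top, PowerSeries.coeff_mul_C] at hco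
  simp only [PowerSeries.coeff_zero_eq_constantCoeff_apply, map_add, map_mul,
    PowerSeries.constantCoeff_C, hρ0, mul_zero, add_zero] at hco
  rw [show 2 * (m + 1) = 2 * m + 1 + 1 by ring, hgm]
  have hu2 : u ^ 2 ≠ 0 := pow_ne_zero _ hu
  have e1 : PowerSeries.constantCoeff w = PowerSeries.constantCoeff g₀ / (2 * (m + 1)) := by
    field_simp
    linear_combination 2 * hw0
  have e2 : PowerSeries.constantCoeff v =
      (PowerSeries.constantCoeff g₀ / (2 * (m + 1))) ^ 2 := by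
    rw [e1] at hv0
    field_simp at hv0 ⊢
    linear_combination hv0
  apply mul_right_cancel₀ hu2
  rw [hco, e2]
  field_simp

end Pool.Agent.MP_b2c033_nt.H87
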