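import Pool.Agent.MP_b2c033_nt.H87.Spec

/-! The localisation of the integral power series at a prime. -/

namespace Pool.Agent.MP_b2c033_nt.H87

open Polynomial
open scoped PowerSeries LaurentSeries

noncomputable section

namespace P4x

/-- reduction modulo `p` -/
abbrev red (p : ℕ) : ℤ⟦X⟧ →+* (ZMod p)⟦X⟧ := PowerSeries.map (Int.castRingHom (ZMod p))

theorem red_zero_iff (p : ℕ) (a : ℤ⟦X⟧) : red p a = 0 ↔ (p : ℤ⟦X⟧) ∣ a := by
  constructor
  · intro h
    have h1 : ∀ n, (p : ℤ) ∣ PowerSeries.coeff n a := by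
      intro n
      have h2 := congrArg (PowerSeries.coeff n) h
      rw [PowerSeries.coeff_map, map_zero] at h2
      exact (ZMod.intCast_zmod_eq_zero_iff_dvd _ p).1 h2
    choose b hb using h1
    refine ⟨PowerSeries.mk b, ?_⟩
    ext n
    have h3 : (p : ℤ⟦X⟧) = PowerSeries.C (p : ℤ) := (map_natCast PowerSeries.C p).symm
    rw [h3, PowerSeries.coeff_C_mul, PowerSeries.coeff_mk, hb]
  · rintro ⟨b, rfl⟩
    have h3 : (p : (ZMod p)⟦X⟧) = 0 := by
      rw [← map_natCast (PowerSeries.C (R := ZMod p)) p, ZMod.natCast_self, map_zero]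
    rw [map_mul, map_natCast, h3, zero_mul]

theorem io_inj : Function.Injective io := by
  unfold io iq
  rw [RingHom.coe_comp]
  exact HahnSeries.ofPowerSeries_injective.comp
    (PowerSeries.map_injective _ (RingHom.injective_int _))

theorem io_ne {e : ℤ⟦X⟧} (he : e ≠ 0) : io e ≠ 0 := fun h => he (io_inj (by rw [h, map_zero]))

theorem ne_of_red {p : ℕ} {e : ℤ⟦X⟧} (he : red p e ≠ 0) : e ≠ 0 := by
  rintro rfl
  exact he (map_zero _)

theorem p_ne (p : ℕ) [hp : Fact p.Prime] : (p : ℤ⟦X⟧) ≠ 0 := by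
  intro h
  have h2 := congrArg (PowerSeries.constantCoeff (R := ℤ)) h
  rw [map_natCast, map_zero] at h2
  exact hp.out.ne_zero (by exact_mod_cast h2)

theorem pow_dvd (p : ℕ) [Fact p.Prime] {e : ℤ⟦X⟧} (he : red p e ≠ 0) (n : ℕ) :
    ∀ a : ℤ⟦X⟧, (p : ℤ⟦X⟧) ^ n ∣ a * e → (p : ℤ⟦X⟧) ^ n ∣ a := by
  induction n with
  | zero => intro a _; simp
  | succ n ih =>
    intro a h
    have h1 : (p : ℤ⟦X⟧) ∣ a * e := (dvd_pow_self _ (Nat.succ_ne_zero n)).trans h
    rw [← red_zero_iff, map_mul] at h1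
    obtain ⟨b, rfl⟩ := (red_zero_iff p a).1 ((mul_eq_zero.1 h1).resolve_right he)
    rw [pow_succ'] at h ⊢
    rw [mul_assoc] at h
    exact mul_dvd_mul_left _ (ih b ((mul_dvd_mul_iff_left (p_ne p)).1 h))

theorem eq_zero_of_pow_dvd (p : ℕ) [hp : Fact p.Prime] {a : ℤ⟦X⟧}
    (h : ∀ n : ℕ, (p : ℤ⟦X⟧) ^ n ∣ a) : a = 0 := by
  ext i
  rw [map_zero]
  have h1 : ∀ n : ℕ, (p : ℤ) ^ n ∣ PowerSeries.coeff i a := by
    intro n
    obtain ⟨b, hb⟩ := h n
    have h3 : (p : ℤ⟦X⟧) ^ n = PowerSeries.C ((p : ℤ) ^ n) := by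
      rw [map_pow, map_natCast]
    rw [hb, h3, PowerSeries.coeff_C_mul]
    exact Dvd.intro _ rfl
  refine Int.eq_zero_of_dvd_of_natAbs_lt_natAbs (h1 (PowerSeries.coeff i a).natAbs) ?_
  rw [Int.natAbs_pow, Int.natAbs_natCast]
  exact Nat.lt_pow_self hp.out.one_lt

theorem exists_split (p : ℕ) [Fact p.Prime] {e : ℤ⟦X⟧} (he : e ≠ 0) :
    ∃ (n : ℕ) (e' : ℤ⟦X⟧), red p e' ≠ 0 ∧ e = (p : ℤ⟦X⟧) ^ n * e' := by
  by_contra hc
  push Not at hc
  refine he (eq_zero_of_pow_dvd p fun n => ?_)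
  induction n with
  | zero => simp
  | succ n ih =>
    obtain ⟨b, hb⟩ := ih
    have h1 : red p b = 0 := by
      by_contra h2
      exact hc n b h2 hb
    obtain ⟨b', hb'⟩ := (red_zero_iff p b).1 h1
    exact ⟨b', by rw [hb, hb', pow_succ, mul_assoc]⟩

theorem mem_iff (p : ℕ) [Fact p.Prime] (k : L) :
    k ∈ Op p ↔ ∃ a e : ℤ⟦X⟧, red p e ≠ 0 ∧ k * io e = io a := Iff.rfl

theorem io_mem (p : ℕ) [Fact p.Prime] (a : ℤ⟦X⟧) : io a ∈ Op p :=
  (mem_iff p _).2 ⟨a, 1, by simp, by simp⟩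

theorem div_mem (p : ℕ) [Fact p.Prime] (a : ℤ⟦X⟧) {e : ℤ⟦X⟧} (he : red p e ≠ 0) :
    io a / io e ∈ Op p :=
  (mem_iff p _).2 ⟨a, e, he, div_mul_cancel₀ _ (io_ne (ne_of_red he))⟩

theorem hom_eval {Λ : Type} [CommRing Λ] [Algebra ℤ Λ] (φ : ℤ⟦X⟧ →+* Λ) (a e : ℤ⟦X⟧) (x : Λ)
    (hx : x * φ e = φ a) (P : ℤ[X]) :
    φ (∑ i ∈ Finset.range (P.natDegree + 1),
      (P.coeff i : ℤ⟦X⟧) * a ^ i * e ^ (P.natDegree - i)) = aeval x P * φ e ^ P.natDegree := by
  rw [aeval_eq_sum_range, Finset.sum_mul, map_sum]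
  refine Finset.sum_congr rfl fun i hi => ?_
  have hi' : i ≤ P.natDegree := Nat.lt_succ_iff.1 (Finset.mem_range.1 hi)
  obtain ⟨j, hj⟩ := Nat.exists_eq_add_of_le hi'
  have h1 : P.natDegree - i = j := by omega
  rw [h1, Algebra.smul_def, eq_intCast (algebraMap ℤ Λ), map_mul, map_mul, map_pow, map_pow,
    map_intCast, ← hx, hj, pow_add, mul_pow]
  ring

theorem alg_const {F : Type} [Field F] (w : F⟦X⟧) (hw : IsAlgebraic F w) :
    w = PowerSeries.C (PowerSeries.constantCoeff w) := by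
  by_contra hne
  have h1 : IsIntegral F (w - PowerSeries.C (PowerSeries.constantCoeff w)) :=
    hw.isIntegral.sub (isIntegral_algebraMap (x := PowerSeries.constantCoeff w))
  have h2 := (h1.isUnit (sub_ne_zero.2 hne)).map (PowerSeries.constantCoeff (R := F))
  simp at h2

theorem alg_frac {F : Type} [Field F] (a e : F⟦X⟧) (he : e ≠ 0)
    (h : IsAlgebraic F (algebraMap F⟦X⟧ (FractionRing F⟦X⟧) a /
      algebraMap F⟦X⟧ (FractionRing F⟦X⟧) e)) : ∃ c : F, a = PowerSeries.C c * e := by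
  have hinj : Function.Injective (algebraMap F⟦X⟧ (FractionRing F⟦X⟧)) :=
    IsFractionRing.injective _ _
  have he' : algebraMap F⟦X⟧ (FractionRing F⟦X⟧) e ≠ 0 := fun h0 =>
    he (hinj (by rw [h0, map_zero]))
  rcases ValuationRing.dvd_total e a with ⟨w, rfl⟩ | ⟨w, rfl⟩
  · rw [map_mul, mul_div_cancel_left₀ _ he', isAlgebraic_algebraMap_iff hinj] at h
    exact ⟨_, by rw [← alg_const w h, mul_comm]⟩
  · have ha : algebraMap F⟦X⟧ (FractionRing F⟦X⟧) a ≠ 0 := by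
      intro h0
      rw [map_mul, h0, zero_mul] at he'
      exact he' rfl
    have h1 := h.inv
    rw [inv_div, map_mul, mul_div_cancel_left₀ _ ha, isAlgebraic_algebraMap_iff hinj] at h1
    have h2 := alg_const w h1
    have h3 : PowerSeries.constantCoeff w ≠ 0 := by
      intro h0
      rw [h0, map_zero] at h2
      exact he (by rw [h2, mul_zero])
    refine ⟨(PowerSeries.constantCoeff w)⁻¹, ?_⟩
    generalize PowerSeries.constantCoeff w = c at h2 h3
    rw [h2, mul_comm a, ← mul_assoc, ← map_mul, inv_mul_cancel₀ h3, map_one, one_mul]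

end P4x

open P4x

theorem p4a (p : ℕ) [Fact p.Prime] : S_P4a p where
  dvr := by
    intro k hk
    obtain ⟨a, e, he, h⟩ := (mem_iff p k).1 hk
    by_cases ha : red p a = 0
    · obtain ⟨b, rfl⟩ := (red_zero_iff p a).1 ha
      refine Or.inr ⟨io b / io e, div_mem p b he, ?_⟩
      rw [map_mul, map_natCast] at h
      rw [← mul_div_assoc, ← h, mul_div_cancel_right₀ _ (io_ne (ne_of_red he))]
    · refine Or.inl ⟨io e / io a, div_mem p e ha, ?_⟩
      rw [← mul_div_assoc, h, div_self (io_ne (ne_of_red ha))]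
  nu := by
    intro k hk h1
    obtain ⟨a, e, he, h⟩ := (mem_iff p k).1 hk
    refine he ((red_zero_iff p e).2 ⟨a, io_inj ?_⟩)
    rw [map_mul, map_natCast, ← h, ← mul_assoc, h1, one_mul]
  sep := by
    intro k hk
    obtain ⟨k₀, hk₀, h₀⟩ := hk 0
    rw [pow_zero, one_mul] at h₀
    subst h₀
    obtain ⟨a, e, he, h⟩ := (mem_iff p k).1 hk₀
    have ha : a = 0 := by
      refine eq_zero_of_pow_dvd p fun n => ?_
      obtain ⟨k', hk', h'⟩ := hk n
      obtain ⟨a', e', he', h''⟩ := (mem_iff p k').1 hk'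
      refine pow_dvd p he' n a ⟨a' * e, io_inj ?_⟩
      rw [map_mul, map_mul, map_mul, map_pow, map_natCast, ← h, ← h'']
      conv_lhs => rw [h']
      ring
    rw [ha, map_zero] at h
    exact (mul_eq_zero.1 h).resolve_right (io_ne (ne_of_red he))
  den := by
    rintro k ⟨a, e, he, h⟩
    obtain ⟨n, e', he', rfl⟩ := exists_split p he
    refine ⟨n, (mem_iff p _).2 ⟨a, e', he', ?_⟩⟩
    rw [← h, map_mul, map_pow, map_natCast]
    ring
  cap := by
    intro g n k hn hk hg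
    have hp : p.Prime := Fact.out
    obtain ⟨a, e, he, h⟩ := (mem_iff p k).1 hk
    obtain ⟨j, s, hs, hns⟩ : ∃ (j : ℕ) (s : ℤ), ¬ (p : ℤ) ∣ s ∧ n = (p : ℤ) ^ j * s := by
      have hfin : FiniteMultiplicity (p : ℤ) n :=
        Int.finiteMultiplicity_iff.2 ⟨by simpa using hp.ne_one, hn⟩
      obtain ⟨s, h1, h2⟩ := hfin.exists_eq_pow_mul_and_not_dvd
      exact ⟨_, s, h2, h1⟩
    have h1 : (p : ℤ⟦X⟧) ^ j ∣ g := by
      refine pow_dvd p he j g ⟨(s : ℤ⟦X⟧) * a, io_inj ?_⟩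
      rw [map_mul, map_mul, map_mul, map_pow, map_natCast, map_intCast, ← h, ← hg, hns]
      push_cast
      ring
    obtain ⟨g', rfl⟩ := h1
    refine ⟨PowerSeries.coeff 0 g', s, hs, ?_⟩
    have h3 : (p : ℤ⟦X⟧) ^ j = PowerSeries.C ((p : ℤ) ^ j) := by
      rw [map_pow, map_natCast]
    rw [h3, PowerSeries.coeff_C_mul, hns]
    ring

theorem p4b : S_P4b := by
  intro p _ τ h0 hτ k hk n
  obtain ⟨a, e, he, h⟩ := (mem_iff p k).1 hk
  have he' := io_ne (ne_of_red he)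
  induction n using Nat.strong_induction_on with
  | _ n ih =>
    have h1 := congrArg (fun t => PowerSeries.coeff n (τ t)) h
    simp only [map_mul] at h1
    rw [PowerSeries.coeff_mul, hτ, Finset.Nat.sum_antidiagonal_eq_sum_range_succ_mk,
      Finset.sum_range_succ, Nat.sub_self, h0] at h1
    have h2 : PowerSeries.coeff n (τ k) = (io (Hs n a) - ∑ i ∈ Finset.range n,
        PowerSeries.coeff i (τ k) * PowerSeries.coeff (n - i) (τ (io e))) * (io 1 / io e) := by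
      rw [← h1, add_sub_cancel_left, map_one, mul_assoc, mul_one_div_cancel he', mul_one]
    rw [h2]
    refine mul_mem (sub_mem (io_mem p _) (sum_mem fun i hi => mul_mem
      (ih i (Finset.mem_range.1 hi)) ?_)) (div_mem p 1 he)
    rw [hτ]
    exact io_mem p _

theorem p4c : S_P4c := by
  rintro p _ ξ hξ P ⟨i, hi⟩ ⟨k, hk, hP⟩
  obtain ⟨a, e, he, h⟩ := (mem_iff p ξ).1 hξ
  obtain ⟨a', e', he', h'⟩ := (mem_iff p k).1 hk
  have h1 := hom_eval io a e ξ h P
  generalize hN : (∑ i ∈ Finset.range (P.natDegree + 1),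
      (P.coeff i : ℤ⟦X⟧) * a ^ i * e ^ (P.natDegree - i)) = N at h1
  have h2 : red p N = 0 := by
    have h3 : red p (N * e') = 0 := by
      refine (red_zero_iff p _).2 ⟨a' * e ^ P.natDegree, io_inj ?_⟩
      rw [map_mul, map_mul, map_mul, map_pow, map_natCast, h1, hP, ← h']
      ring
    rw [map_mul] at h3
    exact (mul_eq_zero.1 h3).resolve_right he'
  have hinj : Function.Injective (algebraMap (ZMod p)⟦X⟧ (FractionRing (ZMod p)⟦X⟧)) :=
    IsFractionRing.injective _ _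
  have he₁ : algebraMap (ZMod p)⟦X⟧ (FractionRing (ZMod p)⟦X⟧) (red p e) ≠ 0 := fun h0 =>
    he (hinj (by rw [h0, map_zero]))
  have h4 := hom_eval ((algebraMap (ZMod p)⟦X⟧ (FractionRing (ZMod p)⟦X⟧)).comp (red p)) a e
    (algebraMap (ZMod p)⟦X⟧ (FractionRing (ZMod p)⟦X⟧) (red p a) /
      algebraMap (ZMod p)⟦X⟧ (FractionRing (ZMod p)⟦X⟧) (red p e))
    (div_mul_cancel₀ _ he₁) P
  rw [hN, RingHom.comp_apply, h2, map_zero, RingHom.comp_apply] at h4
  have h5 := (mul_eq_zero.1 h4.symm).resolve_right (pow_ne_zero _ he₁)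
  have h6 : IsAlgebraic (ZMod p)
      (algebraMap (ZMod p)⟦X⟧ (FractionRing (ZMod p)⟦X⟧) (red p a) /
        algebraMap (ZMod p)⟦X⟧ (FractionRing (ZMod p)⟦X⟧) (red p e)) := by
    refine ⟨P.map (algebraMap ℤ (ZMod p)), ?_, ?_⟩
    · intro h0
      have h7 := congrArg (fun Q => Polynomial.coeff Q i) h0
      simp only [coeff_map, coeff_zero] at h7
      exact hi ((ZMod.intCast_zmod_eq_zero_iff_dvd _ p).1 h7)
    · rw [aeval_map_algebraMap]
      exact h5
  obtain ⟨c, hc⟩ := alg_frac _ _ he h6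
  obtain ⟨c, rfl⟩ := ZMod.intCast_surjective c
  have h8 : red p (a - (c : ℤ⟦X⟧) * e) = 0 := by
    rw [map_sub, map_mul, map_intCast, hc, map_intCast, sub_self]
  obtain ⟨b, hb⟩ := (red_zero_iff p _).1 h8
  refine ⟨c, io b / io e, div_mem p b he, ?_⟩
  have he₂ := io_ne (ne_of_red he)
  have h9 := congrArg io hb
  rw [map_sub, map_mul, map_mul, map_intCast, map_natCast, ← h] at h9
  rw [← mul_div_assoc, ← h9, ← sub_mul, mul_div_cancel_right₀ _ he₂]
  ring

end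

end Pool.Agent.MP_b2c033_nt.H87
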