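import Pool.Agent.MP_b2c033_nt.H87.Spec

/-! Row P5a: best approximation of a point by constants. -/

namespace Pool.Agent.MP_b2c033_nt.H87

namespace P5ax

variable {Λ : Type} [Field Λ] [CharZero Λ]

/-- `z` lies in `p ^ n * O` -/
def InP (p : ℕ) (O : Subring Λ) (n : ℤ) (z : Λ) : Prop := ∃ w ∈ O, z = (p : Λ) ^ n * w

theorem pd_zero (p : ℕ) : PD p 0 := ⟨0, 0, by simp⟩

theorem pd_add {p : ℕ} {c d : ℚ} (hc : PD p c) (hd : PD p d) : PD p (c + d) := by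
  obtain ⟨n, z, h⟩ := hc
  obtain ⟨m, w, h'⟩ := hd
  refine ⟨n + m, z * p ^ m + w * p ^ n, ?_⟩
  push_cast
  rw [← h, ← h']
  ring

theorem pd_zpow {p : ℕ} (hp : p.Prime) (z : ℤ) (m : ℤ) : PD p (z * (p : ℚ) ^ m) := by
  have h0 : (p : ℚ) ≠ 0 := by exact_mod_cast hp.ne_zero
  obtain ⟨n, rfl | rfl⟩ := Int.eq_nat_or_neg m
  · refine ⟨0, z * p ^ n, ?_⟩
    push_cast
    simp
  · refine ⟨n, z, ?_⟩
    rw [zpow_neg, zpow_natCast, mul_assoc, inv_mul_cancel₀ (pow_ne_zero _ h0), mul_one]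

theorem bdd {p : ℕ} {O : Subring Λ} (hp : p.Prime) (hO : IsLoc p O) {z : Λ} (hz : z ≠ 0) :
    ∃ N : ℤ, ∀ n : ℤ, InP p O n z → n ≤ N := by
  have h0 : (p : Λ) ≠ 0 := by exact_mod_cast hp.ne_zero
  by_contra hcon
  push Not at hcon
  apply hz
  apply hO.sep
  intro n
  obtain ⟨m, ⟨w, hw, e⟩, hm⟩ := hcon n
  obtain ⟨d, hd⟩ := Int.eq_ofNat_of_zero_le (show (0 : ℤ) ≤ m - n by omega)
  refine ⟨(p : Λ) ^ d * w, O.mul_mem (O.pow_mem (natCast_mem O p) d) hw, ?_⟩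
  have : m = (n : ℤ) + d := by omega
  rw [e, this, zpow_add₀ h0, zpow_natCast, zpow_natCast, mul_assoc]

theorem der_rat_mul {D : Λ → Λ} (hD : IsDer D) (c : ℚ) (z : Λ) : D (c * z) = c * D z := by
  rw [hD.mul, hD.rat]; ring

theorem der_zpow_mul {D : Λ → Λ} (hD : IsDer D) (p : ℕ) (n : ℤ) (z : Λ) :
    D ((p : Λ) ^ n * z) = (p : Λ) ^ n * D z := by
  have := der_rat_mul hD ((p : ℚ) ^ n) z
  push_cast at this
  exact this

theorem der_int {D : Λ → Λ} (hD : IsDer D) (c : ℤ) : D (c : Λ) = 0 := by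
  have := hD.rat (c : ℚ)
  push_cast at this
  exact this

theorem der_int_mul {D : Λ → Λ} (hD : IsDer D) (c : ℤ) (z : Λ) : D (c * z) = c * D z := by
  rw [hD.mul, der_int hD]; ring

theorem slope_ne {D : Λ → Λ} (hD : IsDer D) (a₂ a₄ a₆ : ℤ) {x y : Λ} (hx : D x ≠ 0)
    (h : y ^ 2 = x ^ 3 + a₂ * x ^ 2 + a₄ * x + a₆) : D (D y / D x) ≠ 0 := by
  intro hs
  set s := D y / D x with hsdef
  have hy : D y = s * D x := by rw [hsdef]; field_simp
  have e0 : y * y = x * (x * x) + a₂ * (x * x) + a₄ * x + a₆ := by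
    linear_combination h
  have e1 := congrArg D e0
  simp only [hD.add, hD.mul, der_int hD] at e1
  have e2 : (2 : ℤ) * (y * s) = (3 : ℤ) * (x * x) + (2 * a₂ : ℤ) * x + (a₄ : ℤ) := by
    apply mul_right_cancel₀ hx
    rw [hy] at e1
    push_cast
    linear_combination e1
  have e3 := congrArg D e2
  simp only [hD.add, hD.mul, der_int hD] at e3
  have e4 : (2 : ℤ) * (s * s) = (6 : ℤ) * x + (2 * a₂ : ℤ) := by
    apply mul_right_cancel₀ hx
    rw [hy, hs] at e3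
    push_cast at e3 ⊢
    linear_combination e3
  have e5 := congrArg D e4
  simp only [hD.add, hD.mul, der_int hD] at e5
  rw [hs] at e5
  apply hx
  push_cast at e5
  linear_combination (-1 / 6 : Λ) * e5

theorem bez {p : ℕ} (hp : p.Prime) {g : ℤ} (h : ¬ (p : ℤ) ∣ g) :
    ∃ a b : ℤ, a * g + b * p = 1 := by
  have hp' : Prime (p : ℤ) := Nat.prime_iff_prime_int.1 hp
  obtain ⟨a, b, e⟩ := (hp'.irreducible.coprime_iff_not_dvd).2 h
  exact ⟨b, a, by linear_combination e⟩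

end P5ax

open P5ax in
theorem p5a : S_P5a := by
  intro Λ _ _ p O D a₂ a₄ a₆ x y hp hO hD hDO hx hy hDx heq
  have h0 : (p : Λ) ≠ 0 := by exact_mod_cast hp.ne_zero
  have start : ∀ z : Λ, (∃ n : ℕ, (p : Λ) ^ n * z ∈ O) → ∃ m : ℤ, InP p O m z := by
    rintro z ⟨n, hn⟩
    refine ⟨-n, _, hn, ?_⟩
    rw [zpow_neg, zpow_natCast, ← mul_assoc, inv_mul_cancel₀ (pow_ne_zero _ h0), one_mul]
  obtain ⟨r, ⟨c, ξ, hc, hξ, ex⟩, rmax⟩ := Int.exists_greatest_of_bdd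
    (P := fun r => ∃ (c : ℚ) (ξ : Λ), PD p c ∧ ξ ∈ O ∧ x = c + (p : Λ) ^ r * ξ)
    (by
      obtain ⟨N, hN⟩ := bdd hp hO hDx
      refine ⟨N, ?_⟩
      rintro r ⟨c, ξ, -, hξ, e⟩
      refine hN r ⟨D ξ, hDO _ hξ, ?_⟩
      rw [e, hD.add, hD.rat, der_zpow_mul hD, zero_add])
    (by
      obtain ⟨m, w, hw, e⟩ := start x hx
      exact ⟨m, 0, w, pd_zero p, hw, by simpa using e⟩)
  have eDx : D x = (p : Λ) ^ r * D ξ := by
    rw [ex, hD.add, hD.rat, der_zpow_mul hD, zero_add]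
  have hDξ : D ξ ≠ 0 := by
    intro h
    apply hDx
    rw [eDx, h, mul_zero]
  obtain ⟨j, ⟨w, hw, ew⟩, jmax⟩ := Int.exists_greatest_of_bdd
    (P := fun j => InP p O j (D ξ)) (bdd hp hO hDξ) ⟨0, D ξ, hDO _ hξ, by simp⟩
  obtain ⟨v, hv, ev⟩ : ∃ v ∈ O, w * v = 1 := by
    rcases hO.dvr w hw with h | ⟨w', hw', e⟩
    · exact h
    · have := jmax (j + 1) ⟨w', hw', by rw [ew, e, zpow_add_one₀ h0, mul_assoc]⟩
      omega
  have hκ : D (D y / D ξ) ≠ 0 := by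
    have e : D y / D ξ = (p : Λ) ^ r * (D y / D x) := by
      have := zpow_ne_zero r h0
      rw [eDx]
      field_simp
    rw [e, der_zpow_mul hD]
    exact mul_ne_zero (zpow_ne_zero r h0) (slope_ne hD a₂ a₄ a₆ hDx heq)
  obtain ⟨k, ⟨s, t, η, hs, ht, hη, ey⟩, kmax⟩ := Int.exists_greatest_of_bdd
    (P := fun k => ∃ (s t : ℚ) (η : Λ), PD p s ∧ PD p t ∧ η ∈ O ∧
      y = t + s * ξ + (p : Λ) ^ k * η)
    (by
      obtain ⟨N, hN⟩ := bdd hp hO hκ
      refine ⟨N + j, ?_⟩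
      rintro k ⟨s, t, η, -, -, hη, e⟩
      have e1 : D y = s * D ξ + (p : Λ) ^ k * D η := by
        rw [e, hD.add, hD.add, hD.rat, der_rat_mul hD, der_zpow_mul hD, zero_add]
      have e2 : D y / D ξ = s + (p : Λ) ^ (k - j) * (D η * v) := by
        have hj := zpow_ne_zero j h0
        rw [div_eq_iff hDξ, e1, zpow_sub₀ h0, add_mul]
        congr 1
        rw [ew]
        field_simp
        linear_combination (-D η) * ev
      have := hN (k - j) ⟨D (D η * v), hDO _ (O.mul_mem (hDO _ hη) hv), by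
        rw [e2, hD.add, hD.rat, der_zpow_mul hD, zero_add]⟩
      omega)
    (by
      obtain ⟨m, w, hw, e⟩ := start y hy
      exact ⟨m, 0, 0, w, pd_zero p, pd_zero p, hw, by simpa using e⟩)
  refine ⟨r, k, c, s, t, ξ, η, hc, hs, ht, hξ, hη, ex, ey, ?_⟩
  rintro α β γ ⟨κ, hκO, e⟩
  have hγ : (p : ℤ) ∣ γ := by
    by_contra h
    obtain ⟨a, b, hab⟩ := bez hp h
    have hab' : (a : Λ) * γ + b * p = 1 := by exact_mod_cast congrArg (Int.cast : ℤ → Λ) hab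
    have := kmax (k + 1) ⟨s + ((-a * β : ℤ) : ℚ) * (p : ℚ) ^ k, t + ((-a * α : ℤ) : ℚ) * (p : ℚ) ^ k,
      a * κ + b * η, pd_add hs (pd_zpow hp _ _), pd_add ht (pd_zpow hp _ _),
      O.add_mem (O.mul_mem (intCast_mem O a) hκO) (O.mul_mem (intCast_mem O b) hη), by
        rw [ey, zpow_add_one₀ h0]
        push_cast
        linear_combination (p : Λ) ^ k * a * e - (p : Λ) ^ k * η * hab'⟩
    omega
  obtain ⟨γ', rfl⟩ := hγ
  have hβ : (p : ℤ) ∣ β := by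
    by_contra h
    obtain ⟨a, b, hab⟩ := bez hp h
    have hab' : (a : Λ) * β + b * p = 1 := by exact_mod_cast congrArg (Int.cast : ℤ → Λ) hab
    have := rmax (r + 1) ⟨c + ((-a * α : ℤ) : ℚ) * (p : ℚ) ^ r,
      a * (κ - γ' * η) + b * ξ, pd_add hc (pd_zpow hp _ _),
      O.add_mem (O.mul_mem (intCast_mem O a) (O.sub_mem hκO (O.mul_mem (intCast_mem O γ') hη)))
        (O.mul_mem (intCast_mem O b) hξ), by
        rw [ex, zpow_add_one₀ h0]
        push_cast at e ⊢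
        linear_combination (p : Λ) ^ r * a * e - (p : Λ) ^ r * ξ * hab'⟩
    omega
  obtain ⟨β', rfl⟩ := hβ
  refine ⟨?_, dvd_mul_right _ _, dvd_mul_right _ _⟩
  by_contra h
  obtain ⟨a, b, hab⟩ := bez hp h
  have hab' : (a : Λ) * α + b * p = 1 := by exact_mod_cast congrArg (Int.cast : ℤ → Λ) hab
  refine hO.nu (a * (κ - β' * ξ - γ' * η) + b)
    (O.add_mem (O.mul_mem (intCast_mem O a) (O.sub_mem (O.sub_mem hκO
      (O.mul_mem (intCast_mem O β') hξ)) (O.mul_mem (intCast_mem O γ') hη))) (intCast_mem O b)) ?_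
  push_cast at e
  linear_combination hab' - a * e

end Pool.Agent.MP_b2c033_nt.H87
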