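import Pool.Agent.MP_b2c033_nt.H87.Spec

/-! Row P5b: from a best approximation to a smooth integral plane cubic model. -/

namespace Pool.Agent.MP_b2c033_nt.H87

open Polynomial

namespace P5bx

theorem pd_int (p : ℕ) (z : ℤ) : PD p (z : ℚ) := ⟨0, z, by simp⟩

theorem pd_mul {p : ℕ} {a b : ℚ} (ha : PD p a) (hb : PD p b) : PD p (a * b) := by
  obtain ⟨n, z, h⟩ := ha
  obtain ⟨m, w, h'⟩ := hb
  refine ⟨n + m, z * w, ?_⟩
  push_cast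
  rw [← h, ← h']
  ring

theorem pd_add {p : ℕ} {a b : ℚ} (ha : PD p a) (hb : PD p b) : PD p (a + b) := by
  obtain ⟨n, z, h⟩ := ha
  obtain ⟨m, w, h'⟩ := hb
  refine ⟨n + m, z * p ^ m + w * p ^ n, ?_⟩
  push_cast
  rw [← h, ← h']
  ring

theorem pd_sub {p : ℕ} {a b : ℚ} (ha : PD p a) (hb : PD p b) : PD p (a - b) := by
  have := pd_add ha (pd_mul (pd_int p (-1)) hb)
  simpa [sub_eq_add_neg] using this

theorem pd_zpow {p : ℕ} (hp : p ≠ 0) (r : ℤ) : PD p ((p : ℚ) ^ r) := by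
  have hp' : (p : ℚ) ≠ 0 := by exact_mod_cast hp
  obtain ⟨n, rfl | rfl⟩ := Int.eq_nat_or_neg r
  · exact ⟨0, p ^ n, by simp⟩
  · exact ⟨n, 1, by simp [hp']⟩

theorem strip0 {p : ℕ} (hp : p.Prime) {N : ℕ} (z : Fin N → ℤ) (i₀ : Fin N) (h0 : z i₀ ≠ 0) :
    ∃ (m : ℕ) (w : Fin N → ℤ), (∀ i, z i = p ^ m * w i) ∧ ∃ i, ¬ (p : ℤ) ∣ w i := by
  classical
  have hex : ∃ m : ℕ, ¬ ∀ i, (p : ℤ) ^ (m + 1) ∣ z i := by
    refine ⟨(z i₀).natAbs, fun h => ?_⟩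
    have h1 := Int.natAbs_dvd_natAbs.mpr (h i₀)
    have h2 := Nat.le_of_dvd (Int.natAbs_pos.mpr h0) h1
    rw [Int.natAbs_pow, Int.natAbs_natCast] at h2
    have h3 : (z i₀).natAbs + 1 < p ^ ((z i₀).natAbs + 1) := Nat.lt_pow_self hp.one_lt
    omega
  have hd : ∀ i, (p : ℤ) ^ Nat.find hex ∣ z i := by
    rcases h : Nat.find hex with _ | m
    · simp
    · have := Nat.find_min hex (m := m) (by omega)
      exact not_not.mp this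
  choose w hw using hd
  refine ⟨Nat.find hex, w, hw, ?_⟩
  by_contra hc
  push Not at hc
  refine Nat.find_spec hex fun i => ?_
  rw [hw i, pow_succ]
  exact mul_dvd_mul_left _ (hc i)

theorem strip {p : ℕ} (hp : p.Prime) {N : ℕ} (v : Fin N → ℚ) (hv : ∀ i, PD p (v i))
    (i₀ : Fin N) (h0 : v i₀ ≠ 0) :
    ∃ (j : ℤ) (w : Fin N → ℤ), (∀ i, v i = (p : ℚ) ^ j * w i) ∧ ∃ i, ¬ (p : ℤ) ∣ w i := by
  have hp' : (p : ℚ) ≠ 0 := by exact_mod_cast hp.ne_zero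
  choose n z hz using hv
  set S := ∑ i, n i with hS
  have hle : ∀ i, n i ≤ S := fun i =>
    Finset.single_le_sum (f := n) (fun _ _ => Nat.zero_le _) (Finset.mem_univ i)
  have key : ∀ i, v i * (p : ℚ) ^ S = ((z i * p ^ (S - n i) : ℤ) : ℚ) := by
    intro i
    push_cast
    rw [← hz i, mul_assoc, ← pow_add, Nat.add_sub_cancel' (hle i)]
  obtain ⟨m, w, hw, hnd⟩ := strip0 hp (fun i => z i * p ^ (S - n i)) i₀ (by
    intro h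
    have h1 := key i₀
    rw [h] at h1
    simp [hp', h0] at h1)
  refine ⟨(m : ℤ) - S, w, fun i => ?_, hnd⟩
  have h1 := key i
  rw [hw i] at h1
  rw [zpow_sub₀ hp', zpow_natCast, zpow_natCast]
  push_cast at h1
  field_simp
  linear_combination h1

theorem unit {Λ : Type} [Field Λ] {p : ℕ} {O : Subring Λ} (hp : p.Prime) (hO : IsLoc p O)
    {ξ η : Λ} (hξ : ξ ∈ O) (hη : η ∈ O)
    (ind : ∀ α β γ : ℤ, (∃ κ ∈ O, α + β * ξ + γ * η = p * κ) →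
      (p : ℤ) ∣ α ∧ (p : ℤ) ∣ β ∧ (p : ℤ) ∣ γ)
    {A B₀ B₁ C₀ C₁ C₂ C₃ : ℤ}
    (nd : ¬ ((p : ℤ) ∣ A ∧ (p : ℤ) ∣ B₀ ∧ (p : ℤ) ∣ B₁ ∧ (p : ℤ) ∣ C₀ ∧ (p : ℤ) ∣ C₁ ∧
      (p : ℤ) ∣ C₂ ∧ (p : ℤ) ∣ C₃))
    (eqn : A * η ^ 2 + η * (B₀ + B₁ * ξ) = C₀ + C₁ * ξ + C₂ * ξ ^ 2 + C₃ * ξ ^ 3) :
    (∃ k ∈ O, k * (2 * A * η + B₀ + B₁ * ξ) = 1) ∨
      ∃ k ∈ O, k * (C₁ + 2 * C₂ * ξ + 3 * C₃ * ξ ^ 2 - B₁ * η) = 1 := by
  have hz : ∀ z : ℤ, (z : Λ) ∈ O := fun z => intCast_mem O z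
  have h2 : (2 : Λ) ∈ O := by simp
  have h3 : (3 : Λ) ∈ O := by simp
  have hp1 : ¬ (p : ℤ) ∣ 1 := by
    intro h
    have : p ∣ 1 := by exact_mod_cast h
    exact hp.one_lt.ne' (Nat.dvd_one.mp this)
  have cub : ∀ d₀ d₁ d₂ d₃ : ℤ, (∃ κ ∈ O, d₀ + d₁ * ξ + d₂ * ξ ^ 2 + d₃ * ξ ^ 3 = p * κ) →
      (p : ℤ) ∣ d₀ ∧ (p : ℤ) ∣ d₁ ∧ (p : ℤ) ∣ d₂ ∧ (p : ℤ) ∣ d₃ := by
    intro d₀ d₁ d₂ d₃ h
    set P : ℤ[X] := monomial 0 d₀ + monomial 1 d₁ + monomial 2 d₂ + monomial 3 d₃ with hP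
    have hall : ∀ i, (p : ℤ) ∣ P.coeff i := by
      by_contra hc
      push Not at hc
      obtain ⟨c, k, hk, e⟩ := hO.alg ξ hξ P hc (by
        obtain ⟨κ, hκ, e⟩ := h
        refine ⟨κ, hκ, ?_⟩
        rw [← e, hP]
        simp [aeval_monomial])
      exact hp1 (ind (-c) 1 0 ⟨k, hk, by rw [e]; push_cast; ring⟩).2.1
    refine ⟨?_, ?_, ?_, ?_⟩
    · simpa [hP, coeff_monomial, -monomial_zero_left] using hall 0
    · simpa [hP, coeff_monomial, -monomial_zero_left] using hall 1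
    · simpa [hP, coeff_monomial, -monomial_zero_left] using hall 2
    · simpa [hP, coeff_monomial, -monomial_zero_left] using hall 3
  have hU : 2 * A * η + B₀ + B₁ * ξ ∈ O :=
    add_mem (add_mem (mul_mem (mul_mem h2 (hz _)) hη) (hz _)) (mul_mem (hz _) hξ)
  have hV : C₁ + 2 * C₂ * ξ + 3 * C₃ * ξ ^ 2 - B₁ * η ∈ O :=
    sub_mem (add_mem (add_mem (hz _) (mul_mem (mul_mem h2 (hz _)) hξ))
      (mul_mem (mul_mem h3 (hz _)) (pow_mem hξ 2))) (mul_mem (hz _) hη)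
  rcases hO.dvr _ hU with ⟨k, hk, e⟩ | ⟨k₁, hk₁, e₁⟩
  · exact Or.inl ⟨k, hk, by rw [mul_comm, e]⟩
  rcases hO.dvr _ hV with ⟨k, hk, e⟩ | ⟨k₂, hk₂, e₂⟩
  · exact Or.inr ⟨k, hk, by rw [mul_comm, e]⟩
  exfalso
  obtain ⟨hB₀, hB₁, hA2⟩ := ind B₀ B₁ (2 * A) ⟨k₁, hk₁, by rw [← e₁]; push_cast; ring⟩
  obtain ⟨b₀, hb₀⟩ := id hB₀
  obtain ⟨b₁, hb₁⟩ := id hB₁
  have eb₀ : (B₀ : Λ) = p * b₀ := by rw [hb₀]; push_cast; ring
  have eb₁ : (B₁ : Λ) = p * b₁ := by rw [hb₁]; push_cast; ring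
  obtain ⟨hC₁, -, hC3, -⟩ := cub C₁ (2 * C₂) (3 * C₃) 0 ⟨k₂ + b₁ * η,
    add_mem hk₂ (mul_mem (hz _) hη), by push_cast; linear_combination e₂ + η * eb₁⟩
  by_cases hA : (p : ℤ) ∣ A
  · obtain ⟨a, ha⟩ := id hA
    have ea : (A : Λ) = p * a := by rw [ha]; push_cast; ring
    obtain ⟨c₀, c₁, c₂, c₃⟩ := cub C₀ C₁ C₂ C₃ ⟨a * η ^ 2 + η * (b₀ + b₁ * ξ),
      add_mem (mul_mem (hz _) (pow_mem hη 2))
        (mul_mem hη (add_mem (hz _) (mul_mem (hz _) hξ))),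
      by linear_combination -eqn + η ^ 2 * ea + η * eb₀ + η * ξ * eb₁⟩
    exact nd ⟨hA, hB₀, hB₁, c₀, c₁, c₂, c₃⟩
  have hpi : Prime (p : ℤ) := Nat.prime_iff_prime_int.mp hp
  have hp2 : p = 2 := by
    have h := (hpi.dvd_or_dvd hA2).resolve_right hA
    have h' : p ∣ 2 := by exact_mod_cast h
    exact (Nat.prime_dvd_prime_iff_eq hp Nat.prime_two).mp h'
  subst hp2
  obtain ⟨a, ha⟩ : ∃ a, A = 2 * a + 1 := ⟨A / 2, by push_cast at hA; omega⟩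
  obtain ⟨c₁, hc₁⟩ := hC₁
  obtain ⟨c₃, hc₃⟩ : ∃ c, C₃ = 2 * c := ⟨C₃ / 2, by push_cast at hC3; omega⟩
  obtain ⟨e₀, he₀⟩ := (Int.even_mul_pred_self C₀).two_dvd
  obtain ⟨e₂', he₂⟩ := (Int.even_mul_pred_self C₂).two_dvd
  have ea : (A : Λ) = 2 * a + 1 := by rw [ha]; push_cast; ring
  have ec₁ : (C₁ : Λ) = 2 * c₁ := by rw [hc₁]; push_cast; ring
  have ec₃ : (C₃ : Λ) = 2 * c₃ := by rw [hc₃]; push_cast; ring
  have ee₀ : (C₀ : Λ) * (C₀ - 1) = 2 * e₀ := by exact_mod_cast congrArg (Int.cast : ℤ → Λ) he₀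
  have ee₂ : (C₂ : Λ) * (C₂ - 1) = 2 * e₂' := by
    exact_mod_cast congrArg (Int.cast : ℤ → Λ) he₂
  have hW : η - C₀ - C₂ * ξ ∈ O := sub_mem (sub_mem hη (hz _)) (mul_mem (hz _) hξ)
  set κ : Λ := (a + 1) * η ^ 2 + η * (b₀ + b₁ * ξ) - c₁ * ξ - c₃ * ξ ^ 3 -
    η * (C₀ + C₂ * ξ) + e₀ + C₀ * C₂ * ξ + e₂' * ξ ^ 2 with hκ
  have hκO : κ ∈ O := by
    refine add_mem (add_mem (add_mem (sub_mem (sub_mem (sub_mem (add_mem ?_ ?_) ?_) ?_) ?_)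
      (hz _)) ?_) ?_
    · exact mul_mem (add_mem (hz _) (one_mem _)) (pow_mem hη 2)
    · exact mul_mem hη (add_mem (hz _) (mul_mem (hz _) hξ))
    · exact mul_mem (hz _) hξ
    · exact mul_mem (hz _) (pow_mem hξ 3)
    · exact mul_mem hη (add_mem (hz _) (mul_mem (hz _) hξ))
    · exact mul_mem (mul_mem (hz _) (hz _)) hξ
    · exact mul_mem (hz _) (pow_mem hξ 2)
  push_cast at eb₀ eb₁
  have hsq : (η - C₀ - C₂ * ξ) ^ 2 = 2 * κ := by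
    rw [hκ]
    linear_combination -eqn + η ^ 2 * ea + η * eb₀ + η * ξ * eb₁ - ξ * ec₁ - ξ ^ 3 * ec₃ +
      ee₀ + ξ ^ 2 * ee₂
  rcases hO.dvr _ hW with ⟨k, hk, e⟩ | ⟨k, hk, e⟩
  · refine hO.nu (κ * k ^ 2) (mul_mem hκO (pow_mem hk 2)) ?_
    push_cast
    linear_combination -k ^ 2 * hsq + ((η - C₀ - C₂ * ξ) * k + 1) * e
  · exact hp1 (ind (-C₀) (-C₂) 1 ⟨k, hk, by rw [← e]; push_cast; ring⟩).2.2

end P5bx

open P5bx in
theorem p5b : S_P5b := by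
  intro Λ _ _ p O a₂ a₄ a₆ x y hp hO hE hB
  obtain ⟨r, k, c, s, t, ξ, η, hc, hs, ht, hξ, hη, hx, hy, ind⟩ := hB
  have hp' : (p : ℚ) ≠ 0 := by exact_mod_cast hp.ne_zero
  have pa := pd_zpow hp.ne_zero k
  have pb := pd_zpow hp.ne_zero r
  have p2 : PD p 2 := by simpa using pd_int p 2
  have p3 : PD p 3 := by simpa using pd_int p 3
  obtain ⟨j, w, hw, hnd⟩ := strip hp
    ![(p : ℚ) ^ k * p ^ k, 2 * p ^ k * t, 2 * p ^ k * s,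
      c * c * c + a₂ * (c * c) + a₄ * c + a₆ - t * t,
      (a₄ + 2 * a₂ * c + 3 * (c * c)) * p ^ r - 2 * t * s,
      (a₂ + 3 * c) * (p ^ r * p ^ r) - s * s, p ^ r * p ^ r * p ^ r] (by
      intro i
      fin_cases i
      · exact pd_mul pa pa
      · exact pd_mul (pd_mul p2 pa) ht
      · exact pd_mul (pd_mul p2 pa) hs
      · exact pd_sub (pd_add (pd_add (pd_add (pd_mul (pd_mul hc hc) hc)
          (pd_mul (pd_int p _) (pd_mul hc hc))) (pd_mul (pd_int p _) hc)) (pd_int p _))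
          (pd_mul ht ht)
      · exact pd_sub (pd_mul (pd_add (pd_add (pd_int p _) (pd_mul (pd_mul p2 (pd_int p _)) hc))
          (pd_mul p3 (pd_mul hc hc))) pb) (pd_mul (pd_mul p2 ht) hs)
      · exact pd_sub (pd_mul (pd_add (pd_int p _) (pd_mul p3 hc)) (pd_mul pb pb))
          (pd_mul hs hs)
      · exact pd_mul (pd_mul pb pb) pb) 0
    (mul_ne_zero (zpow_ne_zero _ hp') (zpow_ne_zero _ hp'))
  have ha : (p : ℚ) ^ k ≠ 0 := zpow_ne_zero _ hp'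
  have hb : (p : ℚ) ^ r ≠ 0 := zpow_ne_zero _ hp'
  have hj : (p : ℚ) ^ j ≠ 0 := zpow_ne_zero _ hp'
  have hu : (p : ℚ) ^ (k + r - j) = p ^ k * p ^ r / p ^ j := by
    rw [zpow_sub₀ hp', zpow_add₀ hp']
  have hx' : x = c + (((p : ℚ) ^ r : ℚ) : Λ) * ξ := by rw [hx]; push_cast; rfl
  have hy' : y = t + s * ξ + (((p : ℚ) ^ k : ℚ) : Λ) * η := by rw [hy]; push_cast; rfl
  have e0 : (p : ℚ) ^ k * p ^ k = p ^ j * w 0 := hw 0
  have e1 : 2 * (p : ℚ) ^ k * t = p ^ j * w 1 := hw 1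
  have e2 : 2 * (p : ℚ) ^ k * s = p ^ j * w 2 := hw 2
  have e3 : c * c * c + a₂ * (c * c) + a₄ * c + a₆ - t * t = (p : ℚ) ^ j * w 3 := hw 3
  have e4 : (a₄ + 2 * a₂ * c + 3 * (c * c)) * (p : ℚ) ^ r - 2 * t * s = p ^ j * w 4 := hw 4
  have e5 : (a₂ + 3 * c) * ((p : ℚ) ^ r * p ^ r) - s * s = p ^ j * w 5 := hw 5
  have e6 : (p : ℚ) ^ r * p ^ r * p ^ r = p ^ j * w 6 := hw 6
  refine ⟨k + r - j, c, w 0, w 1, w 2, w 3, w 4, w 5, w 6, ξ, η, ?_⟩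
  rw [hu]
  clear hw hx hy hu pa pb
  generalize (p : ℚ) ^ k = a at *
  generalize (p : ℚ) ^ r = b at *
  generalize (p : ℚ) ^ j = v at *
  have f0 : (w 0 : ℚ) = a * a / v := by rw [e0]; field_simp
  have f1 : (w 1 : ℚ) = 2 * a * t / v := by rw [e1]; field_simp
  have f2 : (w 2 : ℚ) = 2 * a * s / v := by rw [e2]; field_simp
  have f3 : (w 3 : ℚ) = (c * c * c + a₂ * (c * c) + a₄ * c + a₆ - t * t) / v := by
    rw [e3]; field_simp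
  have f4 : (w 4 : ℚ) = ((a₄ + 2 * a₂ * c + 3 * (c * c)) * b - 2 * t * s) / v := by
    rw [e4]; field_simp
  have f5 : (w 5 : ℚ) = ((a₂ + 3 * c) * (b * b) - s * s) / v := by rw [e5]; field_simp
  have f6 : (w 6 : ℚ) = b * b * b / v := by rw [e6]; field_simp
  have hv : (v : Λ) ≠ 0 := by exact_mod_cast hj
  have g0 := congrArg (Rat.cast : ℚ → Λ) f0
  have g1 := congrArg (Rat.cast : ℚ → Λ) f1
  have g2 := congrArg (Rat.cast : ℚ → Λ) f2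
  have g3 := congrArg (Rat.cast : ℚ → Λ) f3
  have g4 := congrArg (Rat.cast : ℚ → Λ) f4
  have g5 := congrArg (Rat.cast : ℚ → Λ) f5
  have g6 := congrArg (Rat.cast : ℚ → Λ) f6
  push_cast at g0 g1 g2 g3 g4 g5 g6
  have eqn : (w 0 : Λ) * η ^ 2 + η * (w 1 + w 2 * ξ) =
      w 3 + w 4 * ξ + w 5 * ξ ^ 2 + w 6 * ξ ^ 3 := by
    rw [g0, g1, g2, g3, g4, g5, g6]
    rw [hx', hy'] at hE
    field_simp
    linear_combination hE
  refine ⟨hξ, hη, ?_, ?_, ?_, ?_, eqn, unit hp hO hξ hη ind ?_ eqn, ?_, ?_, ?_⟩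
  · intro h
    rw [h] at e0
    simp [ha] at e0
  · intro h
    rw [h] at e6
    simp [hb] at e6
  · rw [g0, g6, hx']
    push_cast
    field_simp
    ring
  · rw [g0, g1, g2, g6, hy']
    push_cast
    field_simp
    ring
  · rintro ⟨d0, d1, d2, d3, d4, d5, d6⟩
    obtain ⟨i, hi⟩ := hnd
    fin_cases i
    exacts [hi d0, hi d1, hi d2, hi d3, hi d4, hi d5, hi d6]
  · push_cast
    rw [f0, f2, f5]
    field_simp
    ring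
  · push_cast
    rw [f0, f1, f2, f4, f6]
    field_simp
    ring
  · push_cast
    rw [f0, f1, f3, f6]
    field_simp
    ring

end Pool.Agent.MP_b2c033_nt.H87
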