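import Pool.Agent.MP_b2c033_nt.H87.Spec

/-! Row P6: the formal parameter of the difference of two points is integral. -/

namespace Pool.Agent.MP_b2c033_nt.H87

open PowerSeries

namespace P6x

variable {Λ : Type} [Field Λ]

/-- series with all coefficients in `O` -/
noncomputable def OS (O : Subring Λ) : Subring Λ⟦X⟧ := (PowerSeries.map O.subtype).range

theorem mem_OS (O : Subring Λ) (a : Λ⟦X⟧) : a ∈ OS O ↔ ∀ n, PowerSeries.coeff n a ∈ O := by
  constructor
  · rintro ⟨b, rfl⟩ n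
    rw [PowerSeries.coeff_map]
    exact (PowerSeries.coeff n b).2
  · intro h
    refine ⟨PowerSeries.mk fun n => ⟨PowerSeries.coeff n a, h n⟩, ?_⟩
    ext n
    simp [PowerSeries.coeff_map]

theorem C_mem (O : Subring Λ) {k : Λ} (hk : k ∈ O) : PowerSeries.C k ∈ OS O :=
  ⟨PowerSeries.C (⟨k, hk⟩ : O), by simp⟩

theorem inv (O : Subring Λ) {a : Λ⟦X⟧} (ha : a ∈ OS O)
    (h : ∃ k ∈ O, k * PowerSeries.constantCoeff a = 1) : ∃ b ∈ OS O, a * b = 1 := by
  obtain ⟨a', rfl⟩ := ha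
  obtain ⟨k, hk, h⟩ := h
  have hu : IsUnit (PowerSeries.constantCoeff a') := by
    refine IsUnit.of_mul_eq_one (⟨k, hk⟩ : O) ?_
    apply Subtype.ext
    rw [← PowerSeries.coeff_zero_eq_constantCoeff_apply, PowerSeries.coeff_map,
      PowerSeries.coeff_zero_eq_constantCoeff_apply] at h
    rw [mul_comm]
    exact h
  obtain ⟨b, hb⟩ := (PowerSeries.isUnit_iff_constantCoeff.2 hu).exists_right_inv
  exact ⟨PowerSeries.map O.subtype b, ⟨b, rfl⟩, by rw [← map_mul, hb, map_one]⟩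

end P6x

open P6x in
theorem p6 : S_P6 := by
  intro Λ _ _ O τ a₂ a₄ a₆ x y u c A B₀ B₁ C₀ C₁ C₂ C₃ ξ η μ ν h0 hr hO hu hy hS hμ hν
  have h0' : ∀ k, PowerSeries.constantCoeff (τ k) = k := fun k => by
    rw [← PowerSeries.coeff_zero_eq_constantCoeff_apply]; exact h0 k
  have hx1 := congrArg τ hS.hx
  have hx2 := congrArg (PowerSeries.C (R := Λ)) hS.hx
  have hy1 := congrArg τ hS.hy
  have hy2 := congrArg (PowerSeries.C (R := Λ)) hS.hy
  have he1 := congrArg τ hS.eqn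
  have he2 := congrArg (PowerSeries.C (R := Λ)) hS.eqn
  have hh : (2 * (u : Λ)) ^ 2 * (a₂ + 3 * (c : Λ)) = 4 * A * C₂ + B₁ ^ 2 := by
    have := congrArg (fun r : ℚ => (r : Λ)) hS.h₂
    push_cast at this
    exact this
  have hh2 := congrArg (PowerSeries.C (R := Λ)) hh
  simp only [map_mul, map_add, map_sub, map_pow, map_intCast, map_ofNat, hr]
    at hx1 hx2 hy1 hy2 he1 he2 hh2
  have m1 : τ ξ ∈ OS O := (mem_OS O _).2 (hO ξ hS.hξ)
  have m2 : τ η ∈ OS O := (mem_OS O _).2 (hO η hS.hη)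
  have m3 : PowerSeries.C ξ ∈ OS O := C_mem O hS.hξ
  have m4 : PowerSeries.C η ∈ OS O := C_mem O hS.hη
  have mz : ∀ z : ℤ, (z : Λ⟦X⟧) ∈ OS O := fun z => intCast_mem _ z
  have cx1 := h0' x
  have cy1 := h0' y
  have cξ1 := h0' ξ
  have cη1 := h0' η
  have cx2 : PowerSeries.constantCoeff (PowerSeries.C x) = x := PowerSeries.constantCoeff_C x
  have cy2 : PowerSeries.constantCoeff (PowerSeries.C y) = y := PowerSeries.constantCoeff_C y
  have cξ2 : PowerSeries.constantCoeff (PowerSeries.C ξ) = ξ := PowerSeries.constantCoeff_C ξ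
  have cη2 : PowerSeries.constantCoeff (PowerSeries.C η) = η := PowerSeries.constantCoeff_C η
  have hU : PowerSeries.C (u : Λ) ≠ 0 := by
    intro h
    have := congrArg PowerSeries.constantCoeff h
    rw [PowerSeries.constantCoeff_C, map_zero] at this
    exact hu (by exact_mod_cast this)
  have hU2 : PowerSeries.C ((u : Λ) ^ 2) = PowerSeries.C (u : Λ) ^ 2 := map_pow _ _ _
  rw [hU2]
  generalize PowerSeries.C (u : Λ) = U at *
  generalize PowerSeries.C (c : Λ) = cc at *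
  generalize τ x = x1 at *
  generalize τ y = y1 at *
  generalize τ ξ = ξ1 at *
  generalize τ η = η1 at *
  generalize PowerSeries.C x = x2 at *
  generalize PowerSeries.C y = y2 at *
  generalize PowerSeries.C ξ = ξ2 at *
  generalize PowerSeries.C η = η2 at *
  have hmp : ∃ mp ∈ OS O, PowerSeries.constantCoeff mp = 0 ∧
      mp * (A * (η1 + η2) + B₀ + B₁ * ξ2) = ξ1 - ξ2 := by
    rcases hS.unit with ⟨k, hk, h⟩ | ⟨k, hk, h⟩
    · obtain ⟨b, hb, hb1⟩ := inv O (a := A * (η1 + η2) + B₀ + B₁ * ξ2)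
        (add_mem (add_mem (mul_mem (mz _) (add_mem m2 m4)) (mz _)) (mul_mem (mz _) m3))
        ⟨k, hk, by
          simp only [map_add, map_mul, map_intCast, cη1, cη2, cξ2]
          linear_combination h⟩
      refine ⟨(ξ1 - ξ2) * b, mul_mem (sub_mem m1 m3) hb, ?_, ?_⟩
      · simp only [map_mul, map_sub, cξ1, cξ2, sub_self, zero_mul]
      · linear_combination (ξ1 - ξ2) * hb1
    · obtain ⟨b, hb, hb1⟩ := inv O
        (a := C₁ + C₂ * (ξ1 + ξ2) + C₃ * (ξ1 ^ 2 + ξ1 * ξ2 + ξ2 ^ 2) - B₁ * η1)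
        (sub_mem (add_mem (add_mem (mz _) (mul_mem (mz _) (add_mem m1 m3)))
          (mul_mem (mz _) (add_mem (add_mem (pow_mem m1 2) (mul_mem m1 m3)) (pow_mem m3 2))))
          (mul_mem (mz _) m2))
        ⟨k, hk, by
          simp only [map_add, map_sub, map_mul, map_pow, map_intCast, cη1, cξ1, cξ2]
          linear_combination h⟩
      refine ⟨(η1 - η2) * b, mul_mem (sub_mem m2 m4) hb, ?_, ?_⟩
      · simp only [map_mul, map_sub, cη1, cη2, sub_self, zero_mul]
      · linear_combination b * (he1 - he2) + (ξ1 - ξ2) * hb1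
  obtain ⟨mp, hmO, hm0, hm⟩ := hmp
  have hSne : y1 + y2 ≠ 0 := by
    intro h
    have := congrArg PowerSeries.constantCoeff h
    rw [map_add, cy1, cy2, map_zero] at this
    exact hy (by linear_combination this / 2)
  have hZ : mp * (2 * U - B₁ * μ) = 2 * μ := by
    have h1 : U ^ 2 * (y1 + y2) * (mp * (2 * U - B₁ * μ) - 2 * μ) = 0 := by
      linear_combination (2 * A * C₃) * hm - mp * (hy1 + hy2) + (2 + mp * B₁) * (hx1 - hx2) -
        (mp * B₁ + 2) * U ^ 2 * hμ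
    rcases mul_eq_zero.1 h1 with h2 | h2
    · exact absurd h2 (mul_ne_zero (pow_ne_zero 2 hU) hSne)
    · linear_combination h2
  have hμ0 : PowerSeries.constantCoeff μ = 0 := by
    have := congrArg PowerSeries.constantCoeff hμ
    rw [map_mul, map_add, map_sub, cy1, cy2, cx1, cx2, sub_self] at this
    rcases mul_eq_zero.1 this with h | h
    · exact h
    · exact absurd (by linear_combination h / 2) hy
  have hN0 : 4 * (1 - (a₂ + x1 + x2) * μ ^ 2) ≠ 0 := by
    intro h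
    have := congrArg PowerSeries.constantCoeff h
    simp only [map_mul, map_sub, map_pow, map_one, map_ofNat, hμ0, map_zero] at this
    norm_num at this
  obtain ⟨b, hb, hb1⟩ := inv O (a := 1 + B₁ * mp - (A * C₂ + A * C₃ * (ξ1 + ξ2)) * mp ^ 2)
    (sub_mem (add_mem (one_mem _) (mul_mem (mz _) hmO))
      (mul_mem (add_mem (mul_mem (mz _) (mz _)) (mul_mem (mul_mem (mz _) (mz _)) (add_mem m1 m3)))
        (pow_mem hmO 2)))
    ⟨1, one_mem _, by
      simp only [map_add, map_sub, map_mul, map_pow, map_one, hm0]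
      ring⟩
  refine ⟨mp ^ 2 * b, (mem_OS O _).1 (mul_mem (pow_mem hmO 2) hb), ?_⟩
  have hN1 : (1 + B₁ * mp - (A * C₂ + A * C₃ * (ξ1 + ξ2)) * mp ^ 2) * (2 * U - B₁ * μ) ^ 2 =
      4 * U ^ 2 * (1 - (a₂ + x1 + x2) * μ ^ 2 - cc * μ ^ 2) := by
    linear_combination (B₁ * (2 * U - B₁ * μ) - (A * C₂ + A * C₃ * (ξ1 + ξ2)) *
      (mp * (2 * U - B₁ * μ) + 2 * μ)) * hZ - 4 * μ ^ 2 * (hx1 + hx2) + μ ^ 2 * hh2
  apply mul_right_cancel₀ hN0
  have hZ2 : mp ^ 2 * (2 * U - B₁ * μ) ^ 2 = 4 * μ ^ 2 := by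
    linear_combination (mp * (2 * U - B₁ * μ) + 2 * μ) * hZ
  linear_combination (-(mp ^ 2 * b)) * hN1 + (mp ^ 2 * (2 * U - B₁ * μ) ^ 2) * hb1 + hZ2 -
    (4 * mp ^ 2 * b * U ^ 2 * cc + 4) * hν

end Pool.Agent.MP_b2c033_nt.H87
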