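import Pool.Agent.MP_b2c033_nt.H87.Spec

/-! Assembly of the integrality theorem. -/

namespace Pool.Agent.MP_b2c033_nt.H87

open PowerSeries
open scoped LaurentSeries

namespace P7x

theorem der_map {R R' : Type} [CommRing R] [CommRing R'] (f : R →+* R') (a : R⟦X⟧) :
    derivative R' (map f a) = map f (derivative R a) := by
  ext n
  simp [coeff_derivative]

theorem ode_map {R R' : Type} [CommRing R] [CommRing R'] (f : R →+* R') {a₂ a₄ a₆ : ℤ}
    {G ν ν₁ : R⟦X⟧} (h : Ode a₂ a₄ a₆ G ν ν₁) :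
    Ode a₂ a₄ a₆ (map f G) (map f ν) (map f ν₁) := by
  obtain ⟨h1, h2, h3, h4⟩ := h
  refine ⟨by rw [coeff_map, h1, map_zero], by rw [coeff_map, h2, map_zero], ?_, ?_⟩
  · rw [der_map, h3, map_mul]
  · have := congrArg (map f) h4
    rw [der_map]
    simpa only [map_mul, map_add, map_pow, map_one, map_ofNat, map_intCast] using this

theorem ode_of_map {R R' : Type} [CommRing R] [CommRing R'] (f : R →+* R')
    (hf : Function.Injective f) {a₂ a₄ a₆ : ℤ} {G ν ν₁ : R⟦X⟧}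
    (h : Ode a₂ a₄ a₆ (map f G) (map f ν) (map f ν₁)) : Ode a₂ a₄ a₆ G ν ν₁ := by
  obtain ⟨h1, h2, h3, h4⟩ := h
  have hi := PowerSeries.map_injective f hf
  refine ⟨hf (by rw [← coeff_map, h1, map_zero]), hf (by rw [← coeff_map, h2, map_zero]),
    hi ?_, hi ?_⟩
  · rw [← der_map, h3, map_mul]
  · rw [der_map] at h4
    simpa only [map_mul, map_add, map_pow, map_one, map_ofNat, map_intCast] using h4

theorem iq_inj : Function.Injective iq := HahnSeries.ofPowerSeries_injective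

theorem iq_C (c : ℚ) : iq (C c) = (c : L) := by
  have := charZeroL
  exact eq_ratCast (iq.comp (C : ℚ →+* ℚ⟦X⟧)) c

/-- series with bounded denominators -/
def Bd : Subring L where
  carrier := {k | ∃ (n : ℤ) (g : ℤ⟦X⟧), n ≠ 0 ∧ k * n = io g}
  one_mem' := ⟨1, 1, one_ne_zero, by simp⟩
  zero_mem' := ⟨1, 0, one_ne_zero, by simp⟩
  mul_mem' := by
    rintro k k' ⟨n, g, hn, h⟩ ⟨n', g', hn', h'⟩
    refine ⟨n * n', g * g', mul_ne_zero hn hn', ?_⟩
    rw [map_mul, ← h, ← h']; push_cast; ring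
  add_mem' := by
    rintro k k' ⟨n, g, hn, h⟩ ⟨n', g', hn', h'⟩
    refine ⟨n * n', g * n' + g' * n, mul_ne_zero hn hn', ?_⟩
    rw [map_add, map_mul, map_mul, map_intCast, map_intCast, ← h, ← h']; push_cast; ring
  neg_mem' := by
    rintro k ⟨n, g, hn, h⟩
    exact ⟨n, -g, hn, by rw [map_neg, ← h]; ring⟩

theorem rat_mem (c : ℚ) : (c : L) ∈ Bd := by
  have := charZeroL
  refine ⟨c.den, (c.num : ℤ⟦X⟧), by exact_mod_cast c.den_nz, ?_⟩
  rw [map_intCast]
  have : (c * (c.den : ℤ) : ℚ) = c.num := by push_cast; exact Rat.mul_den_eq_num c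
  exact_mod_cast congrArg (fun t : ℚ => (t : L)) this

theorem lift_one {k : L} (hk : k ∈ Bd) : ∃ a : ℚ⟦X⟧, iq a = k := by
  have := charZeroL
  obtain ⟨n, g, hn, h⟩ := hk
  refine ⟨C ((n : ℚ)⁻¹) * map (Int.castRingHom ℚ) g, ?_⟩
  have hn' : (n : L) ≠ 0 := by exact_mod_cast hn
  have e : iq (map (Int.castRingHom ℚ) g) = k * n := h.symm
  rw [map_mul, iq_C, e]
  push_cast
  field_simp

theorem lift {s : L⟦X⟧} (hs : ∀ n, coeff n s ∈ Bd) : ∃ t : ℚ⟦X⟧⟦X⟧, map iq t = s := by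
  choose a ha using fun n => lift_one (hs n)
  exact ⟨mk a, by ext1 n; rw [coeff_map, coeff_mk, ha]⟩

theorem mem_of_rel {Λ : Type} [Field Λ] [CharZero Λ] (B : Subring Λ) (hB : ∀ c : ℚ, (c : Λ) ∈ B)
    {ν ν' : Λ⟦X⟧} {u c : ℚ} (hu : u ≠ 0) (h0 : coeff 0 ν = 0) (hν : ∀ n, coeff n ν ∈ B)
    (h : ν' * C ((u : Λ) ^ 2) * (1 - C (c : Λ) * ν) = ν) (n : ℕ) : coeff n ν' ∈ B := by
  have hu' : (u : Λ) ≠ 0 := by exact_mod_cast hu
  have e : ν' = C (((u ^ 2)⁻¹ : ℚ) : Λ) * ν + C (c : Λ) * (ν * ν') := by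
    have h1 : (C ((u : Λ) ^ 2) : Λ⟦X⟧) * C (((u ^ 2)⁻¹ : ℚ) : Λ) = 1 := by
      rw [← map_mul]; push_cast; rw [mul_inv_cancel₀ (pow_ne_zero 2 hu'), map_one]
    linear_combination (C (((u ^ 2)⁻¹ : ℚ) : Λ)) * h - (ν' - C (c : Λ) * (ν * ν')) * h1
  induction n using Nat.strong_induction_on with
  | _ n ih =>
    rw [e, map_add, coeff_C_mul, coeff_C_mul, coeff_mul]
    refine B.add_mem (B.mul_mem (hB _) (hν n)) (B.mul_mem (hB _) (B.sum_mem fun ij hij => ?_))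
    rcases Nat.eq_zero_or_pos ij.1 with h1 | h1
    · rw [h1, h0, zero_mul]; exact B.zero_mem
    · refine B.mul_mem (hν _) (ih _ ?_)
      have := Finset.HasAntidiagonal.mem_antidiagonal.1 hij
      omega

theorem pint {p : ℕ} (hp : p.Prime) {w : ℚ} {n : ℤ} {r s : ℤ} (hs : ¬ (p : ℤ) ∣ s)
    (h2 : 1 ≤ |2 * (p : ℚ) ^ n|) (h : (w / (2 * (p : ℚ) ^ n)) ^ 2 * s = r) : ¬ p ∣ w.den := by
  have hp0 : (0 : ℚ) < p := by exact_mod_cast hp.pos
  have hp2 : (2 : ℚ) ≤ p := by exact_mod_cast hp.two_le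
  have hpos : (0 : ℚ) < 2 * (p : ℚ) ^ n := by positivity
  rw [abs_of_pos hpos] at h2
  have hz : ∃ z : ℤ, 2 * (p : ℚ) ^ n = z := by
    rcases le_or_gt 0 n with hn | hn
    · lift n to ℕ using hn
      exact ⟨2 * p ^ n, by push_cast; rw [zpow_natCast]⟩
    · have h3 : (p : ℚ) ^ n ≤ (p : ℚ) ^ (-1 : ℤ) :=
        zpow_le_zpow_right₀ (by linarith) (by omega)
      rw [zpow_neg_one] at h3
      have h4 : (p : ℚ)⁻¹ ≤ 2⁻¹ := inv_anti₀ two_pos hp2
      exact ⟨1, by push_cast; linarith⟩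
  obtain ⟨z, hz⟩ := hz
  rw [hz] at h hpos
  intro hd
  have hw : w * w.den = w.num := Rat.mul_den_eq_num w
  have e : (w.num : ℚ) ^ 2 * s = r * z ^ 2 * (w.den : ℚ) ^ 2 := by
    rw [← hw, ← h]; field_simp
  have e' : w.num ^ 2 * s = r * z ^ 2 * (w.den : ℤ) ^ 2 := by exact_mod_cast e
  have hP : Prime (p : ℤ) := Nat.prime_iff_prime_int.1 hp
  have hd' : (p : ℤ) ∣ (w.den : ℤ) := by exact_mod_cast hd
  have : (p : ℤ) ∣ w.num ^ 2 * s := by
    rw [e']; exact Dvd.dvd.mul_left (hd'.trans (dvd_pow_self _ two_ne_zero)) _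
  rcases hP.dvd_or_dvd this with h5 | h5
  · have h6 : p ∣ w.num.natAbs := Int.natCast_dvd.1 (hP.dvd_of_dvd_pow h5)
    have := Nat.dvd_gcd h6 hd
    rw [w.reduced] at this
    exact hp.one_lt.ne' (Nat.dvd_one.1 this)
  · exact hs h5

end P7x

open P7x

theorem p7 (h0 : S_P0) (h0b : ∀ S, S_P0b S) (h1 : S_P1) (h2 : S_P2) (h3a : S_P3a)
    (h3b : S_P3b) (h4a : ∀ (p : ℕ) [Fact p.Prime], S_P4a p) (h4b : S_P4b) (h4c : S_P4c)
    (h5a : S_P5a) (h5b : S_P5b) (h6 : S_P6) : S_P7 := by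
  intro a₂ a₄ a₆ x y hd hmin hx hy hy0 hxc heq
  have := charZeroL
  obtain ⟨S⟩ := h0
  have b := h0b S
  have hDx : S.D x ≠ 0 := fun h => by
    obtain ⟨c, hc⟩ := b.ker x h
    exact hxc c hc
  obtain ⟨g₀, hg₀⟩ := h1 S.D a₂ a₄ a₆ x y b.isDer b.zs hx hy hy0 heq
  have hd' : ((disc a₂ a₄ a₆ : ℤ) : L) ≠ 0 := by exact_mod_cast hd
  obtain ⟨g, hg1⟩ : ∃ g : ℚ⟦X⟧, iq g * (disc a₂ a₄ a₆ : ℤ) = io g₀ := by
    refine ⟨C (((disc a₂ a₄ a₆ : ℤ) : ℚ)⁻¹) * map (Int.castRingHom ℚ) g₀, ?_⟩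
    have e : iq (map (Int.castRingHom ℚ) g₀) = io g₀ := rfl
    rw [map_mul, iq_C, e]
    push_cast
    field_simp
  have hg : iq g * y = S.D x := by
    apply mul_left_cancel₀ hd'
    rw [← hg₀, ← hg1]; ring
  have hg0 : g ≠ 0 := fun h => hDx (by rw [← hg, h, map_zero, zero_mul])
  obtain ⟨m, hm⟩ : ∃ m : ℕ, (m : ℕ∞) = g.order :=
    ⟨g.order.toNat, coe_toNat_order hg0⟩
  have hlow : ∀ i < m, coeff i g = 0 := fun i hi =>
    coeff_of_lt_order i (by rw [← hm]; exact_mod_cast hi)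
  have hlead : coeff m g ≠ 0 := by
    have := coeff_order hg0
    rwa [← hm, ENat.toNat_natCast] at this
  refine ⟨g, m, hlow, ?_, ?_⟩
  · -- the difference point
    have hS : constantCoeff (S.tau y + C y) ≠ 0 := by
      rw [map_add, ← coeff_zero_eq_constantCoeff_apply, S.c0, constantCoeff_C, ← two_mul]
      exact mul_ne_zero two_ne_zero hy0
    set μ : L⟦X⟧ := (S.tau x - C x) * (S.tau y + C y)⁻¹ with hμdef
    have hμ : μ * (S.tau y + C y) = S.tau x - C x := by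
      rw [hμdef, mul_assoc, PowerSeries.inv_mul_cancel _ hS, mul_one]
    have hμ0 : constantCoeff μ = 0 := by
      rw [hμdef, map_mul, map_sub, ← coeff_zero_eq_constantCoeff_apply, S.c0, constantCoeff_C,
        sub_self, zero_mul]
    have hN : constantCoeff (1 - ((a₂ : L⟦X⟧) + S.tau x + C x) * μ ^ 2) ≠ 0 := by
      rw [map_sub, map_mul, map_pow, hμ0, map_one]; simp
    set ν : L⟦X⟧ := μ ^ 2 * (1 - ((a₂ : L⟦X⟧) + S.tau x + C x) * μ ^ 2)⁻¹ with hνdef
    have hν : ν * (1 - ((a₂ : L⟦X⟧) + S.tau x + C x) * μ ^ 2) = μ ^ 2 := by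
      rw [hνdef, mul_assoc, PowerSeries.inv_mul_cancel _ hN, mul_one]
    have heqτ : S.tau y ^ 2 = S.tau x ^ 3 + a₂ * S.tau x ^ 2 + a₄ * S.tau x + a₆ := by
      have := congrArg S.tau heq
      simpa only [map_add, map_mul, map_pow, map_intCast] using this
    have hder : derivative L (S.tau x) = S.tau (iq g) * S.tau y := by
      rw [S.der, ← map_mul, hg]; rfl
    have hne : S.tau x ≠ C x := fun h => hDx (by
      rw [Shift.D, h, coeff_C]; simp)
    obtain ⟨ν₁, hode⟩ := h2 L a₂ a₄ a₆ x y (S.tau x) (S.tau y) (S.tau (iq g)) μ ν (S.c0 x)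
      (S.c0 y) hy0 heqτ heq hder hne hμ hν
    have hG : ∀ n, coeff n (S.tau (iq g)) ∈ Bd := fun n => by
      refine ⟨disc a₂ a₄ a₆, Hs n g₀, hd, ?_⟩
      rw [← b.zh, ← hg1, map_mul, map_intCast]
      have : ((disc a₂ a₄ a₆ : ℤ) : L⟦X⟧) = C ((disc a₂ a₄ a₆ : ℤ) : L) := (map_intCast _ _).symm
      rw [this, coeff_mul_C]
    have hB := h3a L Bd a₂ a₄ a₆ _ ν ν₁ rat_mem hG hode
    obtain ⟨νt, hνt⟩ := lift fun n => (hB n).1
    obtain ⟨ν₁t, hν₁t⟩ := lift fun n => (hB n).2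
    have hGt : map iq (mk fun n => Hs n g) = S.tau (iq g) := by
      ext1 n; rw [coeff_map, coeff_mk, S.ps]
    have hode' : Ode a₂ a₄ a₆ (mk fun n => Hs n g) νt ν₁t :=
      ode_of_map iq iq_inj (by rw [hGt, hνt, hν₁t]; exact hode)
    have hode'' := ode_map (constantCoeff (R := ℚ)) hode'
    have hg' : map (constantCoeff (R := ℚ)) (mk fun n => Hs n g) = g := by
      ext n
      rw [coeff_map, coeff_mk, ← coeff_zero_eq_constantCoeff_apply, Hs, coeff_mk]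
      simp
    rw [hg'] at hode''
    -- integrality at every prime
    have key : ∀ p : ℕ, p.Prime → ¬ p ∣ (coeff m g / (m + 1)).den := by
      intro p hp
      have := Fact.mk hp
      have a := h4a p
      have hloc : IsLoc p (Op p) := ⟨a.dvr, a.nu, a.sep, fun ξ hξ P hP hk =>
        h4c p ξ hξ P hP (by
          obtain ⟨k, hk1, hk2⟩ := hk
          refine ⟨k, hk1, Eq.trans ?_ hk2⟩
          exact congrArg (fun f : ℤ →+* L => Polynomial.eval₂ f ξ P) (Subsingleton.elim _ _))⟩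
      have hτ := h4b p S.tau S.c0 b.zh
      have hbest := h5a L p (Op p) S.D a₂ a₄ a₆ x y hp hloc b.isDer (fun k hk => hτ k hk 1)
        (a.den x hx) (a.den y hy) hDx heq
      obtain ⟨n, c, A, B₀, B₁, C₀, C₁, C₂, C₃, ξ, η, hs⟩ :=
        h5b L p (Op p) a₂ a₄ a₆ x y hp hloc heq hbest
      have hu : (p : ℚ) ^ n ≠ 0 := zpow_ne_zero _ (by exact_mod_cast hp.ne_zero)
      obtain ⟨ν', hO, hrel⟩ := h6 L (Op p) S.tau a₂ a₄ a₆ x y _ c A B₀ B₁ C₀ C₁ C₂ C₃ ξ η μ ν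
        S.c0 b.rat hτ hu hy0 hs hμ hν
      have hB' := mem_of_rel Bd rat_mem hu hode.1 (fun n => (hB n).1) hrel
      obtain ⟨ν't, hν't⟩ := lift hB'
      have hrel' : ν't * C (C (((p : ℚ) ^ n) ^ 2)) * (1 - C (C c) * νt) = νt := by
        apply PowerSeries.map_injective iq iq_inj
        rw [map_mul, map_mul, map_sub, map_mul, map_one, map_C, map_C, iq_C, iq_C, hν't, hνt]
        rw [Rat.cast_pow]
        exact hrel
      have hrel'' := congrArg (map (constantCoeff (R := ℚ))) hrel'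
      rw [map_mul, map_mul, map_sub, map_mul, map_one, map_C, map_C, constantCoeff_C,
        constantCoeff_C] at hrel''
      have hco := h3b a₂ a₄ a₆ g _ _ _ _ c m hode'' hlow hu hrel''
      obtain ⟨N, γ, hN0, hγ⟩ := hB' (2 * (m + 1))
      obtain ⟨r, s, hs', hrs⟩ := a.cap γ N _ hN0 (hO _) hγ
      have hβ : constantCoeff (coeff (2 * (m + 1)) ν't) * N = (coeff 0 γ : ℤ) := by
        have e1 : coeff (2 * (m + 1)) ν't * N = map (Int.castRingHom ℚ) γ := by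
          apply iq_inj
          rw [map_mul, map_intCast, ← coeff_map, hν't]
          exact hγ
        have e2 := congrArg (constantCoeff (R := ℚ)) e1
        rw [map_mul, map_intCast, ← coeff_zero_eq_constantCoeff_apply (map _ γ), coeff_map] at e2
        exact e2
      rw [coeff_map] at hco
      refine pint hp hs' (hmin _ c _ _ _ (mul_ne_zero two_ne_zero hu) hs.h₂ hs.h₄ hs.h₆)
        (r := r) ?_
      have hN' : (N : ℚ) ≠ 0 := by exact_mod_cast hN0
      have hrs' : ((coeff 0 γ : ℤ) : ℚ) * s = r * N := by exact_mod_cast hrs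
      apply mul_right_cancel₀ hN'
      rw [← hrs', ← hβ, hco]
      have hm1 : ((m : ℚ) + 1) ≠ 0 := by positivity
      field_simp
    have hden : (coeff m g / (m + 1)).den = 1 := by
      by_contra h
      obtain ⟨p, hp, hpd⟩ := Nat.exists_prime_and_dvd h
      exact key p hp hpd
    have hm1 : (0 : ℚ) < (m : ℚ) + 1 := by positivity
    have hnum : ((coeff m g / (m + 1)).num : ℚ) = coeff m g / (m + 1) :=
      (Rat.den_eq_one_iff _).1 hden
    have hnz : (coeff m g / (m + 1)).num ≠ 0 :=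
      Rat.num_ne_zero.2 (div_ne_zero hlead hm1.ne')
    have h1' : (1 : ℚ) ≤ |coeff m g / (m + 1)| := by
      rw [← hnum]; exact_mod_cast Int.one_le_abs hnz
    rwa [abs_div, abs_of_pos hm1, le_div_iff₀ hm1, one_mul] at h1'
  · intro a b' e ha hb
    apply iq_inj
    have h3 := congrArg S.D ha
    rw [b.isDer.mul, b.ps, b.ps] at h3
    rw [map_mul, map_mul, map_sub, map_mul, map_mul, ← h3, ← ha, ← hb, ← hg]
    ring

end Pool.Agent.MP_b2c033_nt.H87
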