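import Pool.Agent.MP_b2c033_nt.H87.Spec

/-! Removable singularities and the case of the omitted point at infinity. -/

namespace Pool.Agent.MP_b2c033_nt.H87

open Filter Metric
open scoped Topology

namespace RSx

theorem lim_eq {φ : ℂ → ℂ} {q : ℂ} (h : DifferentiableAt ℂ φ q) :
    limUnder (𝓝[≠] q) φ = φ q :=
  (h.continuousAt.tendsto.mono_left nhdsWithin_le_nhds).limUnder_eq

theorem deriv_eq {Φ φ : ℂ → ℂ} {c : ℂ} (h : Φ =ᶠ[𝓝[≠] c] φ) :
    ∀ᶠ q in 𝓝[≠] c, deriv Φ q = deriv φ q := by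
  have h1 : ∀ᶠ q in 𝓝[≠] c, Φ =ᶠ[𝓝 q] φ := by
    rw [EventuallyEq, eventually_nhdsWithin_iff] at h
    rw [eventually_nhdsWithin_iff]
    filter_upwards [h.eventually_nhds] with q hq hqc
    filter_upwards [hq, isOpen_compl_singleton.mem_nhds hqc] with w hw hwc using hw hwc
  filter_upwards [h1] with q hq using hq.deriv_eq

end RSx

theorem rs : S_RS := by
  intro U φ _ h
  have key : ∀ c ∈ U, (fun q => limUnder (𝓝[≠] q) φ) =ᶠ[𝓝[≠] c] φ := by
    intro c hc
    obtain ⟨K, hK⟩ := h c hc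
    filter_upwards [hK] with q hq using RSx.lim_eq hq.1
  refine ⟨fun q => limUnder (𝓝[≠] q) φ, fun c hc => ?_, key⟩
  obtain ⟨K, hK⟩ := h c hc
  rw [eventually_nhdsWithin_iff] at hK
  set s : Set ℂ := {q | q ∈ ({c}ᶜ : Set ℂ) → DifferentiableAt ℂ φ q ∧ ‖φ q‖ ≤ K} with hs
  have hd : DifferentiableOn ℂ φ (s \ {c}) := fun z hz =>
    (hz.1 hz.2).1.differentiableWithinAt
  have hb : BddAbove (norm ∘ φ '' (s \ {c})) := by
    refine ⟨K, ?_⟩
    rintro _ ⟨z, hz, rfl⟩
    exact (hz.1 hz.2).2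
  have H := Complex.differentiableOn_update_limUnder_of_bddAbove hK hd hb
  have H1 := H.differentiableAt hK
  have he : (fun q => limUnder (𝓝[≠] q) φ) =ᶠ[𝓝 c]
      Function.update φ c (limUnder (𝓝[≠] c) φ) := by
    filter_upwards [hK] with q hq
    by_cases hqc : q = c
    · subst hqc; simp
    · rw [Function.update_of_ne hqc]
      exact RSx.lim_eq (hq hqc).1
  exact (H1.congr_of_eventuallyEq he).differentiableWithinAt

theorem a6a (h : S_RS) : S_A6a := by
  intro e₁ e₂ e₃ U x y hU hm ho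
  obtain ⟨hmer, heq, hne⟩ := hm
  have hx : ∀ c ∈ U, ∃ l, Tendsto x (𝓝[≠] c) (𝓝 l) := by
    intro c hc
    refine tendsto_nhds_of_meromorphicOrderAt_nonneg (hmer c hc).1 ?_
    by_contra hlt
    exact ho c hc (tendsto_cobounded_of_meromorphicOrderAt_neg (not_le.1 hlt))
  obtain ⟨X, hX, hXe⟩ := h U x hU (by
    intro c hc
    obtain ⟨l, hl⟩ := hx c hc
    refine ⟨‖l‖ + 1, ?_⟩
    filter_upwards [(hmer c hc).1.eventually_analyticAt,
      hl.norm.eventually (eventually_le_nhds (lt_add_one ‖l‖))] with q h1 h2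
    exact ⟨h1.differentiableAt, h2⟩)
  obtain ⟨Y, hY, hYe⟩ := h U y hU (by
    intro c hc
    obtain ⟨l, hl⟩ := hx c hc
    have hf : Tendsto (fun q => (x q - e₁) * (x q - e₂) * (x q - e₃)) (𝓝[≠] c)
        (𝓝 ((l - e₁) * (l - e₂) * (l - e₃))) :=
      ((hl.sub_const _).mul (hl.sub_const _)).mul (hl.sub_const _)
    set B : ℝ := ‖(l - e₁) * (l - e₂) * (l - e₃)‖ with hB
    have hB0 : 0 ≤ B := norm_nonneg _
    refine ⟨B + 2, ?_⟩
    filter_upwards [(hmer c hc).2.eventually_analyticAt, heq c hc,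
      hf.norm.eventually (eventually_le_nhds (lt_add_one B))] with q h1 h2 h3
    refine ⟨h1.differentiableAt, ?_⟩
    rw [← h2, norm_pow] at h3
    nlinarith [norm_nonneg (y q), sq_nonneg (‖y q‖ - 1)])
  refine ⟨X, Y, hX, hY, fun c hc => ?_, fun c hc => ?_⟩
  · have cX : ContinuousAt X c := (hX.differentiableAt (hU.mem_nhds hc)).continuousAt
    have cY : ContinuousAt Y c := (hY.differentiableAt (hU.mem_nhds hc)).continuousAt
    have t1 : Tendsto (fun q => Y q ^ 2) (𝓝[≠] c) (𝓝 (Y c ^ 2)) :=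
      (cY.tendsto.pow 2).mono_left nhdsWithin_le_nhds
    have t2 : Tendsto (fun q => (X q - e₁) * (X q - e₂) * (X q - e₃)) (𝓝[≠] c)
        (𝓝 ((X c - e₁) * (X c - e₂) * (X c - e₃))) :=
      (((cX.tendsto.sub_const _).mul (cX.tendsto.sub_const _)).mul
        (cX.tendsto.sub_const _)).mono_left nhdsWithin_le_nhds
    refine tendsto_nhds_unique_of_eventuallyEq t1 t2 ?_
    filter_upwards [hXe c hc, hYe c hc, heq c hc] with q h1 h2 h3
    rw [h1, h2, h3]
  · filter_upwards [hYe c hc, RSx.deriv_eq (hXe c hc), heq c hc, hne c hc e₁, hne c hc e₂,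
      hne c hc e₃] with q h2 h3 h4 n1 n2 n3
    refine ⟨?_, by rw [h3, h2]⟩
    rw [h2]
    intro h0
    rw [h0] at h4
    exact mul_ne_zero (mul_ne_zero (sub_ne_zero.2 n1) (sub_ne_zero.2 n2)) (sub_ne_zero.2 n3)
      (by simpa using h4.symm)

end Pool.Agent.MP_b2c033_nt.H87
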