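import Pool.Agent.MP_b2c033_nt.H87.Spec

/-! Power series that converge on the unit disc. -/

namespace Pool.Agent.MP_b2c033_nt.H87

open Filter Metric
open scoped Topology PowerSeries

noncomputable section

namespace T1x

variable {a b : ℂ⟦X⟧} {φ ψ : ℂ → ℂ}

theorem loc (h : Conv a φ) {q : ℂ} (hq : q ∈ ball (0 : ℂ) 1) :
    DifferentiableAt ℂ φ q ∧
      HasSum (fun n : ℕ => deriv (fun w : ℂ => PowerSeries.coeff n a * w ^ n) q) (deriv φ q) := by
  obtain ⟨r, h1, h2⟩ := exists_between (mem_ball_zero_iff.1 hq)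
  have h0 : 0 ≤ r := (norm_nonneg q).trans h1.le
  have hr : (r : ℂ) ∈ ball (0 : ℂ) 1 := by
    rw [mem_ball_zero_iff, Complex.norm_real, Real.norm_of_nonneg h0]
    exact h2
  have hu := summable_norm_iff.2 (h _ hr).summable
  have hf : ∀ n : ℕ, DifferentiableOn ℂ (fun w : ℂ => PowerSeries.coeff n a * w ^ n) (ball 0 r) :=
    fun n => by fun_prop
  have hle : ∀ (n : ℕ) (w : ℂ), w ∈ ball (0 : ℂ) r →
      ‖PowerSeries.coeff n a * w ^ n‖ ≤ ‖PowerSeries.coeff n a * (r : ℂ) ^ n‖ := fun n w hw => by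
    rw [norm_mul, norm_mul, norm_pow, norm_pow, Complex.norm_real, Real.norm_of_nonneg h0]
    gcongr
    exact (mem_ball_zero_iff.1 hw).le
  have hq' : q ∈ ball (0 : ℂ) r := mem_ball_zero_iff.2 h1
  have e : φ =ᶠ[𝓝 q] fun w => ∑' n : ℕ, PowerSeries.coeff n a * w ^ n := by
    filter_upwards [isOpen_ball.mem_nhds hq] with w hw using (h w hw).tsum_eq.symm
  refine ⟨((Complex.differentiableOn_tsum_of_summable_norm hu hf isOpen_ball hle).differentiableAt
    (isOpen_ball.mem_nhds hq')).congr_of_eventuallyEq e, ?_⟩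
  rw [e.deriv_eq]
  exact Complex.hasSum_deriv_of_summable_norm hu hf isOpen_ball hle hq'

theorem diff (h : Conv a φ) : DifferentiableOn ℂ φ (ball 0 1) :=
  fun _ hq => (loc h hq).1.differentiableWithinAt

theorem der (h : Conv a φ) : Conv (PowerSeries.derivative ℂ a) (deriv φ) := fun q hq => by
  have e := (hasSum_nat_add_iff' 1).2 (loc h hq).2
  have e0 : ∑ i ∈ Finset.range 1, deriv (fun w : ℂ => PowerSeries.coeff i a * w ^ i) q = 0 := by simp
  rw [e0, sub_zero] at e
  refine (congrArg (fun f => HasSum f (deriv φ q)) (funext fun n => ?_)).mp e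
  rw [PowerSeries.coeff_derivative, deriv_const_mul _ (by fun_prop), deriv_pow_field]
  simp only [Nat.add_sub_cancel, Nat.cast_add, Nat.cast_one]
  ring

theorem zero (h : Conv a φ) : φ 0 = PowerSeries.coeff 0 a := by
  have e := (h 0 (mem_ball_self one_pos)).unique (hasSum_single 0 fun n hn => by simp [hn])
  simpa using e

theorem add (h : Conv a φ) (h' : Conv b ψ) : Conv (a + b) fun q => φ q + ψ q := fun q hq => by
  simpa only [map_add, add_mul] using (h q hq).add (h' q hq)

theorem mul (h : Conv a φ) (h' : Conv b ψ) : Conv (a * b) fun q => φ q * ψ q := fun q hq => by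
  have h1 := summable_norm_iff.2 (h q hq).summable
  have h2 := summable_norm_iff.2 (h' q hq).summable
  have e := (summable_norm_sum_mul_antidiagonal_of_summable_norm h1 h2).of_norm.hasSum
  rw [← tsum_mul_tsum_eq_tsum_sum_antidiagonal_of_summable_norm h1 h2, (h q hq).tsum_eq,
    (h' q hq).tsum_eq] at e
  refine (congrArg (fun f => HasSum f (φ q * ψ q)) (funext fun n => ?_)).mp e
  rw [PowerSeries.coeff_mul, Finset.sum_mul]
  refine Finset.sum_congr rfl fun p hp => ?_
  rw [← Finset.HasAntidiagonal.mem_antidiagonal.1 hp, pow_add]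
  ring

theorem const (c : ℂ) : Conv (PowerSeries.C c) fun _ => c := fun q _ => by
  have e := hasSum_single (f := fun n : ℕ => PowerSeries.coeff n (PowerSeries.C c) * q ^ n) 0
    fun n hn => by simp [PowerSeries.coeff_C, hn]
  simpa using e

theorem var : Conv PowerSeries.X fun q => q := fun q _ => by
  have e := hasSum_single
    (f := fun n : ℕ => PowerSeries.coeff n (PowerSeries.X : ℂ⟦X⟧) * q ^ n) 1
    fun n hn => by simp [PowerSeries.coeff_X, hn]
  simpa using e

theorem van (n : ℕ) : ∀ {a : ℂ⟦X⟧} {φ : ℂ → ℂ}, Conv a φ → (∀ q ∈ ball (0 : ℂ) 1, φ q = 0) →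
    PowerSeries.coeff n a = 0 := by
  induction n with
  | zero => exact fun h h0 => (zero h).symm.trans (h0 0 (mem_ball_self one_pos))
  | succ n ih =>
    intro a φ h h0
    have e := ih (der h) fun q hq => by
      have e : φ =ᶠ[𝓝 q] fun _ => 0 := by
        filter_upwards [isOpen_ball.mem_nhds hq] with w hw using h0 w hw
      rw [e.deriv_eq, deriv_const]
    rw [PowerSeries.coeff_derivative] at e
    exact (mul_eq_zero.1 e).resolve_right (by exact_mod_cast n.succ_ne_zero)

theorem inj (h : Conv a φ) (h0 : ∀ q ∈ ball (0 : ℂ) 1, q ≠ 0 → φ q = 0) : a = 0 := by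
  have hb : (0 : ℂ) ∈ ball (0 : ℂ) 1 := mem_ball_self one_pos
  have e : φ =ᶠ[𝓝[≠] 0] fun _ => 0 := by
    filter_upwards [mem_nhdsWithin_of_mem_nhds (isOpen_ball.mem_nhds hb), self_mem_nhdsWithin]
      with w hw hw' using h0 w hw hw'
  have e0 : φ 0 = 0 := tendsto_nhds_unique
    ((loc h hb).1.continuousAt.tendsto.mono_left nhdsWithin_le_nhds) (tendsto_const_nhds.congr' e.symm)
  refine PowerSeries.ext fun n => (van n h fun q hq => ?_).trans (map_zero _).symm
  rcases eq_or_ne q 0 with rfl | hq0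
  · exact e0
  · exact h0 q hq hq0

theorem div (k : ℕ) (h : Conv (PowerSeries.X ^ k * a) φ) : ∃ ψ, Conv a ψ := by
  refine ⟨fun q => ∑' n : ℕ, PowerSeries.coeff n a * q ^ n, fun q hq => Summable.hasSum ?_⟩
  rcases eq_or_ne q 0 with rfl | hq0
  · exact (hasSum_single 0 fun n hn => by simp [hn]).summable
  · refine (((summable_nat_add_iff k).2 (h q hq).summable).mul_right (q ^ k)⁻¹).congr fun n => ?_
    rw [PowerSeries.coeff_X_pow_mul, pow_add, mul_assoc, mul_inv_cancel_right₀ (pow_ne_zero k hq0)]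

end T1x

theorem t1 : S_T1 :=
  ⟨fun _ _ => T1x.diff, fun _ _ => T1x.der, fun _ _ => T1x.zero, fun _ _ _ _ => T1x.add,
    fun _ _ _ _ => T1x.mul, T1x.const, T1x.var, fun _ _ => T1x.inj, fun _ _ k => T1x.div k⟩

end

end Pool.Agent.MP_b2c033_nt.H87
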