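import Pool.Agent.MP_b2c033_nt.H87.Spec

/-! The formal form of the analytic bound. -/

namespace Pool.Agent.MP_b2c033_nt.H87

open Filter Metric Polynomial
open scoped PowerSeries LaurentSeries

noncomputable section

namespace TAx

theorem cx_add (a b : ℚ⟦X⟧) : cx (a + b) = cx a + cx b := map_add _ a b

theorem cx_mul (a b : ℚ⟦X⟧) : cx (a * b) = cx a * cx b := map_mul _ a b

theorem cx_C (r : ℚ) : cx (PowerSeries.C r) = PowerSeries.C (r : ℂ) := by
  unfold cx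
  rw [PowerSeries.map_C]
  rfl

theorem cx_Xpow (k : ℕ) : cx (PowerSeries.X ^ k) = PowerSeries.X ^ k := by
  unfold cx
  rw [map_pow, PowerSeries.map_X]

theorem cx_coeff (a : ℚ⟦X⟧) (n : ℕ) :
    PowerSeries.coeff n (cx a) = ((PowerSeries.coeff n a : ℚ) : ℂ) := by
  unfold cx
  rw [PowerSeries.coeff_map]
  rfl

theorem cx_der (a : ℚ⟦X⟧) :
    cx (PowerSeries.derivative ℚ a) = PowerSeries.derivative ℂ (cx a) := by
  ext n
  rw [cx_coeff, PowerSeries.coeff_derivative, PowerSeries.coeff_derivative, cx_coeff]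
  push_cast
  ring

theorem iq_inj : Function.Injective iq := HahnSeries.ofPowerSeries_injective

theorem iq_C (r : ℚ) : iq (PowerSeries.C r) = algebraMap ℚ L r := by
  rw [algMapL]
  exact eq_ratCast (iq.comp PowerSeries.C) r

theorem uniq {s : ℂ⟦X⟧} {φ ψ : ℂ → ℂ} (h : Conv s φ) (h' : Conv s ψ) {q : ℂ}
    (hq : q ∈ ball (0 : ℂ) 1) : φ q = ψ q := (h q hq).unique (h' q hq)

/-- convergence of a rational series -/
def CQ (a : ℚ⟦X⟧) (φ : ℂ → ℂ) : Prop := Conv (cx a) φ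

section

variable (h1 : S_T1)
include h1

theorem cq_add {a b : ℚ⟦X⟧} {φ ψ : ℂ → ℂ} (ha : CQ a φ) (hb : CQ b ψ) :
    CQ (a + b) fun q => φ q + ψ q := by
  unfold CQ
  rw [cx_add]
  exact h1.add _ _ _ _ ha hb

theorem cq_mul {a b : ℚ⟦X⟧} {φ ψ : ℂ → ℂ} (ha : CQ a φ) (hb : CQ b ψ) :
    CQ (a * b) fun q => φ q * ψ q := by
  unfold CQ
  rw [cx_mul]
  exact h1.mul _ _ _ _ ha hb

theorem cq_C (r : ℚ) : CQ (PowerSeries.C r) fun _ => (r : ℂ) := by
  unfold CQ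
  rw [cx_C]
  exact h1.const _

theorem conv_Xpow (k : ℕ) : Conv (PowerSeries.X ^ k) fun q => q ^ k := by
  induction k with
  | zero =>
    have h := h1.const 1
    simpa using h
  | succ k ih =>
    have h := h1.mul _ _ _ _ ih h1.var
    simpa [pow_succ] using h

theorem cq_Xpow (k : ℕ) : CQ (PowerSeries.X ^ k) fun q => q ^ k := by
  unfold CQ
  rw [cx_Xpow]
  exact conv_Xpow h1 k

theorem cq_der {a : ℚ⟦X⟧} {φ : ℂ → ℂ} (ha : CQ a φ) :
    CQ (PowerSeries.derivative ℚ a) (deriv φ) := by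
  unfold CQ
  rw [cx_der]
  exact h1.der _ _ ha

theorem cq_sub {a b : ℚ⟦X⟧} {φ ψ : ℂ → ℂ} (ha : CQ a φ) (hb : CQ b ψ) :
    CQ (a - b) fun q => φ q - ψ q := by
  have h := cq_add h1 ha (cq_mul h1 (cq_C h1 (-1)) hb)
  have e1 : a + PowerSeries.C (-1 : ℚ) * b = a - b := by
    rw [map_neg, map_one]; ring
  have e2 : (fun q => φ q + ((-1 : ℚ) : ℂ) * ψ q) = fun q => φ q - ψ q := by
    funext q
    push_cast
    ring
  rw [e1, e2] at h
  exact h

theorem cq_div {a : ℚ⟦X⟧} {φ : ℂ → ℂ} (k : ℕ) (h : CQ (PowerSeries.X ^ k * a) φ) :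
    ∃ ψ, CQ a ψ := by
  unfold CQ at h
  rw [cx_mul, cx_Xpow] at h
  exact h1.div _ _ k h

end

/-- the value `c` at `q` of the Laurent series `l` -/
def Val (q : ℂ) (l : L) (c : ℂ) : Prop :=
  ∃ (a e : ℚ⟦X⟧) (α ε : ℂ → ℂ), CQ a α ∧ CQ e ε ∧ ε q ≠ 0 ∧ l * iq e = iq a ∧ c * ε q = α q

section

variable (h1 : S_T1) {q : ℂ}
include h1

theorem val_add {l l' : L} {c c' : ℂ} (h : Val q l c) (h' : Val q l' c') :
    Val q (l + l') (c + c') := by
  obtain ⟨a, e, α, ε, ha, he, h0, hl, hc⟩ := h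
  obtain ⟨a', e', α', ε', ha', he', h0', hl', hc'⟩ := h'
  refine ⟨a * e' + a' * e, e * e', _, _, cq_add h1 (cq_mul h1 ha he') (cq_mul h1 ha' he),
    cq_mul h1 he he', mul_ne_zero h0 h0', ?_, ?_⟩
  · rw [map_add, map_mul, map_mul, map_mul, ← hl, ← hl']; ring
  · show (c + c') * (ε q * ε' q) = α q * ε' q + α' q * ε q
    rw [← hc, ← hc']; ring

theorem val_mul {l l' : L} {c c' : ℂ} (h : Val q l c) (h' : Val q l' c') :
    Val q (l * l') (c * c') := by
  obtain ⟨a, e, α, ε, ha, he, h0, hl, hc⟩ := h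
  obtain ⟨a', e', α', ε', ha', he', h0', hl', hc'⟩ := h'
  refine ⟨a * a', e * e', _, _, cq_mul h1 ha ha', cq_mul h1 he he', mul_ne_zero h0 h0', ?_, ?_⟩
  · rw [map_mul, map_mul, ← hl, ← hl']; ring
  · show (c * c') * (ε q * ε' q) = α q * α' q
    rw [← hc, ← hc']; ring

theorem val_const (r : ℚ) : Val q (algebraMap ℚ L r) (r : ℂ) := by
  refine ⟨PowerSeries.C r, PowerSeries.C 1, _, _, cq_C h1 r, cq_C h1 1, by simp, ?_, by simp⟩
  rw [map_one, map_one, mul_one, iq_C]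

theorem val_pow {l : L} {c : ℂ} (h : Val q l c) (n : ℕ) : Val q (l ^ n) (c ^ n) := by
  induction n with
  | zero =>
    have h0 := val_const h1 (q := q) 1
    rw [map_one, Rat.cast_one] at h0
    rw [pow_zero, pow_zero]
    exact h0
  | succ n ih =>
    rw [pow_succ, pow_succ]
    exact val_mul h1 ih h

theorem val_aeval {l : L} {c : ℂ} (h : Val q l c) (P : ℚ[X]) :
    Val q (aeval l P) ((P.map (algebraMap ℚ ℂ)).eval c) := by
  induction P using Polynomial.induction_on' with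
  | add P Q hP hQ =>
    rw [map_add, Polynomial.map_add, eval_add]
    exact val_add h1 hP hQ
  | monomial n r =>
    rw [aeval_monomial, Polynomial.map_monomial, eval_monomial]
    exact val_mul h1 (val_const h1 r) (val_pow h1 h n)

theorem val_uniq (hq : q ∈ ball (0 : ℂ) 1) {l : L} {c c' : ℂ} (h : Val q l c)
    (h' : Val q l c') : c = c' := by
  obtain ⟨a, e, α, ε, ha, he, h0, hl, hc⟩ := h
  obtain ⟨a', e', α', ε', ha', he', h0', hl', hc'⟩ := h'
  have e1 : a * e' = a' * e := by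
    apply iq_inj
    rw [map_mul, map_mul, ← hl, ← hl']; ring
  have h2 := cq_mul h1 ha he'
  rw [e1] at h2
  have h3 : α q * ε' q = α' q * ε q := uniq h2 (cq_mul h1 ha' he) hq
  rw [← hc, ← hc'] at h3
  have h4 : (c - c') * (ε q * ε' q) = 0 := by linear_combination h3
  rcases mul_eq_zero.1 h4 with h5 | h5
  · exact sub_eq_zero.1 h5
  · exact absurd h5 (mul_ne_zero h0 h0')

end

theorem split (s : ℚ⟦X⟧) (hs : s ≠ 0) :
    ∃ (k : ℕ) (d : ℚ⟦X⟧), s = PowerSeries.X ^ k * d ∧ PowerSeries.coeff 0 d ≠ 0 := by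
  refine ⟨s.order.toNat, s.divXPowOrder, PowerSeries.X_pow_order_mul_divXPowOrder.symm, ?_⟩
  rw [PowerSeries.coeff_divXPowOrder, zero_add]
  exact PowerSeries.coeff_order hs

theorem homog {e₁ e₂ e₃ p r s : ℂ}
    (h : ∀ t : ℂ, t ^ 3 + p * t ^ 2 + r * t + s = (t - e₁) * (t - e₂) * (t - e₃)) (α ε : ℂ) :
    α * α * α + p * (α * α * ε) + r * (α * ε * ε) + s * (ε * ε * ε) =
      (α - e₁ * ε) * (α - e₂ * ε) * (α - e₃ * ε) := by
  have h0 := h 0
  have h1 := h 1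
  have h2 := h (-1)
  have hs : s = -(e₁ * e₂ * e₃) := by linear_combination h0
  have hp : p = -(e₁ + e₂ + e₃) := by linear_combination (1 / 2 : ℂ) * (h1 + h2) - h0
  have hr : r = e₁ * e₂ + e₁ * e₃ + e₂ * e₃ := by linear_combination (1 / 2 : ℂ) * (h1 - h2)
  rw [hs, hp, hr]
  ring

theorem iq_int (z : ℤ) : iq (PowerSeries.C (z : ℚ)) = (z : L) := by
  rw [map_intCast, map_intCast]

end TAx

open TAx in
theorem ta (h1 : S_T1) (h7 : S_A7) : S_TA := by
  intro e₁ e₂ e₃ a₂ a₄ a₆ x y F a b e w g A B C k m hroot hdisc ha hb he hw he0 hx hy hF hy0 hcurve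
    hC hrel hnc hg hlow hm
  obtain ⟨α, hα⟩ := ha
  obtain ⟨β, hβ⟩ := hb
  obtain ⟨ε, hε⟩ := he
  obtain ⟨ω, hω⟩ := hw
  have hα' : CQ a α := hα
  have hβ' : CQ b β := hβ
  have hε' : CQ e ε := hε
  have hω' : CQ w ω := hω
  have hie : iq e ≠ 0 := fun h => he0 (iq_inj (by rw [h, map_zero]))
  have hb0 : b ≠ 0 := by
    intro h
    rw [h, map_zero] at hy
    exact mul_ne_zero hy0 hie hy
  obtain ⟨k₁, d₀, hd, hd0⟩ := split (e * b) (mul_ne_zero he0 hb0)
  obtain ⟨g₀, hg0⟩ : PowerSeries.X ^ m ∣ g := PowerSeries.X_pow_dvd_iff.2 hlow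
  have hgm : PowerSeries.coeff m g = PowerSeries.coeff 0 g₀ := by
    rw [hg0]
    have h := PowerSeries.coeff_X_pow_mul g₀ m 0
    rwa [zero_add] at h
  have hW : CQ (PowerSeries.derivative ℚ a * e - a * PowerSeries.derivative ℚ e)
      fun q => deriv α q * ε q - α q * deriv ε q :=
    cq_sub h1 (cq_mul h1 (cq_der h1 hα') hε') (cq_mul h1 hα' (cq_der h1 hε'))
  have hWe : PowerSeries.derivative ℚ a * e - a * PowerSeries.derivative ℚ e =
      PowerSeries.X ^ (k₁ + m) * (g₀ * d₀) := by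
    rw [← hg, hd, hg0]; ring
  rw [hWe] at hW
  obtain ⟨ν, hν⟩ := cq_div h1 _ hW
  have hEB : CQ (PowerSeries.X ^ k₁ * d₀) fun q => ε q * β q := by
    rw [← hd]
    exact cq_mul h1 hε' hβ'
  obtain ⟨δ, hδ⟩ := cq_div h1 _ hEB
  have hδ0 : δ 0 = ((PowerSeries.coeff 0 d₀ : ℚ) : ℂ) := by
    rw [h1.zero _ _ hδ, cx_coeff]
  have hν0 : ν 0 = ((PowerSeries.coeff m g : ℚ) : ℂ) * δ 0 := by
    rw [h1.zero _ _ hν, cx_coeff, hδ0, hgm]
    simp only [PowerSeries.coeff_zero_eq_constantCoeff, map_mul]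
    push_cast
    rfl
  have hcub : b * b * e = a * a * a + PowerSeries.C (a₂ : ℚ) * (a * a * e) +
      PowerSeries.C (a₄ : ℚ) * (a * e * e) + PowerSeries.C (a₆ : ℚ) * (e * e * e) := by
    apply iq_inj
    simp only [map_add, map_mul, iq_int]
    rw [← hx, ← hy]
    linear_combination (iq e) ^ 3 * hcurve
  refine h7 e₁ e₂ e₃ α β ε ν δ (fun q => ω q / q ^ k) (A.map (algebraMap ℚ ℂ))
    (B.map (algebraMap ℚ ℂ)) (C.map (algebraMap ℚ ℂ)) k₁ m hdisc (Polynomial.map_ne_zero hC)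
    (h1.diff _ _ hα) (h1.diff _ _ hβ) (h1.diff _ _ hε) (h1.diff _ _ hν) (h1.diff _ _ hδ)
    ?_ ?_ ?_ ?_ ?_ ?_ ?_ ?_
  · refine ContinuousOn.div ((h1.diff _ _ hω).continuousOn.mono Set.sdiff_subset)
      (continuous_pow k).continuousOn fun q hq => pow_ne_zero k hq.2
  · intro q hq
    have h2 := cq_mul h1 (cq_mul h1 hβ' hβ') hε'
    rw [hcub] at h2
    have h3 := cq_add h1 (cq_add h1 (cq_add h1 (cq_mul h1 (cq_mul h1 hα' hα') hα')
      (cq_mul h1 (cq_C h1 (a₂ : ℚ)) (cq_mul h1 (cq_mul h1 hα' hα') hε')))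
      (cq_mul h1 (cq_C h1 (a₄ : ℚ)) (cq_mul h1 (cq_mul h1 hα' hε') hε')))
      (cq_mul h1 (cq_C h1 (a₆ : ℚ)) (cq_mul h1 (cq_mul h1 hε' hε') hε'))
    have h4 := uniq h2 h3 hq
    simp only [Rat.cast_intCast] at h4
    rw [← homog hroot (α q) (ε q), ← h4]
    ring
  · intro q hq hεq
    have hq0 : q ≠ 0 := hq.2
    have vx : Val q x (α q / ε q) := ⟨a, e, α, ε, hα', hε', hεq, hx, div_mul_cancel₀ _ hεq⟩
    have vy : Val q y (β q / ε q) := ⟨b, e, β, ε, hβ', hε', hεq, hy, div_mul_cancel₀ _ hεq⟩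
    have vF : Val q F (ω q / q ^ k) := ⟨w, PowerSeries.X ^ k, ω, _, hω', cq_Xpow h1 k,
      pow_ne_zero k hq0, hF, div_mul_cancel₀ _ (pow_ne_zero k hq0)⟩
    have v1 := val_mul h1 vF (val_aeval h1 vx C)
    rw [hrel] at v1
    exact val_uniq h1 hq.1 v1
      (val_add h1 (val_aeval h1 vx A) (val_mul h1 (val_aeval h1 vx B) vy))
  · by_contra hcon
    have hhalf : (1 / 2 : ℂ) ∈ ball (0 : ℂ) 1 \ {0} := by
      refine ⟨?_, by simp⟩
      rw [mem_ball_zero_iff]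
      norm_num
    have hall : ∀ q ∈ ball (0 : ℂ) 1 \ {0}, ω q / q ^ k = ω (1 / 2) / (1 / 2) ^ k := by
      intro q hq
      by_contra hne
      exact hcon ⟨q, hq, 1 / 2, hhalf, hne⟩
    obtain ⟨κ, hκ⟩ : ∃ κ : ℂ, κ = ω (1 / 2) / (1 / 2) ^ k := ⟨_, rfl⟩
    rw [← hκ] at hall
    have h2 := h1.add _ _ _ _ hω (h1.mul _ _ _ _ (h1.const (-κ)) (conv_Xpow h1 k))
    have h3 := h1.inj _ _ h2 fun q hq hq0 => by
      have h4 := hall q ⟨hq, hq0⟩
      rw [div_eq_iff (pow_ne_zero k hq0)] at h4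
      show ω q + -κ * q ^ k = 0
      rw [h4]; ring
    have h5 : w = PowerSeries.C (PowerSeries.coeff k w) * PowerSeries.X ^ k := by
      ext n
      rw [PowerSeries.coeff_C_mul, PowerSeries.coeff_X_pow]
      by_cases hn : n = k
      · rw [if_pos hn, hn, mul_one]
      · rw [if_neg hn, mul_zero]
        have h6 := congrArg (PowerSeries.coeff n) h3
        rw [map_add, PowerSeries.coeff_C_mul, PowerSeries.coeff_X_pow, if_neg hn, mul_zero,
          add_zero, map_zero, cx_coeff] at h6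
        exact_mod_cast h6
    have hX : iq (PowerSeries.X ^ k) ≠ 0 := fun h =>
      pow_ne_zero k PowerSeries.X_ne_zero (iq_inj (by rw [h, map_zero]))
    apply hnc (PowerSeries.coeff k w)
    apply mul_right_cancel₀ hX
    rw [hF, ← iq_C, ← map_mul, ← h5]
  · intro q hq
    exact uniq hW (cq_mul h1 (cq_Xpow h1 (k₁ + m)) hν) hq
  · intro q hq
    exact uniq hEB (cq_mul h1 (cq_Xpow h1 k₁) hδ) hq
  · rw [hδ0]
    exact_mod_cast hd0
  · rw [hν0, norm_mul, Complex.norm_ratCast]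
    refine mul_le_mul_of_nonneg_right ?_ (norm_nonneg _)
    exact_mod_cast hm

end

end Pool.Agent.MP_b2c033_nt.H87
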