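import Pool.Agent.MP_b2c033_nt.H87.Fin
import Pool.Agent.MP_b2c033_nt.H87.A1
import Pool.Agent.MP_b2c033_nt.H87.A2
import Pool.Agent.MP_b2c033_nt.H87.A3
import Pool.Agent.MP_b2c033_nt.H87.A4
import Pool.Agent.MP_b2c033_nt.H87.A5
import Pool.Agent.MP_b2c033_nt.H87.RS
import Pool.Agent.MP_b2c033_nt.H87.A6b
import Pool.Agent.MP_b2c033_nt.H87.A7a
import Pool.Agent.MP_b2c033_nt.H87.A7
import Pool.Agent.MP_b2c033_nt.H87.T1
import Pool.Agent.MP_b2c033_nt.H87.T2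
import Pool.Agent.MP_b2c033_nt.H87.TA
import Pool.Agent.MP_b2c033_nt.H87.E1
import Pool.Agent.MP_b2c033_nt.H87.E2
import Pool.Agent.MP_b2c033_nt.H87.P0
import Pool.Agent.MP_b2c033_nt.H87.P1
import Pool.Agent.MP_b2c033_nt.H87.P2
import Pool.Agent.MP_b2c033_nt.H87.P4
import Pool.Agent.MP_b2c033_nt.H87.P5a
import Pool.Agent.MP_b2c033_nt.H87.P5b
import Pool.Agent.MP_b2c033_nt.H87.P6
import Pool.Agent.MP_b2c033_nt.H87.P7
import Pool.Agent.MP_b2c033_nt.H87.M1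
import Pool.Agent.MP_b2c033_nt.H87.M2
import Pool.Agent.MP_b2c033_nt.H87.M3a
import Pool.Agent.MP_b2c033_nt.H87.M3b
import Pool.Agent.MP_b2c033_nt.H87.M3c
import Pool.Agent.MP_b2c033_nt.H87.M4b
import Pool.Agent.MP_b2c033_nt.H87.M5
import Pool.Agent.MP_b2c033_nt.H87.M6b

/-! The finiteness theorem. -/

namespace Pool.Agent.MP_b2c033_nt.H87

theorem analytic : S_TA :=
  ta t1 (a7 a5 (a6a rs) (a6b rs) (a7a (a4 (a2 a1) a3) rs) a7b)

theorem integral : S_P7 :=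
  p7 p0 p0b p1 p2 p3a p3b (fun p _ => p4a p) p4b p4c p5a p5b p6

theorem modular : S_M6 :=
  m6b t1 t2 (m2 m1) m3a m3b m3t (m3d m3t m3c) (m4b t1) (m5b t1 m5)

theorem finiteness : S_Fin := fin t1 t2 (t3 t1) analytic e1 e2 e3 integral modular

end Pool.Agent.MP_b2c033_nt.H87
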