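import Mathlib

/-! Regular functions on the modular curve `Y₁(M)` over the rationals, and parametrizations of
elliptic curves by them. -/

namespace Pool.Agent.MP_b2c033_nt.H87

open UpperHalfPlane hiding I
open scoped Real Manifold MatrixGroups

/-- `u` is a regular function on `Y₁(M)` over `ℚ`, with `q`-expansion `F` at `∞`: it is
holomorphic on the upper half plane, invariant under `Γ₁(M)`, meromorphic at every cusp, and its
`q`-expansion has rational coefficients. Modular units are the `u` without zeros. -/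
structure Reg (M : ℕ) (u : ℍ → ℂ) (F : LaurentSeries ℚ) : Prop where
  hol : MDifferentiable 𝓘(ℂ) 𝓘(ℂ) u
  inv : ∀ γ ∈ CongruenceSubgroup.Gamma1 M, ∀ z, u (γ • z) = u z
  cusp : ∀ γ : SL(2, ℤ), ∃ κ : ℝ,
    (fun z => u (γ • z)) =O[atImInfty] fun z => Real.exp (κ * z.im)
  exp : ∀ z : ℍ, HasSum
    (fun n : ℤ => (F.coeff n : ℂ) * Complex.exp (2 * π * Complex.I * z) ^ n) (u z)

/-- The function field of `E` is isomorphic to the field generated by two regular functions on
`Y₁(M)`. -/
def Param (E : WeierstrassCurve ℚ) (M : ℕ) : Prop :=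
  ∃ u v F G, Reg M u F ∧ Reg M v G ∧
    Nonempty (IntermediateField.adjoin ℚ {F, G} ≃ₐ[ℚ] E.toAffine.FunctionField)

end Pool.Agent.MP_b2c033_nt.H87
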