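import Pool.Agent.MP_b2c033_nt.H87.Spec

/-! Assembly of the finiteness theorem from its parts. -/

namespace Pool.Agent.MP_b2c033_nt.H87

open Polynomial

theorem fin (t1 : S_T1) (t2 : S_T2) (t3 : S_T3) (ta : S_TA) (e1 : S_E1) (e2 : S_E2) (e3 : S_E3)
    (p7 : S_P7) (m6 : S_M6) : S_Fin := by
  intro E _ M hM ⟨u, v, F, G, hu, hv, hiso⟩
  obtain ⟨C, a₂, a₄, a₆, ha₂, hC, hd, hmin⟩ := e1 E
  obtain ⟨x, hx, y, hy, heq, htr, hgen⟩ := e2 E C a₂ a₄ a₆ _ hC hiso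
  have cvX : ∀ k : ℕ, Cv (PowerSeries.X ^ k) := fun k => by
    induction k with
    | zero => exact ⟨_, by simpa [cx] using t1.const 1⟩
    | succ k ih =>
      obtain ⟨φ, hφ⟩ := ih
      exact ⟨_, by simpa [cx, pow_succ] using t1.mul _ _ _ _ hφ t1.var⟩
  have frc : ∀ {w : UpperHalfPlane → ℂ} {H : L}, Reg M w H → FrC H := fun h => by
    obtain ⟨k, w, φ, h1, h2, -⟩ := t2 M _ _ h
    exact ⟨w, _, ⟨φ, h1⟩, cvX k, pow_ne_zero _ PowerSeries.X_ne_zero, h2⟩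
  have hxc : ∀ c : ℚ, x ≠ algebraMap ℚ L c := fun c h =>
    htr (X - Polynomial.C c) (X_sub_C_ne_zero c) (by rw [map_sub, aeval_X, aeval_C, h, sub_self])
  have hy0 : y ≠ 0 := fun h => by
    have hne : (X ^ 3 + Polynomial.C (a₂ : ℚ) * X ^ 2 + Polynomial.C (a₄ : ℚ) * X +
        Polynomial.C (a₆ : ℚ) : ℚ[X]) ≠ 0 := by
      apply Monic.ne_zero
      monicity!
    refine htr _ hne ?_
    simp only [map_add, map_mul, map_pow, aeval_X, map_intCast]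
    rw [← heq, h]; simp
  obtain ⟨g, m, hlow, hlead, hg⟩ := p7 a₂ a₄ a₆ x y hd hmin
    ((t3 F G x hx).2 (m6 M u F hM hu) (m6 M v G hM hv))
    ((t3 F G y hy).2 (m6 M u F hM hu) (m6 M v G hM hv)) hy0 hxc heq
  obtain ⟨a, e, ⟨φa, ha⟩, ⟨φe, he⟩, he0, hae⟩ := (t3 F G x hx).1 (frc hu) (frc hv)
  obtain ⟨b, e', ⟨φb, hb⟩, ⟨φe', he'⟩, he0', hbe⟩ := (t3 F G y hy).1 (frc hu) (frc hv)
  have cvm : ∀ {s t : PowerSeries ℚ} {φ ψ : ℂ → ℂ}, Conv (cx s) φ → Conv (cx t) ψ → Cv (s * t) :=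
    fun h h' => ⟨_, by simpa [cx] using t1.mul _ _ _ _ h h'⟩
  have hx' : x * iq (e * e') = iq (a * e') := by rw [map_mul, map_mul, ← hae]; ring
  have hy' : y * iq (e * e') = iq (b * e) := by rw [map_mul, map_mul, ← hbe]; ring
  have main : ∀ {w : UpperHalfPlane → ℂ} {H : L}, Reg M w H →
      H ∈ IntermediateField.adjoin ℚ {F, G} → (∀ c : ℚ, H ≠ algebraMap ℚ L c) →
      |a₄| ≤ 10 ^ 40 ∧ |a₆| ≤ 10 ^ 60 := fun h hH hc => by
    obtain ⟨k, w, φ, h1, h2, -⟩ := t2 M _ _ h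
    obtain ⟨A, B, D, hD, hrel⟩ := hgen _ hH
    exact e3 a₂ a₄ a₆ ha₂ hd fun e₁ e₂ e₃ hr hn =>
      ta e₁ e₂ e₃ a₂ a₄ a₆ x y _ (a * e') (b * e) (e * e') w g A B D k m hr hn (cvm ha he')
        (cvm hb he) (cvm he he') ⟨φ, h1⟩ (mul_ne_zero he0 he0') hx' hy' h2 hy0 heq hD hrel hc
        (hg _ _ _ hx' hy') hlow hlead
  have bd : |a₄| ≤ 10 ^ 40 ∧ |a₆| ≤ 10 ^ 60 := by
    by_cases hF : ∀ c : ℚ, F ≠ algebraMap ℚ L c
    · exact main hu (IntermediateField.subset_adjoin _ _ (by simp)) hF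
    by_cases hG : ∀ c : ℚ, G ≠ algebraMap ℚ L c
    · exact main hv (IntermediateField.subset_adjoin _ _ (by simp)) hG
    push Not at hF hG
    obtain ⟨c, hc⟩ := hF
    obtain ⟨c', hc'⟩ := hG
    have hle : IntermediateField.adjoin ℚ {F, G} ≤ ⊥ := by
      rw [IntermediateField.adjoin_le_iff]
      rintro z (rfl | rfl)
      · exact IntermediateField.mem_bot.2 ⟨c, hc.symm⟩
      · exact IntermediateField.mem_bot.2 ⟨c', hc'.symm⟩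
    obtain ⟨c'', h⟩ := IntermediateField.mem_bot.1 (hle hx)
    exact absurd h.symm (hxc c'')
  exact ⟨C, a₂, a₄, a₆, ha₂, bd.1, bd.2, hC⟩

end Pool.Agent.MP_b2c033_nt.H87
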