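import Pool.Agent.MP_b2c033_nt.H87.Spec

/-! An invariant function that is holomorphic, and meromorphic at the cusp, is a polynomial
in `j`. -/

namespace Pool.Agent.MP_b2c033_nt.H87

open Filter Polynomial Asymptotics
open UpperHalfPlane hiding I
open scoped Real Manifold MatrixGroups Topology ModularForm

noncomputable section

namespace M1x

theorem poly (n : ℕ) : ∀ (k : ℤ), k = n * 12 → ∀ f : ModularForm 𝒮ℒ k,
    ∃ P : ℂ[X], ∀ z, f z = P.eval (jj z) * ModularForm.discriminant z ^ n := by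
  induction n with
  | zero =>
    intro k hk f
    obtain rfl : k = 0 := by simpa using hk
    obtain ⟨c, hc⟩ := ModularFormClass.levelOne_weight_zero_const f
    exact ⟨C c, fun z => by simp [hc]⟩
  | succ n ih =>
    intro k hk f
    let g : ModularForm 𝒮ℒ k :=
      ModularForm.mcast (by rw [hk]; push_cast; ring) (ModularForm.E₄.pow (3 * (n + 1)))
    have hg : ∀ z, g z = ModularForm.E₄ z ^ (3 * (n + 1)) := fun z => by
      simp only [g, ModularForm.coe_mcast, ModularForm.coe_pow, Pi.pow_apply]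
    have hg0 : (qExpansion 1 g).coeff 0 = 1 := by
      simp only [g, ModularForm.coe_mcast,
        ModularForm.qExpansion_pow one_pos one_mem_strictPeriods_SL]
      rw [PowerSeries.coeff_zero_eq_constantCoeff, map_pow,
        ← PowerSeries.coeff_zero_eq_constantCoeff_apply,
        EisensteinSeries.E_qExpansion_coeff_zero _ ⟨2, rfl⟩, one_pow]
    obtain ⟨h, hh⟩ := ModularForm.sub_smul_isCuspForm f g hg0
    obtain ⟨P, hP⟩ := ih (k - 12) (by rw [hk]; push_cast; ring) (CuspForm.discriminantEquiv h)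
    refine ⟨C ((qExpansion 1 f).coeff 0) * X ^ (n + 1) + P, fun z => ?_⟩
    have h1 : h z = f z - (qExpansion 1 f).coeff 0 * g z := congrArg (fun F => F z) hh
    have h2 := ModularForm.discriminant_mul_discriminantEquiv_apply h z
    have h3 : jj z * ModularForm.discriminant z = ModularForm.E₄ z ^ 3 :=
      div_mul_cancel₀ _ (ModularForm.discriminant_ne_zero z)
    rw [hP, h1, hg, pow_mul, ← h3] at h2
    simp only [eval_add, eval_mul, eval_C, eval_pow, eval_X]
    rw [mul_pow] at h2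
    linear_combination -h2

theorem pow_bigO (n : ℕ) : (fun z : ℍ => ModularForm.discriminant z ^ n) =O[atImInfty]
    fun z => Real.exp (-(2 * π * n) * z.im) := by
  have h := (CuspFormClass.exp_decay_atImInfty CuspForm.discriminant one_pos
    one_mem_strictPeriods_SL).pow n
  refine h.congr (fun z => rfl) fun z => ?_
  rw [← Real.exp_nat_mul]
  congr 1
  ring

theorem slash_eq {φ : ℍ → ℂ} (hi : ∀ (γ : SL(2, ℤ)) (z : ℍ), φ (γ • z) = φ z) {k : ℤ}
    (f : ModularForm 𝒮ℒ k) (γ : SL(2, ℤ)) : (φ * ⇑f) ∣[k] γ = φ * ⇑f := by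
  have hγ : (γ : GL (Fin 2) ℝ) ∈ 𝒮ℒ := ⟨γ, rfl⟩
  have h := SlashInvariantForm.slash_action_eqn f _ hγ
  rw [← ModularForm.SL_slash] at h
  funext z
  have h' := congrFun h z
  rw [ModularForm.SL_slash_apply] at h' ⊢
  rw [Pi.mul_apply, Pi.mul_apply, hi, mul_assoc, h']

/-- the product of an invariant function and a modular form, when bounded at the cusp -/
def form {φ : ℍ → ℂ} (hφ : MDifferentiable 𝓘(ℂ) 𝓘(ℂ) φ)
    (hi : ∀ (γ : SL(2, ℤ)) (z : ℍ), φ (γ • z) = φ z) {k : ℤ} (f : ModularForm 𝒮ℒ k)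
    (hb : IsBoundedAtImInfty (φ * ⇑f)) : ModularForm 𝒮ℒ k where
  toFun := φ * ⇑f
  slash_action_eq' := fun _ ⟨γ, hγ⟩ => hγ ▸ slash_eq hi f γ
  holo' := hφ.mul f.holo'
  bdd_at_cusps' {c} hc := by
    rw [Subgroup.IsArithmetic.isCusp_iff_isCusp_SL2Z] at hc
    rw [OnePoint.isBoundedAt_iff_forall_SL2Z hc]
    intro γ _
    rw [slash_eq hi f γ]
    exact hb

end M1x

open M1x in
theorem m1 : S_M1 := by
  rintro φ ⟨hφ, hκ⟩ hi
  obtain ⟨κ, hκ⟩ := hκ 1
  simp only [one_smul] at hκ
  obtain ⟨n, hn⟩ := exists_nat_ge (κ / (2 * π))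
  rw [div_le_iff₀ (by positivity)] at hn
  let f : ModularForm 𝒮ℒ (n * 12) :=
    (CuspForm.discriminant : ModularForm 𝒮ℒ 12).pow n
  have hf : ∀ z, f z = ModularForm.discriminant z ^ n := fun z => by
    simp only [f, ModularForm.coe_pow, Pi.pow_apply]
    rfl
  have hb : IsBoundedAtImInfty (φ * ⇑f) := by
    have h := hκ.mul (pow_bigO n)
    refine (h.congr (fun z => by rw [Pi.mul_apply, hf]) fun z => rfl).trans ?_
    refine IsBigO.of_bound 1 (Eventually.of_forall fun z => ?_)
    rw [← Real.exp_add, Real.norm_eq_abs, abs_of_pos (Real.exp_pos _), Pi.one_apply, norm_one,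
      mul_one, Real.exp_le_one_iff]
    nlinarith [z.im_pos]
  obtain ⟨P, hP⟩ := poly n _ rfl (form hφ hi f hb)
  refine ⟨P, fun z => ?_⟩
  have h : φ z * f z = _ := hP z
  rw [hf] at h
  exact mul_right_cancel₀ (pow_ne_zero n (ModularForm.discriminant_ne_zero z)) h

end

end Pool.Agent.MP_b2c033_nt.H87
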