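import Pool.Agent.MP_b2c033_nt.H87.Defs

/-! Row statements for the finiteness theorem (page b2c033_FIN_page.md). -/

namespace Pool.Agent.MP_b2c033_nt.H87

open Filter Metric Polynomial
open UpperHalfPlane hiding I
open scoped Real Manifold MatrixGroups Topology PowerSeries LaurentSeries

noncomputable section

/-! ## Part A: complex analysis -/

def S_A1 : Prop := ∀ (G : ℂ → ℂ) (c : ℂ) (r : ℝ), 0 < r → DifferentiableOn ℂ G (ball c r) →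
  (∀ w : ℂ, ∃ w' : ℂ, ‖w' - w‖ < 1 ∧ ∀ q ∈ ball c r, G q ≠ w') → ‖deriv G c‖ * r ≤ 48

def S_A2 : Prop := ∀ (h : ℂ → ℂ) (c : ℂ) (r : ℝ), 0 < r → DifferentiableOn ℂ h (ball c r) →
  (∀ q ∈ ball c r, h q ≠ 0 ∧ h q ≠ 1) →
  ‖deriv h c‖ * r ≤ 500 * √(‖h c‖ * ‖h c - 1‖) * (2 + Real.log (4 * ‖h c‖ + 3))

def S_A3 : Prop := ∀ (φ ψ Y : ℂ → ℂ) (c : ℂ) (r r' : ℝ), 0 < r' → r' < r →
  DifferentiableOn ℂ φ (ball c r) → DifferentiableOn ℂ ψ (ball c r) →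
  DifferentiableOn ℂ Y (ball c r) → (∀ q ∈ ball c r, Y q ^ 2 = φ q * ψ q) →
  (∀ q ∈ ball c r, φ q = 0 → ψ q ≠ 0) →
  ∃ α : ℂ → ℂ, DifferentiableOn ℂ α (ball c r') ∧ ∀ q ∈ ball c r', α q ^ 2 = φ q

def S_A4 : Prop := ∀ (e₁ e₂ e₃ : ℂ) (X Y : ℂ → ℂ) (c γ : ℂ) (r : ℝ), 0 < r →
  1 ≤ ‖(e₁ - e₂) * (e₁ - e₃) * (e₂ - e₃)‖ →
  DifferentiableOn ℂ X (ball c r) → DifferentiableOn ℂ Y (ball c r) →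
  (∀ q ∈ ball c r, Y q ^ 2 = (X q - e₁) * (X q - e₂) * (X q - e₃)) →
  Y c ≠ 0 → γ * Y c = deriv X c → (‖γ‖ * r) ^ 4 * ‖e₁ - e₂‖ ≤ 10 ^ 17

/-- the point at infinity is never a punctured limit of `(x, y)` on `U` -/
def OmitInf (U : Set ℂ) (x : ℂ → ℂ) : Prop :=
  ∀ c ∈ U, ¬ Tendsto x (𝓝[≠] c) (Bornology.cobounded ℂ)

/-- the point `(s, t)` is never a punctured limit of `(x, y)` on `U` -/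
def OmitFin (U : Set ℂ) (x y : ℂ → ℂ) (s t : ℂ) : Prop :=
  ∀ c ∈ U, ¬ (Tendsto x (𝓝[≠] c) (𝓝 s) ∧ Tendsto y (𝓝[≠] c) (𝓝 t))

def S_A5 : Prop := ∀ (e₁ e₂ e₃ : ℂ) (U : Set ℂ) (x y u : ℂ → ℂ) (A B C : ℂ[X]),
  e₁ ≠ e₂ → e₁ ≠ e₃ → e₂ ≠ e₃ → C ≠ 0 → IsOpen U → ContinuousOn u U →
  (∀ c ∈ U, ∀ᶠ q in 𝓝[≠] c, y q ^ 2 = (x q - e₁) * (x q - e₂) * (x q - e₃) ∧
      u q * C.eval (x q) = A.eval (x q) + B.eval (x q) * y q) →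
  (∀ c ∈ U, ∀ t : ℂ, ∀ᶠ q in 𝓝[≠] c, x q ≠ t) →
  (∃ c ∈ U, ∃ c' ∈ U, u c ≠ u c') →
  OmitInf U x ∨ ∃ s t : ℂ, t ^ 2 = (s - e₁) * (s - e₂) * (s - e₃) ∧ OmitFin U x y s t

def S_RS : Prop := ∀ (U : Set ℂ) (φ : ℂ → ℂ), IsOpen U →
  (∀ c ∈ U, ∃ K : ℝ, ∀ᶠ q in 𝓝[≠] c, DifferentiableAt ℂ φ q ∧ ‖φ q‖ ≤ K) →
  ∃ Φ : ℂ → ℂ, DifferentiableOn ℂ Φ U ∧ ∀ c ∈ U, Φ =ᶠ[𝓝[≠] c] φ

/-- a meromorphic nonconstant point of the cubic on `U` -/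
def MerPt (e₁ e₂ e₃ : ℂ) (U : Set ℂ) (x y : ℂ → ℂ) : Prop :=
  (∀ c ∈ U, MeromorphicAt x c ∧ MeromorphicAt y c) ∧
  (∀ c ∈ U, ∀ᶠ q in 𝓝[≠] c, y q ^ 2 = (x q - e₁) * (x q - e₂) * (x q - e₃)) ∧
  ∀ c ∈ U, ∀ t : ℂ, ∀ᶠ q in 𝓝[≠] c, x q ≠ t

/-- a holomorphic translate of the point `(x, y)` -/
def HolPt (e₁ e₂ e₃ : ℂ) (U : Set ℂ) (x y : ℂ → ℂ) : Prop :=
  ∃ X Y : ℂ → ℂ, DifferentiableOn ℂ X U ∧ DifferentiableOn ℂ Y U ∧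
    (∀ q ∈ U, Y q ^ 2 = (X q - e₁) * (X q - e₂) * (X q - e₃)) ∧
    ∀ c ∈ U, ∀ᶠ q in 𝓝[≠] c, Y q ≠ 0 ∧ deriv X q * y q = deriv x q * Y q

def S_A6a : Prop := ∀ (e₁ e₂ e₃ : ℂ) (U : Set ℂ) (x y : ℂ → ℂ), IsOpen U →
  MerPt e₁ e₂ e₃ U x y → OmitInf U x → HolPt e₁ e₂ e₃ U x y

def S_A6b : Prop := ∀ (e₁ e₂ e₃ : ℂ) (U : Set ℂ) (x y : ℂ → ℂ) (s t : ℂ),
  e₁ ≠ e₂ → e₁ ≠ e₃ → e₂ ≠ e₃ → IsOpen U → MerPt e₁ e₂ e₃ U x y →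
  t ^ 2 = (s - e₁) * (s - e₂) * (s - e₃) → OmitFin U x y s t → HolPt e₁ e₂ e₃ U x y

def S_A7a : Prop := ∀ (e₁ e₂ e₃ : ℂ) (U : Set ℂ) (X Y : ℂ → ℂ), IsOpen U →
  1 ≤ ‖(e₁ - e₂) * (e₁ - e₃) * (e₂ - e₃)‖ → DifferentiableOn ℂ X U → DifferentiableOn ℂ Y U →
  (∀ q ∈ U, Y q ^ 2 = (X q - e₁) * (X q - e₂) * (X q - e₃)) →
  (∀ c ∈ U, ∀ᶠ q in 𝓝[≠] c, Y q ≠ 0) →
  ∃ γ : ℂ → ℂ, DifferentiableOn ℂ γ U ∧ (∀ q ∈ U, γ q * Y q = deriv X q) ∧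
    ∀ (c : ℂ) (r : ℝ), 0 < r → ball c r ⊆ U → (‖γ c‖ * r) ^ 4 * ‖e₁ - e₂‖ ≤ 10 ^ 17

def S_A7b : Prop := ∀ (γ n d : ℂ → ℂ) (m : ℕ) (K : ℝ),
  DifferentiableOn ℂ γ (ball 0 1 \ {0}) → DifferentiableOn ℂ n (ball 0 1) →
  DifferentiableOn ℂ d (ball 0 1) → d 0 ≠ 0 →
  (∀ q ∈ ball (0 : ℂ) 1 \ {0}, γ q * d q = q ^ m * n q) →
  (∀ (c : ℂ) (r : ℝ), 0 < r → ball c r ⊆ ball 0 1 \ {0} → ‖γ c‖ * r ≤ K) →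
  ‖n 0‖ ≤ 3 * K * (m + 1) * ‖d 0‖

def S_A7 : Prop := ∀ (e₁ e₂ e₃ : ℂ) (a b e n d u : ℂ → ℂ) (A B C : ℂ[X]) (k m : ℕ),
  1 ≤ ‖(e₁ - e₂) * (e₁ - e₃) * (e₂ - e₃)‖ → C ≠ 0 →
  DifferentiableOn ℂ a (ball 0 1) → DifferentiableOn ℂ b (ball 0 1) →
  DifferentiableOn ℂ e (ball 0 1) → DifferentiableOn ℂ n (ball 0 1) →
  DifferentiableOn ℂ d (ball 0 1) → ContinuousOn u (ball 0 1 \ {0}) →
  (∀ q ∈ ball (0 : ℂ) 1,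
    b q ^ 2 * e q = (a q - e₁ * e q) * (a q - e₂ * e q) * (a q - e₃ * e q)) →
  (∀ q ∈ ball (0 : ℂ) 1 \ {0}, e q ≠ 0 →
    u q * C.eval (a q / e q) = A.eval (a q / e q) + B.eval (a q / e q) * (b q / e q)) →
  (∃ c ∈ ball (0 : ℂ) 1 \ {0}, ∃ c' ∈ ball (0 : ℂ) 1 \ {0}, u c ≠ u c') →
  (∀ q ∈ ball (0 : ℂ) 1, deriv a q * e q - a q * deriv e q = q ^ (k + m) * n q) →
  (∀ q ∈ ball (0 : ℂ) 1, e q * b q = q ^ k * d q) → d 0 ≠ 0 → (m + 1) * ‖d 0‖ ≤ ‖n 0‖ →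
  ‖e₁ - e₂‖ ≤ 10 ^ 19

/-! ## Part T: formal series and functions on the unit disc -/

/-- the series `a` converges to `φ` on the unit disc -/
def Conv (a : ℂ⟦X⟧) (φ : ℂ → ℂ) : Prop :=
  ∀ q ∈ ball (0 : ℂ) 1, HasSum (fun n : ℕ => PowerSeries.coeff n a * q ^ n) (φ q)

structure S_T1 : Prop where
  diff : ∀ a φ, Conv a φ → DifferentiableOn ℂ φ (ball 0 1)
  der : ∀ a φ, Conv a φ → Conv (PowerSeries.derivative ℂ a) (deriv φ)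
  zero : ∀ a φ, Conv a φ → φ 0 = PowerSeries.coeff 0 a
  add : ∀ a b φ ψ, Conv a φ → Conv b ψ → Conv (a + b) fun q => φ q + ψ q
  mul : ∀ a b φ ψ, Conv a φ → Conv b ψ → Conv (a * b) fun q => φ q * ψ q
  const : ∀ c : ℂ, Conv (PowerSeries.C c) fun _ => c
  var : Conv PowerSeries.X fun q => q
  inj : ∀ a φ, Conv a φ → (∀ q ∈ ball (0 : ℂ) 1, q ≠ 0 → φ q = 0) → a = 0
  div : ∀ a φ (k : ℕ), Conv (PowerSeries.X ^ k * a) φ → ∃ ψ, Conv a ψ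

abbrev L : Type := LaurentSeries ℚ

/-- not an instance on purpose: use it with `haveI` inside proofs only -/
theorem charZeroL : CharZero L := algebraRat.charZero L

theorem algMapL (c : ℚ) : algebraMap ℚ L c = (c : L) := eq_ratCast _ c

/-- rational series to complex series -/
def cx (a : ℚ⟦X⟧) : ℂ⟦X⟧ := PowerSeries.map (algebraMap ℚ ℂ) a

/-- rational power series to Laurent series -/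
def iq : ℚ⟦X⟧ →+* L := HahnSeries.ofPowerSeries ℤ ℚ

/-- integral power series to Laurent series -/
def io : ℤ⟦X⟧ →+* L := iq.comp (PowerSeries.map (Int.castRingHom ℚ))

/-- convergent on the unit disc -/
def Cv (a : ℚ⟦X⟧) : Prop := ∃ φ, Conv (cx a) φ

/-- quotient of two convergent series -/
def FrC (k : L) : Prop := ∃ a e : ℚ⟦X⟧, Cv a ∧ Cv e ∧ e ≠ 0 ∧ k * iq e = iq a

/-- quotient of two integral series -/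
def FrZ (k : L) : Prop := ∃ a e : ℤ⟦X⟧, e ≠ 0 ∧ k * io e = io a

/-- the nome -/
def nome (z : ℍ) : ℂ := Complex.exp (2 * π * Complex.I * z)

def S_T2 : Prop := ∀ (M : ℕ) (u : ℍ → ℂ) (F : L), Reg M u F →
  ∃ (k : ℕ) (w : ℚ⟦X⟧) (φ : ℂ → ℂ), Conv (cx w) φ ∧ F * iq (PowerSeries.X ^ k) = iq w ∧
    ∀ z : ℍ, u z * nome z ^ k = φ (nome z)

def S_T3 : Prop := ∀ F G k : L, k ∈ IntermediateField.adjoin ℚ {F, G} →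
  (FrC F → FrC G → FrC k) ∧ (FrZ F → FrZ G → FrZ k)

/-- the formal form of the analytic bound -/
def S_TA : Prop := ∀ (e₁ e₂ e₃ : ℂ) (a₂ a₄ a₆ : ℤ) (x y F : L) (a b e w g : ℚ⟦X⟧)
  (A B C : ℚ[X]) (k m : ℕ),
  (∀ t : ℂ, t ^ 3 + a₂ * t ^ 2 + a₄ * t + a₆ = (t - e₁) * (t - e₂) * (t - e₃)) →
  1 ≤ ‖(e₁ - e₂) * (e₁ - e₃) * (e₂ - e₃)‖ →
  Cv a → Cv b → Cv e → Cv w → e ≠ 0 → x * iq e = iq a → y * iq e = iq b →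
  F * iq (PowerSeries.X ^ k) = iq w → y ≠ 0 → y ^ 2 = x ^ 3 + a₂ * x ^ 2 + a₄ * x + a₆ →
  C ≠ 0 → F * aeval x C = aeval x A + aeval x B * y → (∀ c : ℚ, F ≠ algebraMap ℚ L c) →
  g * (e * b) = PowerSeries.derivative ℚ a * e - a * PowerSeries.derivative ℚ e →
  (∀ i < m, PowerSeries.coeff i g = 0) → (m + 1 : ℚ) ≤ |PowerSeries.coeff m g| →
  ‖e₁ - e₂‖ ≤ 10 ^ 19

/-! ## Part E: the curve -/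

/-- discriminant of the cubic -/
def disc (a₂ a₄ a₆ : ℤ) : ℤ :=
  a₂ ^ 2 * a₄ ^ 2 - 4 * a₄ ^ 3 - 4 * a₂ ^ 3 * a₆ + 18 * a₂ * a₄ * a₆ - 27 * a₆ ^ 2

/-- minimality among integral models `y ^ 2 = monic cubic` -/
def MinModel (a₂ a₄ a₆ : ℤ) : Prop := ∀ (u c : ℚ) (b₂ b₄ b₆ : ℤ), u ≠ 0 →
  u ^ 2 * (a₂ + 3 * c) = b₂ → u ^ 4 * (a₄ + 2 * a₂ * c + 3 * c ^ 2) = b₄ →
  u ^ 6 * (c ^ 3 + a₂ * c ^ 2 + a₄ * c + a₆) = b₆ → 1 ≤ |u|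

def S_E1 : Prop := ∀ (E : WeierstrassCurve ℚ) [E.IsElliptic],
  ∃ (C : WeierstrassCurve.VariableChange ℚ) (a₂ a₄ a₆ : ℤ), |a₂| ≤ 1 ∧
    C • E = ⟨0, a₂, 0, a₄, a₆⟩ ∧ disc a₂ a₄ a₆ ≠ 0 ∧ MinModel a₂ a₄ a₆

def S_E2 : Prop := ∀ (E : WeierstrassCurve ℚ) (C : WeierstrassCurve.VariableChange ℚ)
  (a₂ a₄ a₆ : ℤ) (K : IntermediateField ℚ L), C • E = ⟨0, a₂, 0, a₄, a₆⟩ →
  Nonempty (K ≃ₐ[ℚ] E.toAffine.FunctionField) →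
  ∃ x ∈ K, ∃ y ∈ K, y ^ 2 = x ^ 3 + a₂ * x ^ 2 + a₄ * x + a₆ ∧
    (∀ P : ℚ[X], P ≠ 0 → aeval x P ≠ 0) ∧
    ∀ k ∈ K, ∃ A B D : ℚ[X], D ≠ 0 ∧ k * aeval x D = aeval x A + aeval x B * y

def S_E3 : Prop := ∀ a₂ a₄ a₆ : ℤ, |a₂| ≤ 1 → disc a₂ a₄ a₆ ≠ 0 →
  (∀ e₁ e₂ e₃ : ℂ,
    (∀ t : ℂ, t ^ 3 + a₂ * t ^ 2 + a₄ * t + a₆ = (t - e₁) * (t - e₂) * (t - e₃)) →
    1 ≤ ‖(e₁ - e₂) * (e₁ - e₃) * (e₂ - e₃)‖ → ‖e₁ - e₂‖ ≤ 10 ^ 19) →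
  |a₄| ≤ 10 ^ 40 ∧ |a₆| ≤ 10 ^ 60

/-! ## Part P: integrality -/

/-- Hasse derivative of a power series -/
def Hs {R : Type} [CommRing R] (n : ℕ) (a : R⟦X⟧) : R⟦X⟧ :=
  PowerSeries.mk fun k => ((k + n).choose n : R) * PowerSeries.coeff (k + n) a

/-- the Taylor shift `k(q) ↦ k(q + T)` -/
structure Shift where
  tau : L →+* L⟦X⟧
  c0 : ∀ k, PowerSeries.coeff 0 (tau k) = k
  der : ∀ k, PowerSeries.derivative L (tau k) = tau (PowerSeries.coeff 1 (tau k))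
  ps : ∀ (a : ℚ⟦X⟧) (n : ℕ), PowerSeries.coeff n (tau (iq a)) = iq (Hs n a)

/-- the derivative `d/dq` -/
def Shift.D (S : Shift) (k : L) : L := PowerSeries.coeff 1 (S.tau k)

def S_P0 : Prop := Nonempty Shift

/-- `D` is a derivation killing the rationals -/
structure IsDer {Λ : Type} [Field Λ] (D : Λ → Λ) : Prop where
  add : ∀ a b, D (a + b) = D a + D b
  mul : ∀ a b, D (a * b) = a * D b + D a * b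
  rat : ∀ c : ℚ, D (c : Λ) = 0

structure S_P0b (S : Shift) : Prop where
  isDer : IsDer S.D
  rat : ∀ c : ℚ, S.tau (c : L) = PowerSeries.C (c : L)
  ps : ∀ a : ℚ⟦X⟧, S.D (iq a) = iq (PowerSeries.derivative ℚ a)
  zs : ∀ a : ℤ⟦X⟧, S.D (io a) = io (PowerSeries.derivative ℤ a)
  zh : ∀ (a : ℤ⟦X⟧) (n : ℕ), PowerSeries.coeff n (S.tau (io a)) = io (Hs n a)
  ker : ∀ k : L, S.D k = 0 → ∃ c : ℚ, k = algebraMap ℚ L c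

def S_P1 : Prop := ∀ (D : L → L) (a₂ a₄ a₆ : ℤ) (x y : L), IsDer D →
  (∀ a : ℤ⟦X⟧, D (io a) = io (PowerSeries.derivative ℤ a)) → FrZ x → FrZ y → y ≠ 0 →
  y ^ 2 = x ^ 3 + a₂ * x ^ 2 + a₄ * x + a₆ →
  ∃ g : ℤ⟦X⟧, io g * y = disc a₂ a₄ a₆ * D x

/-- the differential equation of `1 / x` on the curve -/
def Ode {R : Type} [CommRing R] (a₂ a₄ a₆ : ℤ) (G ν ν₁ : R⟦X⟧) : Prop :=
  PowerSeries.coeff 0 ν = 0 ∧ PowerSeries.coeff 0 ν₁ = 0 ∧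
    PowerSeries.derivative R ν = G * ν₁ ∧
    2 * PowerSeries.derivative R ν₁ = G * (1 + 2 * a₂ * ν + 3 * a₄ * ν ^ 2 + 4 * a₆ * ν ^ 3)

def S_P2 : Prop := ∀ (Λ : Type) [Field Λ] [CharZero Λ] (a₂ a₄ a₆ : ℤ) (x₂ y₂ : Λ)
  (x₁ y₁ G μ ν : Λ⟦X⟧), PowerSeries.coeff 0 x₁ = x₂ → PowerSeries.coeff 0 y₁ = y₂ → y₂ ≠ 0 →
  y₁ ^ 2 = x₁ ^ 3 + a₂ * x₁ ^ 2 + a₄ * x₁ + a₆ → y₂ ^ 2 = x₂ ^ 3 + a₂ * x₂ ^ 2 + a₄ * x₂ + a₆ →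
  PowerSeries.derivative Λ x₁ = G * y₁ → x₁ ≠ PowerSeries.C x₂ →
  μ * (y₁ + PowerSeries.C y₂) = x₁ - PowerSeries.C x₂ →
  ν * (1 - (a₂ + x₁ + PowerSeries.C x₂) * μ ^ 2) = μ ^ 2 → ∃ ν₁, Ode a₂ a₄ a₆ G ν ν₁

def S_P3a : Prop := ∀ (Λ : Type) [Field Λ] [CharZero Λ] (B : Subring Λ) (a₂ a₄ a₆ : ℤ)
  (G ν ν₁ : Λ⟦X⟧), (∀ c : ℚ, (c : Λ) ∈ B) → (∀ n, PowerSeries.coeff n G ∈ B) →
  Ode a₂ a₄ a₆ G ν ν₁ → ∀ n, PowerSeries.coeff n ν ∈ B ∧ PowerSeries.coeff n ν₁ ∈ B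

def S_P3b : Prop := ∀ (a₂ a₄ a₆ : ℤ) (g ν ν₁ ν' : ℚ⟦X⟧) (u c : ℚ) (m : ℕ),
  Ode a₂ a₄ a₆ g ν ν₁ → (∀ i < m, PowerSeries.coeff i g = 0) → u ≠ 0 →
  ν' * PowerSeries.C (u ^ 2) * (1 - PowerSeries.C c * ν) = ν →
  PowerSeries.coeff (2 * (m + 1)) ν' = (PowerSeries.coeff m g / (2 * (m + 1) * u)) ^ 2

/-- the localisation of the integral series at the prime `p` -/
def Op (p : ℕ) [Fact p.Prime] : Subring L where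
  carrier := {k | ∃ a e : ℤ⟦X⟧, PowerSeries.map (Int.castRingHom (ZMod p)) e ≠ 0 ∧
    k * io e = io a}
  one_mem' := ⟨1, 1, by simp, by simp⟩
  zero_mem' := ⟨0, 1, by simp, by simp⟩
  mul_mem' := by
    rintro k k' ⟨a, e, he, h⟩ ⟨a', e', he', h'⟩
    refine ⟨a * a', e * e', by rw [map_mul]; exact mul_ne_zero he he', ?_⟩
    rw [map_mul, map_mul, ← h, ← h']; ring
  add_mem' := by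
    rintro k k' ⟨a, e, he, h⟩ ⟨a', e', he', h'⟩
    refine ⟨a * e' + a' * e, e * e', by rw [map_mul]; exact mul_ne_zero he he', ?_⟩
    rw [map_add, map_mul, map_mul, map_mul, ← h, ← h']; ring
  neg_mem' := by
    rintro k ⟨a, e, he, h⟩
    exact ⟨-a, e, he, by rw [map_neg, ← h]; ring⟩

/-- a discrete valuation ring with uniformiser `p` whose residue field has no new constants -/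
structure IsLoc {Λ : Type} [Field Λ] (p : ℕ) (O : Subring Λ) : Prop where
  dvr : ∀ k ∈ O, (∃ k' ∈ O, k * k' = 1) ∨ ∃ k' ∈ O, k = p * k'
  nu : ∀ k ∈ O, (p : Λ) * k ≠ 1
  sep : ∀ k : Λ, (∀ n : ℕ, ∃ k' ∈ O, k = p ^ n * k') → k = 0
  alg : ∀ ξ ∈ O, ∀ P : ℤ[X], (∃ i, ¬ (p : ℤ) ∣ P.coeff i) → (∃ k ∈ O, aeval ξ P = p * k) →
    ∃ c : ℤ, ∃ k ∈ O, ξ = c + p * k

structure S_P4a (p : ℕ) [Fact p.Prime] : Prop where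
  dvr : ∀ k ∈ Op p, (∃ k' ∈ Op p, k * k' = 1) ∨ ∃ k' ∈ Op p, k = p * k'
  nu : ∀ k ∈ Op p, (p : L) * k ≠ 1
  sep : ∀ k : L, (∀ n : ℕ, ∃ k' ∈ Op p, k = p ^ n * k') → k = 0
  den : ∀ k : L, FrZ k → ∃ n : ℕ, (p : L) ^ n * k ∈ Op p
  cap : ∀ (g : ℤ⟦X⟧) (n : ℤ) (k : L), n ≠ 0 → k ∈ Op p → k * n = io g →
    ∃ r s : ℤ, ¬ (p : ℤ) ∣ s ∧ PowerSeries.coeff 0 g * s = r * n

def S_P4b : Prop := ∀ (p : ℕ) [Fact p.Prime] (τ : L →+* L⟦X⟧),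
  (∀ k, PowerSeries.coeff 0 (τ k) = k) →
  (∀ (a : ℤ⟦X⟧) (n : ℕ), PowerSeries.coeff n (τ (io a)) = io (Hs n a)) →
  ∀ k ∈ Op p, ∀ n, PowerSeries.coeff n (τ k) ∈ Op p

def S_P4c : Prop := ∀ (p : ℕ) [Fact p.Prime], ∀ ξ ∈ Op p, ∀ P : ℤ[X],
  (∃ i, ¬ (p : ℤ) ∣ P.coeff i) → (∃ k ∈ Op p, aeval ξ P = p * k) →
  ∃ c : ℤ, ∃ k ∈ Op p, ξ = c + p * k

/-- the denominator is a power of `p` -/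
def PD (p : ℕ) (c : ℚ) : Prop := ∃ (n : ℕ) (z : ℤ), c * p ^ n = z

/-- best approximation of a point by constants -/
def Best {Λ : Type} [Field Λ] (p : ℕ) (O : Subring Λ) (x y : Λ) : Prop :=
  ∃ (r k : ℤ) (c s t : ℚ) (ξ η : Λ), PD p c ∧ PD p s ∧ PD p t ∧ ξ ∈ O ∧ η ∈ O ∧
    x = c + (p : Λ) ^ r * ξ ∧ y = t + s * ξ + (p : Λ) ^ k * η ∧
    ∀ α β γ : ℤ, (∃ κ ∈ O, α + β * ξ + γ * η = p * κ) →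
      (p : ℤ) ∣ α ∧ (p : ℤ) ∣ β ∧ (p : ℤ) ∣ γ

def S_P5a : Prop := ∀ (Λ : Type) [Field Λ] [CharZero Λ] (p : ℕ) (O : Subring Λ) (D : Λ → Λ)
  (a₂ a₄ a₆ : ℤ) (x y : Λ), p.Prime → IsLoc p O → IsDer D → (∀ k ∈ O, D k ∈ O) →
  (∃ n : ℕ, (p : Λ) ^ n * x ∈ O) → (∃ n : ℕ, (p : Λ) ^ n * y ∈ O) → D x ≠ 0 →
  y ^ 2 = x ^ 3 + a₂ * x ^ 2 + a₄ * x + a₆ → Best p O x y

/-- a plane cubic model with integer coefficients on which the point is smooth -/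
structure Smooth {Λ : Type} [Field Λ] (O : Subring Λ) (a₂ a₄ a₆ : ℤ) (x y : Λ)
    (u c : ℚ) (A B₀ B₁ C₀ C₁ C₂ C₃ : ℤ) (ξ η : Λ) : Prop where
  hξ : ξ ∈ O
  hη : η ∈ O
  hA : A ≠ 0
  hC : C₃ ≠ 0
  hx : A * C₃ * ξ = (u : Λ) ^ 2 * (x - c)
  hy : 2 * A ^ 2 * C₃ * η = 2 * (u : Λ) ^ 3 * y - (B₁ * (A * C₃ * ξ) + B₀ * A * C₃)
  eqn : A * η ^ 2 + η * (B₀ + B₁ * ξ) = C₀ + C₁ * ξ + C₂ * ξ ^ 2 + C₃ * ξ ^ 3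
  unit : (∃ k ∈ O, k * (2 * A * η + B₀ + B₁ * ξ) = 1) ∨
    ∃ k ∈ O, k * (C₁ + 2 * C₂ * ξ + 3 * C₃ * ξ ^ 2 - B₁ * η) = 1
  h₂ : (2 * u) ^ 2 * (a₂ + 3 * c) = (4 * A * C₂ + B₁ ^ 2 : ℤ)
  h₄ : (2 * u) ^ 4 * (a₄ + 2 * a₂ * c + 3 * c ^ 2) =
    (16 * A ^ 2 * C₃ * C₁ + 8 * B₁ * B₀ * A * C₃ : ℤ)
  h₆ : (2 * u) ^ 6 * (c ^ 3 + a₂ * c ^ 2 + a₄ * c + a₆) =
    (64 * A ^ 3 * C₃ ^ 2 * C₀ + 16 * (B₀ * A * C₃) ^ 2 : ℤ)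

def S_P5b : Prop := ∀ (Λ : Type) [Field Λ] [CharZero Λ] (p : ℕ) (O : Subring Λ)
  (a₂ a₄ a₆ : ℤ) (x y : Λ), p.Prime → IsLoc p O →
  y ^ 2 = x ^ 3 + a₂ * x ^ 2 + a₄ * x + a₆ → Best p O x y →
  ∃ (n : ℤ) (c : ℚ) (A B₀ B₁ C₀ C₁ C₂ C₃ : ℤ) (ξ η : Λ),
    Smooth O a₂ a₄ a₆ x y ((p : ℚ) ^ n) c A B₀ B₁ C₀ C₁ C₂ C₃ ξ η

def S_P6 : Prop := ∀ (Λ : Type) [Field Λ] [CharZero Λ] (O : Subring Λ) (τ : Λ →+* Λ⟦X⟧)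
  (a₂ a₄ a₆ : ℤ) (x y : Λ) (u c : ℚ) (A B₀ B₁ C₀ C₁ C₂ C₃ : ℤ) (ξ η : Λ) (μ ν : Λ⟦X⟧),
  (∀ k, PowerSeries.coeff 0 (τ k) = k) → (∀ r : ℚ, τ (r : Λ) = PowerSeries.C (r : Λ)) →
  (∀ k ∈ O, ∀ n, PowerSeries.coeff n (τ k) ∈ O) → u ≠ 0 → y ≠ 0 →
  Smooth O a₂ a₄ a₆ x y u c A B₀ B₁ C₀ C₁ C₂ C₃ ξ η →
  μ * (τ y + PowerSeries.C y) = τ x - PowerSeries.C x →
  ν * (1 - (a₂ + τ x + PowerSeries.C x) * μ ^ 2) = μ ^ 2 →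
  ∃ ν' : Λ⟦X⟧, (∀ n, PowerSeries.coeff n ν' ∈ O) ∧
    ν' * PowerSeries.C ((u : Λ) ^ 2) * (1 - PowerSeries.C (c : Λ) * ν) = ν

/-- the integrality theorem -/
def S_P7 : Prop := ∀ (a₂ a₄ a₆ : ℤ) (x y : L), disc a₂ a₄ a₆ ≠ 0 → MinModel a₂ a₄ a₆ →
  FrZ x → FrZ y → y ≠ 0 → (∀ c : ℚ, x ≠ algebraMap ℚ L c) →
  y ^ 2 = x ^ 3 + a₂ * x ^ 2 + a₄ * x + a₆ →
  ∃ (g : ℚ⟦X⟧) (m : ℕ), (∀ i < m, PowerSeries.coeff i g = 0) ∧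
    (m + 1 : ℚ) ≤ |PowerSeries.coeff m g| ∧
    ∀ a b e : ℚ⟦X⟧, x * iq e = iq a → y * iq e = iq b →
      g * (e * b) = PowerSeries.derivative ℚ a * e - a * PowerSeries.derivative ℚ e

/-! ## Part M: q-expansions lie in the fraction field of the integral series -/

/-- the modular invariant -/
def jj (z : ℍ) : ℂ := ModularForm.E₄ z ^ 3 / ModularForm.discriminant z

/-- holomorphic, and meromorphic at all cusps -/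
def Mer (φ : ℍ → ℂ) : Prop := MDifferentiable 𝓘(ℂ) 𝓘(ℂ) φ ∧ ∀ γ : SL(2, ℤ), ∃ κ : ℝ,
  (fun z => φ (γ • z)) =O[atImInfty] fun z => Real.exp (κ * z.im)

/-- Eisenstein series of weight twelve over a fibre of a linear form modulo `M` -/
def Eis (M : ℕ) (l₀ l₁ : ZMod M) (z : ℍ) : ℂ :=
  ∑' v : Fin 2 → ℤ,
    if l₀ * (v 0 : ZMod M) + l₁ * (v 1 : ZMod M) = 1 then EisensteinSeries.eisSummand 12 v z else 0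

def S_M1 : Prop := ∀ φ : ℍ → ℂ, Mer φ → (∀ (γ : SL(2, ℤ)) (z : ℍ), φ (γ • z) = φ z) →
  ∃ P : ℂ[X], ∀ z, φ z = P.eval (jj z)

def S_M2 : Prop := ∀ (t u : ℍ → ℂ) (Γ : Subgroup SL(2, ℤ)), Γ.FiniteIndex → Mer t → Mer u →
  (∀ γ ∈ Γ, ∀ z, t (γ • z) = t z) →
  (∀ γ : SL(2, ℤ), (∀ z, t (γ • z) = t z) → ∀ z, u (γ • z) = u z) →
  ∃ (n : ℕ) (A B : ℕ → ℂ[X]),
    (∀ z, u z * ∑ i ∈ Finset.range n, (B i).eval (jj z) * t z ^ i =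
      ∑ i ∈ Finset.range n, (A i).eval (jj z) * t z ^ i) ∧
    ∃ z, ∑ i ∈ Finset.range n, (B i).eval (jj z) * t z ^ i ≠ 0

/-- integral `q`-expansion -/
def ZExp (a : ℤ⟦X⟧) (φ : ℍ → ℂ) : Prop :=
  ∀ z : ℍ, HasSum (fun n : ℕ => ((PowerSeries.coeff n a : ℤ) : ℂ) * nome z ^ n) (φ z)

def S_M3a : Prop := ∀ M : ℕ, 5 ≤ M →
  ∃ (κ : ℂ) (a : ℤ⟦X⟧), κ ≠ 0 ∧ ZExp a fun z => κ * Eis M 1 0 z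

def S_M3b : Prop := ∀ (M : ℕ) (l₀ l₁ : ZMod M),
  MDifferentiable 𝓘(ℂ) 𝓘(ℂ) (Eis M l₀ l₁) ∧ IsBoundedAtImInfty (Eis M l₀ l₁)

def S_M3t : Prop := ∀ (M : ℕ) (l₀ l₁ : ZMod M) (γ : SL(2, ℤ)) (z : ℍ),
  Eis M l₀ l₁ (γ • z) = ((γ 1 0 : ℂ) * z + (γ 1 1 : ℂ)) ^ 12 *
    Eis M ((γ 1 1 : ZMod M) * l₀ - (γ 0 1 : ZMod M) * l₁)
      ((γ 0 0 : ZMod M) * l₁ - (γ 1 0 : ZMod M) * l₀) z

def S_M3c : Prop := ∀ (M : ℕ) (l₀ l₁ m₀ m₁ : ZMod M), 5 ≤ M →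
  (∀ z, Eis M l₀ l₁ z = Eis M m₀ m₁ z) → (m₁ = 1 ∨ m₁ = -1) → (l₁ = 1 ∨ l₁ = -1)

def S_M3d : Prop := ∀ (M : ℕ) (γ : SL(2, ℤ)), 5 ≤ M →
  (∀ z, Eis M (γ 1 1 : ZMod M) (-(γ 1 0 : ZMod M)) z = Eis M 1 0 z) →
  γ ∈ CongruenceSubgroup.Gamma1 M ∨ -γ ∈ CongruenceSubgroup.Gamma1 M

/-- the function `φ` is represented by the Laurent series `k` -/
def Rep (φ : ℍ → ℂ) (k : L) : Prop := ∃ (a e : ℚ⟦X⟧) (α ε : ℂ → ℂ), Conv (cx a) α ∧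
  Conv (cx e) ε ∧ k * iq e = iq a ∧ ∀ z : ℍ, ε (nome z) ≠ 0 ∧ φ z * ε (nome z) = α (nome z)

def S_M4 : Prop := ∀ (u j t : ℍ → ℂ) (F J T : L) (n : ℕ) (A B : ℕ → ℂ[X]),
  Rep u F → Rep j J → Rep t T → FrZ J → FrZ T →
  (∀ z, u z * ∑ i ∈ Finset.range n, (B i).eval (j z) * t z ^ i =
      ∑ i ∈ Finset.range n, (A i).eval (j z) * t z ^ i) →
  (∃ z, ∑ i ∈ Finset.range n, (B i).eval (j z) * t z ^ i ≠ 0) → FrZ F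

def S_M5 : Prop := (∃ a : ℤ⟦X⟧, ZExp a fun z => ModularForm.E₄ z) ∧
  (∃ a : ℤ⟦X⟧, ZExp a fun z => ModularForm.E₆ z)

def S_M5b : Prop := (∃ J, Rep jj J ∧ FrZ J) ∧ ∀ (a : ℤ⟦X⟧) (φ : ℍ → ℂ), ZExp a φ →
  ∃ T, Rep (fun z => φ z / ModularForm.discriminant z) T ∧ FrZ T

def S_M6 : Prop := ∀ (M : ℕ) (u : ℍ → ℂ) (F : L), 0 < M → Reg M u F → FrZ F

/-- the theorem -/
def S_Fin : Prop := ∀ (E : WeierstrassCurve ℚ) [E.IsElliptic] (M : ℕ), 0 < M → Param E M →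
  ∃ (C : WeierstrassCurve.VariableChange ℚ) (a b c : ℤ),
    |a| ≤ 1 ∧ |b| ≤ 10 ^ 40 ∧ |c| ≤ 10 ^ 60 ∧ C • E = ⟨0, a, 0, b, c⟩

end

end Pool.Agent.MP_b2c033_nt.H87
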