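import Pool.Agent.MP_b2c033_nt.H87.Spec

/-! `q`-expansions as power series on the unit disc, and fields of fractions of expansions. -/

namespace Pool.Agent.MP_b2c033_nt.H87

open Filter Metric
open UpperHalfPlane hiding I
open scoped Real PowerSeries LaurentSeries

noncomputable section

namespace T2x

theorem nome_ne (z : ℍ) : nome z ≠ 0 := Complex.exp_ne_zero _

theorem norm_nome (z : ℍ) : ‖nome z‖ < 1 := by
  unfold nome
  rw [Complex.norm_exp]
  have h : (2 * (π : ℂ) * Complex.I * (z : ℂ)).re = -(2 * π * z.im) := by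
    simp
  rw [h, Real.exp_lt_one_iff]
  have := z.im_pos
  have := Real.pi_pos
  have : 0 < 2 * π * z.im := by positivity
  linarith

theorem exists_nome {q : ℂ} (h0 : q ≠ 0) (h1 : ‖q‖ < 1) : ∃ z : ℍ, nome z = q := by
  have hpi : (2 * (π : ℂ) * Complex.I) ≠ 0 := Complex.two_pi_I_ne_zero
  have hq : 0 < ‖q‖ := norm_pos_iff.2 h0
  have him : 0 < (Complex.log q / (2 * (π : ℂ) * Complex.I)).im := by
    have e : Complex.log q / (2 * (π : ℂ) * Complex.I)
        = -(Complex.log q * Complex.I) / ((2 * π : ℝ) : ℂ) := by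
      have hp : (π : ℂ) ≠ 0 := by exact_mod_cast Real.pi_ne_zero
      push_cast
      field_simp
      rw [Complex.I_sq]; ring
    rw [e, Complex.div_ofReal_im]
    have hl : Real.log ‖q‖ < 0 := Real.log_neg hq h1
    have : (-(Complex.log q * Complex.I)).im = -Real.log ‖q‖ := by
      simp [Complex.log_re]
    rw [this]
    have := Real.pi_pos
    apply div_pos <;> linarith
  refine ⟨⟨_, him⟩, ?_⟩
  unfold nome
  show Complex.exp (2 * (π : ℂ) * Complex.I *
    (Complex.log q / (2 * (π : ℂ) * Complex.I))) = q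
  rw [mul_div_cancel₀ _ hpi, Complex.exp_log h0]

theorem coeff_zero_of_lt (F : L) {n : ℤ} (hn : n < -((-F.order).toNat : ℤ)) :
    F.coeff n = 0 := by
  apply HahnSeries.coeff_eq_zero_of_lt_order
  have : -F.order ≤ ((-F.order).toNat : ℤ) := Int.self_le_toNat _
  omega

theorem hasSum_shift (c : ℤ → ℂ) (k : ℕ) (hk : ∀ n : ℤ, n < -(k : ℤ) → c n = 0)
    {q s : ℂ} (h0 : q ≠ 0) (h : HasSum (fun n : ℤ => c n * q ^ n) s) :
    HasSum (fun n : ℕ => c ((n : ℤ) - k) * q ^ n) (s * q ^ k) := by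
  have hinj : Function.Injective (fun n : ℕ => (n : ℤ) - k) := by
    intro a b hab
    simp only at hab
    omega
  have h2 := (hinj.hasSum_iff (f := fun n : ℤ => c n * q ^ n) (a := s) ?_).2 h
  · have h3 := h2.mul_right (q ^ k)
    have e : (fun n : ℕ => c ((n : ℤ) - k) * q ^ n) =
        fun i : ℕ => ((fun n : ℤ => c n * q ^ n) ∘ fun n : ℕ => (n : ℤ) - k) i * q ^ k := by
      funext n
      simp only [Function.comp]
      rw [zpow_sub₀ h0, zpow_natCast, zpow_natCast]
      field_simp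
    rw [e]; exact h3
  · intro x hx
    have : x < -(k : ℤ) := by
      by_contra hc
      exact hx ⟨(x + k).toNat, by simp only; omega⟩
    simp [hk x this]

theorem mul_X_pow (F : L) (k : ℕ) (hk : ∀ n : ℤ, n < -(k : ℤ) → F.coeff n = 0) :
    F * iq (PowerSeries.X ^ k) = iq (PowerSeries.mk fun n => F.coeff ((n : ℤ) - k)) := by
  unfold iq
  rw [HahnSeries.ofPowerSeries_X_pow]
  ext n
  have e : n = (n - k) + k := by ring
  conv_lhs => rw [e]
  rw [HahnSeries.coeff_mul_single_add, mul_one]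
  rcases lt_or_ge n 0 with hn | hn
  · rw [hk _ (by omega)]
    have := PowerSeries.coeff_coe (PowerSeries.mk fun n : ℕ => F.coeff ((n : ℤ) - k)) n
    rw [if_pos hn] at this
    exact this.symm
  · obtain ⟨m, rfl⟩ := Int.eq_ofNat_of_zero_le hn
    rw [HahnSeries.ofPowerSeries_apply_coeff, PowerSeries.coeff_mk]

theorem iq_inj : Function.Injective iq := HahnSeries.ofPowerSeries_injective

theorem io_inj : Function.Injective io :=
  iq_inj.comp (PowerSeries.map_injective _ (RingHom.injective_int (Int.castRingHom ℚ)))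

/-- fractions of a subring form a subfield -/
theorem frac {R : Type} [CommRing R] [IsDomain R] (ι : R →+* L) (hι : Function.Injective ι)
    (S : Subring R) (hq : ∀ c : ℚ, ∃ a ∈ S, ∃ e ∈ S, e ≠ 0 ∧ algebraMap ℚ L c * ι e = ι a)
    (F G k : L) (hk : k ∈ IntermediateField.adjoin ℚ {F, G})
    (hF : ∃ a ∈ S, ∃ e ∈ S, e ≠ 0 ∧ F * ι e = ι a)
    (hG : ∃ a ∈ S, ∃ e ∈ S, e ≠ 0 ∧ G * ι e = ι a) :
    ∃ a ∈ S, ∃ e ∈ S, e ≠ 0 ∧ k * ι e = ι a := by
  induction hk using IntermediateField.adjoin_induction with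
  | mem x hx =>
    rcases hx with rfl | hx
    · exact hF
    · rw [Set.mem_singleton_iff.1 hx]; exact hG
  | algebraMap c => exact hq c
  | add x y _ _ hx hy =>
    obtain ⟨a, ha, e, he, h0, h⟩ := hx
    obtain ⟨a', ha', e', he', h0', h'⟩ := hy
    refine ⟨a * e' + a' * e, S.add_mem (S.mul_mem ha he') (S.mul_mem ha' he), e * e',
      S.mul_mem he he', mul_ne_zero h0 h0', ?_⟩
    rw [map_add, map_mul, map_mul, map_mul, ← h, ← h']; ring
  | inv x _ hx =>
    obtain ⟨a, ha, e, he, h0, h⟩ := hx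
    by_cases hx0 : x = 0
    · exact ⟨0, S.zero_mem, 1, S.one_mem, one_ne_zero, by simp [hx0]⟩
    · refine ⟨e, he, a, ha, ?_, ?_⟩
      · rintro rfl
        rw [map_zero, mul_eq_zero] at h
        rcases h with h | h
        · exact hx0 h
        · exact h0 (hι (by rw [h, map_zero]))
      · rw [← h, ← mul_assoc, inv_mul_cancel₀ hx0, one_mul]
  | mul x y _ _ hx hy =>
    obtain ⟨a, ha, e, he, h0, h⟩ := hx
    obtain ⟨a', ha', e', he', h0', h'⟩ := hy
    refine ⟨a * a', S.mul_mem ha ha', e * e', S.mul_mem he he', mul_ne_zero h0 h0', ?_⟩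
    rw [map_mul, map_mul, ← h, ← h']; ring

theorem cv_C (h : S_T1) (c : ℚ) : Cv (PowerSeries.C c) :=
  ⟨_, by unfold cx; rw [PowerSeries.map_C]; exact h.const _⟩

theorem cv_mul (h : S_T1) {a b : ℚ⟦X⟧} (ha : Cv a) (hb : Cv b) : Cv (a * b) := by
  obtain ⟨φ, hφ⟩ := ha
  obtain ⟨ψ, hψ⟩ := hb
  exact ⟨_, by unfold cx; rw [map_mul]; exact h.mul _ _ _ _ hφ hψ⟩

theorem cv_add (h : S_T1) {a b : ℚ⟦X⟧} (ha : Cv a) (hb : Cv b) : Cv (a + b) := by
  obtain ⟨φ, hφ⟩ := ha
  obtain ⟨ψ, hψ⟩ := hb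
  exact ⟨_, by unfold cx; rw [map_add]; exact h.add _ _ _ _ hφ hψ⟩

/-- the convergent series form a subring -/
def cvS (h : S_T1) : Subring ℚ⟦X⟧ where
  carrier := {a | Cv a}
  one_mem' := by have := cv_C h 1; rwa [map_one] at this
  zero_mem' := by have := cv_C h 0; rwa [map_zero] at this
  mul_mem' := cv_mul h
  add_mem' := cv_add h
  neg_mem' := by
    intro a ha
    have := cv_mul h (cv_C h (-1)) ha
    rwa [map_neg, map_one, neg_one_mul] at this

theorem iq_C (c : ℚ) : iq (PowerSeries.C c) = algebraMap ℚ L c :=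
  (eq_ratCast (iq.comp PowerSeries.C) c).trans (algMapL c).symm

end T2x

theorem t2 : S_T2 := by
  intro M u F hR
  set k := (-F.order).toNat with hk
  have hz : ∀ n : ℤ, n < -(k : ℤ) → F.coeff n = 0 := fun n hn => T2x.coeff_zero_of_lt F hn
  set w : ℚ⟦X⟧ := PowerSeries.mk fun n => F.coeff ((n : ℤ) - k) with hw
  have hc : ∀ n : ℕ, PowerSeries.coeff n (cx w) = (F.coeff ((n : ℤ) - k) : ℂ) := by
    intro n
    simp [cx, hw]
  have hs : ∀ z : ℍ, HasSum (fun n : ℕ => PowerSeries.coeff n (cx w) * nome z ^ n)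
      (u z * nome z ^ k) := by
    intro z
    simp only [hc]
    exact T2x.hasSum_shift (fun n => (F.coeff n : ℂ)) k (fun n hn => by simp [hz n hn])
      (T2x.nome_ne z) (hR.exp z)
  refine ⟨k, w, fun q => ∑' n : ℕ, PowerSeries.coeff n (cx w) * q ^ n, ?_,
    T2x.mul_X_pow F k hz, fun z => (hs z).tsum_eq.symm⟩
  intro q hq
  apply Summable.hasSum
  by_cases h0 : q = 0
  · subst h0
    exact (hasSum_single 0 (fun n hn => by simp [hn])).summable
  · obtain ⟨z, rfl⟩ := T2x.exists_nome h0 (by simpa using hq)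
    exact (hs z).summable

theorem t3 (h : S_T1) : S_T3 := by
  intro F G k hk
  constructor
  · rintro ⟨a, e, ha, he, h0, hF⟩ ⟨a', e', ha', he', h0', hG⟩
    obtain ⟨b, hb, d, hd, hd0, hh⟩ := T2x.frac iq T2x.iq_inj (T2x.cvS h)
      (fun c => ⟨PowerSeries.C c, T2x.cv_C h c, 1, (T2x.cvS h).one_mem, one_ne_zero, by
        rw [map_one, mul_one, T2x.iq_C]⟩) F G k hk ⟨a, ha, e, he, h0, hF⟩ ⟨a', ha', e', he', h0', hG⟩
    exact ⟨b, d, hb, hd, hd0, hh⟩
  · rintro ⟨a, e, h0, hF⟩ ⟨a', e', h0', hG⟩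
    obtain ⟨b, -, d, -, hd0, hh⟩ := T2x.frac io T2x.io_inj ⊤
      (fun c => ⟨(c.num : ℤ⟦X⟧), trivial, (c.den : ℤ⟦X⟧), trivial, by
        intro h1
        have h2 := congrArg (PowerSeries.constantCoeff (R := ℤ)) h1
        rw [map_natCast, map_zero] at h2
        exact c.den_nz (by exact_mod_cast h2), by
        rw [map_intCast, map_natCast, ← map_natCast (algebraMap ℚ L), ← map_mul,
          ← map_intCast (algebraMap ℚ L), Rat.mul_den_eq_num]⟩) F G k hk
      ⟨a, trivial, e, trivial, h0, hF⟩ ⟨a', trivial, e', trivial, h0', hG⟩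
    exact ⟨b, d, hd0, hh⟩

end

end Pool.Agent.MP_b2c033_nt.H87
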